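import Mathlib

/-!
# Topological sums of spaces of the form `C_k(Z)`
-/

set_option autoImplicit false

open Set TopologicalSpace Topology

open scoped BoundedContinuousFunction

namespace Pool.Agent.R812.CkSum

universe u v w

/-- the unit interval -/
abbrev J : Type := Set.Icc (0 : ℝ) 1

/-- a dense sequence of continuous functions on the unit interval -/
noncomputable def s : ℕ → C(J, ℝ) := denseSeq C(J, ℝ)

/-- the restrictions of the functions of the sequence -/
noncomputable def r (Z : Set J) (n : ℕ) : C(Z, ℝ) := (s n).restrict Z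

/-- the topologies on the index set -/
noncomputable def τ (Z : Set J) : TopologicalSpace ℕ := TopologicalSpace.induced (r Z) inferInstance

theorem exists_approx (g : C(J, ℝ)) {ε : ℝ} (hε : 0 < ε) : ∃ n, ∀ x, |s n x - g x| < ε := by
  obtain ⟨n, hn⟩ := (denseRange_denseSeq C(J, ℝ)).exists_dist_lt g hε
  refine ⟨n, fun x => ?_⟩
  have h1 := ContinuousMap.dist_apply_le_dist (f := g) (g := denseSeq C(J, ℝ) n) x
  rw [← Real.dist_eq, dist_comm]
  exact lt_of_le_of_lt h1 hn

/-- `Z` is determined by the topology `τ Z` -/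
theorem subset_of_eq {Z Z' : Set J} (h : τ Z = τ Z') : Z ⊆ Z' := by
  intro z hz
  by_contra hz'
  -- the evaluation at `z` is continuous for `τ Z`
  have h1 : @Continuous ℕ ℝ (τ Z) _ (fun n => s n z) := by
    have h2 : @Continuous ℕ C(Z, ℝ) (τ Z) _ (r Z) := continuous_induced_dom
    have h3 : Continuous fun f : C(Z, ℝ) => f ⟨z, hz⟩ := by fun_prop
    exact @Continuous.comp ℕ C(Z, ℝ) ℝ (τ Z) _ _ _ _ h3 h2
  rw [h] at h1
  obtain ⟨n₀, -⟩ := exists_approx 0 one_pos
  have h4 : ∀ᶠ n in @nhds ℕ (τ Z') n₀, |s n z - s n₀ z| < 1 := by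
    have h5 : Filter.Tendsto (fun n => s n z) (@nhds ℕ (τ Z') n₀) (nhds (s n₀ z)) :=
      @Continuous.tendsto ℕ ℝ (τ Z') _ _ h1 n₀
    have h6 := (Metric.tendsto_nhds.1 h5) 1 one_pos
    filter_upwards [h6] with n hn
    rwa [Real.dist_eq] at hn
  have h5 : @nhds ℕ (τ Z') n₀ = Filter.comap (r Z') (nhds (r Z' n₀)) := nhds_induced _ _
  rw [h5, Filter.eventually_comap,
    (nhds_basis_uniformity' (Metric.uniformity_basis_dist.compactConvergenceUniformity)).eventually_iff] at h4
  obtain ⟨⟨K, ε⟩, ⟨hK, hε⟩, h6⟩ := h4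
  dsimp only at hK hε h6
  -- a function which is near `s n₀` on `K` but not at `z`
  have hK' : IsClosed (Subtype.val '' K : Set J) := (hK.image continuous_subtype_val).isClosed
  have hzK : z ∉ (Subtype.val '' K : Set J) := by
    rintro ⟨k, -, hk⟩
    exact hz' (hk ▸ k.2)
  obtain ⟨b, hb0, hb1, -⟩ := exists_continuous_zero_one_of_isClosed hK' isClosed_singleton
    (disjoint_singleton_right.2 hzK)
  obtain ⟨n, hn⟩ := exists_approx (s n₀ + (3 : ℝ) • b) (lt_min hε one_pos)
  have h7 := h6 (x := r Z' n) (by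
    intro x hx
    have h8 := hn x.1
    have h9 : b x.1 = 0 := hb0 ⟨x, hx, rfl⟩
    rw [ContinuousMap.add_apply, ContinuousMap.smul_apply, h9, smul_zero, add_zero] at h8
    change dist (s n₀ x.1) (s n x.1) < ε
    rw [dist_comm, Real.dist_eq]
    exact lt_of_lt_of_le h8 (min_le_left _ _)) n rfl
  have h10 := hn z
  have h11 : b z = 1 := hb1 rfl
  rw [ContinuousMap.add_apply, ContinuousMap.smul_apply, h11, smul_eq_mul, mul_one] at h10
  have h12 := lt_of_lt_of_le h10 (min_le_right _ _)
  rw [abs_lt] at h7 h12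
  linarith [h7.2, h12.1]

theorem τ_injective : Function.Injective τ := fun _ _ h =>
  Subset.antisymm (subset_of_eq h) (subset_of_eq h.symm)

/-- the sum of the spaces `C_k(Z)` does not embed into a space `C_k(X, Y)` -/
theorem main (X : Type u) (Y : Type v) [TopologicalSpace X] [TopologicalSpace Y] [SeparableSpace X]
    [MetrizableSpace Y] (f : (Σ Z : Set J, C(Z, ℝ)) → C(X, Y)) (hf : IsEmbedding f) : False := by
  obtain ⟨D, hD, hDd⟩ := exists_countable_dense X
  have : Countable D := hD.to_subtype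
  -- the topologies `τ Z` are induced by maps into `C(X, ℕ →ᵇ ℝ)`
  have key : ∀ Z : Set J, ∃ G : ℕ → C(X, ℕ →ᵇ ℝ), τ Z = TopologicalSpace.induced G inferInstance := by
    intro Z
    let F : ℕ → C(X, Y) := fun n => f ⟨Z, r Z n⟩
    have hF : τ Z = TopologicalSpace.induced F inferInstance := by
      have h1 : IsInducing fun g : C(Z, ℝ) => f ⟨Z, g⟩ :=
        hf.isInducing.comp IsEmbedding.sigmaMk.isInducing
      have h2 : F = (fun g : C(Z, ℝ) => f ⟨Z, g⟩) ∘ r Z := rfl
      rw [h2, ← induced_compose, ← h1.eq_induced]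
      rfl
    let Y₀ : Set Y := closure (range fun p : ℕ × D => F p.1 p.2)
    have hY₀ : IsSeparable Y₀ := (countable_range _).isSeparable.closure
    have : SecondCountableTopology Y₀ := hY₀.secondCountableTopology
    obtain ⟨j, hj⟩ := exists_isInducing_l_infty Y₀
    have hmem : ∀ n x, F n x ∈ Y₀ := by
      intro n x
      have h1 : F n x ∈ closure (F n '' D) :=
        image_closure_subset_closure_image (F n).continuous ⟨x, hDd x, rfl⟩
      refine closure_mono ?_ h1
      rintro _ ⟨d, hd, rfl⟩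
      exact ⟨(n, ⟨d, hd⟩), rfl⟩
    let F' : ℕ → C(X, Y₀) := fun n => ⟨fun x => ⟨F n x, hmem n x⟩, (F n).continuous.subtype_mk _⟩
    let i : C(Y₀, Y) := ⟨Subtype.val, continuous_subtype_val⟩
    let j' : C(Y₀, ℕ →ᵇ ℝ) := ⟨j, hj.continuous⟩
    have h1 : IsInducing (i.comp : C(X, Y₀) → C(X, Y)) :=
      ContinuousMap.isInducing_postcomp i IsInducing.subtypeVal
    have h2 : IsInducing (j'.comp : C(X, Y₀) → C(X, ℕ →ᵇ ℝ)) :=
      ContinuousMap.isInducing_postcomp j' hj
    have h3 : F = (i.comp : C(X, Y₀) → C(X, Y)) ∘ F' := by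
      funext n
      ext x
      rfl
    refine ⟨(j'.comp : C(X, Y₀) → C(X, ℕ →ᵇ ℝ)) ∘ F', ?_⟩
    rw [hF, h3, ← induced_compose, ← induced_compose, ← h1.eq_induced, ← h2.eq_induced]
  choose G hG using key
  obtain ⟨e, he⟩ := exists_injective_nat D
  let H : Set J → (ℕ → ℕ → ℕ → ℝ) := fun Z n m l =>
    Function.extend e (fun d : D => G Z n d) (fun _ => 0) m l
  have hH : Function.Injective H := by
    intro Z Z' hZ
    apply τ_injective
    rw [hG, hG]
    congr 1
    funext n
    apply ContinuousMap.coe_injective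
    apply (G Z n).continuous.ext_on hDd (G Z' n).continuous
    intro d hd
    ext l
    have h1 := congrFun (congrFun (congrFun hZ n) (e ⟨d, hd⟩)) l
    have h2 : H Z n (e ⟨d, hd⟩) l = G Z n d l := by
      simp only [H, he.extend_apply]
    have h3 : H Z' n (e ⟨d, hd⟩) l = G Z' n d l := by
      simp only [H, he.extend_apply]
    rw [← h2, ← h3]
    exact h1
  have h1 := Cardinal.mk_le_of_injective hH
  rw [Cardinal.mk_set, show Cardinal.mk J = Cardinal.continuum from Cardinal.mk_Icc_real one_pos] at h1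
  have h2 : Cardinal.mk (ℕ → ℕ → ℕ → ℝ) = Cardinal.continuum := by
    simp [Cardinal.mk_real]
  rw [h2] at h1
  exact absurd h1 (not_le.2 (Cardinal.cantor _))

end Pool.Agent.R812.CkSum
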