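import Mathlib

/-!
# A Luzin almost disjoint family
-/

set_option autoImplicit false

open Set

namespace Pool.Agent.R812.Luzin

/-- a partition of `ℕ` into infinitely many infinite sets -/
def C (k : ℕ) : Set ℕ := {n | (Nat.unpair n).1 = k}

theorem infinite_C (k : ℕ) : (C k).Infinite := by
  have h : range (fun m => Nat.pair k m) ⊆ C k := by
    rintro _ ⟨m, rfl⟩
    simp [C]
  apply Set.Infinite.mono h
  apply infinite_range_of_injective
  intro a b hab
  have := Nat.pair_eq_pair.1 hab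
  exact this.2

theorem disjoint_C {j k : ℕ} (h : j ≠ k) : C j ∩ C k = ∅ := by
  ext n
  simp only [C, mem_inter_iff, mem_ofPred_eq, mem_empty_iff_false, iff_false]
  rintro ⟨h1, h2⟩
  exact h (h1.symm.trans h2)

/-- the diagonal lemma -/
theorem diag {ι : Type} [Countable ι] [Infinite ι] {B : ι → Set ℕ} (hB : ∀ i, (B i).Infinite)
    (hBB : ∀ i j, i ≠ j → (B i ∩ B j).Finite) :
    ∃ S : Set ℕ, S.Infinite ∧ (∀ i, (S ∩ B i).Finite) ∧ ∀ n : ℕ, {i | S ∩ B i ⊆ Iio n}.Finite := by
  obtain ⟨e⟩ : Nonempty (ℕ ≃ ι) := nonempty_equiv_of_countable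
  have hex : ∀ k : ℕ, ∃ x ∈ B (e k), k ≤ x ∧ ∀ j < k, x ∉ B (e j) := by
    intro k
    have h1 : (⋃ j ∈ Iio k, B (e k) ∩ B (e j)).Finite := by
      refine (finite_Iio k).biUnion fun j hj => hBB _ _ ?_
      intro h
      exact absurd (e.injective h) (ne_of_gt hj)
    have h2 : (B (e k) \ ((⋃ j ∈ Iio k, B (e k) ∩ B (e j)) ∪ Iio k)).Infinite :=
      (hB (e k)).sdiff (h1.union (finite_Iio k))
    obtain ⟨x, hx, hx'⟩ := h2.nonempty
    refine ⟨x, hx, ?_, ?_⟩
    · by_contra h
      exact hx' (Or.inr (not_le.1 h))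
    · intro j hj hxj
      exact hx' (Or.inl (mem_iUnion₂.2 ⟨j, hj, hx, hxj⟩))
  choose x hxB hxk hxj using hex
  refine ⟨range x, ?_, ?_, ?_⟩
  · intro hfin
    obtain ⟨M, hM⟩ := hfin.bddAbove
    have h1 : x (M + 1) ≤ M := hM (mem_range_self _)
    have h2 := hxk (M + 1)
    omega
  · intro i
    have h1 : range x ∩ B i ⊆ x '' Iic (e.symm i) := by
      rintro _ ⟨⟨k, rfl⟩, hk⟩
      refine ⟨k, ?_, rfl⟩
      by_contra h
      apply hxj k (e.symm i) (not_le.1 h)
      rw [e.apply_symm_apply]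
      exact hk
    exact ((finite_Iic _).image x).subset h1
  · intro n
    have h1 : {i | range x ∩ B i ⊆ Iio n} ⊆ e '' Iio n := by
      intro i hi
      refine ⟨e.symm i, ?_, e.apply_symm_apply i⟩
      have h2 : x (e.symm i) ∈ Iio n := by
        apply hi
        refine ⟨mem_range_self _, ?_⟩
        have := hxB (e.symm i)
        rwa [e.apply_symm_apply] at this
      exact lt_of_le_of_lt (hxk _) h2
    exact ((finite_Iio n).image e).subset h1

/-- a well ordered set of type `ω₁` -/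
abbrev W : Type := (Cardinal.aleph 1).ord.ToType

theorem countable_Iio (a : W) : (Iio a).Countable := by
  rw [← Cardinal.le_aleph0_iff_set_countable, ← Cardinal.lt_aleph_one_iff]
  exact Cardinal.mk_Iio_toType_ord_lt a

theorem uncountable_W : ¬ (univ : Set W).Countable := by
  rw [← Cardinal.le_aleph0_iff_set_countable, ← Cardinal.lt_aleph_one_iff, Cardinal.mk_univ, Cardinal.mk_ord_toType]
  exact lt_irrefl _

/-- the requirements on the set of index `α` -/
def P (α : W) (f : ∀ β : W, β < α → Set ℕ) (S : Set ℕ) : Prop :=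
  S.Infinite ∧ (∀ k, (S ∩ C k).Finite) ∧ (∀ (β : W) (hβ : β < α), (S ∩ f β hβ).Finite) ∧
    ∀ n : ℕ, {β : Iio α | S ∩ f β.1 β.2 ⊆ Iio n}.Finite

open Classical in
/-- the Luzin family -/
noncomputable def A : W → Set ℕ :=
  (wellFounded_lt (α := W)).fix fun α f => if h : ∃ S, P α f S then h.choose else ∅

open Classical in
theorem A_eq (α : W) : A α = if h : ∃ S, P α (fun β _ => A β) S then h.choose else ∅ := by
  unfold A
  rw [WellFounded.fix_eq]

theorem A_spec (α : W) : P α (fun β _ => A β) (A α) := by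
  classical
  induction α using WellFoundedLT.induction with
  | ind α ih =>
    have hex : ∃ S, P α (fun β _ => A β) S := by
      have hc : Countable (Iio α) := (countable_Iio α).to_subtype
      let B : ℕ ⊕ Iio α → Set ℕ := Sum.elim C fun β => A β.1
      obtain ⟨S, hS, hSB, hSn⟩ := diag (B := B) (by
        rintro (k | β)
        · exact infinite_C k
        · exact (ih β.1 β.2).1) (by
        rintro (j | β) (k | γ) hne
        · have : j ≠ k := fun h => hne (h ▸ rfl)
          change (C j ∩ C k).Finite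
          rw [disjoint_C this]
          exact finite_empty
        · change (C j ∩ A γ.1).Finite
          rw [inter_comm]
          exact (ih γ.1 γ.2).2.1 j
        · exact (ih β.1 β.2).2.1 k
        · change (A β.1 ∩ A γ.1).Finite
          rcases lt_trichotomy β.1 γ.1 with h | h | h
          · rw [inter_comm]
            exact (ih γ.1 γ.2).2.2.1 β.1 h
          · exact absurd (Subtype.ext h) (fun h' => hne (h' ▸ rfl))
          · exact (ih β.1 β.2).2.2.1 γ.1 h)
      refine ⟨S, hS, fun k => hSB (Sum.inl k), fun β hβ => hSB (Sum.inr ⟨β, hβ⟩), fun n => ?_⟩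
      exact (hSn n).preimage (f := Sum.inr) Sum.inr_injective.injOn
    rw [A_eq, dif_pos hex]
    exact hex.choose_spec

theorem A_infinite (α : W) : (A α).Infinite := (A_spec α).1

theorem A_ad {α β : W} (h : α ≠ β) : (A α ∩ A β).Finite := by
  rcases lt_or_gt_of_ne h with h | h
  · rw [inter_comm]
    exact (A_spec β).2.2.1 α h
  · exact (A_spec α).2.2.1 β h

/-- a map with uncountable fibers -/
theorem exists_z : ∃ z : W → ℕ, ∀ n, ¬ {α | z α = n}.Countable := by
  obtain ⟨e⟩ : Nonempty (W ≃ W × ℕ) := by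
    rw [← Cardinal.eq, Cardinal.mk_prod, Cardinal.lift_id, Cardinal.lift_id, Cardinal.mk_nat,
      Cardinal.mul_aleph0_eq]
    rw [Cardinal.mk_ord_toType]
    exact Cardinal.aleph0_le_aleph 1
  refine ⟨fun α => (e α).2, fun n hn => ?_⟩
  apply uncountable_W
  have h1 : (univ : Set W) = (fun β : W => e.symm (β, n)) ⁻¹' {α | (e α).2 = n} := by
    ext β
    simp
  rw [h1]
  apply hn.preimage
  intro a b hab
  have := e.symm.injective hab
  exact (Prod.ext_iff.1 this).1

theorem not_countable_part {S : Set W} (hS : ¬ S.Countable) {K : Set ℕ}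
    (hK : ∀ α ∈ S, (A α ∩ K).Finite) : ∃ N : ℕ, ¬ {α ∈ S | A α ∩ K ⊆ Iio N}.Countable := by
  by_contra hno
  push Not at hno
  apply hS
  refine (countable_iUnion hno).mono fun α hα => ?_
  obtain ⟨M, hM⟩ := (hK α hα).bddAbove
  exact mem_iUnion.2 ⟨M + 1, hα, fun x hx => Nat.lt_succ_of_le (hM hx)⟩

/-- two uncountable subfamilies of the family cannot be separated -/
theorem inseparable {S₁ S₂ : Set W} (h₁ : ¬ S₁.Countable) (h₂ : ¬ S₂.Countable) {K₁ K₂ : Set ℕ}
    (hK : K₁ ∪ K₂ = univ) (hK₁ : ∀ α ∈ S₁, (A α ∩ K₁).Finite)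
    (hK₂ : ∀ α ∈ S₂, (A α ∩ K₂).Finite) : False := by
  obtain ⟨N, hN⟩ := not_countable_part h₁ hK₁
  obtain ⟨M, hM⟩ := not_countable_part h₂ hK₂
  have hMinf : {α ∈ S₂ | A α ∩ K₂ ⊆ Iio M}.Infinite := fun h => hM h.countable
  let t : ℕ → W := fun n => (hMinf.natEmbedding _ n : W)
  have htinj : Function.Injective t := Subtype.val_injective.comp (hMinf.natEmbedding _).injective
  have ht : ∀ n, t n ∈ S₂ ∧ A (t n) ∩ K₂ ⊆ Iio M := fun n => (hMinf.natEmbedding _ n).2
  obtain ⟨α, hα, hαt⟩ : ∃ α ∈ {α ∈ S₁ | A α ∩ K₁ ⊆ Iio N}, ∀ n, t n < α := by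
    by_contra hno
    push Not at hno
    apply hN
    have h1 : (⋃ n, insert (t n) (Iio (t n))).Countable :=
      countable_iUnion fun n => (countable_Iio (t n)).insert _
    refine h1.mono fun α hα => ?_
    obtain ⟨n, hn⟩ := hno α hα
    rcases lt_or_eq_of_le hn with h | h
    · exact mem_iUnion.2 ⟨n, Or.inr h⟩
    · exact mem_iUnion.2 ⟨n, Or.inl h⟩
  have hfin := (A_spec α).2.2.2 (max N M)
  have hinf : (range fun n => (⟨t n, hαt n⟩ : Iio α)).Infinite := by
    apply infinite_range_of_injective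
    intro a b hab
    have h := congrArg (fun w : Iio α => (w : W)) hab
    exact htinj h
  apply hinf
  refine hfin.subset ?_
  rintro _ ⟨n, rfl⟩ x ⟨hx1, hx2⟩
  have hx : x ∈ K₁ ∪ K₂ := hK ▸ mem_univ x
  rcases hx with hx | hx
  · exact mem_Iio.2 (lt_of_lt_of_le (mem_Iio.1 (hα.2 ⟨hx1, hx⟩)) (le_max_left _ _))
  · exact mem_Iio.2 (lt_of_lt_of_le (mem_Iio.1 ((ht n).2 ⟨hx2, hx⟩)) (le_max_right _ _))

end Pool.Agent.R812.Luzin
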