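import Mathlib
import Pool.Agent.R812.Luzin

/-!
# Co-sober spaces: definitions and the basic construction
-/

set_option autoImplicit false

open Set

namespace Pool.Agent.R812.CoSober

section Defs

variable {X : Type*} [TopologicalSpace X]

/-- a set is saturated if it is the intersection of the open sets containing it -/
def Saturated (G : Set X) : Prop := G = ⋂₀ {U | IsOpen U ∧ G ⊆ U}

/-- compact saturated sets -/
def CompactSaturated (G : Set X) : Prop := IsCompact G ∧ Saturated G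

/-- `k`-irreducible sets: nonempty compact saturated sets which are not the union of two proper
compact saturated subsets -/
def KIrreducible (G : Set X) : Prop :=
  G.Nonempty ∧ CompactSaturated G ∧
    ∀ K₁ K₂ : Set X, CompactSaturated K₁ → CompactSaturated K₂ → K₁ ∪ K₂ = G → K₁ = G ∨ K₂ = G

end Defs

/-- co-sober spaces: each `k`-irreducible set is of the form `↑ x`, where `x ≤ y` means
`x ∈ closure {y}` -/
def CoSober (X : Type*) [TopologicalSpace X] : Prop :=
  ∀ G : Set X, KIrreducible G → ∃ x : X, G = {y | x ∈ closure {y}}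

section Basic

variable {X : Type*} [TopologicalSpace X]

theorem saturated_iff {G : Set X} :
    Saturated G ↔ ∀ x, (∀ U, IsOpen U → G ⊆ U → x ∈ U) → x ∈ G := by
  constructor
  · intro h x hx
    rw [h]
    rintro U ⟨hU, hGU⟩
    exact hx U hU hGU
  · intro h
    apply Subset.antisymm
    · rintro x hx U ⟨-, hGU⟩
      exact hGU hx
    · intro x hx
      exact h x fun U hU hGU => hx U ⟨hU, hGU⟩

theorem saturated_of_t1 [T1Space X] (G : Set X) : Saturated G := by
  rw [saturated_iff]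
  intro x hx
  by_contra h
  exact hx {x}ᶜ isOpen_compl_singleton (fun y hy hyx => h (hyx ▸ hy)) rfl

theorem up_eq_of_t1 [T1Space X] (x : X) : {y : X | x ∈ closure {y}} = {x} := by
  ext y
  rw [mem_ofPred_eq, isClosed_singleton.closure_eq, mem_singleton_iff, mem_singleton_iff, eq_comm]

/-- a criterion for co-sobriety of a `T₁` space -/
theorem coSober_of_t1 [T1Space X]
    (h : ∀ G : Set X, IsCompact G → ∀ x ∈ G, ∀ y ∈ G, x ≠ y → ∃ w ∈ G, IsCompact (G \ {w})) :
    CoSober X := by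
  rintro G ⟨⟨x, hx⟩, hG, hirr⟩
  refine ⟨x, ?_⟩
  rw [up_eq_of_t1]
  by_contra hne
  obtain ⟨y, hy, hyx⟩ : ∃ y ∈ G, x ≠ y := by
    by_contra hno
    push Not at hno
    apply hne
    apply Subset.antisymm
    · intro y hy
      exact (hno y hy).symm
    · rintro _ rfl
      exact hx
  obtain ⟨w, hw, hwc⟩ := h G hG.1 x hx y hy hyx
  rcases hirr (G \ {w}) {w} ⟨hwc, saturated_of_t1 _⟩ ⟨isCompact_singleton, saturated_of_t1 _⟩
    (sdiff_union_of_subset (singleton_subset_iff.2 hw)) with h1 | h1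
  · rw [← h1] at hw
    exact hw.2 rfl
  · rw [← h1] at hx hy
    exact hyx (hx.trans hy.symm)

/-- a criterion for the failure of co-sobriety of a `T₁` space -/
theorem not_coSober_of_t1 [T1Space X] {G : Set X} (hG : IsCompact G) {x y : X} (hx : x ∈ G)
    (hy : y ∈ G) (hxy : x ≠ y) (h : ∀ K₁ K₂ : Set X, IsCompact K₁ → IsCompact K₂ → K₁ ∪ K₂ = G →
      K₁ = G ∨ K₂ = G) : ¬ CoSober X := by
  intro hco
  obtain ⟨w, hw⟩ := hco G ⟨⟨x, hx⟩, ⟨hG, saturated_of_t1 _⟩, fun K₁ K₂ h₁ h₂ => h K₁ K₂ h₁.1 h₂.1⟩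
  rw [up_eq_of_t1] at hw
  rw [hw] at hx hy
  exact hxy (hx.trans hy.symm)

end Basic

section Construction

variable {Z J : Type}

/-- sets which are almost covered by finitely many `B α` -/
def Small (B : J → Set Z) (C : Set Z) : Prop :=
  ∃ (F : Set Z) (E : Set J), F.Finite ∧ E.Finite ∧ C ⊆ F ∪ ⋃ α ∈ E, B α

/-- the closed sets -/
def ClosedSet (B : J → Set Z) (z : J → Z) (C : Set Z) : Prop :=
  (C = univ ∨ Small B C) ∧ ∀ α, (C ∩ B α).Infinite → z α ∈ C

theorem Small.mono {B : J → Set Z} {C D : Set Z} (h : Small B D) (hCD : C ⊆ D) : Small B C := by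
  obtain ⟨F, E, hF, hE, h⟩ := h
  exact ⟨F, E, hF, hE, hCD.trans h⟩

theorem Small.union {B : J → Set Z} {C D : Set Z} (hC : Small B C) (hD : Small B D) :
    Small B (C ∪ D) := by
  obtain ⟨F, E, hF, hE, h⟩ := hC
  obtain ⟨F', E', hF', hE', h'⟩ := hD
  refine ⟨F ∪ F', E ∪ E', hF.union hF', hE.union hE', ?_⟩
  rintro x (hx | hx)
  · rcases h hx with hx | hx
    · exact Or.inl (Or.inl hx)
    · obtain ⟨α, hα, hx⟩ := mem_iUnion₂.1 hx
      exact Or.inr (mem_iUnion₂.2 ⟨α, Or.inl hα, hx⟩)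
  · rcases h' hx with hx | hx
    · exact Or.inl (Or.inr hx)
    · obtain ⟨α, hα, hx⟩ := mem_iUnion₂.1 hx
      exact Or.inr (mem_iUnion₂.2 ⟨α, Or.inr hα, hx⟩)

/-- the topology given by an almost disjoint family `B` and the points `z` -/
def Top (B : J → Set Z) (z : J → Z) : TopologicalSpace Z :=
  TopologicalSpace.ofClosed {C | ClosedSet B z C}
    (by
      refine ⟨Or.inr ⟨∅, ∅, finite_empty, finite_empty, empty_subset _⟩, fun α h => ?_⟩
      rw [empty_inter] at h
      exact absurd finite_empty h)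
    (by
      intro A hA
      constructor
      · by_cases h : ∀ C ∈ A, C = univ
        · left
          exact sInter_eq_univ.2 h
        · push Not at h
          obtain ⟨C, hC, hCu⟩ := h
          right
          exact ((hA hC).1.resolve_left hCu).mono (sInter_subset_of_mem hC)
      · intro α hα C hC
        apply (hA hC).2 α
        exact hα.mono (inter_subset_inter_left _ (sInter_subset_of_mem hC)))
    (by
      rintro C ⟨hC1, hC2⟩ D ⟨hD1, hD2⟩
      constructor
      · rcases hC1 with rfl | hC1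
        · left
          exact univ_union _
        · rcases hD1 with rfl | hD1
          · left
            exact union_univ _
          · right
            exact hC1.union hD1
      · intro α hα
        rw [union_inter_distrib_right, infinite_union] at hα
        rcases hα with h | h
        · exact Or.inl (hC2 α h)
        · exact Or.inr (hD2 α h))

/-- the topology is the one given by `B` and `z` -/
def IsTop [TopologicalSpace Z] (B : J → Set Z) (z : J → Z) : Prop :=
  ∀ C : Set Z, IsClosed C ↔ ClosedSet B z C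

theorem isTop_Top (B : J → Set Z) (z : J → Z) : @IsTop Z J (Top B z) B z := by
  intro C
  rw [← @isOpen_compl_iff Z C (Top B z)]
  change ClosedSet B z (Cᶜᶜ) ↔ _
  rw [compl_compl]

variable [TopologicalSpace Z] {B : J → Set Z} {z : J → Z}

theorem IsTop.isClosed_of_finite (h : IsTop B z) {C : Set Z} (hC : C.Finite) : IsClosed C := by
  rw [h C]
  refine ⟨Or.inr ⟨C, ∅, hC, finite_empty, subset_union_left⟩, fun α hα => ?_⟩
  exact absurd (hC.subset inter_subset_left) hα

theorem IsTop.t1 (h : IsTop B z) : T1Space Z :=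
  ⟨fun x => h.isClosed_of_finite (finite_singleton x)⟩

theorem IsTop.isClosed_basic (h : IsTop B z) (hB : ∀ α β, α ≠ β → (B α ∩ B β).Finite) (α : J)
    (F : Set Z) : IsClosed ((B α \ F) ∪ {z α}) := by
  rw [h]
  refine ⟨Or.inr ⟨{z α}, {α}, finite_singleton _, finite_singleton _, ?_⟩, ?_⟩
  · rintro x (hx | hx)
    · right
      exact mem_iUnion₂.2 ⟨α, rfl, hx.1⟩
    · left
      exact hx
  · intro β hβ
    by_cases hαβ : α = β
    · subst hαβ
      exact Or.inr rfl
    · exfalso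
      apply hβ
      apply ((hB α β hαβ).union (finite_singleton (z α))).subset
      rintro x ⟨hx | hx, hxβ⟩
      · exact Or.inl ⟨hx.1, hxβ⟩
      · exact Or.inr hx

/-- in a compact set, an infinite trace of `B α` forces the point `z α` -/
theorem IsTop.mem_of_isCompact (h : IsTop B z) (hB : ∀ α β, α ≠ β → (B α ∩ B β).Finite)
    {K : Set Z} (hK : IsCompact K) {α : J} (hα : (K ∩ B α).Infinite) : z α ∈ K := by
  by_contra hz
  have hcover : K ⊆ ⋃ x : Z, ((B α \ {x}) ∪ {z α})ᶜ := by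
    intro x hx
    refine mem_iUnion.2 ⟨x, ?_⟩
    rintro (hx' | hx')
    · exact hx'.2 rfl
    · exact hz (hx' ▸ hx)
  obtain ⟨t, ht⟩ := hK.elim_finite_subcover _ (fun x => (h.isClosed_basic hB α {x}).isOpen_compl)
    hcover
  apply hα
  apply t.finite_toSet.subset
  rintro x ⟨hxK, hxα⟩
  obtain ⟨y, hy, hxy⟩ := mem_iUnion₂.1 (ht hxK)
  by_contra hxt
  apply hxy
  left
  refine ⟨hxα, ?_⟩
  rintro rfl
  exact hxt hy

/-- the converse -/
theorem IsTop.isCompact_of (h : IsTop B z) {K : Set Z}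
    (hK : ∀ α, (K ∩ B α).Infinite → z α ∈ K) : IsCompact K := by
  classical
  rw [isCompact_iff_finite_subcover]
  intro ι U hU hKU
  rcases K.eq_empty_or_nonempty with rfl | ⟨x, hx⟩
  · exact ⟨∅, empty_subset _⟩
  obtain ⟨i, hi⟩ := mem_iUnion.1 (hKU hx)
  have h1 := (h (U i)ᶜ).1 (hU i).isClosed_compl
  have h2 : Small B (U i)ᶜ := by
    apply h1.1.resolve_left
    intro hu
    have : x ∈ (U i)ᶜ := hu ▸ mem_univ x
    exact this hi
  obtain ⟨F, E, hF, hE, hFE⟩ := h2
  have hex : ∀ α : J, ∃ j : ι, (K ∩ B α ∩ (U j)ᶜ).Finite := by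
    intro α
    by_cases hα : (K ∩ B α).Infinite
    · obtain ⟨j, hj⟩ := mem_iUnion.1 (hKU (hK α hα))
      refine ⟨j, ?_⟩
      by_contra hinf
      have h3 := ((h (U j)ᶜ).1 (hU j).isClosed_compl).2 α (by
        refine Set.Infinite.mono ?_ hinf
        rintro y ⟨⟨-, hy1⟩, hy2⟩
        exact ⟨hy2, hy1⟩)
      exact h3 hj
    · exact ⟨i, (not_infinite.1 hα).subset inter_subset_left⟩
  choose j hj using hex
  let R : Set Z := (K ∩ F) ∪ ⋃ α ∈ E, K ∩ B α ∩ (U (j α))ᶜ
  have hR : R.Finite := (hF.subset inter_subset_right).union (hE.biUnion fun α _ => hj α)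
  have hRK : R ⊆ K := by
    rintro y (hy | hy)
    · exact hy.1
    · obtain ⟨α, -, hy⟩ := mem_iUnion₂.1 hy
      exact hy.1.1
  obtain ⟨t, ht⟩ := hR.isCompact.elim_finite_subcover U hU (hRK.trans hKU)
  refine ⟨insert i (t ∪ hE.toFinset.image j), ?_⟩
  intro y hy
  by_cases hyi : y ∈ U i
  · exact mem_iUnion₂.2 ⟨i, Finset.mem_insert_self _ _, hyi⟩
  · rcases hFE hyi with hyF | hyE
    · obtain ⟨k, hk, hyk⟩ := mem_iUnion₂.1 (ht (Or.inl ⟨hy, hyF⟩))
      exact mem_iUnion₂.2 ⟨k, Finset.mem_insert_of_mem (Finset.mem_union_left _ hk), hyk⟩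
    · obtain ⟨α, hα, hyα⟩ := mem_iUnion₂.1 hyE
      by_cases hyj : y ∈ U (j α)
      · refine mem_iUnion₂.2 ⟨j α, Finset.mem_insert_of_mem (Finset.mem_union_right _ ?_), hyj⟩
        exact Finset.mem_image_of_mem _ (hE.mem_toFinset.2 hα)
      · obtain ⟨k, hk, hyk⟩ := mem_iUnion₂.1 (ht (Or.inr (mem_iUnion₂.2 ⟨α, hα, ⟨hy, hyα⟩, hyj⟩)))
        exact mem_iUnion₂.2 ⟨k, Finset.mem_insert_of_mem (Finset.mem_union_left _ hk), hyk⟩

theorem IsTop.compactSpace (h : IsTop B z) : CompactSpace Z :=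
  ⟨h.isCompact_of fun _ _ => mem_univ _⟩

/-- continuity of maps between spaces of this kind -/
theorem IsTop.continuous {Z' J' : Type} [TopologicalSpace Z'] {B' : J' → Set Z'} {z' : J' → Z'}
    (h : IsTop B z) (h' : IsTop B' z') (hB : ∀ α β, α ≠ β → (B α ∩ B β).Finite)
    (σ : Z ≃ Z') (ι : J' → J) (hι : ∀ α, B (ι α) = σ ⁻¹' B' α) (hz : ∀ α, σ (z (ι α)) = z' α) :
    Continuous σ := by
  rw [continuous_iff_isClosed]
  intro C hC
  rw [h' C] at hC
  rw [h]
  obtain ⟨hC1, hC2⟩ := hC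
  rcases hC1 with rfl | ⟨F, E, hF, hE, hFE⟩
  · exact ⟨Or.inl preimage_univ, fun _ _ => mem_univ _⟩
  refine ⟨Or.inr ⟨σ ⁻¹' F, ι '' E, hF.preimage σ.injective.injOn, hE.image _, ?_⟩, ?_⟩
  · intro x hx
    rcases hFE hx with hx | hx
    · exact Or.inl hx
    · obtain ⟨α, hα, hxα⟩ := mem_iUnion₂.1 hx
      refine Or.inr (mem_iUnion₂.2 ⟨ι α, mem_image_of_mem _ hα, ?_⟩)
      rw [hι]
      exact hxα
  · intro β hβ
    by_cases hβι : ∃ α, ι α = β
    · obtain ⟨α, rfl⟩ := hβι
      change σ (z (ι α)) ∈ C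
      rw [hz]
      apply hC2
      have h1 : (σ '' (σ ⁻¹' C ∩ B (ι α))).Infinite := hβ.image σ.injective.injOn
      refine h1.mono ?_
      rintro _ ⟨x, ⟨hx1, hx2⟩, rfl⟩
      rw [hι] at hx2
      exact ⟨hx1, hx2⟩
    · push Not at hβι
      exfalso
      apply hβ
      have h1 : (⋃ α ∈ E, B (ι α) ∩ B β).Finite := hE.biUnion fun α _ => hB _ _ (hβι α)
      apply ((hF.preimage σ.injective.injOn).union h1).subset
      rintro x ⟨hx1, hx2⟩
      rcases hFE hx1 with hx | hx
      · exact Or.inl hx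
      · obtain ⟨α, hα, hxα⟩ := mem_iUnion₂.1 hx
        refine Or.inr (mem_iUnion₂.2 ⟨α, hα, ?_, hx2⟩)
        rw [hι]
        exact hxα

end Construction

end Pool.Agent.R812.CoSober
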