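import Mathlib
import Pool.Agent.R812.CoSober

/-!
# A co-sober space whose square is not co-sober
-/

set_option autoImplicit false

open Set

namespace Pool.Agent.R812.CoSober

open Pool.Agent.R812.Luzin

/-- a map `ω₁ → ℕ` with uncountable fibers -/
noncomputable def zf : W → ℕ := exists_z.choose

theorem zf_spec (n : ℕ) : ¬ {α | zf α = n}.Countable := exists_z.choose_spec n

theorem zf_surj (n : ℕ) : ∃ α, zf α = n := by
  by_contra h
  push Not at h
  apply zf_spec n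
  convert countable_empty
  ext α
  simp [h α]

/-- the left sets -/
def BL (α : W) : Set (ℕ ⊕ ℕ) := {x | ∃ n ∈ A α, x = Sum.inl n}

/-- the right sets -/
def BR (α : W) : Set (ℕ ⊕ ℕ) := {x | ∃ n ∈ A α, x = Sum.inr n}

theorem BL_infinite {α : W} {L : Set (ℕ ⊕ ℕ)} (h : (A α ∩ {n | Sum.inl n ∈ L}).Infinite) :
    (L ∩ BL α).Infinite := by
  refine (h.image (f := Sum.inl) Sum.inl_injective.injOn).mono ?_
  rintro _ ⟨n, ⟨h1, h2⟩, rfl⟩
  exact ⟨h2, n, h1, rfl⟩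

theorem BR_infinite {α : W} {L : Set (ℕ ⊕ ℕ)} (h : (A α ∩ {n | Sum.inr n ∈ L}).Infinite) :
    (L ∩ BR α).Infinite := by
  refine (h.image (f := Sum.inr) Sum.inr_injective.injOn).mono ?_
  rintro _ ⟨n, ⟨h1, h2⟩, rfl⟩
  exact ⟨h2, n, h1, rfl⟩

theorem BL_ad (α β : W) (h : α ≠ β) : (BL α ∩ BL β).Finite := by
  apply ((A_ad h).image Sum.inl).subset
  rintro _ ⟨⟨n, hn, rfl⟩, ⟨m, hm, hmn⟩⟩
  obtain rfl := Sum.inl_injective hmn
  exact ⟨n, ⟨hn, hm⟩, rfl⟩

theorem BR_ad (α β : W) (h : α ≠ β) : (BR α ∩ BR β).Finite := by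
  apply ((A_ad h).image Sum.inr).subset
  rintro _ ⟨⟨n, hn, rfl⟩, ⟨m, hm, hmn⟩⟩
  obtain rfl := Sum.inr_injective hmn
  exact ⟨n, ⟨hn, hm⟩, rfl⟩

/-- the family of the left and right sets -/
def BB : W ⊕ W → Set (ℕ ⊕ ℕ) := Sum.elim BL BR

/-- the points of the family of the left and right sets -/
noncomputable def zz : W ⊕ W → ℕ ⊕ ℕ := Sum.elim (fun α => Sum.inr (zf α)) fun α => Sum.inl (zf α)

theorem BB_ad (α β : W ⊕ W) (h : α ≠ β) : (BB α ∩ BB β).Finite := by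
  rcases α with α | α <;> rcases β with β | β
  · exact BL_ad α β fun h' => h (h' ▸ rfl)
  · convert finite_empty
    ext x
    simp only [mem_inter_iff, mem_empty_iff_false, iff_false]
    rintro ⟨⟨n, -, rfl⟩, ⟨m, -, hm⟩⟩
    cases hm
  · convert finite_empty
    ext x
    simp only [mem_inter_iff, mem_empty_iff_false, iff_false]
    rintro ⟨⟨n, -, rfl⟩, ⟨m, -, hm⟩⟩
    cases hm
  · exact BR_ad α β fun h' => h (h' ▸ rfl)

/-- the space -/
def X : Type := ℕ ⊕ ℕ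

noncomputable instance : TopologicalSpace X := Top BL fun α => Sum.inr (zf α)

instance : Countable X := inferInstanceAs (Countable (ℕ ⊕ ℕ))

theorem isTop_X : IsTop (Z := X) BL fun α => Sum.inr (zf α) := isTop_Top _ _

instance : T1Space X := isTop_X.t1

instance : CompactSpace X := isTop_X.compactSpace

/-- the refinement of the topology -/
def Y : Type := ℕ ⊕ ℕ

noncomputable instance : TopologicalSpace Y := Top BB zz

theorem isTop_Y : IsTop (Z := Y) BB zz := isTop_Top _ _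

theorem coSober_X : CoSober X := by
  apply coSober_of_t1
  intro G hG x hx y hy hxy
  by_cases h : ∃ n : ℕ, (Sum.inl n : ℕ ⊕ ℕ) ∈ G
  · obtain ⟨n, hn⟩ := h
    refine ⟨(Sum.inl n : ℕ ⊕ ℕ), hn, isTop_X.isCompact_of fun α hα => ?_⟩
    refine ⟨isTop_X.mem_of_isCompact BL_ad hG
      (hα.mono (inter_subset_inter_left _ sdiff_subset)), ?_⟩
    intro h
    have h' : (Sum.inr (zf α) : ℕ ⊕ ℕ) = Sum.inl n := h
    cases h'
  · push Not at h
    refine ⟨x, hx, isTop_X.isCompact_of fun α hα => ?_⟩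
    exfalso
    apply hα
    convert finite_empty
    ext w
    simp only [mem_inter_iff, mem_empty_iff_false, iff_false]
    rintro ⟨⟨hw, -⟩, ⟨n, -, rfl⟩⟩
    exact h n hw

/-- the identity -/
def f₁ : Y ≃ X := Equiv.refl (ℕ ⊕ ℕ)

/-- the swap -/
def f₂ : Y ≃ X := Equiv.sumComm ℕ ℕ

theorem continuous_f₁ : Continuous f₁ := by
  apply isTop_Y.continuous isTop_X BB_ad f₁ Sum.inl
  · intro α
    rfl
  · intro α
    rfl

theorem continuous_f₂ : Continuous f₂ := by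
  apply isTop_Y.continuous isTop_X BB_ad f₂ Sum.inr
  · intro α
    ext x
    constructor
    · rintro ⟨n, hn, rfl⟩
      exact ⟨n, hn, rfl⟩
    · rintro ⟨n, hn, hx⟩
      refine ⟨n, hn, ?_⟩
      have h1 : Sum.swap (x : ℕ ⊕ ℕ) = Sum.inl n := hx
      calc x = Sum.swap (Sum.swap (x : ℕ ⊕ ℕ)) := (Sum.swap_swap x).symm
        _ = Sum.inr n := by rw [h1]; rfl
  · intro α
    rfl

/-- the combinatorial core -/
theorem core {L₁ L₂ : Set (ℕ ⊕ ℕ)} (hL : L₁ ∪ L₂ = univ)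
    (h1 : ∀ L ∈ ({L₁, L₂} : Set (Set (ℕ ⊕ ℕ))), ∀ α, (A α ∩ {n | Sum.inl n ∈ L}).Infinite →
      Sum.inr (zf α) ∈ L)
    (h2 : ∀ L ∈ ({L₁, L₂} : Set (Set (ℕ ⊕ ℕ))), ∀ α, (A α ∩ {n | Sum.inr n ∈ L}).Infinite →
      Sum.inl (zf α) ∈ L) : L₁ = univ ∨ L₂ = univ := by
  have hL₁ : L₁ ∈ ({L₁, L₂} : Set (Set (ℕ ⊕ ℕ))) := Or.inl rfl
  have hL₂ : L₂ ∈ ({L₁, L₂} : Set (Set (ℕ ⊕ ℕ))) := Or.inr rfl
  have hl : (∀ n, Sum.inl n ∈ L₁) ∨ (∀ n, Sum.inl n ∈ L₂) := by
    by_contra h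
    push Not at h
    obtain ⟨⟨n, hn⟩, ⟨m, hm⟩⟩ := h
    refine inseparable (zf_spec n) (zf_spec m) (K₁ := {n | Sum.inr n ∈ L₁})
      (K₂ := {n | Sum.inr n ∈ L₂}) ?_ ?_ ?_
    · ext k
      have : (Sum.inr k : ℕ ⊕ ℕ) ∈ L₁ ∪ L₂ := hL ▸ mem_univ _
      simpa using this
    · rintro α rfl
      by_contra hinf
      exact hn (h2 L₁ hL₁ α hinf)
    · rintro α rfl
      by_contra hinf
      exact hm (h2 L₂ hL₂ α hinf)
  have hr : (∀ n, Sum.inr n ∈ L₁) ∨ (∀ n, Sum.inr n ∈ L₂) := by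
    by_contra h
    push Not at h
    obtain ⟨⟨n, hn⟩, ⟨m, hm⟩⟩ := h
    refine inseparable (zf_spec n) (zf_spec m) (K₁ := {n | Sum.inl n ∈ L₁})
      (K₂ := {n | Sum.inl n ∈ L₂}) ?_ ?_ ?_
    · ext k
      have : (Sum.inl k : ℕ ⊕ ℕ) ∈ L₁ ∪ L₂ := hL ▸ mem_univ _
      simpa using this
    · rintro α rfl
      by_contra hinf
      exact hn (h1 L₁ hL₁ α hinf)
    · rintro α rfl
      by_contra hinf
      exact hm (h1 L₂ hL₂ α hinf)
  have key : ∀ L ∈ ({L₁, L₂} : Set (Set (ℕ ⊕ ℕ))), (∀ n, Sum.inl n ∈ L) → L = univ := by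
    intro L hL' hLn
    apply eq_univ_of_forall
    rintro (n | n)
    · exact hLn n
    · obtain ⟨α, rfl⟩ := zf_surj n
      apply h1 L hL'
      have : {n | Sum.inl n ∈ L} = univ := eq_univ_of_forall hLn
      rw [this, inter_univ]
      exact A_infinite α
  rcases hl with h | h
  · exact Or.inl (key L₁ hL₁ h)
  · exact Or.inr (key L₂ hL₂ h)

/-- a space in which `Y` is embedded in such a way that `f₁` and `f₂` extend is not co-sober -/
theorem not_coSober_of {P : Type*} [TopologicalSpace P] [T1Space P] (δ : Y → P)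
    (hδ : Continuous δ) (p q : P → X) (hp : Continuous p) (hq : Continuous q)
    (hpδ : ∀ y, p (δ y) = f₁ y) (hqδ : ∀ y, q (δ y) = f₂ y) : ¬ CoSober P := by
  have hc : CompactSpace Y := isTop_Y.compactSpace
  have hinj : Function.Injective δ := by
    intro a b hab
    apply f₁.injective
    rw [← hpδ, ← hpδ, hab]
  refine not_coSober_of_t1 (isCompact_range hδ) (mem_range_self (Sum.inl 0 : ℕ ⊕ ℕ))
    (mem_range_self (Sum.inr 0 : ℕ ⊕ ℕ)) (fun h => ?_) ?_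
  · have h' : (Sum.inl 0 : ℕ ⊕ ℕ) = Sum.inr 0 := hinj h
    cases h'
  intro K₁ K₂ hK₁ hK₂ hK
  have main : ∀ K : Set P, IsCompact K → K ⊆ range δ →
      (∀ α, (A α ∩ {n | (Sum.inl n : ℕ ⊕ ℕ) ∈ δ ⁻¹' K}).Infinite →
        (Sum.inr (zf α) : ℕ ⊕ ℕ) ∈ δ ⁻¹' K) ∧
      (∀ α, (A α ∩ {n | (Sum.inr n : ℕ ⊕ ℕ) ∈ δ ⁻¹' K}).Infinite →
        (Sum.inl (zf α) : ℕ ⊕ ℕ) ∈ δ ⁻¹' K) := by
    intro K hK hKδ
    constructor
    · intro α hα
      have h1 := hK.image hp
      have h2 : (p '' K ∩ BL α).Infinite := by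
        apply BL_infinite
        refine hα.mono ?_
        rintro n ⟨hn1, hn2⟩
        exact ⟨hn1, ⟨_, hn2, hpδ _⟩⟩
      obtain ⟨k, hk, hk'⟩ := isTop_X.mem_of_isCompact BL_ad h1 h2
      obtain ⟨y, rfl⟩ := hKδ hk
      rw [hpδ] at hk'
      have : y = (Sum.inr (zf α) : ℕ ⊕ ℕ) := hk'
      rw [this] at hk
      exact hk
    · intro α hα
      have h1 := hK.image hq
      have h2 : (q '' K ∩ BL α).Infinite := by
        apply BL_infinite
        refine hα.mono ?_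
        rintro n ⟨hn1, hn2⟩
        exact ⟨hn1, ⟨_, hn2, hqδ _⟩⟩
      obtain ⟨k, hk, hk'⟩ := isTop_X.mem_of_isCompact BL_ad h1 h2
      obtain ⟨y, rfl⟩ := hKδ hk
      rw [hqδ] at hk'
      have : y = (Sum.inl (zf α) : ℕ ⊕ ℕ) := by
        apply f₂.injective
        rw [hk']
        rfl
      rw [this] at hk
      exact hk
  have hK₁' : K₁ ⊆ range δ := hK ▸ subset_union_left
  have hK₂' : K₂ ⊆ range δ := hK ▸ subset_union_right
  have h3 := core (L₁ := δ ⁻¹' K₁) (L₂ := δ ⁻¹' K₂) (by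
    apply eq_univ_of_forall
    intro y
    have : δ y ∈ K₁ ∪ K₂ := hK ▸ mem_range_self y
    exact this) (by
    rintro L (rfl | rfl)
    · exact (main K₁ hK₁ hK₁').1
    · exact (main K₂ hK₂ hK₂').1) (by
    rintro L (rfl | rfl)
    · exact (main K₁ hK₁ hK₁').2
    · exact (main K₂ hK₂ hK₂').2)
  rcases h3 with h3 | h3
  · left
    apply Subset.antisymm hK₁'
    rintro _ ⟨y, rfl⟩
    have : y ∈ δ ⁻¹' K₁ := h3 ▸ mem_univ y
    exact this
  · right
    apply Subset.antisymm hK₂'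
    rintro _ ⟨y, rfl⟩
    have : y ∈ δ ⁻¹' K₂ := h3 ▸ mem_univ y
    exact this

theorem not_coSober_prod : ¬ CoSober (X × X) :=
  not_coSober_of (fun y => (f₁ y, f₂ y)) (continuous_f₁.prodMk continuous_f₂) Prod.fst Prod.snd
    continuous_fst continuous_snd (fun _ => rfl) fun _ => rfl

open Classical in
theorem not_coSober_pi (I : Type) [Nontrivial I] : ¬ CoSober (I → X) := by
  obtain ⟨i, j, hij⟩ := exists_pair_ne I
  refine not_coSober_of (fun y k => if k = i then f₁ y else f₂ y) ?_ (fun x => x i) (fun x => x j)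
    (continuous_apply i) (continuous_apply j) ?_ ?_
  · apply continuous_pi
    intro k
    by_cases hk : k = i
    · simp only [hk, if_true]
      exact continuous_f₁
    · simp only [hk, if_false]
      exact continuous_f₂
  · intro y
    simp
  · intro y
    simp [hij.symm]

end Pool.Agent.R812.CoSober
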