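import Mathlib
import Pool.Agent.R812.CoSoberProd

/-!
# A continuous kernel operator on a co-sober space with a non-co-sober image
-/

set_option autoImplicit false

open Set

namespace Pool.Agent.R812.CoSober.Kernel

open Pool.Agent.R812.Luzin Pool.Agent.R812.CoSober

/-- the compact indecomposable space -/
def Z : Type := ℕ

noncomputable instance : TopologicalSpace Z := Top A zf

theorem A_ad' (α β : W) (h : α ≠ β) : (A α ∩ A β).Finite := A_ad h

theorem isTop_Z : IsTop (Z := Z) A zf := isTop_Top _ _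

instance : T1Space Z := isTop_Z.t1

instance : CompactSpace Z := isTop_Z.compactSpace

theorem indecomposable_Z {K₁ K₂ : Set Z} (h₁ : IsCompact K₁) (h₂ : IsCompact K₂)
    (hK : K₁ ∪ K₂ = univ) : K₁ = univ ∨ K₂ = univ := by
  by_contra h
  push Not at h
  obtain ⟨n, hn⟩ := (ne_univ_iff_exists_notMem _).1 h.1
  obtain ⟨m, hm⟩ := (ne_univ_iff_exists_notMem _).1 h.2
  refine inseparable (zf_spec n) (zf_spec m) (K₁ := K₁) (K₂ := K₂) hK ?_ ?_
  · rintro α rfl
    by_contra hinf
    apply hn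
    exact isTop_Z.mem_of_isCompact A_ad' h₁ (Set.Infinite.mono (fun n hn => ⟨hn.2, hn.1⟩) hinf)
  · rintro α rfl
    by_contra hinf
    apply hm
    exact isTop_Z.mem_of_isCompact A_ad' h₂ (Set.Infinite.mono (fun n hn => ⟨hn.2, hn.1⟩) hinf)

/-- the space -/
def E : Type := Z × ℕ

/-- the open sets -/
def OpenSet (O : Set (Z × ℕ)) : Prop :=
  ∀ z n, (z, n) ∈ O → (∀ m, n ≤ m → (z, m) ∈ O) ∧
    ∃ V : Set Z, IsOpen V ∧ z ∈ V ∧ ∀ y ∈ V, y ≠ z → (y, 0) ∈ O

instance : TopologicalSpace E where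
  IsOpen O := OpenSet O
  isOpen_univ := fun z n _ => ⟨fun _ _ => mem_univ _, univ, isOpen_univ, mem_univ _,
    fun _ _ _ => mem_univ _⟩
  isOpen_inter := by
    rintro O O' h h' z n ⟨hz, hz'⟩
    obtain ⟨h1, V, hV, hzV, h2⟩ := h z n hz
    obtain ⟨h1', V', hV', hzV', h2'⟩ := h' z n hz'
    exact ⟨fun m hm => ⟨h1 m hm, h1' m hm⟩, V ∩ V', hV.inter hV', ⟨hzV, hzV'⟩,
      fun y hy hyz => ⟨h2 y hy.1 hyz, h2' y hy.2 hyz⟩⟩
  isOpen_sUnion := by
    rintro S hS z n ⟨O, hO, hz⟩
    obtain ⟨h1, V, hV, hzV, h2⟩ := hS O hO z n hz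
    exact ⟨fun m hm => ⟨O, hO, h1 m hm⟩, V, hV, hzV, fun y hy hyz => ⟨O, hO, h2 y hy hyz⟩⟩

/-- points -/
def pt (z : Z) (n : ℕ) : E := (z, n)

theorem isOpen_iff {O : Set E} : IsOpen O ↔ ∀ z n, pt z n ∈ O → (∀ m, n ≤ m → pt z m ∈ O) ∧
    ∃ V : Set Z, IsOpen V ∧ z ∈ V ∧ ∀ y ∈ V, y ≠ z → pt y 0 ∈ O := Iff.rfl

theorem up_of_zero {O : Set E} (hO : IsOpen O) {z : Z} {n m : ℕ} (h : pt z n ∈ O) (hm : n ≤ m) :
    pt z m ∈ O := (isOpen_iff.1 hO z n h).1 m hm

/-- a basic open set -/
def U (z : Z) (n : ℕ) : Set E := {x | x.1 = z → n ≤ x.2}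

theorem mem_U {z w : Z} {n m : ℕ} : pt w m ∈ U z n ↔ (w = z → n ≤ m) := Iff.rfl

theorem isOpen_U (z : Z) (n : ℕ) : IsOpen (U z n) := by
  rw [isOpen_iff]
  intro w m h
  refine ⟨fun k hk hwz => (h hwz).trans hk, ?_⟩
  by_cases hw : w = z
  · subst hw
    exact ⟨univ, isOpen_univ, mem_univ _, fun y _ hy hyw => absurd hyw hy⟩
  · exact ⟨{z}ᶜ, isOpen_compl_singleton, hw, fun y hy _ hyz => absurd hyz hy⟩

theorem eq_of_le {z w : Z} {n m : ℕ} (h : pt z n ∈ closure {pt w m}) : w = z ∧ n ≤ m := by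
  rw [mem_closure_iff] at h
  have key : ∀ k, n ≥ k → (w = z → k ≤ m) := by
    intro k hk
    obtain ⟨x, hx, rfl⟩ := h (U z k) (isOpen_U z k) (fun _ => hk)
    exact hx
  have h1 : w = z := by
    by_contra hne
    obtain ⟨x, hx, rfl⟩ := h {x : E | x.1 = z ∨ x.1 ≠ w} (by
      rw [isOpen_iff]
      intro y l hy
      refine ⟨fun _ _ => hy, ?_⟩
      have hy' : y ≠ w := by
        rcases hy with hy | hy
        · rintro rfl
          exact hne hy
        · exact hy
      exact ⟨{w}ᶜ, isOpen_compl_singleton, hy', fun y hy _ => Or.inr hy⟩) (Or.inl rfl)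
    rcases hx with hx | hx
    · exact hne hx
    · exact hx rfl
  exact ⟨h1, key n le_rfl h1⟩

theorem le_iff {z w : Z} {n m : ℕ} : pt z n ∈ closure {pt w m} ↔ w = z ∧ n ≤ m := by
  refine ⟨eq_of_le, ?_⟩
  rintro ⟨rfl, h⟩
  rw [mem_closure_iff]
  intro O hO hz
  exact ⟨_, up_of_zero hO hz h, rfl⟩

instance : T0Space E := by
  refine ⟨?_⟩
  rintro ⟨z, n⟩ ⟨w, m⟩ h
  have h1 := inseparable_iff_mem_closure.1 h
  obtain ⟨hwz, hnm⟩ := eq_of_le (z := z) (w := w) (n := n) (m := m) h1.1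
  obtain ⟨-, hmn⟩ := eq_of_le (z := w) (w := z) (n := m) (m := n) h1.2
  have h2 := le_antisymm hnm hmn
  subst hwz
  subst h2
  rfl

/-- the kernel operator -/
def k (x : E) : E := (x.1, 0)

theorem continuous_k : Continuous k := by
  refine ⟨fun O hO => ?_⟩
  rw [isOpen_iff]
  intro z n h
  have h0 : pt z 0 ∈ O := h
  obtain ⟨h1, V, hV, hzV, h2⟩ := isOpen_iff.1 hO z 0 h0
  exact ⟨fun m _ => h, V, hV, hzV, fun y hy hyz => h2 y hy hyz⟩

theorem k_le (x : E) : k x ∈ closure {x} := by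
  obtain ⟨z, n⟩ := x
  exact le_iff.2 ⟨rfl, Nat.zero_le _⟩

theorem k_idem (x : E) : k (k x) = k x := rfl

theorem coSober_E : CoSober E := by
  rintro G ⟨⟨⟨z, n₀⟩, hx⟩, ⟨hGc, hGs⟩, hirr⟩
  rw [saturated_iff] at hGs
  have hup : ∀ {w : Z} {m l : ℕ}, pt w m ∈ G → m ≤ l → pt w l ∈ G := by
    intro w m l hw hl
    apply hGs
    intro O hO hGO
    exact up_of_zero hO (hGO hw) hl
  classical
  have hex : ∃ n, pt z n ∈ G := ⟨n₀, hx⟩
  obtain ⟨hn, hmin⟩ : pt z (Nat.find hex) ∈ G ∧ ∀ m < Nat.find hex, pt z m ∉ G :=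
    ⟨Nat.find_spec hex, fun m hm => Nat.find_min hex hm⟩
  set n := Nat.find hex
  have hc1 : IsCompact (G \ {pt z n}) := by
    rw [isCompact_iff_finite_subcover]
    intro ι O hO hGO
    obtain ⟨i, hi⟩ := mem_iUnion.1 (hGO (show pt z (n + 1) ∈ G \ {pt z n} from
      ⟨hup hn (Nat.le_succ n), fun h => by
        have : n + 1 = n := congrArg Prod.snd h
        omega⟩))
    have hO' : IsOpen (insert (pt z n) (O i)) := by
      rw [isOpen_iff]
      rintro w m (hw | hw)
      · have hwz : w = z := congrArg Prod.fst hw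
        have hmn : m = n := congrArg Prod.snd hw
        subst hwz
        obtain ⟨h1, V, hV, hzV, h2⟩ := isOpen_iff.1 (hO i) w (n + 1) hi
        refine ⟨?_, V, hV, hzV, fun y hy hyz => Or.inr (h2 y hy hyz)⟩
        intro l hl
        rcases Nat.eq_or_lt_of_le hl with h | h
        · left
          rw [← h, hmn]
        · right
          apply h1
          omega
      · obtain ⟨h1, V, hV, hzV, h2⟩ := isOpen_iff.1 (hO i) w m hw
        exact ⟨fun l hl => Or.inr (h1 l hl), V, hV, hzV, fun y hy hyz => Or.inr (h2 y hy hyz)⟩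
    obtain ⟨t, ht⟩ := hGc.elim_finite_subcover (fun j => if j = i then insert (pt z n) (O i) else O j)
      (by
        intro j
        by_cases hj : j = i
        · simp only [hj, if_true]
          exact hO'
        · simp only [hj, if_false]
          exact hO j) (by
        intro x hxG
        by_cases hxn : x = pt z n
        · exact mem_iUnion.2 ⟨i, by simp [hxn]⟩
        · obtain ⟨j, hj⟩ := mem_iUnion.1 (hGO ⟨hxG, hxn⟩)
          refine mem_iUnion.2 ⟨j, ?_⟩
          by_cases hji : j = i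
          · simp only [hji, if_true]
            exact Or.inr (hji ▸ hj)
          · simp only [hji, if_false]
            exact hj)
    refine ⟨t, ?_⟩
    rintro x ⟨hxG, hxn⟩
    obtain ⟨j, hjt, hj⟩ := mem_iUnion₂.1 (ht hxG)
    refine mem_iUnion₂.2 ⟨j, hjt, ?_⟩
    by_cases hji : j = i
    · simp only [hji, if_true] at hj
      rw [hji]
      exact hj.resolve_left hxn
    · simp only [hji, if_false] at hj
      exact hj
  have hs1 : Saturated (G \ {pt z n}) := by
    rw [saturated_iff]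
    intro x hx
    refine ⟨hGs x fun O hO hGO => hx O hO (sdiff_subset.trans hGO), ?_⟩
    intro hxn
    have h1 := hx (U z (n + 1)) (isOpen_U _ _) (by
      rintro ⟨w, m⟩ ⟨hwG, hwn⟩ hwz
      have hwz' : w = z := hwz
      subst hwz'
      by_contra hlt
      have hlt' : m < n + 1 := not_le.1 hlt
      rcases Nat.lt_succ_iff_lt_or_eq.1 hlt' with h | h
      · exact hmin m h hwG
      · exact hwn (by rw [h]; rfl))
    rw [hxn] at h1
    have := h1 rfl
    change n + 1 ≤ n at this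
    omega
  have hc2 : IsCompact {x : E | pt z n ∈ closure {x}} := by
    rw [isCompact_iff_finite_subcover]
    intro ι O hO hGO
    obtain ⟨i, hi⟩ := mem_iUnion.1 (hGO (show pt z n ∈ {x : E | pt z n ∈ closure {x}} from
      subset_closure rfl))
    refine ⟨{i}, ?_⟩
    rintro ⟨w, m⟩ hx
    obtain ⟨hwz, hm⟩ := eq_of_le (w := w) (m := m) hx
    subst hwz
    exact mem_iUnion₂.2 ⟨i, Finset.mem_singleton_self i, up_of_zero (hO i) hi hm⟩
  have hs2 : Saturated {x : E | pt z n ∈ closure {x}} := by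
    rw [saturated_iff]
    intro x hx
    rw [mem_ofPred_eq, mem_closure_iff]
    intro O hO hz
    refine ⟨x, hx O hO ?_, rfl⟩
    rintro ⟨w, m⟩ hx
    obtain ⟨hwz, hm⟩ := eq_of_le (w := w) (m := m) hx
    subst hwz
    exact up_of_zero hO hz hm
  have hsub : {x : E | pt z n ∈ closure {x}} ⊆ G := by
    rintro ⟨w, m⟩ hx
    obtain ⟨hwz, hm⟩ := eq_of_le (w := w) (m := m) hx
    subst hwz
    exact hup hn hm
  refine ⟨pt z n, ?_⟩
  rcases hirr _ _ ⟨hc1, hs1⟩ ⟨hc2, hs2⟩ (by
    apply Subset.antisymm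
    · rintro x (hx | hx)
      · exact hx.1
      · exact hsub hx
    · intro x hx
      by_cases hxn : x = pt z n
      · right
        rw [hxn]
        exact subset_closure rfl
      · exact Or.inl ⟨hx, hxn⟩) with h | h
  · rw [← h] at hn
    exact absurd rfl hn.2
  · exact h.symm

/-- the projection of the image -/
def proj (x : range k) : Z := x.1.1

theorem continuous_fst' : Continuous (fun x : E => x.1) := by
  refine ⟨fun V hV => ?_⟩
  rw [isOpen_iff]
  intro z n h
  exact ⟨fun _ _ => h, V, hV, h, fun y hy _ => hy⟩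

theorem continuous_proj : Continuous proj := continuous_fst'.comp continuous_subtype_val

theorem proj_injective : Function.Injective proj := by
  rintro ⟨_, ⟨⟨z, n⟩, rfl⟩⟩ ⟨_, ⟨⟨w, m⟩, rfl⟩⟩ h
  have h' : z = w := h
  subst h'
  rfl

/-- the inclusion -/
def incl (z : Z) : range k := ⟨pt z 0, ⟨pt z 0, rfl⟩⟩

theorem continuous_incl : Continuous incl := by
  apply Continuous.subtype_mk
  refine ⟨fun O hO => ?_⟩
  rw [isOpen_iff_forall_mem_open]
  intro z hz
  obtain ⟨-, V, hV, hzV, h2⟩ := isOpen_iff.1 hO z 0 hz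
  refine ⟨V, ?_, hV, hzV⟩
  intro y hy
  by_cases hyz : y = z
  · rw [hyz]
    exact hz
  · exact h2 y hy hyz

instance : T1Space (range k) := by
  refine ⟨fun x => ?_⟩
  have : ({x} : Set (range k)) = proj ⁻¹' {proj x} := by
    ext y
    constructor
    · rintro rfl
      rfl
    · intro hy
      exact proj_injective hy
  rw [this]
  exact isClosed_singleton.preimage continuous_proj

theorem not_coSober_range : ¬ CoSober (range k) := by
  have hsurj : range incl = univ := by
    apply eq_univ_of_forall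
    rintro ⟨_, ⟨⟨z, n⟩, rfl⟩⟩
    exact ⟨z, rfl⟩
  refine not_coSober_of_t1 (G := (univ : Set (range k))) (hsurj ▸ isCompact_range continuous_incl)
    (mem_univ (incl (0 : ℕ))) (mem_univ (incl (1 : ℕ))) ?_ ?_
  · intro h
    have h' : (0 : ℕ) = 1 := congrArg proj h
    cases h'
  · intro K₁ K₂ h₁ h₂ hK
    have h3 := indecomposable_Z (h₁.image continuous_proj) (h₂.image continuous_proj) (by
      rw [← image_union, hK, image_univ]
      apply eq_univ_of_forall
      intro z
      exact ⟨incl z, rfl⟩)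
    rcases h3 with h3 | h3
    · left
      apply eq_univ_of_forall
      intro x
      obtain ⟨y, hy, hyx⟩ : proj x ∈ proj '' K₁ := h3 ▸ mem_univ _
      rw [← proj_injective hyx]
      exact hy
    · right
      apply eq_univ_of_forall
      intro x
      obtain ⟨y, hy, hyx⟩ : proj x ∈ proj '' K₂ := h3 ▸ mem_univ _
      rw [← proj_injective hyx]
      exact hy

end Pool.Agent.R812.CoSober.Kernel
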