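import Mathlib

/-!
# Basic continuum theory in compact Hausdorff spaces
-/

set_option autoImplicit false

open Set Topology

namespace Pool.Agent.R812.Cont

universe u

variable {S : Type u} [TopologicalSpace S]

/-- The intersection of a nonempty directed family of closed connected sets of a compact Hausdorff
space is connected. -/
theorem isPreconnected_sInter [CompactSpace S] [T2Space S] {F : Set (Set S)} (hne : F.Nonempty)
    (hdir : DirectedOn (fun a b => b ⊆ a) F) (hcl : ∀ K ∈ F, IsClosed K)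
    (hconn : ∀ K ∈ F, IsPreconnected K) : IsPreconnected (⋂₀ F) := by
  have hclI : IsClosed (⋂₀ F) := isClosed_sInter hcl
  rw [isPreconnected_iff_subset_of_fully_disjoint_closed hclI]
  intro a b ha hb hab habd
  rcases normal_separation ha hb habd with ⟨u, v, hu, hv, hau, hbv, huv⟩
  obtain ⟨K, hKF, hK⟩ : ∃ K ∈ F, K ⊆ u ∪ v := by
    by_contra hcon
    push Not at hcon
    have hneF : Nonempty F := hne.to_subtype
    have hdir' : Directed (fun a b : Set S => b ⊆ a) fun i : F => (i : Set S) :=
      directedOn_iff_directed.1 hdir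
    have := IsCompact.nonempty_iInter_of_directed_nonempty_isCompact_isClosed
      (fun i : F => (i : Set S) ∩ (u ∪ v)ᶜ)
      (fun i j => by
        obtain ⟨k, h1, h2⟩ := hdir' i j
        exact ⟨k, inter_subset_inter_left _ h1, inter_subset_inter_left _ h2⟩)
      (fun i => by
        obtain ⟨x, hx, hx'⟩ := not_subset.1 (hcon i i.2)
        exact ⟨x, hx, hx'⟩)
      (fun i => ((hcl i i.2).inter (hu.union hv).isClosed_compl).isCompact)
      (fun i => (hcl i i.2).inter (hu.union hv).isClosed_compl)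
    obtain ⟨x, hx⟩ := this
    rw [mem_iInter] at hx
    have hxF : x ∈ ⋂₀ F := fun K hK => (hx ⟨K, hK⟩).1
    have hxuv : x ∉ u ∪ v := (hx ⟨hne.choose, hne.choose_spec⟩).2
    rcases hab hxF with h | h
    · exact hxuv (Or.inl (hau h))
    · exact hxuv (Or.inr (hbv h))
  rcases (hconn K hKF).subset_or_subset hu hv huv hK with h | h
  · left
    intro x hx
    rcases hab hx with h' | h'
    · exact h'
    · exact absurd (hbv h') (fun h'' => huv.le_bot ⟨h (hx K hKF), h''⟩)
  · right
    intro x hx
    rcases hab hx with h' | h'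
    · exact absurd (hau h') (fun h'' => huv.le_bot ⟨h'', h (hx K hKF)⟩)
    · exact h'

/-- Boundary bumping: if the closed connected set `C` is not contained in the closed set `F` and
`x ∈ C ∩ F`, then the component of `x` in `C ∩ F` meets the closure of `C \ F`. -/
theorem bump [CompactSpace S] [T2Space S] {C F : Set S} (hC : IsPreconnected C)
    (hCc : IsClosed C) (hF : IsClosed F) {x : S} (hxC : x ∈ C) (hxF : x ∈ F) (hCF : ¬ C ⊆ F) :
    (connectedComponentIn (C ∩ F) x ∩ closure (C \ F)).Nonempty := by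
  by_contra hcon
  rw [not_nonempty_iff_eq_empty] at hcon
  set K : Set S := C ∩ F with hK
  have hKc : IsClosed K := hCc.inter hF
  have hxK : x ∈ K := ⟨hxC, hxF⟩
  have : CompactSpace K := isCompact_iff_compactSpace.mp hKc.isCompact
  let x' : K := ⟨x, hxK⟩
  rw [connectedComponentIn_eq_image hxK] at hcon
  have h1 : connectedComponent x' ⊆ (Subtype.val ⁻¹' (closure (C \ F))ᶜ : Set K) := by
    intro y hy hy'
    have : (y : S) ∈ (Subtype.val '' connectedComponent x') ∩ closure (C \ F) :=
      ⟨⟨y, hy, rfl⟩, hy'⟩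
    rw [hcon] at this
    exact this
  rw [connectedComponent_eq_iInter_isClopen] at h1
  have hopen : IsOpen (Subtype.val ⁻¹' (closure (C \ F))ᶜ : Set K) :=
    isClosed_closure.isOpen_compl.preimage continuous_subtype_val
  obtain ⟨Z, hZ, hxZ, hZU⟩ : ∃ Z : Set K, IsClopen Z ∧ x' ∈ Z ∧
      Z ⊆ Subtype.val ⁻¹' (closure (C \ F))ᶜ := by
    by_contra hno
    push Not at hno
    let ι := { Z : Set K // IsClopen Z ∧ x' ∈ Z }
    have hne : Nonempty ι := ⟨⟨univ, isClopen_univ, mem_univ _⟩⟩
    have := IsCompact.nonempty_iInter_of_directed_nonempty_isCompact_isClosed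
      (fun Z : ι => (Z : Set K) ∩ (Subtype.val ⁻¹' (closure (C \ F))ᶜ)ᶜ)
      (fun Z W => ⟨⟨Z.1 ∩ W.1, Z.2.1.inter W.2.1, Z.2.2, W.2.2⟩,
        inter_subset_inter_left _ inter_subset_left, inter_subset_inter_left _ inter_subset_right⟩)
      (fun Z => by
        obtain ⟨y, hy, hy'⟩ := not_subset.1 (hno Z.1 Z.2.1 Z.2.2)
        exact ⟨y, hy, hy'⟩)
      (fun Z => (Z.2.1.isClosed.inter hopen.isClosed_compl).isCompact)
      (fun Z => Z.2.1.isClosed.inter hopen.isClosed_compl)
    obtain ⟨y, hy⟩ := this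
    rw [mem_iInter] at hy
    have hy1 : y ∈ ⋂ s : { s : Set K // IsClopen s ∧ x' ∈ s }, s.1 :=
      mem_iInter.2 fun Z => (hy Z).1
    exact (hy ⟨univ, isClopen_univ, mem_univ _⟩).2 (h1 hy1)
  -- `Z` is a closed and open subset of `C`
  have hZcl : IsClosed (Subtype.val '' Z : Set S) :=
    (hKc.isClosedEmbedding_subtypeVal).isClosedMap Z hZ.isClosed
  have hWcl : IsClosed (Subtype.val '' Zᶜ ∪ closure (C \ F) : Set S) :=
    ((hKc.isClosedEmbedding_subtypeVal).isClosedMap Zᶜ hZ.compl.isClosed).union isClosed_closure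
  have hcov : C ⊆ Subtype.val '' Z ∪ (Subtype.val '' Zᶜ ∪ closure (C \ F)) := by
    intro y hy
    by_cases hyF : y ∈ F
    · by_cases hyZ : (⟨y, hy, hyF⟩ : K) ∈ Z
      · exact Or.inl ⟨_, hyZ, rfl⟩
      · exact Or.inr (Or.inl ⟨_, hyZ, rfl⟩)
    · exact Or.inr (Or.inr (subset_closure ⟨hy, hyF⟩))
  obtain ⟨w, hwC, hwF⟩ := not_subset.1 hCF
  have hmeet := (isPreconnected_closed_iff.1 hC) _ _ hZcl hWcl hcov
    ⟨x, hxC, ⟨x', hxZ, rfl⟩⟩ ⟨w, hwC, Or.inr (subset_closure ⟨hwC, hwF⟩)⟩
  obtain ⟨y, -, ⟨y1, hy1, rfl⟩, hy2⟩ := hmeet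
  rcases hy2 with ⟨y2, hy2, h12⟩ | hy2
  · have : y2 = y1 := Subtype.ext h12
    exact hy2 (this ▸ hy1)
  · exact hZU hy1 hy2

/-- a preconnected subset lies in the component of any of its points -/
theorem subset_comp {F A : Set S} (hA : IsPreconnected A) (hAF : A ⊆ F) {x : S} (hx : x ∈ A) :
    A ⊆ connectedComponentIn F x :=
  hA.subset_connectedComponentIn hx hAF

/-- components of closed sets are closed -/
theorem isClosed_comp {F : Set S} (hF : IsClosed F) (x : S) :
    IsClosed (connectedComponentIn F x) := by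
  by_cases hx : x ∈ F
  · apply isClosed_of_closure_subset
    apply (isPreconnected_connectedComponentIn (x := x) (F := F)).closure.subset_connectedComponentIn
    · exact subset_closure (mem_connectedComponentIn hx)
    · exact hF.closure_subset_iff.2 (connectedComponentIn_subset F x)
  · rw [connectedComponentIn_eq_empty hx]
    exact isClosed_empty

/-- A subcontinuum of the space `S`: a nonempty compact connected subset. -/
def IsSubcontinuum (K : Set S) : Prop := IsCompact K ∧ IsConnected K

/-- two subcontinua with a common point have a union which is a subcontinuum -/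
theorem IsSubcontinuum.union {K L : Set S} (hK : IsSubcontinuum K) (hL : IsSubcontinuum L)
    (h : (K ∩ L).Nonempty) : IsSubcontinuum (K ∪ L) :=
  ⟨hK.1.union hL.1, IsConnected.union h hK.2 hL.2⟩

/-- the intersection of a nonempty chain of subcontinua is a subcontinuum -/
theorem IsSubcontinuum.sInter [CompactSpace S] [T2Space S] {F : Set (Set S)} (hne : F.Nonempty)
    (hF : IsChain (fun a b : Set S => a ⊆ b) F) (hc : ∀ K ∈ F, IsSubcontinuum K) :
    IsSubcontinuum (⋂₀ F) := by
  have hdir : DirectedOn (fun a b : Set S => b ⊆ a) F := by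
    intro a ha b hb
    rcases hF.total ha hb with h | h
    · exact ⟨a, ha, subset_rfl, h⟩
    · exact ⟨b, hb, h, subset_rfl⟩
  refine ⟨(isClosed_sInter fun K hK => (hc K hK).1.isClosed).isCompact, ?_, ?_⟩
  · have hneF : Nonempty F := hne.to_subtype
    have := IsCompact.nonempty_iInter_of_directed_nonempty_isCompact_isClosed
      (fun i : F => (i : Set S)) (directedOn_iff_directed.1 hdir) (fun i => (hc i i.2).2.1)
      (fun i => (hc i i.2).1) (fun i => (hc i i.2).1.isClosed)
    obtain ⟨x, hx⟩ := this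
    rw [mem_iInter] at hx
    exact ⟨x, fun K hK => hx ⟨K, hK⟩⟩
  · exact isPreconnected_sInter hne hdir (fun K hK => (hc K hK).1.isClosed)
      fun K hK => (hc K hK).2.2

/-- Every subcontinuum containing the set `A` contains a minimal such subcontinuum. -/
theorem exists_minimal_subcontinuum [CompactSpace S] [T2Space S] (A : Set S) {D : Set S}
    (hD : IsSubcontinuum D) (hAD : A ⊆ D) :
    ∃ E : Set S, IsSubcontinuum E ∧ A ⊆ E ∧ E ⊆ D ∧
      ∀ E' : Set S, IsSubcontinuum E' → A ⊆ E' → E' ⊆ E → E' = E := by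
  obtain ⟨E, hED, hE⟩ := zorn_superset_nonempty {E : Set S | IsSubcontinuum E ∧ A ⊆ E}
    (fun c hc hchain hne => ⟨⋂₀ c, ⟨IsSubcontinuum.sInter hne hchain fun K hK => (hc hK).1,
      fun x hx K hK => (hc hK).2 hx⟩, fun K hK => sInter_subset_of_mem hK⟩) D ⟨hD, hAD⟩
  exact ⟨E, hE.prop.1, hE.prop.2, hED, fun E' h1 h2 h3 => hE.eq_of_subset ⟨h1, h2⟩ h3⟩

end Pool.Agent.R812.Cont
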