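import Pool.Agent.R812.Cont

/-!
# The quotient hyperspace HS(p,X)
-/

set_option autoImplicit false

open Set Topology TopologicalSpace

namespace Pool.Agent.R812.HSp

open Pool.Agent.R812.Cont

universe u

/-- The hyperspace `C(X)` of subcontinua of `X` (singletons included), with the topology of the
Hausdorff metric. -/
abbrev Sub (X : Type u) [MetricSpace X] : Type u :=
  {K : NonemptyCompacts X // IsConnected (K : Set X)}

/-- The equivalence relation on `C(X)` which identifies all subcontinua containing `p`. -/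
def collapse {X : Type u} [MetricSpace X] (p : X) : Setoid (Sub X) where
  r A B := A = B ∨ (p ∈ (A.1 : Set X) ∧ p ∈ (B.1 : Set X))
  iseqv :=
    { refl := fun _ => Or.inl rfl
      symm := by
        rintro A B (h | h)
        · exact Or.inl h.symm
        · exact Or.inr ⟨h.2, h.1⟩
      trans := by
        rintro A B C (rfl | h1) (rfl | h2)
        · exact Or.inl rfl
        · exact Or.inr h2
        · exact Or.inr h1
        · exact Or.inr ⟨h1.1, h2.2⟩ }

/-- The quotient space `HS(p,X) = C(X)/C(p,X)`. -/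
abbrev HS {X : Type u} [MetricSpace X] (p : X) : Type u := Quotient (collapse p)

/-- `Y` is aposyndetic at `x` with respect to `y`: some nondegenerate subcontinuum of `Y` has `x`
in its interior and misses `y`. -/
def AposyndeticAt {Y : Type u} [TopologicalSpace Y] (x y : Y) : Prop :=
  ∃ M : Set Y, IsCompact M ∧ IsConnected M ∧ M.Nontrivial ∧ x ∈ interior M ∧ y ∉ M

/-- `Y` is aposyndetic. -/
def Aposyndetic (Y : Type u) [TopologicalSpace Y] : Prop :=
  ∀ x y : Y, x ≠ y → AposyndeticAt x y

/-- `Y` is semi-aposyndetic. -/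
def SemiAposyndetic (Y : Type u) [TopologicalSpace Y] : Prop :=
  ∀ x y : Y, x ≠ y → AposyndeticAt x y ∨ AposyndeticAt y x

section

variable {X : Type u} [MetricSpace X]

/-- the quotient map -/
def qm (p : X) (A : Sub X) : HS p := Quotient.mk (collapse p) A

theorem continuous_qm (p : X) : Continuous (qm p) := continuous_quotient_mk'

theorem qm_eq {p : X} {A B : Sub X} :
    qm p A = qm p B ↔ (A = B ∨ (p ∈ (A.1 : Set X) ∧ p ∈ (B.1 : Set X))) := Quotient.eq

theorem isOpen_hits {O : Set X} (hO : IsOpen O) :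
    IsOpen {A : Sub X | ((A.1 : Set X) ∩ O).Nonempty} :=
  (NonemptyCompacts.isOpen_inter_nonempty_of_isOpen hO).preimage continuous_subtype_val

theorem isClosed_hits {O : Set X} (hO : IsClosed O) :
    IsClosed {A : Sub X | ((A.1 : Set X) ∩ O).Nonempty} :=
  (NonemptyCompacts.isClosed_inter_nonempty_of_isClosed hO).preimage continuous_subtype_val

/-- images of open sets which are saturated are open -/
theorem isOpen_image_qm {p : X} {W : Set (Sub X)} (hW : IsOpen W)
    (hs : ∀ A B : Sub X, A ∈ W → p ∈ (A.1 : Set X) → p ∈ (B.1 : Set X) → B ∈ W) :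
    IsOpen (qm p '' W) := by
  have hq : IsQuotientMap (qm p) := isQuotientMap_quotient_mk'
  rw [← hq.isOpen_preimage]
  convert hW using 1
  ext B
  constructor
  · rintro ⟨A, hA, hAB⟩
    rcases qm_eq.1 hAB with rfl | ⟨h1, h2⟩
    · exact hA
    · exact hs A B hA h1 h2
  · exact fun hB => ⟨B, hB, rfl⟩


attribute [local instance] TopologicalSpace.vietoris in
theorem isPreconnected_biUnion_sub {ι : Type*} [TopologicalSpace ι] {f : ι → Sub X}
    (hf : Continuous f) {M : Set ι} (hM : IsPreconnected M) (hne : M.Nonempty) :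
    IsPreconnected (⋃ i ∈ M, (((f i).1 : Set X))) := by
  apply vietoris.isPreconnected_biUnion hM
  · exact (NonemptyCompacts.continuous_coe.comp (continuous_subtype_val.comp hf)).continuousOn
  · obtain ⟨i, hi⟩ := hne
    exact ⟨i, hi, (f i).2.2⟩

/-- the degenerate subcontinuum at a point -/
def sing (a : X) : Sub X := ⟨{a}, by
  rw [NonemptyCompacts.coe_singleton]
  exact isConnected_singleton⟩

theorem coe_sing (a : X) : ((sing a).1 : Set X) = {a} := rfl

theorem continuous_sing : Continuous (sing : X → Sub X) :=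
  NonemptyCompacts.continuous_singleton.subtype_mk _

/-- the map from the subcontinua missing `p` into `HS(p,X)` -/
def gm (p : X) (A : {A : Sub X // p ∉ (A.1 : Set X)}) : HS p := qm p A.1

theorem isOpen_missing (p : X) : IsOpen {A : Sub X | p ∉ (A.1 : Set X)} := by
  have : {A : Sub X | p ∉ (A.1 : Set X)} = {A : Sub X | ((A.1 : Set X) ∩ {p}).Nonempty}ᶜ := by
    ext A
    simp
  rw [this]
  exact (isClosed_hits isClosed_singleton).isOpen_compl

theorem gm_injective (p : X) : Function.Injective (gm p) := by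
  intro A B hAB
  rcases qm_eq.1 hAB with h | ⟨h, -⟩
  · exact Subtype.ext h
  · exact absurd h A.2

theorem continuous_gm (p : X) : Continuous (gm p) :=
  (continuous_qm p).comp continuous_subtype_val

theorem isOpenMap_gm (p : X) : IsOpenMap (gm p) := by
  intro W hW
  have h1 : IsOpen (Subtype.val '' W) := (isOpen_missing p).isOpenMap_subtype_val W hW
  have h2 : gm p '' W = qm p '' (Subtype.val '' W) := by
    rw [image_image]
    rfl
  rw [h2]
  apply isOpen_image_qm h1
  rintro _ B ⟨A, -, rfl⟩ hp _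
  exact absurd hp A.2

theorem aposyndetic_criterion [CompactSpace X] {p a : X}
    (h : AposyndeticAt (qm p (sing a)) (qm p (sing p))) :
    ∃ K : Set X, IsSubcontinuum K ∧ a ∈ interior K ∧ p ∉ K := by
  obtain ⟨M, hMc, hMconn, -, haM, hpM⟩ := h
  have hmiss : ∀ A : Sub X, qm p A ∈ M → p ∉ (A.1 : Set X) := by
    intro A hA hpA
    apply hpM
    have : qm p (sing p) = qm p A := qm_eq.2 (Or.inr ⟨rfl, hpA⟩)
    rw [this]
    exact hA
  have hrange : M ⊆ range (gm p) := by
    intro y hy
    obtain ⟨A, rfl⟩ : ∃ A, qm p A = y := Quotient.exists_rep y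
    exact ⟨⟨A, hmiss A hy⟩, rfl⟩
  have hemb : IsOpenEmbedding (gm p) :=
    .of_continuous_injective_isOpenMap (continuous_gm p) (gm_injective p) (isOpenMap_gm p)
  have hc : IsCompact (gm p ⁻¹' M) := hemb.isInducing.isCompact_preimage' hMc hrange
  have hconn : IsPreconnected (gm p ⁻¹' M) :=
    hMconn.2.preimage_of_isOpenMap (gm_injective p) (isOpenMap_gm p) hrange
  have haM' : qm p (sing a) ∈ M := interior_subset haM
  have hne : (gm p ⁻¹' M).Nonempty := ⟨⟨sing a, hmiss _ haM'⟩, haM'⟩
  refine ⟨⋃ A ∈ gm p ⁻¹' M, (A.1.1 : Set X), ⟨?_, ?_, ?_⟩, ?_, ?_⟩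
  · have h1 : IsCompact ((fun A : {A : Sub X // p ∉ (A.1 : Set X)} => A.1.1) '' (gm p ⁻¹' M)) :=
      hc.image (continuous_subtype_val.comp continuous_subtype_val)
    have h2 := NonemptyCompacts.isCompact_biUnion_coe_of_isCompact h1
    rwa [biUnion_image] at h2
  · exact ⟨a, mem_iUnion₂.2 ⟨⟨sing a, hmiss _ haM'⟩, haM', rfl⟩⟩
  · exact isPreconnected_biUnion_sub
      (f := fun A : {A : Sub X // p ∉ (A.1 : Set X)} => A.1) continuous_subtype_val hconn hne
  · have h1 : IsOpen ((fun x => qm p (sing x)) ⁻¹' (interior M)) :=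
      isOpen_interior.preimage ((continuous_qm p).comp continuous_sing)
    refine interior_maximal ?_ h1 haM
    intro x hx
    have hx' : qm p (sing x) ∈ M := interior_subset hx
    exact mem_iUnion₂.2 ⟨⟨sing x, hmiss _ hx'⟩, hx', rfl⟩
  · intro hp
    obtain ⟨A, hA, hpA⟩ := mem_iUnion₂.1 hp
    exact A.2 hpA

end

/-- a continuum with a proper subcontinuum with nonempty interior is decomposable -/
theorem decomposable_of_interior {X : Type u} [TopologicalSpace X] [CompactSpace X] [T2Space X]
    [ConnectedSpace X] {K : Set X} (hK : IsSubcontinuum K) (hne : K ≠ univ) {a : X}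
    (ha : a ∈ interior K) : ∃ A B : Set X, IsSubcontinuum A ∧ IsSubcontinuum B ∧ A ≠ univ ∧
      B ≠ univ ∧ A ∪ B = univ := by
  by_cases hc : IsPreconnected Kᶜ
  · have hKne : (Kᶜ : Set X).Nonempty := by
      rw [nonempty_compl]
      exact hne
    refine ⟨K, closure Kᶜ, hK, ⟨isClosed_closure.isCompact, hKne.closure, hc.closure⟩, hne,
      ?_, ?_⟩
    · intro h
      have : a ∈ closure Kᶜ := h ▸ mem_univ a
      rw [closure_compl] at this
      exact this ha
    · exact eq_univ_of_forall fun x => (em (x ∈ K)).imp id fun h => subset_closure h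
  · unfold IsPreconnected at hc
    push Not at hc
    obtain ⟨U, V, hU, hV, hUV, hKU, hKV, hdis⟩ := hc
    have hKo : IsOpen Kᶜ := hK.1.isClosed.isOpen_compl
    have main : ∀ U V : Set X, IsOpen U → IsOpen V → Kᶜ ⊆ U ∪ V → (Kᶜ ∩ U).Nonempty →
        (Kᶜ ∩ V).Nonempty → Kᶜ ∩ (U ∩ V) = ∅ → IsSubcontinuum (K ∪ (Kᶜ ∩ U)) ∧
        K ∪ (Kᶜ ∩ U) ≠ univ := by
      intro U V hU hV hUV hKU hKV hdis
      have hcompl : (K ∪ (Kᶜ ∩ U)) = (Kᶜ ∩ V)ᶜ := by
        ext x
        constructor
        · rintro (h | ⟨h1, h2⟩) ⟨h3, h4⟩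
          · exact h3 h
          · have : x ∈ Kᶜ ∩ (U ∩ V) := ⟨h1, h2, h4⟩
            rw [hdis] at this
            exact this
        · intro h
          by_cases hx : x ∈ K
          · exact Or.inl hx
          · refine Or.inr ⟨hx, ?_⟩
            rcases hUV hx with h' | h'
            · exact h'
            · exact absurd ⟨hx, h'⟩ h
      have hcl : IsClosed (K ∪ (Kᶜ ∩ U)) := by
        rw [hcompl]
        exact (hKo.inter hV).isClosed_compl
      refine ⟨⟨hcl.isCompact, hK.2.1.mono subset_union_left, ?_⟩, ?_⟩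
      · rw [isPreconnected_iff_subset_of_fully_disjoint_closed hcl]
        intro C D hC hD hCD hdisj
        have key : ∀ C D : Set X, IsClosed C → IsClosed D → K ∪ (Kᶜ ∩ U) ⊆ C ∪ D →
            Disjoint C D → K ⊆ C → K ∪ (Kᶜ ∩ U) ⊆ C := by
          intro C D hC hD hCD hdisj hKC
          have h1 : IsClopen ((K ∪ (Kᶜ ∩ U)) ∩ D) := by
            refine ⟨hcl.inter hD, ?_⟩
            have : (K ∪ (Kᶜ ∩ U)) ∩ D = (Kᶜ ∩ U) ∩ Cᶜ := by
              ext x
              constructor
              · rintro ⟨h1 | h1, h2⟩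
                · exact absurd h2 (Set.disjoint_left.1 hdisj (hKC h1))
                · exact ⟨h1, fun h3 => Set.disjoint_left.1 hdisj h3 h2⟩
              · rintro ⟨h1, h2⟩
                exact ⟨Or.inr h1, (hCD (Or.inr h1)).resolve_left h2⟩
            rw [this]
            exact (hKo.inter hU).inter hC.isOpen_compl
          rcases isClopen_iff.1 h1 with h2 | h2
          · intro x hx
            rcases hCD hx with h3 | h3
            · exact h3
            · have : x ∈ (K ∪ (Kᶜ ∩ U)) ∩ D := ⟨hx, h3⟩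
              rw [h2] at this
              exact absurd this (notMem_empty x)
          · obtain ⟨x, hx⟩ := hK.2.1
            have : x ∈ (K ∪ (Kᶜ ∩ U)) ∩ D := h2 ▸ mem_univ x
            exact absurd this.2 (Set.disjoint_left.1 hdisj (hKC hx))
        have hKCD : K ⊆ C ∨ K ⊆ D :=
          (isPreconnected_iff_subset_of_fully_disjoint_closed hK.1.isClosed).1 hK.2.2 C D hC hD
            (subset_union_left.trans hCD) hdisj
        rcases hKCD with h | h
        · exact Or.inl (key C D hC hD hCD hdisj h)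
        · exact Or.inr (key D C hD hC (by rw [union_comm D C]; exact hCD) hdisj.symm h)
      · rw [hcompl]
        intro h
        rw [compl_univ_iff] at h
        rw [h] at hKV
        exact not_nonempty_empty hKV
    obtain ⟨h1, h2⟩ := main U V hU hV hUV hKU hKV hdis
    obtain ⟨h3, h4⟩ := main V U hV hU (by rwa [union_comm]) hKV hKU
      (by rw [inter_comm V U]; exact hdis)
    refine ⟨_, _, h1, h3, h2, h4, ?_⟩
    apply eq_univ_of_forall
    intro x
    by_cases hx : x ∈ K
    · exact Or.inl (Or.inl hx)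
    · rcases hUV hx with h | h
      · exact Or.inl (Or.inr ⟨hx, h⟩)
      · exact Or.inr (Or.inr ⟨hx, h⟩)

section

variable {X : Type u} [MetricSpace X] [CompactSpace X] [ConnectedSpace X]

/-- the whole space as a subcontinuum -/
def top : Sub X := ⟨⊤, by
  rw [NonemptyCompacts.coe_top]
  exact isConnected_univ⟩

theorem coe_top : ((top : Sub X).1 : Set X) = univ := NonemptyCompacts.coe_top

/-- the set of all subcontinua containing a given one is connected -/
theorem isPreconnected_above (D : Sub X) :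
    IsPreconnected {E : Sub X | (D.1 : Set X) ⊆ E.1} := by
  have hclosed : IsClosed {E : Sub X | (D.1 : Set X) ⊆ E.1} := by
    have : {E : Sub X | (D.1 : Set X) ⊆ E.1} =
        ⋂ x ∈ (D.1 : Set X), {E : Sub X | ((E.1 : Set X) ∩ {x}).Nonempty} := by
      ext E
      simp [Set.subset_def]
    rw [this]
    exact isClosed_biInter fun x _ => isClosed_hits isClosed_singleton
  -- a clopen part not containing the whole space is empty
  have key : ∀ P Q : Set (Sub X), IsClosed P → IsClosed Q → {E : Sub X | (D.1 : Set X) ⊆ E.1} ⊆ P ∪ Q →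
      Disjoint P Q → top ∈ Q → {E : Sub X | (D.1 : Set X) ⊆ E.1} ⊆ Q := by
    intro P Q hP hQ hPQ hdis htop E₀ hE₀
    by_contra hE₀Q
    have hE₀P : E₀ ∈ P := (hPQ hE₀).resolve_right hE₀Q
    -- a maximal element of `P` above `E₀`
    obtain ⟨M, hM0, hM⟩ := zorn_subset_nonempty
      {M : Set X | ∃ E ∈ P, (D.1 : Set X) ⊆ E.1 ∧ M = (E.1 : Set X)} (by
        intro c hc hchain hne
        have hcne : (⋃₀ c).Nonempty := by
          obtain ⟨K, hK⟩ := hne
          obtain ⟨E, -, -, hE⟩ := hc hK
          obtain ⟨x, hx⟩ := E.2.1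
          exact ⟨x, K, hK, hE ▸ hx⟩
        have hconn : IsPreconnected (⋃₀ c) := by
          obtain ⟨K, hK⟩ := hne
          obtain ⟨E, -, -, hE⟩ := hc hK
          obtain ⟨x, hx⟩ := E.2.1
          have hDx : ∀ L ∈ c, (D.1 : Set X) ⊆ L := by
            intro L hL
            obtain ⟨E', -, h2, hE'⟩ := hc hL
            exact hE' ▸ h2
          obtain ⟨y, hy⟩ := D.2.1
          refine isPreconnected_sUnion y c (fun L hL => hDx L hL hy) fun L hL => ?_
          obtain ⟨E', -, -, hE'⟩ := hc hL
          rw [hE']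
          exact E'.2.2
        let L : NonemptyCompacts X := ⟨⟨closure (⋃₀ c), isClosed_closure.isCompact⟩, hcne.closure⟩
        let E : Sub X := ⟨L, hcne.closure, hconn.closure⟩
        have hDE : (D.1 : Set X) ⊆ E.1 := by
          obtain ⟨K, hK⟩ := hne
          obtain ⟨E', -, h2, hE'⟩ := hc hK
          exact (h2.trans (hE' ▸ subset_sUnion_of_mem hK)).trans subset_closure
        refine ⟨closure (⋃₀ c), ⟨E, ?_, hDE, rfl⟩, fun s hs =>
          (subset_sUnion_of_mem hs).trans subset_closure⟩
        -- `E` is in the closure of `P`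
        by_contra hEP
        have hEP' : E ∈ Pᶜ := hEP
        have h1 : Pᶜ ∈ 𝓝 E := hP.isOpen_compl.mem_nhds hEP'
        rw [nhds_induced, Filter.mem_comap] at h1
        obtain ⟨N, hN, hNP⟩ := h1
        obtain ⟨v, ⟨u, ⟨hufin, hune, huo⟩, rfl⟩, hEv, hvN⟩ :=
          NonemptyCompacts.isTopologicalBasis.mem_nhds_iff.1 hN
        obtain ⟨hEu, hEO⟩ := hEv
        have hfin : ∀ t : Finset (Set X), (∀ O ∈ t, O ∈ u) → ∃ K ∈ c, ∀ O ∈ t,
            (K ∩ O).Nonempty := by
          classical
          intro t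
          induction t using Finset.induction_on with
          | empty =>
            intro _
            exact ⟨hne.choose, hne.choose_spec, by simp⟩
          | insert a t hat ih =>
            intro ht
            obtain ⟨K, hK, hKt⟩ := ih fun O hO => ht O (Finset.mem_insert_of_mem hO)
            have ha : a ∈ u := ht a (Finset.mem_insert_self a t)
            obtain ⟨y, hy, hya⟩ := hEO a ha
            obtain ⟨y', hy'a, K', hK', hy'K⟩ := mem_closure_iff.1 hy a (huo a ha) hya
            rcases hchain.total hK hK' with h1 | h1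
            · refine ⟨K', hK', fun O hO => ?_⟩
              rcases Finset.mem_insert.1 hO with rfl | hO
              · exact ⟨y', hy'K, hy'a⟩
              · exact (hKt O hO).mono (inter_subset_inter_left _ h1)
            · refine ⟨K, hK, fun O hO => ?_⟩
              rcases Finset.mem_insert.1 hO with rfl | hO
              · exact ⟨y', h1 hy'K, hy'a⟩
              · exact hKt O hO
        obtain ⟨K, hK, hKu⟩ := hfin hufin.toFinset fun O hO => hufin.mem_toFinset.1 hO
        obtain ⟨E', hE'P, hE'D, hE'⟩ := hc hK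
        have h2 : E'.1 ∈ N := by
          apply hvN
          refine ⟨?_, fun O hO => ?_⟩
          · rw [← hE']
            exact ((subset_sUnion_of_mem hK).trans subset_closure).trans hEu
          · rw [← hE']
            exact hKu O (hufin.mem_toFinset.2 hO)
        exact hNP h2 hE'P) (E₀.1 : Set X) ⟨E₀, hE₀P, hE₀, rfl⟩
    obtain ⟨E, hEP, hDE, hEM⟩ := hM.prop
    have hEQ : E ∉ Q := fun h => Set.disjoint_left.1 hdis hEP h
    have hEne : (E.1 : Set X) ≠ univ := by
      intro h
      have : E = top := by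
        apply Subtype.ext
        apply SetLike.coe_injective
        rw [h, coe_top]
      exact hEQ (this ▸ htop)
    obtain ⟨x, hx⟩ := (ne_univ_iff_exists_notMem _).1 hEne
    have h1 : Qᶜ ∈ 𝓝 E := hQ.isOpen_compl.mem_nhds hEQ
    rw [nhds_induced, Filter.mem_comap] at h1
    obtain ⟨N, hN, hNQ⟩ := h1
    obtain ⟨v, ⟨u, ⟨hufin, hune, huo⟩, rfl⟩, hEv, hvN⟩ :=
      NonemptyCompacts.isTopologicalBasis.mem_nhds_iff.1 hN
    obtain ⟨hEu, hEO⟩ := hEv
    have hEcl : IsClosed (E.1 : Set X) := E.1.isCompact.isClosed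
    have hOo : IsOpen (⋃₀ u ∩ {x}ᶜ) :=
      (isOpen_sUnion huo).inter isClosed_singleton.isOpen_compl
    obtain ⟨V, hVo, hEV, hVcl⟩ : ∃ V : Set X, IsOpen V ∧ (E.1 : Set X) ⊆ V ∧
        closure V ⊆ ⋃₀ u ∩ {x}ᶜ := by
      apply normal_exists_closure_subset hEcl hOo
      intro y hy
      refine ⟨hEu hy, ?_⟩
      rintro rfl
      exact hx hy
    have hVne : ¬ (univ : Set X) ⊆ closure V := by
      intro h
      exact (hVcl (h (mem_univ x))).2 rfl
    obtain ⟨y, hy⟩ := E.2.1
    obtain ⟨w, hw1, hw2⟩ := bump (C := univ) (F := closure V) isPreconnected_univ isClosed_univ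
      isClosed_closure (mem_univ y) (subset_closure (hEV hy)) hVne
    rw [univ_inter] at hw1
    let C : Set X := connectedComponentIn (closure V) y
    have hyC : y ∈ C := mem_connectedComponentIn (subset_closure (hEV hy))
    have hEC : (E.1 : Set X) ⊆ C := subset_comp E.2.2 (hEV.trans subset_closure) hy
    have hCV : C ⊆ closure V := connectedComponentIn_subset _ _
    let L : NonemptyCompacts X := ⟨⟨C, (isClosed_comp isClosed_closure y).isCompact⟩, ⟨y, hyC⟩⟩
    let E' : Sub X := ⟨L, ⟨y, hyC⟩, isPreconnected_connectedComponentIn⟩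
    have hE'N : E'.1 ∈ N := by
      apply hvN
      refine ⟨?_, fun O hO => (hEO O hO).mono (inter_subset_inter_left _ hEC)⟩
      exact (hCV.trans hVcl).trans inter_subset_left
    have hE'Q : E' ∉ Q := fun h => hNQ hE'N h
    have hE'D : (D.1 : Set X) ⊆ E'.1 := hDE.trans hEC
    have hE'P : E' ∈ P := (hPQ hE'D).resolve_right hE'Q
    have h3 : M = C := hM.eq_of_subset ⟨E', hE'P, hE'D, rfl⟩ (hEM ▸ hEC)
    have hwE : w ∈ (E.1 : Set X) := by
      rw [← hEM, h3]
      exact hw1
    have hwV : w ∈ V := hEV hwE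
    obtain ⟨w', hw'V, -, hw'⟩ := mem_closure_iff.1 hw2 V hVo hwV
    exact hw' (subset_closure hw'V)
  rw [isPreconnected_iff_subset_of_fully_disjoint_closed hclosed]
  intro P Q hP hQ hPQ hdis
  have htop : (top : Sub X) ∈ {E : Sub X | (D.1 : Set X) ⊆ E.1} := by
    change (D.1 : Set X) ⊆ ((top : Sub X).1 : Set X)
    rw [coe_top]
    exact subset_univ _
  rcases hPQ htop with h | h
  · exact Or.inl (key Q P hQ hP (by rw [union_comm Q P]; exact hPQ) hdis.symm h)
  · exact Or.inr (key P Q hP hQ hPQ hdis h)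

/-- the set of all subcontinua meeting a nonempty set is connected -/
theorem isConnected_hits {N : Set X} (hN : N.Nonempty) :
    IsConnected {A : Sub X | ((A.1 : Set X) ∩ N).Nonempty} := by
  obtain ⟨x, hx⟩ := hN
  have htop : (top : Sub X) ∈ {A : Sub X | ((A.1 : Set X) ∩ N).Nonempty} := by
    refine ⟨x, ?_, hx⟩
    rw [coe_top]
    exact mem_univ x
  refine ⟨⟨top, htop⟩, ?_⟩
  apply isPreconnected_of_forall top
  intro A hA
  refine ⟨{E : Sub X | (A.1 : Set X) ⊆ E.1}, ?_, ?_, ?_, isPreconnected_above A⟩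
  · intro E hE
    exact hA.mono (inter_subset_inter_left _ hE)
  · change (A.1 : Set X) ⊆ ((top : Sub X).1 : Set X)
    rw [coe_top]
    exact subset_univ _
  · exact (subset_rfl : (A.1 : Set X) ⊆ A.1)

end

end Pool.Agent.R812.HSp
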