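import Pool.Agent.R812.HS

/-!
# The quotient hyperspace HS(p,X) is semi-aposyndetic
-/

set_option autoImplicit false

open Set Topology TopologicalSpace

namespace Pool.Agent.R812.HSp

open Pool.Agent.R812.Cont

universe u

/-- the subcontinua form a closed subset of the hyperspace -/
theorem isClosed_subcontinua (X : Type u) [TopologicalSpace X] [T2Space X] [CompactSpace X] :
    IsClosed {K : NonemptyCompacts X | IsConnected (K : Set X)} := by
  rw [← isOpen_compl_iff, isOpen_iff_mem_nhds]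
  intro K hK
  have hK' : ¬ IsPreconnected (K : Set X) := fun h => hK ⟨K.nonempty, h⟩
  have hKc : IsClosed (K : Set X) := K.isCompact.isClosed
  rw [isPreconnected_iff_subset_of_fully_disjoint_closed hKc] at hK'
  push Not at hK'
  obtain ⟨u, v, hu, hv, huv, hdis, hKu, hKv⟩ := hK'
  obtain ⟨a, haK, hau⟩ := not_subset.1 hKu
  obtain ⟨b, hbK, hbv⟩ := not_subset.1 hKv
  have hav : a ∈ v := (huv haK).resolve_left hau
  have hbu : b ∈ u := (huv hbK).resolve_right hbv
  obtain ⟨U, V, hU, hV, huU, hvV, hUV⟩ := normal_separation hu hv hdis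
  have h1 : IsOpen ({L : NonemptyCompacts X | (L : Set X) ⊆ U ∪ V} ∩
      ({L : NonemptyCompacts X | ((L : Set X) ∩ U).Nonempty} ∩
      {L : NonemptyCompacts X | ((L : Set X) ∩ V).Nonempty})) :=
    (NonemptyCompacts.isOpen_subsets_of_isOpen (hU.union hV)).inter
      ((NonemptyCompacts.isOpen_inter_nonempty_of_isOpen hU).inter
        (NonemptyCompacts.isOpen_inter_nonempty_of_isOpen hV))
  refine Filter.mem_of_superset (h1.mem_nhds
    ⟨huv.trans (union_subset_union huU hvV), ⟨b, hbK, huU hbu⟩, ⟨a, haK, hvV hav⟩⟩) ?_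
  rintro L ⟨hL, hLU, hLV⟩ hLc
  obtain ⟨x, -, hxU, hxV⟩ := hLc.2 U V hU hV hL hLU hLV
  exact Set.disjoint_left.1 hUV hxU hxV

variable {X : Type u} [MetricSpace X] [CompactSpace X]

theorem compactSpace_sub : CompactSpace (Sub X) :=
  isCompact_iff_compactSpace.1 (isClosed_subcontinua X).isCompact

variable [ConnectedSpace X]

theorem aposyndetic_at [Nontrivial X] {p : X} {A B : Sub X} (hpB : p ∉ (B.1 : Set X)) {x : X}
    (hxA : x ∈ (A.1 : Set X)) (hxB : x ∉ (B.1 : Set X)) (hx : x = p ∨ p ∉ (A.1 : Set X)) :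
    AposyndeticAt (qm p A) (qm p B) := by
  have : CompactSpace (Sub X) := compactSpace_sub
  obtain ⟨O, hO, hxO, hOB⟩ : ∃ O : Set X, IsOpen O ∧ x ∈ O ∧ closure O ⊆ (B.1 : Set X)ᶜ := by
    obtain ⟨O, hO, hxO, hOB⟩ := normal_exists_closure_subset (isClosed_singleton (x := x))
      B.1.isCompact.isClosed.isOpen_compl (singleton_subset_iff.2 hxB)
    exact ⟨O, hO, hxO rfl, hOB⟩
  have hconn : IsConnected {E : Sub X | ((E.1 : Set X) ∩ closure O).Nonempty} :=
    isConnected_hits ⟨x, subset_closure hxO⟩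
  have hcpt : IsCompact {E : Sub X | ((E.1 : Set X) ∩ closure O).Nonempty} :=
    (isClosed_hits isClosed_closure).isCompact
  have hsing : ∀ y ∈ O, sing y ∈ {E : Sub X | ((E.1 : Set X) ∩ closure O).Nonempty} :=
    fun y hy => ⟨y, rfl, subset_closure hy⟩
  refine ⟨qm p '' {E : Sub X | ((E.1 : Set X) ∩ closure O).Nonempty},
    hcpt.image (continuous_qm p), hconn.image _ (continuous_qm p).continuousOn, ?_, ?_, ?_⟩
  · -- nondegenerate
    obtain ⟨y, hyO, hyp⟩ : ∃ y ∈ O, y ≠ p := by
      by_contra hno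
      push Not at hno
      have h1 : O = {p} := by
        apply subset_antisymm (fun y hy => hno y hy)
        rw [singleton_subset_iff, ← hno x hxO]
        exact hxO
      have h2 : IsClopen ({p} : Set X) := ⟨isClosed_singleton, h1 ▸ hO⟩
      have h3 := h2.eq_univ (singleton_nonempty p)
      obtain ⟨q, hq⟩ := exists_ne p
      have h4 : q ∈ ({p} : Set X) := h3 ▸ mem_univ q
      exact hq h4
    refine ⟨qm p (sing y), ⟨sing y, hsing y hyO, rfl⟩, qm p top, ⟨top, ?_, rfl⟩, ?_⟩
    · refine ⟨x, ?_, subset_closure hxO⟩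
      rw [coe_top]
      exact mem_univ x
    · intro h
      rcases qm_eq.1 h with h1 | ⟨h1, -⟩
      · have h2 : ({y} : Set X) = univ := by
          rw [← coe_top, ← h1]
          rfl
        have h3 : p ∈ ({y} : Set X) := h2 ▸ mem_univ p
        exact hyp (mem_singleton_iff.1 h3).symm
      · exact hyp (mem_singleton_iff.1 h1).symm
  · -- interior
    rcases hx with rfl | hpA
    · have h1 : IsOpen (qm x '' {E : Sub X | ((E.1 : Set X) ∩ O).Nonempty}) := by
        apply isOpen_image_qm (isOpen_hits hO)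
        intro A' B' _ _ hB'
        exact ⟨x, hB', hxO⟩
      refine interior_maximal ?_ h1 ⟨A, ⟨x, hxA, hxO⟩, rfl⟩
      exact image_mono fun E hE => hE.mono (inter_subset_inter_right _ subset_closure)
    · have h1 : IsOpen (qm p '' ({E : Sub X | ((E.1 : Set X) ∩ O).Nonempty} ∩
          {E : Sub X | p ∉ (E.1 : Set X)})) := by
        apply isOpen_image_qm ((isOpen_hits hO).inter (isOpen_missing p))
        intro A' B' hA' hpA' _
        exact absurd hpA' hA'.2
      refine interior_maximal ?_ h1 ⟨A, ⟨⟨x, hxA, hxO⟩, hpA⟩, rfl⟩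
      exact image_mono fun E hE => hE.1.mono (inter_subset_inter_right _ subset_closure)
  · rintro ⟨E, ⟨y, hyE, hyO⟩, hEB⟩
    rcases qm_eq.1 hEB with rfl | ⟨-, h2⟩
    · exact hOB hyO hyE
    · exact hpB h2

end Pool.Agent.R812.HSp
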