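import Pool.Agent.R812.Cont

/-!
# Jones's set function T and its continuity
-/

set_option autoImplicit false

open Set Topology TopologicalSpace

namespace Pool.Agent.R812.JonesT

open Pool.Agent.R812.Cont

universe u

variable {S : Type u} [TopologicalSpace S]

/-- Jones's set function `T(A)`: the complement of the set of all points which lie in the interior
of a subcontinuum missing `A`. -/
def jonesT (A : Set S) : Set S :=
  {p : S | ∃ W : Set S, IsSubcontinuum W ∧ p ∈ interior W ∧ W ∩ A = ∅}ᶜ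

theorem mem_jonesT {A : Set S} {p : S} :
    p ∈ jonesT A ↔ ∀ W : Set S, IsSubcontinuum W → p ∈ interior W → (W ∩ A).Nonempty := by
  constructor
  · intro h W hW hp
    by_contra hcon
    exact h ⟨W, hW, hp, not_nonempty_iff_eq_empty.1 hcon⟩
  · rintro h ⟨W, hW, hp, hWA⟩
    have := h W hW hp
    rw [hWA] at this
    exact not_nonempty_empty this

theorem notMem_jonesT {A : Set S} {p : S} :
    p ∉ jonesT A ↔ ∃ W : Set S, IsSubcontinuum W ∧ p ∈ interior W ∧ Disjoint W A := by
  unfold jonesT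
  rw [mem_compl_iff, not_not]
  constructor
  · rintro ⟨W, h1, h2, h3⟩
    exact ⟨W, h1, h2, disjoint_iff_inter_eq_empty.2 h3⟩
  · rintro ⟨W, h1, h2, h3⟩
    exact ⟨W, h1, h2, disjoint_iff_inter_eq_empty.1 h3⟩

theorem subset_jonesT (A : Set S) : A ⊆ jonesT A := by
  intro p hp
  rw [mem_jonesT]
  intro W _ hW
  exact ⟨p, interior_subset hW, hp⟩

theorem jonesT_mono {A B : Set S} (h : A ⊆ B) : jonesT A ⊆ jonesT B := by
  intro p hp
  rw [mem_jonesT] at hp ⊢
  intro W hW hpW
  exact (hp W hW hpW).mono (inter_subset_inter_right _ h)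

theorem isClosed_jonesT (A : Set S) : IsClosed (jonesT A) := by
  rw [← isOpen_compl_iff, isOpen_iff_mem_nhds]
  intro p hp
  obtain ⟨W, hW, hpW, hWA⟩ := notMem_jonesT.1 hp
  refine Filter.mem_of_superset (isOpen_interior.mem_nhds hpW) ?_
  intro q hq
  exact notMem_jonesT.2 ⟨W, hW, hq, hWA⟩

theorem jonesT_empty [CompactSpace S] [ConnectedSpace S] : jonesT (∅ : Set S) = ∅ := by
  rw [eq_empty_iff_forall_notMem]
  intro p
  exact notMem_jonesT.2 ⟨univ, ⟨isCompact_univ, isConnected_univ⟩, by simp, by simp⟩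

section

variable [CompactSpace S] [T2Space S]

/-- a finite union of closed connected sets is a neighbourhood of `z` only if it contains a
subcontinuum which is a neighbourhood of `z`. -/
theorem exists_sub_of_finite {K : Set S} {ι : Type*} [Finite ι] {Q : ι → Set S}
    (hQ : ∀ i, IsClosed (Q i)) (hQc : ∀ i, IsPreconnected (Q i)) (hQK : ∀ i, Q i ⊆ K)
    (hK : K ⊆ ⋃ i, Q i) (hKc : IsClosed K) {z : S} (hz : z ∈ interior K) :
    ∃ W, IsSubcontinuum W ∧ W ⊆ K ∧ z ∈ interior W := by
  have hzK := interior_subset hz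
  let C := connectedComponentIn K z
  have hCK : C ⊆ K := connectedComponentIn_subset K z
  refine ⟨C, ⟨(isClosed_comp hKc z).isCompact, ⟨z, mem_connectedComponentIn hzK⟩,
    isPreconnected_connectedComponentIn⟩, hCK, ?_⟩
  let R : Set S := ⋃ i : {i // ¬ Q i ⊆ C}, Q i
  have hR : IsClosed R := isClosed_iUnion_of_finite fun i => hQ i
  have hdis : ∀ i, ¬ Q i ⊆ C → Disjoint (Q i) C := by
    intro i hi
    rw [Set.disjoint_left]
    intro x hxQ hxC
    apply hi
    have h1 : Q i ⊆ connectedComponentIn K x := subset_comp (hQc i) (hQK i) hxQ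
    have h2 : connectedComponentIn K z = connectedComponentIn K x :=
      connectedComponentIn_eq hxC
    exact h1.trans h2.symm.subset
  have hzR : z ∉ R := by
    intro hzR
    obtain ⟨i, hi⟩ := mem_iUnion.1 hzR
    exact Set.disjoint_left.1 (hdis i i.2) hi (mem_connectedComponentIn hzK)
  have hsub : interior K ∩ Rᶜ ⊆ C := by
    rintro x ⟨hx, hxR⟩
    obtain ⟨i, hi⟩ := mem_iUnion.1 (hK (interior_subset hx))
    by_contra hxC
    exact hxR (mem_iUnion.2 ⟨⟨i, fun h => hxC (h hi)⟩, hi⟩)
  exact interior_maximal hsub (isOpen_interior.inter hR.isOpen_compl) ⟨hz, hzR⟩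

/-- If `T(A)` splits into two disjoint closed sets, then each point of one of them is in `T` of the
corresponding part of `A`. -/
theorem mem_jonesT_split {A C C' : Set S} (hC : IsClosed C) (hC' : IsClosed C')
    (hd : Disjoint C C') (hT : jonesT A = C ∪ C') {z : S} (hz : z ∈ C) :
    z ∈ jonesT (A ∩ C) := by
  by_contra hcon
  obtain ⟨D, hD, hzD, hDA⟩ := notMem_jonesT.1 hcon
  have hzT : z ∈ jonesT A := hT ▸ Or.inl hz
  -- an open set around `C` whose closure misses `C'`
  obtain ⟨V, hV, hCV, hVC'⟩ : ∃ V : Set S, IsOpen V ∧ C ⊆ V ∧ closure V ⊆ C'ᶜ :=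
    normal_exists_closure_subset hC hC'.isOpen_compl
      (fun x hx hx' => Set.disjoint_left.1 hd hx hx')
  have hAV : A ∩ closure V ⊆ C := by
    rintro x ⟨hxA, hxV⟩
    have : x ∈ C ∪ C' := hT ▸ subset_jonesT A hxA
    rcases this with h | h
    · exact h
    · exact absurd h (hVC' hxV)
  -- cover the boundary of `V`
  have hfr : ∀ y ∈ frontier V, ∃ W : Set S, IsSubcontinuum W ∧ y ∈ interior W ∧ Disjoint W A := by
    intro y hy
    apply notMem_jonesT.1
    rw [hT]
    rintro (h | h)
    · rw [hV.frontier_eq] at hy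
      exact hy.2 (hCV h)
    · exact hVC' (frontier_subset_closure hy) h
  choose! W hW1 hW2 hW3 using hfr
  obtain ⟨t, htf, htc⟩ := (isClosed_frontier (s := V)).isCompact.elim_nhds_subcover
    (fun y => interior (W y)) (fun y hy => isOpen_interior.mem_nhds (hW2 y hy))
  by_cases hDV : D ⊆ closure V
  · have h := mem_jonesT.1 hzT D hD hzD
    obtain ⟨x, hxD, hxA⟩ := h
    exact Set.disjoint_left.1 hDA hxD ⟨hxA, hAV ⟨hxA, hDV hxD⟩⟩
  let K : Set S := (D ∩ closure V) ∪ ⋃ y ∈ t, W y
  have hKc : IsClosed K := by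
    refine (hD.1.isClosed.inter isClosed_closure).union ?_
    exact t.finite_toSet.isClosed_biUnion fun y hy => (hW1 y (htf y hy)).1.isClosed
  have hKA : Disjoint K A := by
    rw [Set.disjoint_left]
    rintro x (⟨hxD, hxV⟩ | hx) hxA
    · exact Set.disjoint_left.1 hDA hxD ⟨hxA, hAV ⟨hxA, hxV⟩⟩
    · obtain ⟨y, hy, hxy⟩ := mem_iUnion₂.1 hx
      exact Set.disjoint_left.1 (hW3 y (htf y hy)) hxy hxA
  have hzK : z ∈ interior K := by
    have : interior D ∩ V ⊆ K := fun x hx => Or.inl ⟨interior_subset hx.1, subset_closure hx.2⟩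
    exact interior_maximal this (isOpen_interior.inter hV) ⟨hzD, hCV hz⟩
  -- every component of `K` contains one of the `W y`
  have hcomp : ∀ x ∈ K, ∃ y ∈ t, ∃ w ∈ W y, x ∈ connectedComponentIn K w := by
    rintro x (⟨hxD, hxV⟩ | hx)
    · obtain ⟨w, hw1, hw2⟩ := bump hD.2.2 hD.1.isClosed isClosed_closure hxD hxV hDV
      have hwK : w ∈ D ∩ closure V := connectedComponentIn_subset _ _ hw1
      have hwf : w ∈ frontier V := by
        refine ⟨hwK.2, ?_⟩
        have h1 : w ∈ closure (closure V)ᶜ := closure_mono (fun y hy => hy.2) hw2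
        rw [closure_compl] at h1
        exact fun h => h1 (interior_mono subset_closure h)
      obtain ⟨y, hy, hwy⟩ := mem_iUnion₂.1 (htc hwf)
      refine ⟨y, hy, w, interior_subset hwy, ?_⟩
      have h2 : connectedComponentIn (D ∩ closure V) x ⊆ connectedComponentIn K w :=
        subset_comp isPreconnected_connectedComponentIn
          ((connectedComponentIn_subset _ _).trans subset_union_left) hw1
      exact h2 (mem_connectedComponentIn ⟨hxD, hxV⟩)
    · obtain ⟨y, hy, hxy⟩ := mem_iUnion₂.1 hx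
      exact ⟨y, hy, x, hxy, mem_connectedComponentIn (Or.inr hx)⟩
  have hne : ∀ y ∈ t, (W y).Nonempty := fun y hy => (hW1 y (htf y hy)).2.1
  obtain ⟨E, hE, hEK, hzE⟩ := exists_sub_of_finite (K := K) (ι := t)
    (Q := fun y => connectedComponentIn K (hne y y.2).some)
    (fun y => isClosed_comp hKc _) (fun y => isPreconnected_connectedComponentIn)
    (fun y => connectedComponentIn_subset _ _)
    (by
      intro x hx
      obtain ⟨y, hy, w, hw, hxw⟩ := hcomp x hx
      refine mem_iUnion.2 ⟨⟨y, hy⟩, ?_⟩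
      have hWK : W y ⊆ K := fun a ha => Or.inr (mem_iUnion₂.2 ⟨y, hy, ha⟩)
      have h1 : W y ⊆ connectedComponentIn K (hne y hy).some :=
        subset_comp (hW1 y (htf y hy)).2.2 hWK (hne y hy).some_mem
      have h2 := connectedComponentIn_eq (h1 hw)
      change x ∈ connectedComponentIn K (hne y hy).some
      rw [h2]
      exact hxw) hKc hzK
  obtain ⟨x, hxE, hxA⟩ := mem_jonesT.1 hzT E hE hzE
  exact Set.disjoint_left.1 hKA (hEK hxE) hxA

/-- a component of a closed set can be separated from a disjoint closed set -/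
theorem exists_split {K E : Set S} (hK : IsClosed K) (hE : IsClosed E) {z : S} (hz : z ∈ K)
    (hdis : Disjoint (connectedComponentIn K z) E) :
    ∃ C C' : Set S, IsClosed C ∧ IsClosed C' ∧ Disjoint C C' ∧ K = C ∪ C' ∧ z ∈ C ∧
      Disjoint C E := by
  have : CompactSpace K := isCompact_iff_compactSpace.mp hK.isCompact
  let z' : K := ⟨z, hz⟩
  rw [connectedComponentIn_eq_image hz] at hdis
  have h1 : connectedComponent z' ⊆ (Subtype.val ⁻¹' Eᶜ : Set K) := by
    intro y hy hy'
    exact Set.disjoint_left.1 hdis ⟨y, hy, rfl⟩ hy'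
  rw [connectedComponent_eq_iInter_isClopen] at h1
  have hopen : IsOpen (Subtype.val ⁻¹' Eᶜ : Set K) :=
    hE.isOpen_compl.preimage continuous_subtype_val
  obtain ⟨Z, hZ, hxZ, hZU⟩ : ∃ Z : Set K, IsClopen Z ∧ z' ∈ Z ∧
      Z ⊆ Subtype.val ⁻¹' Eᶜ := by
    by_contra hno
    push Not at hno
    let ι := { Z : Set K // IsClopen Z ∧ z' ∈ Z }
    have hne : Nonempty ι := ⟨⟨univ, isClopen_univ, mem_univ _⟩⟩
    have := IsCompact.nonempty_iInter_of_directed_nonempty_isCompact_isClosed
      (fun Z : ι => (Z : Set K) ∩ (Subtype.val ⁻¹' Eᶜ)ᶜ)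
      (fun Z W => ⟨⟨Z.1 ∩ W.1, Z.2.1.inter W.2.1, Z.2.2, W.2.2⟩,
        inter_subset_inter_left _ inter_subset_left, inter_subset_inter_left _ inter_subset_right⟩)
      (fun Z => by
        obtain ⟨y, hy, hy'⟩ := not_subset.1 (hno Z.1 Z.2.1 Z.2.2)
        exact ⟨y, hy, hy'⟩)
      (fun Z => (Z.2.1.isClosed.inter hopen.isClosed_compl).isCompact)
      (fun Z => Z.2.1.isClosed.inter hopen.isClosed_compl)
    obtain ⟨y, hy⟩ := this
    rw [mem_iInter] at hy
    have hy1 : y ∈ ⋂ s : { s : Set K // IsClopen s ∧ z' ∈ s }, s.1 :=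
      mem_iInter.2 fun Z => (hy Z).1
    exact (hy ⟨univ, isClopen_univ, mem_univ _⟩).2 (h1 hy1)
  refine ⟨Subtype.val '' Z, Subtype.val '' Zᶜ,
    hK.isClosedEmbedding_subtypeVal.isClosedMap Z hZ.isClosed,
    hK.isClosedEmbedding_subtypeVal.isClosedMap Zᶜ hZ.compl.isClosed, ?_, ?_, ⟨z', hxZ, rfl⟩, ?_⟩
  · rw [Set.disjoint_left]
    rintro _ ⟨a, ha, rfl⟩ ⟨b, hb, hab⟩
    rw [Subtype.ext hab] at hb
    exact hb ha
  · rw [← image_union, union_compl_self, image_univ, Subtype.range_coe]
  · rw [Set.disjoint_left]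
    rintro _ ⟨a, ha, rfl⟩ hE'
    exact hZU ha hE'

/-- `z` is in `T` of the part of `A` in the component of `z` in `T(A)` -/
theorem mem_jonesT_comp {A : Set S} (hA : IsClosed A) {z : S} (hz : z ∈ jonesT A) :
    z ∈ jonesT (A ∩ connectedComponentIn (jonesT A) z) := by
  rw [mem_jonesT]
  intro W hW hzW
  by_contra hcon
  rw [not_nonempty_iff_eq_empty] at hcon
  obtain ⟨C, C', hC, hC', hd, hT, hzC, hCE⟩ := exists_split (isClosed_jonesT A)
    (hW.1.isClosed.inter hA) hz (by
      rw [Set.disjoint_left]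
      rintro x hx ⟨hxW, hxA⟩
      have : x ∈ W ∩ (A ∩ connectedComponentIn (jonesT A) z) := ⟨hxW, hxA, hx⟩
      rw [hcon] at this
      exact this)
  obtain ⟨x, hxW, hxA, hxC⟩ := mem_jonesT.1 (mem_jonesT_split hC hC' hd hT hzC) W hW hzW
  exact Set.disjoint_left.1 hCE hxC ⟨hxW, hxA⟩

variable [ConnectedSpace S]

/-- every component of `T(A)` meets `A` -/
theorem comp_inter {A : Set S} (hA : IsClosed A) {z : S} (hz : z ∈ jonesT A) :
    (A ∩ connectedComponentIn (jonesT A) z).Nonempty := by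
  by_contra hcon
  rw [not_nonempty_iff_eq_empty] at hcon
  have := mem_jonesT_comp hA hz
  rw [hcon, jonesT_empty] at this
  exact this

/-- `T(x)` is connected -/
theorem isPreconnected_jonesT_singleton (x : S) : IsPreconnected (jonesT ({x} : Set S)) := by
  have h : jonesT ({x} : Set S) ⊆ connectedComponentIn (jonesT ({x} : Set S)) x := by
    intro z hz
    obtain ⟨y, hy, hyz⟩ := comp_inter isClosed_singleton hz
    rw [mem_singleton_iff] at hy
    subst hy
    have h1 := connectedComponentIn_eq hyz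
    rw [← h1]
    exact mem_connectedComponentIn hz
  have h2 := subset_antisymm h (connectedComponentIn_subset _ _)
  rw [h2]
  exact isPreconnected_connectedComponentIn

theorem isSubcontinuum_jonesT_singleton (x : S) : IsSubcontinuum (jonesT ({x} : Set S)) :=
  ⟨(isClosed_jonesT _).isCompact, ⟨x, subset_jonesT _ rfl⟩, isPreconnected_jonesT_singleton x⟩

end

/-- The relation `y ∈ T(x)` is closed. -/
theorem isClosed_rel [T2Space S] : IsClosed {q : S × S | q.2 ∈ jonesT ({q.1} : Set S)} := by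
  rw [← isOpen_compl_iff, isOpen_iff_mem_nhds]
  rintro ⟨x, y⟩ hxy
  obtain ⟨W, hW, hyW, hWx⟩ := notMem_jonesT.1 hxy
  have hxW : x ∉ W := fun h => Set.disjoint_left.1 hWx h rfl
  refine Filter.mem_of_superset (prod_mem_nhds (hW.1.isClosed.isOpen_compl.mem_nhds hxW)
    (isOpen_interior.mem_nhds hyW)) ?_
  rintro ⟨x', y'⟩ ⟨hx', hy'⟩
  refine notMem_jonesT.2 ⟨W, hW, hy', ?_⟩
  rw [Set.disjoint_singleton_right]
  exact hx'

/-- Continuity of `T` for `S`: `A ↦ T(A)` is a continuous self-map of the hyperspace of nonempty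
closed subsets with the Vietoris topology. -/
def TContinuous (S : Type u) [TopologicalSpace S] : Prop :=
  ∃ F : NonemptyCompacts S → NonemptyCompacts S, Continuous F ∧
    ∀ A : NonemptyCompacts S, (F A : Set S) = jonesT (A : Set S)

theorem TContinuous.isOpen (h : TContinuous S) {V : Set S} (hV : IsOpen V) :
    IsOpen {K : NonemptyCompacts S | (jonesT (K : Set S) ∩ V).Nonempty} := by
  obtain ⟨F, hF, hFT⟩ := h
  have := (NonemptyCompacts.isOpen_inter_nonempty_of_isOpen hV).preimage hF
  convert this using 1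
  ext K
  simp only [mem_ofPred_eq, mem_preimage, hFT]

end Pool.Agent.R812.JonesT
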