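import Pool.Agent.R812.JonesT

/-!
# Continuity of Jones's set function T and indecomposability
-/

set_option autoImplicit false

open Set Topology TopologicalSpace

namespace Pool.Agent.R812.JonesT

open Pool.Agent.R812.Cont

universe u

variable {S : Type u} [TopologicalSpace S]

theorem TContinuous.isClosed (h : TContinuous S) {V : Set S} (hV : IsClosed V) :
    IsClosed {K : NonemptyCompacts S | (jonesT (K : Set S) ∩ V).Nonempty} := by
  obtain ⟨F, hF, hFT⟩ := h
  have := (NonemptyCompacts.isClosed_inter_nonempty_of_isClosed hV).preimage hF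
  convert this using 1
  ext K
  simp only [mem_ofPred_eq, mem_preimage, hFT]

theorem TContinuous.isOpen_hit (h : TContinuous S) {V : Set S} (hV : IsOpen V) :
    IsOpen {x : S | (jonesT ({x} : Set S) ∩ V).Nonempty} := by
  have := (h.isOpen hV).preimage NonemptyCompacts.continuous_singleton
  convert this using 1
  rfl

theorem TContinuous.isClosed_hit (h : TContinuous S) {V : Set S} (hV : IsClosed V) :
    IsClosed {x : S | (jonesT ({x} : Set S) ∩ V).Nonempty} := by
  have := (h.isClosed hV).preimage NonemptyCompacts.continuous_singleton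
  convert this using 1
  rfl

theorem avoid {ι : Type*} (s : Finset ι) (C : ι → Set S) (U : Set S)
    (hC : ∀ i ∈ s, IsClosed (C i)) (hCU : ∀ i ∈ s, interior (C i) ∩ U = ∅) :
    ∀ W : Set S, IsOpen W → W.Nonempty → W ⊆ U → ∃ x ∈ W, ∀ i ∈ s, x ∉ C i := by
  classical
  induction s using Finset.induction_on with
  | empty =>
    intro W _ hW _
    obtain ⟨x, hx⟩ := hW
    exact ⟨x, hx, by simp⟩
  | insert a s has ih =>
    intro W hWo hWn hWU
    have h1 : (W ∩ (C a)ᶜ).Nonempty := by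
      by_contra hcon
      rw [not_nonempty_iff_eq_empty] at hcon
      have h2 : W ⊆ C a := by
        intro x hx
        by_contra hxC
        have : x ∈ W ∩ (C a)ᶜ := ⟨hx, hxC⟩
        rw [hcon] at this
        exact this
      obtain ⟨x, hx⟩ := hWn
      have h3 : x ∈ interior (C a) ∩ U := ⟨interior_maximal h2 hWo hx, hWU hx⟩
      rw [hCU a (Finset.mem_insert_self a s)] at h3
      exact h3
    obtain ⟨x, hx, hxs⟩ := ih (fun i hi => hC i (Finset.mem_insert_of_mem hi))
      (fun i hi => hCU i (Finset.mem_insert_of_mem hi)) (W ∩ (C a)ᶜ)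
      (hWo.inter (hC a (Finset.mem_insert_self a s)).isOpen_compl) h1
      (inter_subset_left.trans hWU)
    refine ⟨x, hx.1, fun i hi => ?_⟩
    rcases Finset.mem_insert.1 hi with rfl | hi
    · exact hx.2
    · exact hxs i hi

section

variable [CompactSpace S] [T2Space S] [ConnectedSpace S]

theorem choose_points {ι : Type*} (s : Finset ι) (W : ι → Set S) (U F : Set S) (hF : IsClosed F)
    (hN : ∀ x ∈ F, interior (connectedComponentIn F x) ∩ U = ∅)
    (hW : ∀ i ∈ s, IsOpen (W i) ∧ (W i).Nonempty ∧ W i ⊆ U ∧ W i ⊆ F) :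
    ∃ b : ι → S, (∀ i ∈ s, b i ∈ W i) ∧
      ∀ i ∈ s, ∀ j ∈ s, i ≠ j → b j ∉ connectedComponentIn F (b i) := by
  classical
  induction s using Finset.induction_on with
  | empty =>
    obtain ⟨x⟩ : Nonempty S := inferInstance
    exact ⟨fun _ => x, by simp, by simp⟩
  | insert a s has ih =>
    obtain ⟨b, hb1, hb2⟩ := ih fun i hi => hW i (Finset.mem_insert_of_mem hi)
    obtain ⟨h1, h2, h3, h4⟩ := hW a (Finset.mem_insert_self a s)
    obtain ⟨x, hxW, hxs⟩ := avoid s (fun i => connectedComponentIn F (b i)) U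
      (fun i _ => isClosed_comp hF _)
      (fun i hi => hN _ ((hW i (Finset.mem_insert_of_mem hi)).2.2.2 (hb1 i hi))) (W a) h1 h2 h3
    have hne : ∀ i ∈ s, i ≠ a := fun i hi h => has (h ▸ hi)
    refine ⟨Function.update b a x, ?_, ?_⟩
    · intro i hi
      rcases Finset.mem_insert.1 hi with rfl | hi
      · simpa using hxW
      · rw [Function.update_of_ne (hne i hi)]
        exact hb1 i hi
    · intro i hi j hj hij
      rcases Finset.mem_insert.1 hi with rfl | hi'
      · rcases Finset.mem_insert.1 hj with rfl | hj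
        · exact absurd rfl hij
        · rw [Function.update_self, Function.update_of_ne (hne j hj)]
          intro hmem
          have h5 := connectedComponentIn_eq hmem
          apply hxs j hj
          rw [← h5]
          exact mem_connectedComponentIn (h4 hxW)
      · rcases Finset.mem_insert.1 hj with hj' | hj'
        · rw [hj', Function.update_self, Function.update_of_ne (hne i hi')]
          exact hxs i hi'
        · rw [Function.update_of_ne (hne i hi'), Function.update_of_ne (hne j hj')]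
          exact hb2 i hi' j hj' hij

/-- property (P) -/
theorem inner (h : TContinuous S) {D : Set S} (hD : IsSubcontinuum D) {z : S}
    (hz : z ∈ interior D) :
    ∃ W : Set S, IsSubcontinuum W ∧ z ∈ interior W ∧ W ⊆ interior D := by
  by_contra hcon
  have hzT : z ∈ jonesT (interior D)ᶜ := by
    rw [mem_jonesT]
    intro W hW hzW
    by_contra h1
    rw [not_nonempty_iff_eq_empty] at h1
    apply hcon
    refine ⟨W, hW, hzW, ?_⟩
    intro x hx
    by_contra hxD
    have : x ∈ W ∩ (interior D)ᶜ := ⟨hx, hxD⟩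
    rw [h1] at this
    exact this
  have hne : ((interior D)ᶜ : Set S).Nonempty := by
    by_contra hemp
    rw [not_nonempty_iff_eq_empty] at hemp
    rw [hemp, jonesT_empty] at hzT
    exact hzT
  let A : NonemptyCompacts S := ⟨⟨(interior D)ᶜ, isOpen_interior.isClosed_compl.isCompact⟩, hne⟩
  have hAcl : A ∈ closure {K : NonemptyCompacts S | (K : Set S).Finite ∧ (K : Set S) ⊆ Dᶜ} := by
    rw [NonemptyCompacts.closure_finite_subsets]
    change (interior D)ᶜ ⊆ closure Dᶜ
    rw [closure_compl]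
  obtain ⟨K, ⟨y, hyK, hyD⟩, -, hK2⟩ :=
    mem_closure_iff.1 hAcl _ (h.isOpen isOpen_interior) ⟨z, hzT, hz⟩
  refine notMem_jonesT.2 ⟨D, hD, hyD, ?_⟩ hyK
  rw [Set.disjoint_left]
  intro x hxD hxK
  exact hK2 hxK hxD

theorem jonesT_compl_interior (h : TContinuous S) {D : Set S} (hD : IsSubcontinuum D) :
    jonesT (interior D)ᶜ = (interior D)ᶜ := by
  apply subset_antisymm _ (subset_jonesT _)
  intro z hz hzD
  obtain ⟨W, hW, hzW, hWD⟩ := inner h hD hzD
  obtain ⟨x, hxW, hx⟩ := mem_jonesT.1 hz W hW hzW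
  exact hx (hWD hxW)

theorem jonesT_idem (h : TContinuous S) (A : Set S) : jonesT (jonesT A) = jonesT A := by
  apply subset_antisymm _ (subset_jonesT _)
  intro z hz
  by_contra hzA
  obtain ⟨D, hD, hzD, hDA⟩ := notMem_jonesT.1 hzA
  obtain ⟨W, hW, hzW, hWD⟩ := inner h hD hzD
  obtain ⟨x, hxW, hxT⟩ := mem_jonesT.1 hz W hW hzW
  exact absurd hxT (notMem_jonesT.2 ⟨D, hD, hWD hxW, hDA⟩)

theorem jonesT_sub_of_mem (h : TContinuous S) {x y : S} (hy : y ∈ jonesT ({x} : Set S)) :
    jonesT ({y} : Set S) ⊆ jonesT ({x} : Set S) := by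
  have := jonesT_mono (singleton_subset_iff.2 hy)
  rwa [jonesT_idem h] at this

/-- the points `x` for which `T(x)` is minimal -/
def minSet (S : Type u) [TopologicalSpace S] : Set S :=
  {x : S | ∀ y ∈ jonesT ({x} : Set S), x ∈ jonesT ({y} : Set S)}

theorem isClosed_minSet (h : TContinuous S) : IsClosed (minSet S) := by
  rw [← isOpen_compl_iff, isOpen_iff_mem_nhds]
  intro x hx
  have hx' : ¬ ∀ y ∈ jonesT ({x} : Set S), x ∈ jonesT ({y} : Set S) := hx
  push Not at hx'
  obtain ⟨y, hy, hxy⟩ := hx'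
  have h1 : {q : S × S | q.2 ∈ jonesT ({q.1} : Set S)}ᶜ ∈ 𝓝 (y, x) :=
    isClosed_rel.isOpen_compl.mem_nhds hxy
  rw [nhds_prod_eq, Filter.mem_prod_iff] at h1
  obtain ⟨N, hN, N', hN', hNN⟩ := h1
  obtain ⟨O, hO, hOo, hyO⟩ := mem_nhds_iff.1 hN
  have h2 := (h.isOpen_hit hOo).mem_nhds (show x ∈ {x : S | (jonesT ({x} : Set S) ∩ O).Nonempty}
    from ⟨y, hy, hyO⟩)
  filter_upwards [h2, hN'] with x' hx1 hx2 hx3
  obtain ⟨y', hy1, hy2⟩ := hx1
  exact hNN (mk_mem_prod (hO hy2) hx2) (hx3 y' hy1)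

theorem exists_minSet (h : TContinuous S) {F : Set S} (hF : F.Nonempty)
    (hFT : ∀ x ∈ F, jonesT ({x} : Set S) ⊆ F) : ∃ e ∈ F, e ∈ minSet S := by
  obtain ⟨x₀, hx₀⟩ := hF
  obtain ⟨M, -, hM⟩ := zorn_superset_nonempty {M : Set S | ∃ x ∈ F, M = jonesT ({x} : Set S)} (by
    intro c hc hchain hne
    have hneF : Nonempty c := hne.to_subtype
    have := IsCompact.nonempty_iInter_of_directed_nonempty_isCompact_isClosed
      (fun i : c => (i : Set S)) (by
        intro i j
        rcases hchain.total i.2 j.2 with h1 | h1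
        · exact ⟨i, subset_rfl, h1⟩
        · exact ⟨j, h1, subset_rfl⟩)
      (fun i => by
        obtain ⟨x, -, hx⟩ := hc i.2
        rw [hx]
        exact ⟨x, subset_jonesT _ rfl⟩)
      (fun i => by
        obtain ⟨x, -, hx⟩ := hc i.2
        rw [hx]
        exact (isClosed_jonesT _).isCompact)
      (fun i => by
        obtain ⟨x, -, hx⟩ := hc i.2
        rw [hx]
        exact isClosed_jonesT _)
    obtain ⟨y, hy⟩ := this
    rw [mem_iInter] at hy
    have hyF : y ∈ F := by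
      obtain ⟨x, hxF, hx⟩ := hc hne.choose_spec
      have := hy ⟨_, hne.choose_spec⟩
      rw [show ((⟨_, hne.choose_spec⟩ : c) : Set S) = jonesT ({x} : Set S) from hx] at this
      exact hFT x hxF this
    refine ⟨jonesT ({y} : Set S), ⟨y, hyF, rfl⟩, ?_⟩
    intro s hs
    obtain ⟨x, hxF, hx⟩ := hc hs
    have h1 := hy ⟨s, hs⟩
    rw [show ((⟨s, hs⟩ : c) : Set S) = jonesT ({x} : Set S) from hx] at h1
    rw [hx]
    exact jonesT_sub_of_mem h h1) (jonesT ({x₀} : Set S)) ⟨x₀, hx₀, rfl⟩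
  obtain ⟨e, heF, he⟩ := hM.prop
  refine ⟨e, heF, ?_⟩
  intro y hy
  have h1 := jonesT_sub_of_mem h hy
  have h2 := hM.eq_of_subset ⟨y, hFT e heF hy, rfl⟩ (he ▸ h1)
  rw [h2, he]
  exact subset_jonesT _ rfl

/-- step (A) -/
theorem stepA (h : TContinuous S) {p : S} {U : Set S} (hU : IsOpen U)
    (core : ∀ W, IsSubcontinuum W → (interior W ∩ U).Nonempty → p ∈ interior W) {D₀ : Set S}
    (hD₀ : IsSubcontinuum D₀) (hD₀ne : D₀ ≠ univ) (hD₀U : (interior D₀ ∩ U).Nonempty)
    {A : Set S} (hA : IsClosed A) (hAU : A ⊆ closure U) (hpA : p ∈ jonesT A) :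
    ∃ a ∈ A, p ∈ jonesT ({a} : Set S) := by
  classical
  by_contra hcon
  push Not at hcon
  -- a minimal closed set
  obtain ⟨B, hBA, hB⟩ := zorn_superset_nonempty {B : Set S | IsClosed B ∧ p ∈ jonesT B} (by
    intro c hc hchain hne
    refine ⟨⋂₀ c, ⟨isClosed_sInter fun K hK => (hc hK).1, ?_⟩, fun s hs => sInter_subset_of_mem hs⟩
    rw [mem_jonesT]
    intro W hW hpW
    have hneF : Nonempty c := hne.to_subtype
    have := IsCompact.nonempty_iInter_of_directed_nonempty_isCompact_isClosed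
      (fun i : c => W ∩ (i : Set S)) (by
        intro i j
        rcases hchain.total i.2 j.2 with h1 | h1
        · exact ⟨i, subset_rfl, inter_subset_inter_right _ h1⟩
        · exact ⟨j, inter_subset_inter_right _ h1, subset_rfl⟩)
      (fun i => mem_jonesT.1 (hc i.2).2 W hW hpW)
      (fun i => (hW.1.inter_right (hc i.2).1))
      (fun i => (hW.1.isClosed.inter (hc i.2).1))
    obtain ⟨x, hx⟩ := this
    rw [mem_iInter] at hx
    exact ⟨x, (hx hneF.some).1, fun K hK => (hx ⟨K, hK⟩).2⟩) A ⟨hA, hpA⟩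
  obtain ⟨hBc, hpB⟩ := hB.prop
  obtain ⟨a₁, ha₁⟩ : B.Nonempty := by
    by_contra hemp
    rw [not_nonempty_iff_eq_empty] at hemp
    rw [hemp, jonesT_empty] at hpB
    exact hpB
  obtain ⟨a₂, ha₂, ha12⟩ : ∃ a₂ ∈ B, a₂ ≠ a₁ := by
    by_contra hno
    push Not at hno
    have : B = {a₁} := subset_antisymm (fun x hx => hno x hx) (singleton_subset_iff.2 ha₁)
    rw [this] at hpB
    exact hcon a₁ (hBA ha₁) hpB
  obtain ⟨G₁, G₂, hG₁, hG₂, haG₁, haG₂, hG⟩ := t2_separation ha12.symm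
  have hDex : ∀ G : Set S, IsOpen G → (B ∩ G).Nonempty → ∃ D : Set S, IsSubcontinuum D ∧
      p ∈ interior D ∧ D ∩ B ⊆ G := by
    rintro G hG' ⟨a, haB, haG⟩
    have h1 : p ∉ jonesT (B ∩ Gᶜ) := by
      intro hp
      have := hB.eq_of_subset ⟨hBc.inter hG'.isClosed_compl, hp⟩ inter_subset_left
      have h2 : a ∈ B ∩ Gᶜ := by rw [this]; exact haB
      exact h2.2 haG
    obtain ⟨D, hD, hpD, hDB⟩ := notMem_jonesT.1 h1
    refine ⟨D, hD, hpD, ?_⟩
    rintro x ⟨hxD, hxB⟩
    by_contra hxG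
    exact Set.disjoint_left.1 hDB hxD ⟨hxB, hxG⟩
  obtain ⟨D₁, hD₁, hpD₁, hDB₁⟩ := hDex G₁ hG₁ ⟨a₁, ha₁, haG₁⟩
  obtain ⟨D₂, hD₂, hpD₂, hDB₂⟩ := hDex G₂ hG₂ ⟨a₂, ha₂, haG₂⟩
  -- an adapted basis
  let 𝓑 : Set (Set S) := {O | IsOpen O ∧ (Disjoint O D₁ ∨ O ⊆ G₁ ∨ Disjoint O B) ∧
    (Disjoint O D₂ ∨ O ⊆ G₂ ∨ Disjoint O B)}
  have hsmall : ∀ (D G : Set S), IsClosed D → IsOpen G → D ∩ B ⊆ G → ∀ a : S, ∃ O : Set S,
      IsOpen O ∧ a ∈ O ∧ (Disjoint O D ∨ O ⊆ G ∨ Disjoint O B) := by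
    intro D G hD hG' hDB a
    by_cases haD : a ∈ D
    · by_cases haB : a ∈ B
      · exact ⟨G, hG', hDB ⟨haD, haB⟩, Or.inr (Or.inl subset_rfl)⟩
      · exact ⟨Bᶜ, hBc.isOpen_compl, haB, Or.inr (Or.inr disjoint_compl_left)⟩
    · exact ⟨Dᶜ, hD.isOpen_compl, haD, Or.inl disjoint_compl_left⟩
  have h𝓑 : IsTopologicalBasis 𝓑 := by
    apply isTopologicalBasis_of_isOpen_of_nhds
    · intro O hO
      exact hO.1
    · intro a O haO hO
      obtain ⟨O₁, hO₁, haO₁, h1⟩ := hsmall D₁ G₁ hD₁.1.isClosed hG₁ hDB₁ a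
      obtain ⟨O₂, hO₂, haO₂, h2⟩ := hsmall D₂ G₂ hD₂.1.isClosed hG₂ hDB₂ a
      refine ⟨O ∩ O₁ ∩ O₂, ⟨(hO.inter hO₁).inter hO₂, ?_, ?_⟩, ⟨⟨haO, haO₁⟩, haO₂⟩,
        fun x hx => hx.1.1⟩
      · have hs : O ∩ O₁ ∩ O₂ ⊆ O₁ := fun x hx => hx.1.2
        rcases h1 with h | h | h
        · exact Or.inl (h.mono_left hs)
        · exact Or.inr (Or.inl (hs.trans h))
        · exact Or.inr (Or.inr (h.mono_left hs))
      · have hs : O ∩ O₁ ∩ O₂ ⊆ O₂ := fun x hx => hx.2
        rcases h2 with h | h | h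
        · exact Or.inl (h.mono_left hs)
        · exact Or.inr (Or.inl (hs.trans h))
        · exact Or.inr (Or.inr (h.mono_left hs))
  let B' : NonemptyCompacts S := ⟨⟨B, hBc.isCompact⟩, ⟨a₁, ha₁⟩⟩
  obtain ⟨v, ⟨u, ⟨hufin, hune, hu𝓑⟩, rfl⟩, hBv, hv⟩ :=
    h𝓑.nonemptyCompacts.exists_subset_of_mem_open
      (show B' ∈ {K : NonemptyCompacts S | (jonesT (K : Set S) ∩
        (interior D₁ ∩ interior D₂)).Nonempty} from ⟨p, hpB, hpD₁, hpD₂⟩)
      (h.isOpen (isOpen_interior.inter isOpen_interior))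
  obtain ⟨hBu, hBO⟩ := hBv
  have hBO' : ∀ O ∈ u, (B ∩ O).Nonempty := hBO
  have hOU : ∀ O ∈ u, (O ∩ U).Nonempty := by
    intro O hO
    obtain ⟨x, hxB, hxO⟩ := hBO' O hO
    have := mem_closure_iff.1 (hAU (hBA hxB)) O (hu𝓑 hO).1 hxO
    exact this
  -- the key claim
  have key : ∀ D : Set S, IsSubcontinuum D → (interior D ∩ U).Nonempty → ∃ O ∈ u, O ∩ U ⊆ D := by
    intro D hD hDU
    by_contra hno
    push Not at hno
    have hpD := core D hD hDU
    have hFc : IsClosed (interior D)ᶜ := isOpen_interior.isClosed_compl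
    obtain ⟨b, hb1, hb2⟩ := choose_points hufin.toFinset (fun O => O ∩ U ∩ Dᶜ) U (interior D)ᶜ hFc
      (by
        intro x hx
        by_contra hne
        rw [← ne_eq, ← nonempty_iff_ne_empty] at hne
        have hsc : IsSubcontinuum (connectedComponentIn (interior D)ᶜ x) :=
          ⟨(isClosed_comp hFc x).isCompact, ⟨x, mem_connectedComponentIn hx⟩,
            isPreconnected_connectedComponentIn⟩
        have := core _ hsc hne
        exact connectedComponentIn_subset _ _ (interior_subset this) hpD)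
      (by
        intro O hO
        rw [Set.Finite.mem_toFinset] at hO
        refine ⟨((hu𝓑 hO).1.inter hU).inter hD.1.isClosed.isOpen_compl, ?_,
          fun x hx => hx.1.2, fun x hx hxD => hx.2 (interior_subset hxD)⟩
        obtain ⟨x, hx, hxD⟩ := not_subset.1 (hno O hO)
        exact ⟨x, hx, hxD⟩)
    have hb1' : ∀ O ∈ u, b O ∈ O ∩ U ∩ Dᶜ := fun O hO => hb1 O (hufin.mem_toFinset.2 hO)
    have hb2' : ∀ O ∈ u, ∀ O' ∈ u, O ≠ O' → b O' ∉ connectedComponentIn (interior D)ᶜ (b O) :=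
      fun O hO O' hO' => hb2 O (hufin.mem_toFinset.2 hO) O' (hufin.mem_toFinset.2 hO')
    have hCfin : (b '' u).Finite := hufin.image b
    let C : NonemptyCompacts S := ⟨⟨b '' u, hCfin.isCompact⟩, hune.image b⟩
    have hCv : C ∈ {K : NonemptyCompacts S | (K : Set S) ⊆ ⋃₀ u ∧
        ∀ U ∈ u, ((K : Set S) ∩ U).Nonempty} := by
      constructor
      · rintro _ ⟨O, hO, rfl⟩
        exact ⟨O, hO, (hb1' O hO).1.1⟩
      · intro O hO
        exact ⟨b O, ⟨O, hO, rfl⟩, (hb1' O hO).1.1⟩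
    obtain ⟨z, hzT, hz1, hz2⟩ := hv hCv
    change z ∈ jonesT (b '' u) at hzT
    have hz := mem_jonesT_comp hCfin.isClosed hzT
    have hCD : Disjoint D (b '' u) := by
      rw [Set.disjoint_left]
      rintro _ hxD ⟨O, hO, rfl⟩
      exact (hb1' O hO).2 hxD
    have hTD : jonesT (b '' u) ⊆ (interior D)ᶜ := by
      intro x hx hxD
      exact notMem_jonesT.2 ⟨D, hD, hxD, hCD⟩ hx
    have hpick : ∀ (D' G : Set S), IsSubcontinuum D' → z ∈ interior D' →
        (∀ O ∈ u, Disjoint O D' ∨ O ⊆ G ∨ Disjoint O B) →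
        ∃ O ∈ u, b O ∈ G ∧ b O ∈ connectedComponentIn (jonesT (b '' u)) z := by
      intro D' G hD' hzD' hO'
      obtain ⟨_, hxD', ⟨O, hO, rfl⟩, hxQ⟩ := mem_jonesT.1 hz D' hD' hzD'
      refine ⟨O, hO, ?_, hxQ⟩
      rcases hO' O hO with h1 | h1 | h1
      · exact absurd hxD' (Set.disjoint_left.1 h1 (hb1' O hO).1.1)
      · exact h1 (hb1' O hO).1.1
      · obtain ⟨y, hyB, hyO⟩ := hBO' O hO
        exact absurd hyB (Set.disjoint_left.1 h1 hyO)
    obtain ⟨O₁, hO₁, hbG₁, hbQ₁⟩ := hpick D₁ G₁ hD₁ hz1 fun O hO => (hu𝓑 hO).2.1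
    obtain ⟨O₂, hO₂, hbG₂, hbQ₂⟩ := hpick D₂ G₂ hD₂ hz2 fun O hO => (hu𝓑 hO).2.2
    have hne : O₁ ≠ O₂ := by
      rintro rfl
      exact Set.disjoint_left.1 hG hbG₁ hbG₂
    apply hb2' O₁ hO₁ O₂ hO₂ hne
    exact subset_comp isPreconnected_connectedComponentIn
      ((connectedComponentIn_subset _ _).trans hTD) hbQ₁ hbQ₂
  -- a minimal element of the family of all subcontinua with interior meeting `U`
  obtain ⟨D, hDD₀, hD⟩ := zorn_superset_nonempty
    {D : Set S | IsSubcontinuum D ∧ (interior D ∩ U).Nonempty} (by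
    intro c hc hchain hne
    obtain ⟨O, hO, hOc⟩ : ∃ O ∈ u, ∀ D ∈ c, O ∩ U ⊆ D := by
      by_contra hno
      push Not at hno
      have hfin : ∀ t : Finset (Set S), (∀ O ∈ t, O ∈ u) → ∃ D ∈ c, ∀ O ∈ t, ¬ O ∩ U ⊆ D := by
        intro t
        induction t using Finset.induction_on with
        | empty =>
          intro _
          exact ⟨hne.choose, hne.choose_spec, by simp⟩
        | insert a t hat ih =>
          intro ht
          obtain ⟨D, hD, hDt⟩ := ih fun O hO => ht O (Finset.mem_insert_of_mem hO)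
          obtain ⟨D', hD', hDa⟩ := hno a (ht a (Finset.mem_insert_self a t))
          rcases hchain.total hD hD' with h1 | h1
          · refine ⟨D, hD, fun O hO => ?_⟩
            rcases Finset.mem_insert.1 hO with rfl | hO
            · exact fun h2 => hDa (h2.trans h1)
            · exact hDt O hO
          · refine ⟨D', hD', fun O hO => ?_⟩
            rcases Finset.mem_insert.1 hO with rfl | hO
            · exact hDa
            · exact fun h2 => hDt O hO (h2.trans h1)
      obtain ⟨D, hD, hDt⟩ := hfin hufin.toFinset fun O hO => hufin.mem_toFinset.1 hO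
      obtain ⟨O, hO, hOD⟩ := key D (hc hD).1 (hc hD).2
      exact hDt O (hufin.mem_toFinset.2 hO) hOD
    refine ⟨⋂₀ c, ⟨IsSubcontinuum.sInter hne hchain fun K hK => (hc hK).1, ?_⟩,
      fun s hs => sInter_subset_of_mem hs⟩
    obtain ⟨x, hx⟩ := hOU O hO
    refine ⟨x, interior_maximal (fun y hy K hK => hOc K hK hy) ((hu𝓑 hO).1.inter hU) hx, hx.2⟩)
    D₀ ⟨hD₀, hD₀U⟩
  obtain ⟨hD1, z, hzD, hzU⟩ := hD.prop
  obtain ⟨W, hW, hzW, hWD⟩ := inner h hD1 hzD
  have hWeq := hD.eq_of_subset ⟨hW, z, hzW, hzU⟩ (hWD.trans interior_subset)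
  have hopen : IsOpen D := by
    have : interior D = D := subset_antisymm interior_subset (hWeq ▸ hWD)
    rw [← this]
    exact isOpen_interior
  have hcl : IsClopen D := ⟨hD1.1.isClosed, hopen⟩
  have : D = univ := hcl.eq_univ hD1.2.1
  exact hD₀ne (univ_subset_iff.1 (this ▸ hDD₀))

/-- there is a point `p ∈ T(p)` above `p₀` with `T(p)` maximal -/
theorem exists_max (h : TContinuous S) (p₀ : S) : ∃ p : S, jonesT ({p₀} : Set S) ⊆ jonesT {p} ∧
    ∀ q : S, p ∈ jonesT ({q} : Set S) → jonesT ({q} : Set S) = jonesT {p} := by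
  obtain ⟨M, hM0, hM⟩ := zorn_subset_nonempty {M : Set S | ∃ x : S, M = jonesT ({x} : Set S)} (by
    intro c hc hchain hne
    have hneF : Nonempty c := hne.to_subtype
    choose x hx using fun i : c => hc i.2
    have hx' : ∀ i : c, (i : Set S) = jonesT ({x i} : Set S) := hx
    have := IsCompact.nonempty_iInter_of_directed_nonempty_isCompact_isClosed
      (fun i : c => {y : S | x i ∈ jonesT ({y} : Set S)}) (by
        have hsub : ∀ i j : c, (i : Set S) ⊆ j → {y : S | x j ∈ jonesT ({y} : Set S)} ⊆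
            {y : S | x i ∈ jonesT ({y} : Set S)} := by
          intro i j hij y hy
          have h1 : x i ∈ jonesT ({x j} : Set S) := by
            rw [← hx' j]
            apply hij
            rw [hx' i]
            exact subset_jonesT _ rfl
          exact jonesT_sub_of_mem h hy h1
        intro i j
        rcases hchain.total i.2 j.2 with h1 | h1
        · exact ⟨j, hsub i j h1, subset_rfl⟩
        · exact ⟨i, subset_rfl, hsub j i h1⟩)
      (fun i => ⟨x i, subset_jonesT _ rfl⟩)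
      (fun i => by
        have : IsClosed {y : S | x i ∈ jonesT ({y} : Set S)} :=
          isClosed_rel.preimage (f := fun y : S => (y, x i)) (by fun_prop)
        exact this.isCompact)
      (fun i => isClosed_rel.preimage (f := fun y : S => (y, x i)) (by fun_prop))
    obtain ⟨y, hy⟩ := this
    rw [mem_iInter] at hy
    refine ⟨jonesT ({y} : Set S), ⟨y, rfl⟩, ?_⟩
    intro s hs
    have h3 : s = jonesT ({x ⟨s, hs⟩} : Set S) := hx' ⟨s, hs⟩
    rw [h3]
    exact jonesT_sub_of_mem h (hy ⟨s, hs⟩)) (jonesT ({p₀} : Set S)) ⟨p₀, rfl⟩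
  obtain ⟨p, hp⟩ := hM.prop
  refine ⟨p, hp ▸ hM0, ?_⟩
  intro q hq
  have h1 := jonesT_sub_of_mem h hq
  have h2 := hM.eq_of_subset ⟨q, rfl⟩ (hp ▸ h1)
  rw [← hp]
  exact h2.symm

/-- Main theorem: if `T` is continuous for `S` and `T(p₀)` has nonempty interior, then `S` is not
the union of two proper subcontinua. -/
theorem indecomposable (h : TContinuous S) (p₀ : S)
    (hp₀ : (interior (jonesT ({p₀} : Set S))).Nonempty) {A₀ B₀ : Set S}
    (hA₀ : IsSubcontinuum A₀) (hB₀ : IsSubcontinuum B₀) (hAne : A₀ ≠ univ) (hBne : B₀ ≠ univ)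
    (hAB : A₀ ∪ B₀ = univ) : False := by
  classical
  obtain ⟨p, hpp₀, hmax⟩ := exists_max h p₀
  set U : Set S := interior (jonesT ({p} : Set S)) with hUdef
  have hU : IsOpen U := isOpen_interior
  have hUne : U.Nonempty := hp₀.mono (interior_mono hpp₀)
  have core' : ∀ a : S, p ∈ jonesT ({a} : Set S) → ∀ W, IsSubcontinuum W →
      (interior W ∩ U).Nonempty → a ∈ interior W := by
    rintro a ha W hW ⟨z, hzW, hzU⟩
    obtain ⟨W', hW', hzW', hWW⟩ := inner h hW hzW
    have hz : z ∈ jonesT ({a} : Set S) := by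
      rw [hmax a ha]
      exact interior_subset hzU
    obtain ⟨x, hx, hxa⟩ := mem_jonesT.1 hz W' hW' hzW'
    rw [mem_singleton_iff] at hxa
    exact hWW (hxa ▸ hx)
  have hpp : p ∈ jonesT ({p} : Set S) := subset_jonesT _ rfl
  have core : ∀ W, IsSubcontinuum W → (interior W ∩ U).Nonempty → p ∈ interior W :=
    core' p hpp
  have hκU : ∀ a : S, p ∈ jonesT ({a} : Set S) → a ∈ U := by
    intro a ha
    exact core' a ha _ (isSubcontinuum_jonesT_singleton p) ((inter_self U).symm ▸ hUne)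
  -- a proper subcontinuum whose interior meets `U`
  obtain ⟨D₀, hD₀, hD₀ne, hD₀U⟩ : ∃ D₀ : Set S, IsSubcontinuum D₀ ∧ D₀ ≠ univ ∧
      (interior D₀ ∩ U).Nonempty := by
    by_cases hUB : U ⊆ B₀
    · obtain ⟨x, hx⟩ := hUne
      exact ⟨B₀, hB₀, hBne, x, interior_maximal hUB hU hx, hx⟩
    · obtain ⟨x, hxU, hxB⟩ := not_subset.1 hUB
      refine ⟨A₀, hA₀, hAne, x, ?_, hxU⟩
      have h1 : B₀ᶜ ⊆ A₀ := by
        intro y hy
        have : y ∈ A₀ ∪ B₀ := hAB ▸ mem_univ y
        exact this.resolve_right hy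
      exact interior_maximal h1 hB₀.1.isClosed.isOpen_compl hxB
  have stepA' : ∀ A : Set S, IsClosed A → A ⊆ closure U → p ∈ jonesT A →
      ∃ a ∈ A, p ∈ jonesT ({a} : Set S) := fun A hA hAU hpA =>
    stepA h hU core hD₀ hD₀ne hD₀U hA hAU hpA
  -- the points of `κ` do not have minimal `T`
  have hκE : ∀ a : S, p ∈ jonesT ({a} : Set S) → a ∉ minSet S := by
    intro a ha haE
    have h1 : ∀ y ∈ jonesT ({a} : Set S), p ∈ jonesT ({y} : Set S) := by
      intro y hy
      have h2 : a ∈ jonesT ({y} : Set S) := haE y hy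
      exact jonesT_sub_of_mem h h2 ha
    have h2 : jonesT ({a} : Set S) ⊆ interior (jonesT ({a} : Set S)) := by
      intro y hy
      rw [hmax a ha]
      exact hκU y (h1 y hy)
    have h3 : IsOpen (jonesT ({a} : Set S)) := by
      rw [← subset_antisymm interior_subset h2]
      exact isOpen_interior
    have h4 : jonesT ({a} : Set S) = univ :=
      IsClopen.eq_univ ⟨isClosed_jonesT _, h3⟩ ⟨a, subset_jonesT _ rfl⟩
    obtain ⟨q, hq⟩ : ∃ q, q ∉ D₀ := by
      by_contra hno
      push Not at hno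
      exact hD₀ne (eq_univ_of_forall hno)
    have h5 : jonesT ({q} : Set S) = univ := by
      rw [hmax q (h1 q (h4 ▸ mem_univ q)), ← hmax a ha, h4]
    obtain ⟨z, hz, -⟩ := hD₀U
    have h6 : z ∈ jonesT ({q} : Set S) := h5 ▸ mem_univ z
    obtain ⟨x, hx, hxq⟩ := mem_jonesT.1 h6 D₀ hD₀ hz
    rw [mem_singleton_iff] at hxq
    exact hq (hxq ▸ hx)
  have hEc := isClosed_minSet h
  -- a subcontinuum around `p` inside `U` missing `E`
  have hpA : p ∉ jonesT ((minSet S ∩ closure U) ∪ frontier U) := by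
    intro hp
    obtain ⟨a, ha, hpa⟩ := stepA' _ ((hEc.inter isClosed_closure).union isClosed_frontier)
      (union_subset inter_subset_right frontier_subset_closure) hp
    rcases ha with ha | ha
    · exact hκE a hpa ha.1
    · rw [hU.frontier_eq] at ha
      exact ha.2 (hκU a hpa)
  obtain ⟨D, hD, hpD, hDA⟩ := notMem_jonesT.1 hpA
  have hDfr : ∀ x ∈ D, x ∉ frontier U := fun x hx hx' => Set.disjoint_left.1 hDA hx (Or.inr hx')
  have hDU : D ⊆ U := by
    apply hD.2.2.subset_of_closure_inter_subset hU ⟨p, interior_subset hpD, hκU p hpp⟩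
    rintro x ⟨hxU, hxD⟩
    by_contra hx
    apply hDfr x hxD
    rw [hU.frontier_eq]
    exact ⟨hxU, hx⟩
  have hDE : ∀ x ∈ D, x ∉ minSet S := fun x hx hx' =>
    Set.disjoint_left.1 hDA hx (Or.inl ⟨hx', subset_closure (hDU hx)⟩)
  have hDne : D ≠ univ := by
    obtain ⟨e, -, he⟩ := exists_minSet h (F := univ) ⟨p, mem_univ p⟩ (fun _ _ => subset_univ _)
    intro hD'
    exact hDE e (hD' ▸ mem_univ e) he
  set F : Set S := (interior D)ᶜ with hFdef
  have hFc : IsClosed F := isOpen_interior.isClosed_compl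
  have hFconn : ¬ IsPreconnected F := by
    intro hF
    have hFne : F.Nonempty := by
      by_contra hemp
      rw [not_nonempty_iff_eq_empty, hFdef, compl_empty_iff] at hemp
      exact hDne (univ_subset_iff.1 (hemp ▸ interior_subset))
    have hFs : IsSubcontinuum F := ⟨hFc.isCompact, hFne, hF⟩
    by_cases hne : (interior F ∩ U).Nonempty
    · exact (interior_subset (core F hFs hne)) hpD
    · have h1 : U ⊆ D := by
        intro x hx
        by_contra hxD
        apply hne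
        refine ⟨x, ?_, hx⟩
        rw [hFdef, interior_compl]
        intro hx'
        exact hxD (hD.1.isClosed.closure_subset_iff.2 interior_subset hx')
      have h2 : D = U := subset_antisymm hDU h1
      have h3 : IsClopen D := ⟨hD.1.isClosed, h2 ▸ hU⟩
      exact hDne (h3.eq_univ hD.2.1)
  rw [isPreconnected_iff_subset_of_fully_disjoint_closed hFc] at hFconn
  push Not at hFconn
  obtain ⟨u, v, hu, hv, hFuv, huv, hFu, hFv⟩ := hFconn
  have hTF : jonesT F = F := jonesT_compl_interior h hD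
  have hTsub : ∀ x ∈ F, jonesT ({x} : Set S) ⊆ F := by
    intro x hx
    have := jonesT_mono (singleton_subset_iff.2 hx)
    rwa [hTF] at this
  have hTuv : ∀ x ∈ F, jonesT ({x} : Set S) ⊆ u ∨ jonesT ({x} : Set S) ⊆ v := fun x hx =>
    (isPreconnected_iff_subset_of_fully_disjoint_closed (isClosed_jonesT _)).1
      (isPreconnected_jonesT_singleton x) u v hu hv ((hTsub x hx).trans hFuv) huv
  have hself : ∀ x : S, x ∈ jonesT ({x} : Set S) := fun x => subset_jonesT _ rfl
  have hTu : ∀ x ∈ F, x ∈ u → jonesT ({x} : Set S) ⊆ u := by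
    intro x hx hxu
    rcases hTuv x hx with h1 | h1
    · exact h1
    · exact absurd (h1 (hself x)) (Set.disjoint_left.1 huv hxu)
  have hTv : ∀ x ∈ F, x ∈ v → jonesT ({x} : Set S) ⊆ v := by
    intro x hx hxv
    rcases hTuv x hx with h1 | h1
    · exact absurd hxv (Set.disjoint_left.1 huv (h1 (hself x)))
    · exact h1
  obtain ⟨b, hbF, hbu⟩ := not_subset.1 hFu
  obtain ⟨a, haF, hav⟩ := not_subset.1 hFv
  have hau : a ∈ u := (hFuv haF).resolve_right hav
  have hbv : b ∈ v := (hFuv hbF).resolve_left hbu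
  have hG1 : IsClosed {x : S | (jonesT ({x} : Set S) ∩ (F ∩ u)).Nonempty} :=
    h.isClosed_hit (hFc.inter hu)
  have hG2 : IsOpen {x : S | (jonesT ({x} : Set S) ∩ (D ∪ v)ᶜ).Nonempty} :=
    h.isOpen_hit (hD.1.isClosed.union hv).isOpen_compl
  have hGG : {x : S | (jonesT ({x} : Set S) ∩ (F ∩ u)).Nonempty} =
      {x : S | (jonesT ({x} : Set S) ∩ (D ∪ v)ᶜ).Nonempty} := by
    ext x
    constructor
    · rintro ⟨y, hyx, hyF, hyu⟩
      obtain ⟨e, hey, heE⟩ := exists_minSet h (F := jonesT ({y} : Set S)) ⟨y, hself y⟩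
        (fun w hw => jonesT_sub_of_mem h hw)
      refine ⟨e, jonesT_sub_of_mem h hyx hey, ?_⟩
      rintro (heD | hev)
      · exact hDE e heD heE
      · exact Set.disjoint_left.1 huv (hTu y hyF hyu hey) hev
    · rintro ⟨y, hyx, hy⟩
      have hyD : y ∉ D := fun h' => hy (Or.inl h')
      have hyv : y ∉ v := fun h' => hy (Or.inr h')
      have hyF : y ∈ F := fun h' => hyD (interior_subset h')
      exact ⟨y, hyx, hyF, (hFuv hyF).resolve_right hyv⟩
  have hGc : IsClopen {x : S | (jonesT ({x} : Set S) ∩ (F ∩ u)).Nonempty} :=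
    ⟨hG1, hGG ▸ hG2⟩
  have hGu := hGc.eq_univ ⟨a, a, hself a, haF, hau⟩
  have hb : b ∈ {x : S | (jonesT ({x} : Set S) ∩ (F ∩ u)).Nonempty} := hGu ▸ mem_univ b
  obtain ⟨y, hyb, -, hyu⟩ := hb
  exact Set.disjoint_left.1 huv hyu (hTv b hbF hbv hyb)

end

end Pool.Agent.R812.JonesT
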