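import Mathlib

/-!
# A Hausdorff space which is strategically k-Menger but not k-Rothberger
-/

set_option autoImplicit false

open Set Filter Topology MeasureTheory

namespace Pool.Agent.R812.KMeng

universe u

/-- `𝒰` is a `k`-cover of `X`: it consists of open sets and every compact subset of `X` lies in a
member of `𝒰`. -/
def IsKCover (X : Type u) [TopologicalSpace X] (𝒰 : Set (Set X)) : Prop :=
  (∀ U ∈ 𝒰, IsOpen U) ∧ ∀ K : Set X, IsCompact K → ∃ U ∈ 𝒰, K ⊆ U

/-- `X` is `k`-Menger. -/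
def KMenger (X : Type u) [TopologicalSpace X] : Prop :=
  ∀ 𝒰 : ℕ → Set (Set X), (∀ n, IsKCover X (𝒰 n)) →
    ∃ ℱ : ℕ → Set (Set X), (∀ n, (ℱ n).Finite ∧ ℱ n ⊆ 𝒰 n) ∧ IsKCover X (⋃ n, ℱ n)

/-- `X` is `k`-Rothberger. -/
def KRothberger (X : Type u) [TopologicalSpace X] : Prop :=
  ∀ 𝒰 : ℕ → Set (Set X), (∀ n, IsKCover X (𝒰 n)) →
    ∃ U : ℕ → Set X, (∀ n, U n ∈ 𝒰 n) ∧ IsKCover X (range U)

/-- The history of player P1's moves in the rounds `0, …, n`. -/
def history {α : Type u} (𝒰 : ℕ → α) (n : ℕ) : List α := (List.range (n + 1)).map 𝒰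

/-- `X` is strategically `k`-Menger: player P2 has a winning strategy in `G_fin(K_X, K_X)`. The
strategy `σ` computes P2's move from the finite sequence of P1's moves so far. -/
def StratKMenger (X : Type u) [TopologicalSpace X] : Prop :=
  ∃ σ : List (Set (Set X)) → Set (Set X), ∀ 𝒰 : ℕ → Set (Set X), (∀ n, IsKCover X (𝒰 n)) →
    (∀ n, (σ (history 𝒰 n)).Finite ∧ σ (history 𝒰 n) ⊆ 𝒰 n) ∧
      IsKCover X (⋃ n, σ (history 𝒰 n))

/-- `X` is strategically `k`-Rothberger: player P2 has a winning strategy in `G_1(K_X, K_X)`. -/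
def StratKRothberger (X : Type u) [TopologicalSpace X] : Prop :=
  ∃ σ : List (Set (Set X)) → Set X, ∀ 𝒰 : ℕ → Set (Set X), (∀ n, IsKCover X (𝒰 n)) →
    (∀ n, σ (history 𝒰 n) ∈ 𝒰 n) ∧ IsKCover X (range fun n => σ (history 𝒰 n))

theorem StratKMenger.kMenger {X : Type u} [TopologicalSpace X] (h : StratKMenger X) :
    KMenger X := by
  obtain ⟨σ, hσ⟩ := h
  exact fun 𝒰 h𝒰 => ⟨fun n => σ (history 𝒰 n), (hσ 𝒰 h𝒰).1, (hσ 𝒰 h𝒰).2⟩

theorem StratKRothberger.kRothberger {X : Type u} [TopologicalSpace X] (h : StratKRothberger X) :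
    KRothberger X := by
  obtain ⟨σ, hσ⟩ := h
  exact fun 𝒰 h𝒰 => ⟨fun n => σ (history 𝒰 n), (hσ 𝒰 h𝒰).1, (hσ 𝒰 h𝒰).2⟩

/-- The unit interval with the topology in which countable sets are closed. -/
def XX : Type := unitInterval

/-- A set is open iff it is a Euclidean open set minus a countable set. -/
instance : TopologicalSpace XX where
  IsOpen O := ∃ U : Set unitInterval, IsOpen U ∧ (O : Set unitInterval) ⊆ U ∧
    (U \ (O : Set unitInterval)).Countable
  isOpen_univ := ⟨univ, isOpen_univ, subset_rfl, by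
    change ((univ : Set unitInterval) \ (univ : Set unitInterval)).Countable
    simp⟩
  isOpen_inter := by
    rintro O O' ⟨U, hU, hOU, hc⟩ ⟨U', hU', hOU', hc'⟩
    refine ⟨U ∩ U', hU.inter hU', inter_subset_inter hOU hOU', (hc.union hc').mono ?_⟩
    rintro x ⟨⟨h1, h2⟩, h3⟩
    by_cases hx : x ∈ (O : Set unitInterval)
    · exact Or.inr ⟨h2, fun h4 => h3 ⟨hx, h4⟩⟩
    · exact Or.inl ⟨h1, hx⟩
  isOpen_sUnion := by
    intro S hS
    choose! U hU hOU hc using hS
    obtain ⟨T, hTc, hTS, hT⟩ := TopologicalSpace.isOpen_sUnion_countable (U '' S)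
      (by rintro _ ⟨O, hO, rfl⟩; exact hU O hO)
    refine ⟨⋃₀ (U '' S), isOpen_sUnion (by rintro _ ⟨O, hO, rfl⟩; exact hU O hO), ?_, ?_⟩
    · rintro x ⟨O, hO, hx⟩
      exact ⟨U O, ⟨O, hO, rfl⟩, hOU O hO hx⟩
    · rw [← hT]
      have hex : ∀ V ∈ T, ∃ O ∈ S, U O = V := fun V hV => hTS hV
      choose! g hgS hgU using hex
      refine (hTc.biUnion (fun V hV => hc (g V) (hgS V hV))).mono ?_
      rintro x ⟨⟨V, hV, hx⟩, hxS⟩
      refine mem_iUnion₂.2 ⟨V, hV, ?_, fun h => hxS ⟨g V, hgS V hV, h⟩⟩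
      rw [hgU V hV]
      exact hx

theorem isOpen_iff {O : Set XX} : IsOpen O ↔ ∃ U : Set unitInterval, IsOpen U ∧
    (O : Set unitInterval) ⊆ U ∧ (U \ (O : Set unitInterval)).Countable := Iff.rfl

/-- Euclidean open sets are open in `XX` -/
theorem isOpen_of_euclid {U : Set unitInterval} (hU : IsOpen U) : @IsOpen XX _ U :=
  ⟨U, hU, subset_rfl, by
    simp⟩

/-- complements of countable sets are open in `XX` -/
theorem isOpen_compl_countable {C : Set XX} (hC : C.Countable) : IsOpen Cᶜ :=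
  ⟨univ, isOpen_univ, subset_univ _, hC.mono fun _ hx => not_not.1 hx.2⟩

instance : T2Space XX where
  t2 := by
    intro x y hxy
    obtain ⟨U, V, hU, hV, hx, hy, hUV⟩ := t2_separation (X := unitInterval) hxy
    exact ⟨U, V, isOpen_of_euclid hU, isOpen_of_euclid hV, hx, hy, hUV⟩

/-- compact sets are finite -/
theorem finite_of_isCompact {K : Set XX} (hK : IsCompact K) : K.Finite := by
  by_contra hinf
  have hinf' : K.Infinite := hinf
  let d : ℕ → XX := fun n => (hinf'.natEmbedding _ n : XX)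
  have hdinj : Function.Injective d := Subtype.val_injective.comp (hinf'.natEmbedding _).injective
  have hdK : ∀ n, d n ∈ K := fun n => (hinf'.natEmbedding _ n).2
  obtain ⟨t, ht⟩ := hK.elim_finite_subcover (fun n : ℕ => (range d \ {d n})ᶜ)
    (fun n => isOpen_compl_countable ((countable_range d).mono sdiff_subset)) (by
      intro x _
      by_cases hx : x ∈ range d
      · obtain ⟨n, rfl⟩ := hx
        exact mem_iUnion.2 ⟨n, fun h => h.2 rfl⟩
      · exact mem_iUnion.2 ⟨0, fun h => hx h.1⟩)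
  have hsub : ∀ n, n ∈ t := by
    intro n
    obtain ⟨m, hm, hnm⟩ := mem_iUnion₂.1 (ht (hdK n))
    by_contra hnt
    apply hnm
    refine ⟨mem_range_self n, fun h => ?_⟩
    rw [mem_singleton_iff] at h
    exact hnt (hdinj h ▸ hm)
  exact Set.infinite_univ (α := ℕ) (t.finite_toSet.subset fun n _ => hsub n)

/-- a Euclidean open hull of an open set of `XX` -/
noncomputable def hull (O : Set XX) : Set unitInterval := by
  classical
  exact if h : IsOpen O then (isOpen_iff.1 h).choose else ∅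

theorem hull_spec {O : Set XX} (h : IsOpen O) : IsOpen (hull O) ∧
    (O : Set unitInterval) ⊆ hull O ∧ (hull O \ (O : Set unitInterval)).Countable := by
  unfold hull
  rw [dif_pos h]
  exact (isOpen_iff.1 h).choose_spec

/-- the countable set missing in an open set -/
def cnt (O : Set XX) : Set unitInterval := hull O \ (O : Set unitInterval)

/-- The compactness claim. -/
theorem claim {𝒰 : Set (Set XX)} (h𝒰 : IsKCover XX 𝒰) {G : Set XX} (hG : G.Finite) (n : ℕ) :
    ∃ ℱ : Set (Set XX), ℱ.Finite ∧ ℱ ⊆ 𝒰 ∧ ∀ y : Fin n → unitInterval,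
      (∀ i, ∀ O ∈ ℱ, y i ∉ cnt O) → ∃ O ∈ ℱ, G ⊆ O ∧ ∀ i, y i ∈ (O : Set unitInterval) := by
  have hex : ∀ y : Fin n → unitInterval, ∃ O ∈ 𝒰, G ∪ (range y : Set XX) ⊆ O := fun y =>
    h𝒰.2 _ (hG.union (finite_range y)).isCompact
  choose O hO hGO using hex
  obtain ⟨t, ht⟩ := (isCompact_univ (X := Fin n → unitInterval)).elim_finite_subcover
    (fun y : Fin n → unitInterval => {z : Fin n → unitInterval | ∀ i, z i ∈ hull (O y)})
    (fun y => by
      have : {z : Fin n → unitInterval | ∀ i, z i ∈ hull (O y)} =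
          ⋂ i, (fun z : Fin n → unitInterval => z i) ⁻¹' hull (O y) := by
        ext z
        simp
      rw [this]
      exact isOpen_iInter_of_finite fun i =>
        (hull_spec (h𝒰.1 _ (hO y))).1.preimage (continuous_apply i))
    (fun y _ => mem_iUnion.2 ⟨y, fun i => (hull_spec (h𝒰.1 _ (hO y))).2.1
      (hGO y (Or.inr (mem_range_self i)))⟩)
  refine ⟨O '' t, t.finite_toSet.image O, ?_, ?_⟩
  · rintro _ ⟨y, -, rfl⟩
    exact hO y
  · intro z hz
    obtain ⟨y, hy, hzy⟩ := mem_iUnion₂.1 (ht (mem_univ z))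
    refine ⟨O y, ⟨y, hy, rfl⟩, subset_union_left.trans (hGO y), fun i => ?_⟩
    by_contra hi
    exact hz i (O y) ⟨y, hy, rfl⟩ ⟨hzy i, hi⟩

/-- the selected finite family -/
noncomputable def sel (𝒰 : Set (Set XX)) (G : Set XX) (n : ℕ) : Set (Set XX) := by
  classical
  exact if h : IsKCover XX 𝒰 ∧ G.Finite then (claim h.1 h.2 n).choose else ∅

theorem sel_spec {𝒰 : Set (Set XX)} (h𝒰 : IsKCover XX 𝒰) {G : Set XX} (hG : G.Finite) (n : ℕ) :
    (sel 𝒰 G n).Finite ∧ sel 𝒰 G n ⊆ 𝒰 ∧ ∀ y : Fin n → unitInterval,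
      (∀ i, ∀ O ∈ sel 𝒰 G n, y i ∉ cnt O) →
        ∃ O ∈ sel 𝒰 G n, G ⊆ O ∧ ∀ i, y i ∈ (O : Set unitInterval) := by
  unfold sel
  rw [dif_pos ⟨h𝒰, hG⟩]
  exact (claim h𝒰 hG n).choose_spec

/-- the finite set of the points revealed so far -/
def pts (L : List (ℕ → unitInterval)) : Set unitInterval :=
  ⋃ e ∈ {e | e ∈ L}, e '' Iio L.length

theorem finite_pts (L : List (ℕ → unitInterval)) : (pts L).Finite :=
  (List.finite_toSet L).biUnion fun e _ => (finite_Iio _).image e

/-- P2's answer to the cover `𝒰` if the countable sets enumerated by `L` have been revealed -/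
noncomputable def move (L : List (ℕ → unitInterval)) (𝒰 : Set (Set XX)) : Set (Set XX) :=
  ⋃ G ∈ 𝒫 (pts L), sel 𝒰 G L.length

/-- an enumeration of a set containing the countable set missed by the members of a finite
family -/
noncomputable def enum (ℱ : Set (Set XX)) : ℕ → unitInterval := by
  classical
  exact if h : (⋃ O ∈ ℱ, cnt O).Countable ∧ (⋃ O ∈ ℱ, cnt O).Nonempty then
    (h.1.exists_eq_range h.2).choose else fun _ => 0

theorem enum_spec {ℱ : Set (Set XX)} (h : (⋃ O ∈ ℱ, cnt O).Countable) :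
    (⋃ O ∈ ℱ, cnt O) ⊆ range (enum ℱ) := by
  by_cases hne : (⋃ O ∈ ℱ, cnt O).Nonempty
  · unfold enum
    rw [dif_pos ⟨h, hne⟩]
    exact (h.exists_eq_range hne).choose_spec.subset
  · rw [not_nonempty_iff_eq_empty] at hne
    rw [hne]
    exact empty_subset _

/-- the enumerations of the revealed countable sets (most recent first) -/
noncomputable def state : List (Set (Set XX)) → List (ℕ → unitInterval)
  | [] => []
  | 𝒰 :: t => enum (move (state t) 𝒰) :: state t

theorem length_state (l : List (Set (Set XX))) : (state l).length = l.length := by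
  induction l with
  | nil => rfl
  | cons a t ih => simp [state, ih]

/-- P2's strategy, as a function of the history written with the most recent move first -/
noncomputable def strat' : List (Set (Set XX)) → Set (Set XX)
  | [] => ∅
  | 𝒰 :: t => move (state t) 𝒰

/-- P2's strategy -/
noncomputable def strat (l : List (Set (Set XX))) : Set (Set XX) := strat' l.reverse

/-- the reversed list of the first `n` moves -/
def rev (𝒰 : ℕ → Set (Set XX)) (n : ℕ) : List (Set (Set XX)) := ((List.range n).map 𝒰).reverse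

theorem rev_succ (𝒰 : ℕ → Set (Set XX)) (n : ℕ) : rev 𝒰 (n + 1) = 𝒰 n :: rev 𝒰 n := by
  simp [rev, List.range_succ]

theorem strat_history (𝒰 : ℕ → Set (Set XX)) (n : ℕ) :
    strat (history 𝒰 n) = move (state (rev 𝒰 n)) (𝒰 n) := by
  have h1 : (history 𝒰 n).reverse = rev 𝒰 (n + 1) := rfl
  unfold strat
  rw [h1, rev_succ]
  rfl

theorem length_rev (𝒰 : ℕ → Set (Set XX)) (n : ℕ) : (rev 𝒰 n).length = n := by
  simp [rev]

theorem mem_state (𝒰 : ℕ → Set (Set XX)) {m n : ℕ} (hmn : m < n) :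
    enum (move (state (rev 𝒰 m)) (𝒰 m)) ∈ state (rev 𝒰 n) := by
  induction n with
  | zero => omega
  | succ n ih =>
    rw [rev_succ]
    rcases Nat.lt_succ_iff_lt_or_eq.1 hmn with h | h
    · exact List.mem_cons_of_mem _ (ih h)
    · subst h
      exact List.mem_cons_self

theorem stratKMenger : StratKMenger XX := by
  refine ⟨strat, fun 𝒰 h𝒰 => ?_⟩
  have hfin : ∀ n, (strat (history 𝒰 n)).Finite ∧ strat (history 𝒰 n) ⊆ 𝒰 n := by
    intro n
    rw [strat_history]
    unfold move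
    constructor
    · refine (finite_pts _).finite_subsets.biUnion fun G hG => ?_
      exact (sel_spec (h𝒰 n) ((finite_pts _).subset hG) _).1
    · refine iUnion₂_subset fun G hG => ?_
      exact (sel_spec (h𝒰 n) ((finite_pts _).subset hG) _).2.1
  refine ⟨hfin, ?_, ?_⟩
  · intro U hU
    obtain ⟨n, hn⟩ := mem_iUnion.1 hU
    exact (h𝒰 n).1 U ((hfin n).2 hn)
  intro K hK
  have hKfin := finite_of_isCompact hK
  -- the countable set of all revealed points
  let E : ℕ → Set unitInterval := fun n => ⋃ O ∈ strat (history 𝒰 n), cnt O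
  have hEc : ∀ n, (E n).Countable := fun n =>
    (hfin n).1.countable.biUnion fun O hO => (hull_spec ((h𝒰 n).1 O ((hfin n).2 hO))).2.2
  have hEtot : (⋃ n, E n).Countable := countable_iUnion hEc
  obtain ⟨y₀, hy₀⟩ : ∃ y₀ : unitInterval, y₀ ∉ ⋃ n, E n := by
    by_contra hno
    push Not at hno
    have h1 : (univ : Set unitInterval).Countable := hEtot.mono fun x _ => hno x
    have h2 : (Icc (0 : ℝ) 1).Countable := by
      have := h1.image (Subtype.val : unitInterval → ℝ)
      rwa [image_univ, Subtype.range_coe] at this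
    exact (Cardinal.mk_Icc_real (zero_lt_one' ℝ) ▸ Cardinal.aleph0_lt_continuum.not_ge)
      (Cardinal.le_aleph0_iff_set_countable.2 h2)
  let G : Set unitInterval := (K : Set unitInterval) ∩ ⋃ n, E n
  let F : Set unitInterval := insert y₀ ((K : Set unitInterval) \ ⋃ n, E n)
  have hGfin : G.Finite := hKfin.subset inter_subset_left
  have hFfin : F.Finite := (hKfin.subset sdiff_subset).insert y₀
  have hFE : ∀ x ∈ F, x ∉ ⋃ n, E n := by
    rintro x (rfl | hx)
    · exact hy₀
    · exact hx.2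
  -- all points of `G` are revealed at some stage
  obtain ⟨N, hN⟩ : ∃ N, ∀ n, N ≤ n → G ⊆ pts (state (rev 𝒰 n)) := by
    have h1 : ∀ x ∈ G, ∃ N, ∀ n, N ≤ n → x ∈ pts (state (rev 𝒰 n)) := by
      rintro x ⟨-, hx⟩
      obtain ⟨m, hm⟩ := mem_iUnion.1 hx
      have hm' : x ∈ ⋃ O ∈ move (state (rev 𝒰 m)) (𝒰 m), cnt O := by
        rw [← strat_history]
        exact hm
      obtain ⟨i, hi⟩ := enum_spec (by rw [← strat_history]; exact hEc m) hm'
      refine ⟨max (m + 1) (i + 1), fun n hn => ?_⟩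
      refine mem_iUnion₂.2 ⟨_, mem_state 𝒰 (show m < n by omega), i, ?_, hi⟩
      rw [length_state, length_rev]
      exact show i < n by omega
    choose! N hN using h1
    obtain ⟨M, hM⟩ := (hGfin.image N).bddAbove
    refine ⟨M, fun n hn x hx => hN x hx n (le_trans (hM ⟨x, hx, rfl⟩) hn)⟩
  obtain ⟨m, f, -, hfr⟩ := hFfin.fin_param
  let n := max N m
  have hmn : m ≤ n := le_max_right _ _
  let y : Fin n → unitInterval := fun i => if h : i.1 < m then f ⟨i.1, h⟩ else y₀
  have hyF : ∀ i, y i ∈ F := by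
    intro i
    by_cases h : i.1 < m
    · have h1 : y i = f ⟨i.1, h⟩ := dif_pos h
      rw [h1, ← hfr]
      exact mem_range_self _
    · have h1 : y i = y₀ := dif_neg h
      rw [h1]
      exact Or.inl rfl
  have hFy : ∀ x ∈ F, ∃ i, y i = x := by
    intro x hx
    rw [← hfr] at hx
    obtain ⟨j, rfl⟩ := hx
    exact ⟨⟨j.1, lt_of_lt_of_le j.2 hmn⟩, dif_pos j.2⟩
  have hlen : (state (rev 𝒰 n)).length = n := by rw [length_state, length_rev]
  have hGp := hN n (le_max_left _ _)
  obtain ⟨hs1, hs2, hs3⟩ := sel_spec (h𝒰 n) (G := G) hGfin n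
  have hsub : sel (𝒰 n) G n ⊆ strat (history 𝒰 n) := by
    rw [strat_history]
    unfold move
    rw [hlen]
    exact subset_biUnion_of_mem (u := fun G => sel (𝒰 n) G n) hGp
  obtain ⟨O, hO, hGO, hyO⟩ := hs3 y fun i O hO hyO =>
    hFE _ (hyF i) (mem_iUnion.2 ⟨n, mem_iUnion₂.2 ⟨O, hsub hO, hyO⟩⟩)
  refine ⟨O, mem_iUnion.2 ⟨n, hsub hO⟩, ?_⟩
  intro x hx
  by_cases hxE : x ∈ (⋃ n, E n : Set unitInterval)
  · exact hGO ⟨hx, hxE⟩
  · obtain ⟨i, hi⟩ := hFy x (Or.inr ⟨hx, hxE⟩)
    rw [← hi]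
    exact hyO i

/-- Lebesgue measure -/
noncomputable def vol (A : Set unitInterval) : ENNReal := volume A

theorem vol_finite {A : Set unitInterval} (hA : A.Finite) : vol A = 0 := by
  unfold vol
  rw [unitInterval.volume_apply]
  exact (hA.image _).measure_zero _

/-- the space is not `k`-Rothberger -/
theorem not_kRothberger : ¬ KRothberger XX := by
  intro h
  let 𝒰 : ℕ → Set (Set XX) := fun n => {O | IsOpen O ∧ vol O ≤ (1 / 2 : ENNReal) ^ (n + 2)}
  have h𝒰 : ∀ n, IsKCover XX (𝒰 n) := by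
    intro n
    refine ⟨fun U hU => hU.1, fun K hK => ?_⟩
    have hK0 : vol K = 0 := vol_finite (finite_of_isCompact hK)
    obtain ⟨U, hKU, hU, hUm⟩ := Set.exists_isOpen_lt_of_lt (μ := (volume : Measure unitInterval))
      K ((1 / 2 : ENNReal) ^ (n + 2)) (by
        change vol K < _
        rw [hK0]
        exact ENNReal.pow_pos (by simp) _)
    exact ⟨U, ⟨isOpen_of_euclid hU, hUm.le⟩, hKU⟩
  obtain ⟨U, hU, hUk⟩ := h 𝒰 h𝒰
  let W : ℕ → Set unitInterval := fun n => U n
  have hcov : (univ : Set unitInterval) ⊆ ⋃ n, W n := by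
    intro x _
    have hc : @IsCompact XX _ {(x : XX)} := isCompact_singleton
    obtain ⟨V, ⟨n, rfl⟩, hV⟩ := hUk.2 _ hc
    exact mem_iUnion.2 ⟨n, hV rfl⟩
  have h1 : (1 : ENNReal) ≤ ∑' n, (1 / 2 : ENNReal) ^ (n + 2) := by
    calc (1 : ENNReal) = volume (univ : Set unitInterval) := measure_univ.symm
      _ ≤ volume (⋃ n, W n) := measure_mono hcov
      _ ≤ ∑' n, volume (W n) := measure_iUnion_le _
      _ ≤ _ := ENNReal.tsum_le_tsum fun n => (hU n).2
  have h2 : ∑' n, (1 / 2 : ENNReal) ^ (n + 2) = 2⁻¹ := by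
    simp_rw [pow_add]
    rw [ENNReal.tsum_mul_right, ENNReal.tsum_geometric, one_div, ENNReal.one_sub_inv_two, inv_inv,
      pow_two, ← mul_assoc, ENNReal.mul_inv_cancel two_ne_zero ENNReal.ofNat_ne_top, one_mul]
  rw [h2] at h1
  have h3 : (2 : ENNReal)⁻¹ < 1 := by
    rw [ENNReal.inv_lt_one]
    exact ENNReal.one_lt_two
  exact absurd h1 (not_le.2 h3)

end Pool.Agent.R812.KMeng
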