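import Mathlib

/-!
# A T1 space which is Markov k-Menger but not Markov k-Rothberger
-/

set_option autoImplicit false

open Set Filter Topology

namespace Pool.Agent.R812.Markov

universe u

/-- `𝒰` is a `k`-cover of `X`: it consists of open sets and every compact subset of `X` lies in a
member of `𝒰`. -/
def IsKCover (X : Type u) [TopologicalSpace X] (𝒰 : Set (Set X)) : Prop :=
  (∀ U ∈ 𝒰, IsOpen U) ∧ ∀ K : Set X, IsCompact K → ∃ U ∈ 𝒰, K ⊆ U

/-- `X` is Markov `k`-Menger: player P2 has a winning strategy in `G_fin(K_X, K_X)` whose move in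
round `n` depends only on `n` and on P1's current move. -/
def MarkovKMenger (X : Type u) [TopologicalSpace X] : Prop :=
  ∃ σ : ℕ → Set (Set X) → Set (Set X), ∀ 𝒰 : ℕ → Set (Set X), (∀ n, IsKCover X (𝒰 n)) →
    (∀ n, (σ n (𝒰 n)).Finite ∧ σ n (𝒰 n) ⊆ 𝒰 n) ∧ IsKCover X (⋃ n, σ n (𝒰 n))

/-- `X` is Markov `k`-Rothberger: player P2 has a winning strategy in `G_1(K_X, K_X)` whose move in
round `n` depends only on `n` and on P1's current move. -/
def MarkovKRothberger (X : Type u) [TopologicalSpace X] : Prop :=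
  ∃ σ : ℕ → Set (Set X) → Set X, ∀ 𝒰 : ℕ → Set (Set X), (∀ n, IsKCover X (𝒰 n)) →
    (∀ n, σ n (𝒰 n) ∈ 𝒰 n) ∧ IsKCover X (range fun n => σ n (𝒰 n))

/-- The levels of the space: reals on level `0`, and the free ultrafilters on level `n` form
level `n + 1`. -/
def L : ℕ → Type
  | 0 => ℝ
  | n + 1 => {p : Ultrafilter (L n) // (p : Filter (L n)) ≤ cofinite}

/-- the underlying set of the space -/
def XX : Type := Σ n, L n

/-- the part of a set on a level -/
def part (U : Set XX) (n : ℕ) : Set (L n) := {x | (⟨n, x⟩ : XX) ∈ U}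

/-- A set is open iff with each point `p` of level `n + 1` it contains `p`-almost all points of
level `n`. -/
instance : TopologicalSpace XX where
  IsOpen U := ∀ (n : ℕ) (p : L (n + 1)), (⟨n + 1, p⟩ : XX) ∈ U → part U n ∈ p.1
  isOpen_univ := fun n p _ => univ_mem
  isOpen_inter := fun U V hU hV n p hp => inter_mem (hU n p hp.1) (hV n p hp.2)
  isOpen_sUnion := by
    rintro S hS n p ⟨U, hU, hp⟩
    exact mem_of_superset (hS U hU n p hp) fun x hx => ⟨U, hU, hx⟩

theorem isOpen_iff {U : Set XX} : IsOpen U ↔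
    ∀ (n : ℕ) (p : L (n + 1)), (⟨n + 1, p⟩ : XX) ∈ U → part U n ∈ p.1 := Iff.rfl

theorem part_singleton_finite (x : XX) (n : ℕ) : (part {x} n).Finite := by
  apply Set.Subsingleton.finite
  intro a ha b hb
  have ha' : (⟨n, a⟩ : XX) = x := ha
  have hb' : (⟨n, b⟩ : XX) = x := hb
  have := ha'.trans hb'.symm
  exact eq_of_heq (Sigma.mk.inj this).2

instance : T1Space XX where
  t1 := by
    intro x
    rw [← isOpen_compl_iff]
    intro n p _
    apply p.2
    rw [mem_cofinite]
    have : (part {x}ᶜ n)ᶜ = part {x} n := by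
      ext y
      exact not_not
    rw [this]
    exact part_singleton_finite x n

/-- the points of level at most `n` -/
def low (n : ℕ) : Set XX := {x | x.1 ≤ n}

theorem isOpen_low (n : ℕ) : IsOpen (low n) := by
  intro m p hp
  have hp' : m + 1 ≤ n := hp
  have : part (low n) m = univ := eq_univ_of_forall fun x => (show m ≤ n by omega)
  rw [this]
  exact univ_mem

/-- the points of level less than `n` -/
def lower (n : ℕ) : Set XX := {x | x.1 < n}

/-- the hull of a set `D` of points of level `m`: at the levels `≥ m` -/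
def up (m : ℕ) (D : Set (L m)) : (k : ℕ) → Set (L (m + k))
  | 0 => D
  | k + 1 => {p | up m D k ∈ p.1}

theorem up_empty (m k : ℕ) : up m ∅ k = ∅ := by
  induction k with
  | zero => rfl
  | succ k ih =>
    ext p
    simp only [up, mem_ofPred_eq, mem_empty_iff_false, iff_false]
    rw [ih]
    exact p.1.empty_notMem

theorem up_inter (m k : ℕ) (D E : Set (L m)) : up m (D ∩ E) k = up m D k ∩ up m E k := by
  induction k with
  | zero => rfl
  | succ k ih =>
    ext p
    simp only [up, mem_ofPred_eq, mem_inter_iff]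
    rw [ih]
    exact inter_mem_iff

theorem up_mono (m k : ℕ) {D E : Set (L m)} (h : D ⊆ E) : up m D k ⊆ up m E k := by
  have := up_inter m k D E
  rw [inter_eq_left.2 h] at this
  rw [this]
  exact inter_subset_right

/-- an infinite set contains an infinite set whose hull misses a given finite set of points of
higher levels -/
theorem exists_avoid (m : ℕ) (F : Finset (Σ k, L (m + k))) :
    ∀ A : Set (L m), A.Infinite → ∃ D ⊆ A, D.Infinite ∧ ∀ x ∈ F, x.1 ≠ 0 → x.2 ∉ up m D x.1 := by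
  classical
  induction F using Finset.induction_on with
  | empty => exact fun A hA => ⟨A, subset_rfl, hA, by simp⟩
  | insert a F ha ih =>
    intro A hA
    obtain ⟨D, hDA, hD, hDF⟩ := ih A hA
    obtain ⟨D₁, D₂, h1, h2, h3, h4, h5⟩ : ∃ D₁ D₂ : Set (L m), D₁ ⊆ D ∧ D₂ ⊆ D ∧ D₁.Infinite ∧
        D₂.Infinite ∧ D₁ ∩ D₂ = ∅ := by
      let f := hD.natEmbedding
      refine ⟨(fun n => (f (2 * n) : L m)) '' univ, (fun n => (f (2 * n + 1) : L m)) '' univ,
        ?_, ?_, ?_, ?_, ?_⟩
      · rintro _ ⟨n, -, rfl⟩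
        exact (f (2 * n)).2
      · rintro _ ⟨n, -, rfl⟩
        exact (f (2 * n + 1)).2
      · rw [image_univ]
        apply infinite_range_of_injective
        intro a b hab
        have := f.injective (Subtype.ext hab)
        omega
      · rw [image_univ]
        apply infinite_range_of_injective
        intro a b hab
        have := f.injective (Subtype.ext hab)
        omega
      · ext x
        simp only [mem_inter_iff, mem_image, mem_univ, true_and, mem_empty_iff_false, iff_false]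
        rintro ⟨⟨a, ha⟩, b, hb⟩
        have := f.injective (Subtype.ext (ha.trans hb.symm))
        omega
    by_cases h6 : a.2 ∈ up m D₁ a.1
    · have h7 : a.2 ∉ up m D₂ a.1 := by
        intro h7
        have h8 : a.2 ∈ up m (D₁ ∩ D₂) a.1 := by
          rw [up_inter]
          exact ⟨h6, h7⟩
        rw [h5, up_empty] at h8
        exact h8
      refine ⟨D₂, h2.trans hDA, h4, fun x hx hx0 => ?_⟩
      rcases Finset.mem_insert.1 hx with rfl | hx
      · exact h7
      · exact fun h => hDF x hx hx0 (up_mono m _ h2 h)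
    · refine ⟨D₁, h1.trans hDA, h3, fun x hx hx0 => ?_⟩
      rcases Finset.mem_insert.1 hx with rfl | hx
      · exact h6
      · exact fun h => hDF x hx hx0 (up_mono m _ h1 h)

theorem sigma_inj {m k k' : ℕ} {y : L (m + k)} {y' : L (m + k')}
    (h : (⟨m + k, y⟩ : XX) = ⟨m + k', y'⟩) : (⟨k, y⟩ : Σ k, L (m + k)) = ⟨k', y'⟩ := by
  have h1 : m + k = m + k' := (Sigma.mk.inj h).1
  have h2 : k = k' := by omega
  subst h2
  rw [eq_of_heq (Sigma.mk.inj h).2]

/-- the complement of the hull of `D` -/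
def awaySet (m : ℕ) (D : Set (L m)) : Set XX :=
  {x | ∀ (k : ℕ) (y : L (m + k)), x = ⟨m + k, y⟩ → y ∉ up m D k}

theorem isOpen_awaySet (m : ℕ) (D : Set (L m)) : IsOpen (awaySet m D) := by
  intro n p hp
  by_cases hn : n < m
  · have : part (awaySet m D) n = univ := by
      apply eq_univ_of_forall
      intro x k y hxy
      have h1 : n = m + k := (Sigma.mk.inj hxy).1
      omega
    rw [this]
    exact univ_mem
  · obtain ⟨k, rfl⟩ := Nat.exists_eq_add_of_le (not_lt.1 hn)
    have h1 : p ∉ up m D (k + 1) := hp (k + 1) p rfl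
    have h2 : (up m D k)ᶜ ∈ p.1 := Ultrafilter.compl_mem_iff_notMem.2 h1
    refine mem_of_superset h2 ?_
    intro x hx k' y hxy
    have h3 := sigma_inj hxy
    have h4 : k = k' := (Sigma.mk.inj h3).1
    subst h4
    rw [← eq_of_heq (Sigma.mk.inj h3).2]
    exact hx

theorem isOpen_insert_lower (m : ℕ) (d : L m) : IsOpen (insert (⟨m, d⟩ : XX) (lower m)) := by
  intro n p hp
  have hn : n + 1 ≤ m := by
    rcases hp with h | h
    · exact (Sigma.mk.inj h).1.le
    · exact le_of_lt h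
  have : part (insert (⟨m, d⟩ : XX) (lower m)) n = univ :=
    eq_univ_of_forall fun x => Or.inr (show n < m by omega)
  rw [this]
  exact univ_mem

/-- compact sets are finite -/
theorem finite_of_isCompact {K : Set XX} (hK : IsCompact K) : K.Finite := by
  classical
  obtain ⟨N, hN⟩ := hK.elim_directed_cover (fun n => low n) isOpen_low
    (fun x _ => mem_iUnion.2 ⟨x.1, le_refl x.1⟩)
    (directed_of_isDirected_le fun a b hab x (hx : x.1 ≤ a) => le_trans hx hab)
  by_contra hinf
  have hex : ∃ m, m ≤ N ∧ (part K m).Infinite := by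
    by_contra hno
    push Not at hno
    apply hinf
    have : K ⊆ ⋃ m ∈ Iic N, (fun x : L m => (⟨m, x⟩ : XX)) '' part K m := by
      intro x hx
      exact mem_iUnion₂.2 ⟨x.1, hN hx, x.2, hx, rfl⟩
    exact ((finite_Iic N).biUnion fun m hm => (hno m hm).image _).subset this
  let P : ℕ → Prop := fun m => (part K m).Infinite
  obtain ⟨m₀, hm₀N, hm₀⟩ := hex
  let m := Nat.findGreatest P N
  have hm : (part K m).Infinite := Nat.findGreatest_spec (P := P) hm₀N hm₀
  have hgt : ∀ j, m < j → (part K j).Finite := by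
    intro j hj
    by_cases hjN : j ≤ N
    · by_contra h
      exact absurd (Nat.le_findGreatest (P := P) hjN h) (not_le.2 hj)
    · have : part K j = ∅ := by
        rw [eq_empty_iff_forall_notMem]
        intro x hx
        exact hjN (hN hx)
      rw [this]
      exact finite_empty
  let F : Set (Σ k, L (m + k)) := {y | y.1 ≠ 0 ∧ (⟨m + y.1, y.2⟩ : XX) ∈ K}
  have hF : F.Finite := by
    have : F ⊆ ⋃ k ∈ Iic N, if k = 0 then ∅ else
        (fun x : L (m + k) => (⟨k, x⟩ : Σ k, L (m + k))) '' part K (m + k) := by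
      rintro ⟨k, y⟩ ⟨h1, h2⟩
      have h3 : m + k ≤ N := hN h2
      have h4 : k ≤ N := by omega
      refine mem_iUnion₂.2 ⟨k, h4, ?_⟩
      rw [if_neg h1]
      exact ⟨y, h2, rfl⟩
    refine ((finite_Iic N).biUnion fun k _ => ?_).subset this
    by_cases hk : k = 0
    · rw [if_pos hk]
      exact finite_empty
    · rw [if_neg hk]
      exact (hgt (m + k) (by omega)).image _
  obtain ⟨D, hDA, hD, hDF⟩ := exists_avoid m hF.toFinset (part K m) hm
  let W : Option D → Set XX := fun o => match o with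
    | none => awaySet m D
    | some d => insert (⟨m, d.1⟩ : XX) (lower m)
  have hWo : ∀ o, IsOpen (W o) := by
    rintro (_ | d)
    · exact isOpen_awaySet m D
    · exact isOpen_insert_lower m d.1
  have hWK : K ⊆ ⋃ o, W o := by
    rintro ⟨j, y⟩ hx
    by_cases hjm : j < m
    · refine mem_iUnion.2 ⟨none, ?_⟩
      intro k z hz
      have : j = m + k := (Sigma.mk.inj hz).1
      omega
    · obtain ⟨k, rfl⟩ := Nat.exists_eq_add_of_le (not_lt.1 hjm)
      by_cases hk : k = 0
      · subst hk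
        by_cases hy : y ∈ D
        · exact mem_iUnion.2 ⟨some ⟨y, hy⟩, Or.inl rfl⟩
        · refine mem_iUnion.2 ⟨none, ?_⟩
          intro k z hz
          have h3 := sigma_inj (k := 0) hz
          have h4 : 0 = k := (Sigma.mk.inj h3).1
          subst h4
          rw [← eq_of_heq (Sigma.mk.inj h3).2]
          exact hy
      · refine mem_iUnion.2 ⟨none, ?_⟩
        intro k' z hz
        have h3 := sigma_inj hz
        have h4 : k = k' := (Sigma.mk.inj h3).1
        subst h4
        rw [← eq_of_heq (Sigma.mk.inj h3).2]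
        exact hDF ⟨k, y⟩ (hF.mem_toFinset.2 ⟨hk, hx⟩) hk
  obtain ⟨t, ht⟩ := hK.elim_finite_subcover W hWo hWK
  apply hD
  have : D ⊆ (fun o : Option D => match o with
      | none => (hm.nonempty.some : L m)
      | some d => d.1) '' t := by
    intro d hd
    obtain ⟨o, ho, hdo⟩ := mem_iUnion₂.1 (ht (hDA hd))
    rcases o with _ | e
    · exact absurd hd (hdo 0 d rfl)
    · refine ⟨some e, ho, ?_⟩
      rcases hdo with h | h
      · exact (eq_of_heq (Sigma.mk.inj h).2).symm
      · exact absurd (show m < m from h) (lt_irrefl m)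
  exact (t.finite_toSet.image _).subset this

/-- every ultrafilter which contains the set of points of level at most `N` converges -/
theorem exists_limit (N : ℕ) (q : Ultrafilter XX) (h : low N ∈ q) :
    ∃ z : XX, (q : Filter XX) ≤ 𝓝 z := by
  have hlev : ∃ m, {x : XX | x.1 = m} ∈ q := by
    induction N with
    | zero =>
      refine ⟨0, mem_of_superset h fun x hx => ?_⟩
      have : x.1 ≤ 0 := hx
      exact Nat.le_zero.1 this
    | succ N ih =>
      have hu : low (N + 1) ⊆ low N ∪ {x : XX | x.1 = N + 1} := by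
        intro x hx
        have hx' : x.1 ≤ N + 1 := hx
        rcases Nat.le_succ_iff.1 hx' with h1 | h1
        · exact Or.inl h1
        · exact Or.inr h1
      rcases Ultrafilter.union_mem_iff.1 (mem_of_superset h hu) with h1 | h1
      · exact ih h1
      · exact ⟨_, h1⟩
  obtain ⟨m, hm⟩ := hlev
  let ι : L m → XX := fun x => ⟨m, x⟩
  have hι : Function.Injective ι := by
    intro a b hab
    exact eq_of_heq (Sigma.mk.inj hab).2
  have hr : range ι ∈ q := by
    refine mem_of_superset hm ?_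
    rintro ⟨j, x⟩ hj
    have hj' : j = m := hj
    subst hj'
    exact ⟨x, rfl⟩
  have key : ∀ s : Set XX, part s m ∈ q.comap hι hr → s ∈ q := by
    intro s hs
    rw [Ultrafilter.mem_comap] at hs
    refine mem_of_superset hs ?_
    rintro _ ⟨x, hx, rfl⟩
    exact hx
  rcases Ultrafilter.le_cofinite_or_eq_pure (q.comap hι hr) with hf | ⟨y, hy⟩
  · refine ⟨⟨m + 1, ⟨q.comap hι hr, hf⟩⟩, ?_⟩
    intro s hs
    obtain ⟨t, hts, hto, hzt⟩ := mem_nhds_iff.1 hs
    exact mem_of_superset (key t (hto m _ hzt)) hts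
  · refine ⟨⟨m, y⟩, ?_⟩
    intro s hs
    obtain ⟨t, hts, hto, hzt⟩ := mem_nhds_iff.1 hs
    refine mem_of_superset (key t ?_) hts
    rw [hy]
    exact hzt

/-- the selection lemma -/
theorem claim {𝒰 : Set (Set XX)} (h𝒰 : IsKCover XX 𝒰) (n : ℕ) :
    ∃ ℱ : Set (Set XX), ℱ.Finite ∧ ℱ ⊆ 𝒰 ∧ ∀ x : Fin n → XX, (∀ i, x i ∈ low n) →
      ∃ U ∈ ℱ, ∀ i, x i ∈ U := by
  classical
  by_contra hno
  push Not at hno
  have hno' : ∀ t : Finset 𝒰, ∃ x : Fin n → XX, (∀ i, x i ∈ low n) ∧
      ∀ U ∈ t, ∃ i, x i ∉ (U : Set XX) := by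
    intro t
    obtain ⟨x, hx, hxU⟩ := hno ((fun U : 𝒰 => (U : Set XX)) '' t) (t.finite_toSet.image _) (by
      rintro _ ⟨U, -, rfl⟩
      exact U.2)
    exact ⟨x, hx, fun U hU => hxU U ⟨U, hU, rfl⟩⟩
  choose x hxl hxU using hno'
  let 𝒟 : Ultrafilter (Finset 𝒰) := Ultrafilter.of atTop
  have hlim : ∀ i : Fin n, ∃ z : XX, ((𝒟.map fun t => x t i : Ultrafilter XX) : Filter XX) ≤ 𝓝 z :=
    fun i => exists_limit n _ (Ultrafilter.mem_map.2
      (mem_of_superset univ_mem fun t _ => hxl t i))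
  choose z hz using hlim
  obtain ⟨U, hU, hzU⟩ := h𝒰.2 (range z) (finite_range z).isCompact
  have h1 : ∀ᶠ t in (𝒟 : Filter (Finset 𝒰)), ∀ i, x t i ∈ U := by
    rw [eventually_all]
    intro i
    have h2 : U ∈ 𝓝 (z i) := (h𝒰.1 U hU).mem_nhds (hzU (mem_range_self i))
    exact Ultrafilter.mem_map.1 (hz i h2)
  have h2 : ∀ᶠ t in (𝒟 : Filter (Finset 𝒰)), (⟨U, hU⟩ : 𝒰) ∈ t := by
    apply (Ultrafilter.of_le (atTop : Filter (Finset 𝒰)))
    filter_upwards [eventually_ge_atTop ({⟨U, hU⟩} : Finset 𝒰)] with t ht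
    exact ht (Finset.mem_singleton_self _)
  obtain ⟨t, ht1, ht2⟩ := (h1.and h2).exists
  obtain ⟨i, hi⟩ := hxU t ⟨U, hU⟩ ht2
  exact hi (ht1 i)

theorem markovKMenger : MarkovKMenger XX := by
  classical
  let σ : ℕ → Set (Set XX) → Set (Set XX) := fun n 𝒰 =>
    if h : IsKCover XX 𝒰 then (claim h n).choose else ∅
  refine ⟨σ, fun 𝒰 h𝒰 => ?_⟩
  have hσ : ∀ n, (σ n (𝒰 n)).Finite ∧ σ n (𝒰 n) ⊆ 𝒰 n ∧
      ∀ x : Fin n → XX, (∀ i, x i ∈ low n) → ∃ U ∈ σ n (𝒰 n), ∀ i, x i ∈ U := by
    intro n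
    have h1 : σ n (𝒰 n) = (claim (h𝒰 n) n).choose := dif_pos (h𝒰 n)
    rw [h1]
    exact (claim (h𝒰 n) n).choose_spec
  refine ⟨fun n => ⟨(hσ n).1, (hσ n).2.1⟩, ?_, ?_⟩
  · intro U hU
    obtain ⟨n, hn⟩ := mem_iUnion.1 hU
    exact (h𝒰 n).1 U ((hσ n).2.1 hn)
  intro K hK
  let x₀ : XX := ⟨0, (0 : ℝ)⟩
  obtain ⟨m, f, -, hf⟩ := ((finite_of_isCompact hK).insert x₀).fin_param
  obtain ⟨M, hM⟩ := ((finite_of_isCompact hK).image fun x : XX => x.1).bddAbove
  let n := max m M
  let y : Fin n → XX := fun i => if h : i.1 < m then f ⟨i.1, h⟩ else x₀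
  have hlow : ∀ z ∈ insert x₀ K, z ∈ low n := by
    rintro z (rfl | hz)
    · exact Nat.zero_le n
    · exact le_trans (hM ⟨z, hz, rfl⟩) (le_max_right _ _)
  have hy : ∀ i, y i ∈ low n := by
    intro i
    by_cases h : i.1 < m
    · have h1 : y i = f ⟨i.1, h⟩ := dif_pos h
      rw [h1]
      apply hlow
      rw [← hf]
      exact mem_range_self _
    · have h1 : y i = x₀ := dif_neg h
      rw [h1]
      exact Nat.zero_le n
  obtain ⟨U, hU, hyU⟩ := (hσ n).2.2 y hy
  refine ⟨U, mem_iUnion.2 ⟨n, hU⟩, fun z hz => ?_⟩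
  have h1 : z ∈ insert x₀ K := Or.inr hz
  rw [← hf] at h1
  obtain ⟨j, rfl⟩ := h1
  have h2 : y ⟨j.1, lt_of_lt_of_le j.2 (le_max_left _ _)⟩ = f j := dif_pos j.2
  rw [← h2]
  exact hyU _

theorem not_markovKRothberger : ¬ MarkovKRothberger XX := by
  rintro ⟨σ, hσ⟩
  let A : ℕ → Set XX := fun n => {x | ∀ 𝒰, IsKCover XX 𝒰 → x ∈ σ n 𝒰}
  have hcov : (univ : Set XX) ⊆ ⋃ n, A n := by
    intro x _
    by_contra hx
    have hx' : ∀ n, ∃ 𝒰, IsKCover XX 𝒰 ∧ x ∉ σ n 𝒰 := by
      intro n
      by_contra hno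
      push Not at hno
      exact hx (mem_iUnion.2 ⟨n, hno⟩)
    choose 𝒰 h𝒰 hx𝒰 using hx'
    obtain ⟨_, ⟨n, rfl⟩, hn⟩ := (hσ 𝒰 h𝒰).2.2 {x} isCompact_singleton
    exact hx𝒰 n (hn rfl)
  have hfin : ∀ n, (A n).Finite := by
    intro n
    by_contra hinf
    have hinf' : (A n).Infinite := hinf
    let 𝒱 : Set (Set XX) := {U | IsOpen U ∧ ¬ A n ⊆ U}
    have h𝒱 : IsKCover XX 𝒱 := by
      refine ⟨fun U hU => hU.1, fun K hK => ?_⟩
      obtain ⟨d, hd, hdK⟩ := (hinf'.sdiff (finite_of_isCompact hK)).nonempty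
      refine ⟨{d}ᶜ, ⟨isOpen_compl_singleton, fun h => h hd rfl⟩, ?_⟩
      intro x hx hxd
      exact hdK (mem_singleton_iff.1 hxd ▸ hx)
    have h1 := (hσ (fun _ => 𝒱) fun _ => h𝒱).1 n
    exact h1.2 fun x hx => hx 𝒱 h𝒱
  have hcount : (univ : Set XX).Countable :=
    (countable_iUnion fun n => (hfin n).countable).mono hcov
  have h1 : (univ : Set ℝ).Countable := by
    have h2 := hcount.preimage (f := fun x : ℝ => (⟨0, x⟩ : XX)) (by
      intro a b hab
      exact eq_of_heq (Sigma.mk.inj hab).2)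
    exact h2
  exact not_countable_univ h1

end Pool.Agent.R812.Markov
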