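import Mathlib

/-!
# Metric analogs
-/

set_option autoImplicit false

open Set Topology Filter

namespace Pool.Agent.R812.MetAnalog

universe u v

/-- `(M, m₀)` with `q : M → X` is a metric analog of the based space `(X, x₀)`. -/
def IsMetricAnalog {X : Type u} [TopologicalSpace X] (x₀ : X) (M : Type u) [MetricSpace M]
    (m₀ : M) (q : M → X) : Prop :=
  IsOpenQuotientMap q ∧ q m₀ = x₀ ∧ ∀ (A : Type v) [MetricSpace A] (a₀ : A),
    (∀ f : A → X, Continuous f → f a₀ = x₀ →
      ∃ g : A → M, Continuous g ∧ g a₀ = m₀ ∧ ∀ a, q (g a) = f a) ∧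
    ∀ f g : A → M, Continuous f → Continuous g → f a₀ = m₀ → g a₀ = m₀ →
      (∀ a, q (f a) = q (g a)) →
      ∃ F : A × unitInterval → M, Continuous F ∧ (∀ a, F (a, 0) = f a) ∧ (∀ a, F (a, 1) = g a) ∧
        (∀ s, F (a₀, s) = m₀) ∧ ∀ a s s', q (F (a, s)) = q (F (a, s'))

/-- the based space `(X, x₀)` has a metric analog -/
def HasMetricAnalog (X : Type u) [TopologicalSpace X] (x₀ : X) : Prop :=
  ∃ (M : Type u) (_ : MetricSpace M) (m₀ : M) (q : M → X), IsMetricAnalog.{u, v} x₀ M m₀ q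

/-- the topology of `X` is induced by a quasimetric -/
def Quasimetrizable (X : Type u) [TopologicalSpace X] : Prop :=
  ∃ d : X → X → ℝ, (∀ x y, 0 ≤ d x y) ∧ (∀ x, d x x = 0) ∧
    (∀ x y z, d x z ≤ d x y + d y z) ∧
    TopologicalSpace.IsTopologicalBasis {B : Set X | ∃ x r, 0 < r ∧ B = {y | d x y < r}}

section General

variable {X : Type u} [TopologicalSpace X] {P : Type u}

/-- the combinatorial data from which a metric analog is built -/
structure Data (X : Type u) [TopologicalSpace X] (P : Type u) where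
  G : ℕ → P → Set X
  Good : ℕ → X → P → Prop
  isOpen : ∀ n p, IsOpen (G n p)
  mem : ∀ n x p, Good n x p → x ∈ G n p
  ex : ∀ n x, ∃ p, Good n x p
  base : ∀ x O, IsOpen O → x ∈ O → ∃ n, ∀ p, Good n x p → G n p ⊆ O

/-- admissible pairs -/
structure Adm (D : Data X P) (x : X) (l : ℕ → P → ℝ) : Prop where
  nn : ∀ n p, 0 ≤ l n p
  le : ∀ n p, l n p ≤ (1 / 2) ^ n
  nb : ∀ n ε, 0 < ε → ∃ O, IsOpen O ∧ x ∈ O ∧ ∀ p, ε ≤ l n p → O ⊆ D.G n p
  ex : ∀ n, ∃ p, D.Good n x p ∧ 0 < l n p

/-- the space of admissible pairs -/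
def M (D : Data X P) : Type u := {m : X × (ℕ → P → ℝ) // Adm D m.1 m.2}

variable {D : Data X P}

def M.x (m : M D) : X := m.1.1

def M.l (m : M D) : ℕ → P → ℝ := m.1.2

theorem M.adm (m : M D) : Adm D m.x m.l := m.2

def mk (x : X) (l : ℕ → P → ℝ) (h : Adm D x l) : M D := ⟨(x, l), h⟩

theorem mk_x (x : X) (l : ℕ → P → ℝ) (h : Adm D x l) : (mk x l h).x = x := rfl

theorem mk_l (x : X) (l : ℕ → P → ℝ) (h : Adm D x l) : (mk x l h).l = l := rfl

theorem Adm.mem {x : X} {l : ℕ → P → ℝ} (h : Adm D x l) {n : ℕ} {p : P} (hp : 0 < l n p) :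
    x ∈ D.G n p := by
  obtain ⟨O, -, hx, hO⟩ := h.nb n (l n p) hp
  exact hO p le_rfl hx

theorem M.ext' [T0Space X] {m m' : M D} (h : m.l = m'.l) : m = m' := by
  have key : ∀ m m' : M D, m.l = m'.l → ∀ O, IsOpen O → m.x ∈ O → m'.x ∈ O := by
    intro m m' h O hO hx
    obtain ⟨n, hn⟩ := D.base _ O hO hx
    obtain ⟨p, hp, hpos⟩ := m.adm.ex n
    rw [h] at hpos
    exact hn p hp (m'.adm.mem hpos)
  have hx : m.x = m'.x := by
    apply Inseparable.eq
    rw [inseparable_iff_forall_isOpen]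
    intro O hO
    exact ⟨key m m' h O hO, key m' m h.symm O hO⟩
  exact Subtype.ext (Prod.ext hx h)

theorem abs_le_one (m m' : M D) (k : ℕ × P) : |m.l k.1 k.2 - m'.l k.1 k.2| ≤ 1 := by
  have h1 := m.adm.nn k.1 k.2
  have h2 := m.adm.le k.1 k.2
  have h3 := m'.adm.nn k.1 k.2
  have h4 := m'.adm.le k.1 k.2
  have h5 : ((1 : ℝ) / 2) ^ k.1 ≤ 1 := pow_le_one₀ (by norm_num) (by norm_num)
  rw [abs_le]
  constructor <;> linarith

theorem abs_le_pow (m m' : M D) (n : ℕ) (p : P) : |m.l n p - m'.l n p| ≤ (1 / 2) ^ n := by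
  have h1 := m.adm.nn n p
  have h2 := m.adm.le n p
  have h3 := m'.adm.nn n p
  have h4 := m'.adm.le n p
  rw [abs_le]
  constructor <;> linarith

noncomputable def dst (m m' : M D) : ℝ := ⨆ k : ℕ × P, |m.l k.1 k.2 - m'.l k.1 k.2|

theorem le_dst (m m' : M D) (n : ℕ) (p : P) : |m.l n p - m'.l n p| ≤ dst m m' :=
  le_ciSup (f := fun k : ℕ × P => |m.l k.1 k.2 - m'.l k.1 k.2|)
    ⟨1, by rintro _ ⟨k, rfl⟩; exact abs_le_one m m' k⟩ (n, p)

theorem dst_le {m m' : M D} {r : ℝ} (hr : 0 ≤ r) (h : ∀ n p, |m.l n p - m'.l n p| ≤ r) :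
    dst m m' ≤ r :=
  Real.iSup_le (fun k => h k.1 k.2) hr

theorem dst_nonneg (m m' : M D) : 0 ≤ dst m m' :=
  Real.iSup_nonneg fun _ => abs_nonneg _

noncomputable instance [T0Space X] : MetricSpace (M D) where
  dist := dst
  dist_self m := by
    apply le_antisymm _ (dst_nonneg _ _)
    apply dst_le le_rfl
    intro n p
    simp
  dist_comm m m' := by
    unfold dst
    congr 1
    funext k
    exact abs_sub_comm _ _
  dist_triangle a b c := by
    apply dst_le (add_nonneg (dst_nonneg _ _) (dst_nonneg _ _))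
    intro n p
    calc |a.l n p - c.l n p| ≤ |a.l n p - b.l n p| + |b.l n p - c.l n p| := abs_sub_le _ _ _
      _ ≤ _ := add_le_add (le_dst a b n p) (le_dst b c n p)
  eq_of_dist_eq_zero := by
    intro m m' h
    apply M.ext'
    funext n p
    have h1 := le_dst m m' n p
    have h2 : dst m m' = 0 := h
    rw [h2] at h1
    have h3 := abs_nonpos_iff.1 h1
    linarith

theorem dist_def [T0Space X] (m m' : M D) : dist m m' = dst m m' := rfl

/-- continuity of the projection -/
theorem continuous_x [T0Space X] : Continuous (M.x : M D → X) := by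
  rw [continuous_iff_continuousAt]
  intro m
  rw [ContinuousAt, tendsto_nhds]
  intro O hO hx
  obtain ⟨n, hn⟩ := D.base _ O hO hx
  obtain ⟨p, hp, hpos⟩ := m.adm.ex n
  rw [Metric.mem_nhds_iff]
  refine ⟨m.l n p, hpos, fun m' hm' => ?_⟩
  rw [Metric.mem_ball, dist_def] at hm'
  have h1 := (le_dst m' m n p).trans_lt hm'
  have h2 : 0 < m'.l n p := by
    have := (abs_lt.1 h1).1
    linarith
  exact hn p hp (m'.adm.mem h2)

open Classical in
/-- the basic modification -/
noncomputable def md (l : ℕ → P → ℝ) (δ : ℝ) (c : ℕ → P) : ℕ → P → ℝ := fun n p =>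
  max (max (l n p - δ) 0) (if p = c n then min ((1 / 2) ^ n) δ else 0)

theorem pow_pos' (n : ℕ) : (0 : ℝ) < (1 / 2) ^ n := by positivity

theorem adm_md {x x' : X} {l : ℕ → P → ℝ} (h : Adm D x l) {δ : ℝ} (hδ : 0 < δ) {N : ℕ}
    (hN : ((1 : ℝ) / 2) ^ N < δ) {c : ℕ → P} (hc : ∀ n, D.Good n x' (c n))
    (hx' : ∀ n < N, ∃ O, IsOpen O ∧ x' ∈ O ∧ ∀ p, δ ≤ l n p → O ⊆ D.G n p) :
    Adm D x' (md l δ c) where
  nn n p := le_max_of_le_left (le_max_right _ _)
  le n p := by
    have h1 := h.le n p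
    have h2 := pow_pos' n
    apply max_le (max_le (by linarith) h2.le)
    split_ifs
    · exact min_le_left _ _
    · exact h2.le
  nb n ε hε := by
    by_cases hn : n < N
    · obtain ⟨O, hO, hxO, hp⟩ := hx' n hn
      refine ⟨O ∩ D.G n (c n), hO.inter (D.isOpen _ _), ⟨hxO, D.mem _ _ _ (hc n)⟩, ?_⟩
      intro p hpε
      by_cases hpc : p = c n
      · rw [hpc]
        exact inter_subset_right
      · refine inter_subset_left.trans (hp p ?_)
        simp only [md, if_neg hpc] at hpε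
        by_contra hcon
        push Not at hcon
        have : max (max (l n p - δ) 0) 0 ≤ (0 : ℝ) := by
          apply max_le (max_le _ le_rfl) le_rfl
          linarith
        linarith
    · refine ⟨D.G n (c n), D.isOpen _ _, D.mem _ _ _ (hc n), ?_⟩
      intro p hpε
      by_cases hpc : p = c n
      · rw [hpc]
      · exfalso
        simp only [md, if_neg hpc] at hpε
        have h1 := h.le n p
        have h2 : ((1 : ℝ) / 2) ^ n ≤ (1 / 2) ^ N :=
          pow_le_pow_of_le_one (by norm_num) (by norm_num) (not_lt.1 hn)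
        have : max (max (l n p - δ) 0) 0 ≤ (0 : ℝ) := by
          apply max_le (max_le _ le_rfl) le_rfl
          linarith
        linarith
  ex n := by
    refine ⟨c n, hc n, ?_⟩
    simp only [md, if_true]
    exact lt_max_of_lt_right (lt_min (pow_pos' n) hδ)

open Classical in
theorem md_close {x : X} {l : ℕ → P → ℝ} (h : Adm D x l) {δ : ℝ} (hδ : 0 < δ) (c : ℕ → P)
    (n : ℕ) (p : P) : |md l δ c n p - l n p| ≤ δ := by
  have h1 := h.nn n p
  have h2 : min (((1 : ℝ) / 2) ^ n) δ ≤ δ := min_le_right _ _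
  have h3 : 0 < min (((1 : ℝ) / 2) ^ n) δ := lt_min (pow_pos' n) hδ
  simp only [md]
  rw [abs_le]
  constructor
  · have : l n p - δ ≤ max (max (l n p - δ) 0) (if p = c n then min ((1 / 2) ^ n) δ else 0) :=
      le_max_of_le_left (le_max_left _ _)
    linarith
  · have : max (max (l n p - δ) 0) (if p = c n then min ((1 / 2) ^ n) δ else 0) ≤ l n p + δ := by
      apply max_le (max_le (by linarith) (by linarith))
      split_ifs
      · linarith
      · linarith
    linarith

open Classical in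
/-- the basic weights -/
noncomputable def pt (c : ℕ → P) : ℕ → P → ℝ := fun n p => if p = c n then (1 / 2) ^ n else 0

/-- the basic point over `x` -/
theorem adm_pt {x : X} {c : ℕ → P} (hc : ∀ n, D.Good n x (c n)) : Adm D x (pt c) where
  nn n p := by
    have := pow_pos' n
    unfold pt
    split_ifs
    · exact this.le
    · exact le_rfl
  le n p := by
    have := pow_pos' n
    unfold pt
    split_ifs
    · exact le_rfl
    · exact this.le
  nb n ε hε := by
    refine ⟨D.G n (c n), D.isOpen _ _, D.mem _ _ _ (hc n), fun p hp => ?_⟩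
    by_cases h : p = c n
    · rw [h]
    · unfold pt at hp
      rw [if_neg h] at hp
      linarith
  ex n := ⟨c n, hc n, by unfold pt; rw [if_pos rfl]; exact pow_pos' n⟩

theorem isOpenQuotientMap_x [T0Space X] : IsOpenQuotientMap (M.x : M D → X) := by
  refine ⟨?_, continuous_x, ?_⟩
  · intro x
    choose c hc using fun n => D.ex n x
    exact ⟨mk x _ (adm_pt hc), rfl⟩
  · intro S hS
    rw [isOpen_iff_mem_nhds]
    rintro _ ⟨m, hm, rfl⟩
    obtain ⟨ε, hε, hball⟩ := Metric.isOpen_iff.1 hS m hm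
    obtain ⟨N, hN⟩ := exists_pow_lt_of_lt_one (half_pos hε) (by norm_num : (1 / 2 : ℝ) < 1)
    choose O hO hxO hOp using fun n => m.adm.nb n (ε / 2) (half_pos hε)
    have hnb : (⋂ n ∈ Finset.range N, O n) ∈ 𝓝 m.x := by
      rw [Filter.biInter_finset_mem]
      intro n _
      exact (hO n).mem_nhds (hxO n)
    refine Filter.mem_of_superset hnb ?_
    intro x' hx'
    choose c hc using fun n => D.ex n x'
    have hadm : Adm D x' (md m.l (ε / 2) c) := by
      refine adm_md m.adm (half_pos hε) hN hc fun n hn => ⟨O n, hO n, ?_, hOp n⟩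
      exact mem_iInter₂.1 hx' n (Finset.mem_range.2 hn)
    refine ⟨mk x' _ hadm, hball ?_, rfl⟩
    rw [Metric.mem_ball, dist_def]
    refine lt_of_le_of_lt (dst_le (half_pos hε).le fun n p => ?_) (half_lt_self hε)
    exact md_close m.adm (half_pos hε) c n p

/-- continuity criterion -/
theorem continuous_of [T0Space X] {A : Type v} [TopologicalSpace A] {h : A → M D}
    (hh : ∀ a n ε, 0 < ε → ∀ᶠ a' in 𝓝 a, ∀ p, |(h a').l n p - (h a).l n p| ≤ ε) :
    Continuous h := by
  rw [continuous_iff_continuousAt]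
  intro a
  rw [ContinuousAt, Metric.tendsto_nhds]
  intro ε hε
  obtain ⟨N, hN⟩ := exists_pow_lt_of_lt_one (half_pos hε) (by norm_num : (1 / 2 : ℝ) < 1)
  have h1 : ∀ᶠ a' in 𝓝 a, ∀ n ∈ Finset.range N, ∀ p, |(h a').l n p - (h a).l n p| ≤ ε / 2 := by
    rw [Finset.eventually_all]
    intro n _
    exact hh a n (ε / 2) (half_pos hε)
  filter_upwards [h1] with a' ha'
  rw [dist_def]
  refine lt_of_le_of_lt (dst_le (half_pos hε).le fun n p => ?_) (half_lt_self hε)
  by_cases hn : n < N
  · exact ha' n (Finset.mem_range.2 hn) p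
  · refine (abs_le_pow _ _ n p).trans (le_trans ?_ hN.le)
    exact pow_le_pow_of_le_one (by norm_num) (by norm_num) (not_lt.1 hn)

theorem eventually_of [T0Space X] {A : Type v} [TopologicalSpace A] {h : A → M D}
    (hh : Continuous h) (a : A) {ε : ℝ} (hε : 0 < ε) :
    ∀ᶠ a' in 𝓝 a, ∀ n p, |(h a').l n p - (h a).l n p| ≤ ε := by
  have := (Metric.tendsto_nhds.1 (hh.tendsto a)) ε hε
  filter_upwards [this] with a' ha'
  intro n p
  exact (le_dst _ _ n p).trans ha'.le

/-- the lifting hypothesis -/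
def Lift (D : Data X P) : Prop := ∀ (A : Type v) [MetricSpace A] (f : A → X), Continuous f →
  ∃ l : A → ℕ → P → ℝ, (∀ a, Adm D (f a) (l a)) ∧
    ∀ a n ε, 0 < ε → ∀ᶠ a' in 𝓝 a, ∀ p, |l a' n p - l a n p| ≤ ε

/-- the bump at the base point -/
noncomputable def bump {A : Type v} [MetricSpace A] (a₀ : A) (r : ℕ → ℝ) (n : ℕ) (a : A) : ℝ :=
  (1 / 2) ^ n * max 0 (1 - dist a a₀ / r n)

theorem bump_cont {A : Type v} [MetricSpace A] (a₀ : A) (r : ℕ → ℝ) (n : ℕ) :
    Continuous (bump a₀ r n) := by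
  unfold bump
  fun_prop

theorem bump_self {A : Type v} [MetricSpace A] (a₀ : A) (r : ℕ → ℝ) (n : ℕ) :
    bump a₀ r n a₀ = (1 / 2) ^ n := by
  simp [bump]

theorem bump_nonneg {A : Type v} [MetricSpace A] (a₀ : A) (r : ℕ → ℝ) (n : ℕ) (a : A) :
    0 ≤ bump a₀ r n a :=
  mul_nonneg (pow_pos' n).le (le_max_left _ _)

theorem bump_le {A : Type v} [MetricSpace A] (a₀ : A) {r : ℕ → ℝ} (hr : ∀ n, 0 < r n) (n : ℕ)
    (a : A) : bump a₀ r n a ≤ (1 / 2) ^ n := by
  unfold bump
  have h1 : max 0 (1 - dist a a₀ / r n) ≤ 1 := by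
    apply max_le zero_le_one
    have := div_nonneg (dist_nonneg (x := a) (y := a₀)) (hr n).le
    linarith
  have h2 := mul_le_mul_of_nonneg_left h1 (pow_pos' n).le
  rwa [mul_one] at h2

theorem bump_pos {A : Type v} [MetricSpace A] (a₀ : A) {r : ℕ → ℝ} (hr : ∀ n, 0 < r n) (n : ℕ)
    (a : A) (h : 0 < bump a₀ r n a) : dist a a₀ < r n := by
  by_contra hcon
  push Not at hcon
  have h1 : 1 ≤ dist a a₀ / r n := (one_le_div (hr n)).2 hcon
  have h2 : max 0 (1 - dist a a₀ / r n) = 0 := max_eq_left (by linarith)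
  unfold bump at h
  rw [h2, mul_zero] at h
  exact lt_irrefl _ h

open Classical in
/-- the adjusted weights -/
noncomputable def adj {A : Type v} [MetricSpace A] (a₀ : A) (r : ℕ → ℝ) (c : ℕ → P)
    (l : A → ℕ → P → ℝ) (a : A) : ℕ → P → ℝ := fun n p =>
  if p = c n then max (l a n p) (bump a₀ r n a) else min (l a n p) (dist a a₀)

theorem adj_adm {A : Type v} [MetricSpace A] {a₀ : A} {r : ℕ → ℝ} (hr : ∀ n, 0 < r n) {c : ℕ → P}
    {l : A → ℕ → P → ℝ} {f : A → X} (hl : ∀ a, Adm D (f a) (l a))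
    (hc : ∀ n, D.Good n (f a₀) (c n)) (hball : ∀ n a, dist a a₀ < r n → f a ∈ D.G n (c n)) (a : A) :
    Adm D (f a) (adj a₀ r c l a) where
  nn n p := by
    unfold adj
    split_ifs
    · exact le_max_of_le_left ((hl a).nn n p)
    · exact le_min ((hl a).nn n p) dist_nonneg
  le n p := by
    unfold adj
    split_ifs
    · exact max_le ((hl a).le n p) (bump_le a₀ hr n a)
    · exact (min_le_left _ _).trans ((hl a).le n p)
  nb n ε hε := by
    obtain ⟨O, hO, hx, hp⟩ := (hl a).nb n ε hε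
    by_cases hb : 0 < bump a₀ r n a
    · refine ⟨O ∩ D.G n (c n), hO.inter (D.isOpen _ _), ⟨hx, hball n a (bump_pos a₀ hr n a hb)⟩, ?_⟩
      intro p hpε
      by_cases hpc : p = c n
      · rw [hpc]
        exact inter_subset_right
      · refine inter_subset_left.trans (hp p ?_)
        unfold adj at hpε
        rw [if_neg hpc] at hpε
        exact hpε.trans (min_le_left _ _)
    · have hb0 : bump a₀ r n a = 0 := le_antisymm (not_lt.1 hb) (bump_nonneg _ _ _ _)
      refine ⟨O, hO, hx, ?_⟩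
      intro p hpε
      apply hp p
      unfold adj at hpε
      split_ifs at hpε
      · rw [hb0, max_eq_left ((hl a).nn n p)] at hpε
        exact hpε
      · exact hpε.trans (min_le_left _ _)
  ex n := by
    by_cases ha : a = a₀
    · subst ha
      refine ⟨c n, hc n, ?_⟩
      unfold adj
      rw [if_pos rfl, bump_self]
      exact lt_max_of_lt_right (pow_pos' n)
    · obtain ⟨p, hp, hpos⟩ := (hl a).ex n
      refine ⟨p, hp, ?_⟩
      unfold adj
      split_ifs
      · exact lt_max_of_lt_left hpos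
      · exact lt_min hpos (dist_pos.2 ha)

theorem adj_cont {A : Type v} [MetricSpace A] {a₀ : A} {r : ℕ → ℝ} {c : ℕ → P}
    {l : A → ℕ → P → ℝ}
    (hl : ∀ a n ε, 0 < ε → ∀ᶠ a' in 𝓝 a, ∀ p, |l a' n p - l a n p| ≤ ε) (a : A) (n : ℕ) (ε : ℝ)
    (hε : 0 < ε) : ∀ᶠ a' in 𝓝 a, ∀ p, |adj a₀ r c l a' n p - adj a₀ r c l a n p| ≤ ε := by
  have h1 := hl a n ε hε
  have h2 : ∀ᶠ a' in 𝓝 a, |bump a₀ r n a' - bump a₀ r n a| < ε := by
    have := Metric.tendsto_nhds.1 ((bump_cont a₀ r n).tendsto a) ε hε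
    simpa only [Real.dist_eq] using this
  have h3 : ∀ᶠ a' in 𝓝 a, dist a' a < ε := Metric.ball_mem_nhds a hε
  filter_upwards [h1, h2, h3] with a' h1 h2 h3
  intro p
  unfold adj
  split_ifs
  · exact (abs_max_sub_max_le_max _ _ _ _).trans (max_le (h1 p) h2.le)
  · refine (abs_min_sub_min_le_max _ _ _ _).trans (max_le (h1 p) ?_)
    have := abs_dist_sub_le a' a a₀
    exact this.trans h3.le

theorem adj_base {A : Type v} [MetricSpace A] {a₀ : A} {r : ℕ → ℝ} {c : ℕ → P}
    {l : A → ℕ → P → ℝ} {x : X} (hl : Adm D x (l a₀)) : adj a₀ r c l a₀ = pt c := by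
  funext n p
  unfold adj pt
  split_ifs
  · rw [bump_self]
    exact max_eq_right (hl.le n p)
  · rw [dist_self]
    exact min_eq_right (hl.nn n p)

theorem adm_conv {x : X} {l k : ℕ → P → ℝ} (hl : Adm D x l) (hk : Adm D x k) {s : ℝ}
    (h0 : 0 ≤ s) (h1 : s ≤ 1) : Adm D x (fun n p => (1 - s) * l n p + s * k n p) where
  nn n p := add_nonneg (mul_nonneg (by linarith) (hl.nn n p)) (mul_nonneg h0 (hk.nn n p))
  le n p := by
    have h2 := mul_le_mul_of_nonneg_left (hl.le n p) (by linarith : 0 ≤ 1 - s)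
    have h3 := mul_le_mul_of_nonneg_left (hk.le n p) h0
    linarith
  nb n ε hε := by
    obtain ⟨O, hO, hx, hp⟩ := hl.nb n ε hε
    obtain ⟨O', hO', hx', hp'⟩ := hk.nb n ε hε
    refine ⟨O ∩ O', hO.inter hO', ⟨hx, hx'⟩, fun p hpε => ?_⟩
    by_cases h : ε ≤ l n p
    · exact inter_subset_left.trans (hp p h)
    · refine inter_subset_right.trans (hp' p ?_)
      by_contra h'
      push Not at h h'
      rcases h0.lt_or_eq with hs | hs
      · have h2 := mul_le_mul_of_nonneg_left h.le (by linarith : 0 ≤ 1 - s)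
        have h3 := mul_lt_mul_of_pos_left h' hs
        linarith
      · rw [← hs] at hpε
        simp only [sub_zero, one_mul, zero_mul, add_zero] at hpε
        linarith
  ex n := by
    rcases h1.lt_or_eq with hs | hs
    · obtain ⟨p, hp, hpos⟩ := hl.ex n
      refine ⟨p, hp, ?_⟩
      have h2 := mul_pos (by linarith : 0 < 1 - s) hpos
      have h3 := mul_nonneg h0 (hk.nn n p)
      linarith
    · obtain ⟨p, hp, hpos⟩ := hk.ex n
      refine ⟨p, hp, ?_⟩
      rw [hs]
      linarith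

theorem hasMetricAnalog [T0Space X] (D : Data X P) (hD : Lift.{u, v} D) (x₀ : X) :
    HasMetricAnalog.{u, v} X x₀ := by
  choose c hc using fun n => D.ex n x₀
  refine ⟨M D, inferInstance, mk x₀ (pt c) (adm_pt hc), M.x, isOpenQuotientMap_x, rfl, ?_⟩
  intro A _ a₀
  constructor
  · intro f hf hf0
    obtain ⟨l, hl, hlc⟩ := hD A f hf
    have hr : ∀ n, ∃ r > 0, ∀ a, dist a a₀ < r → f a ∈ D.G n (c n) := by
      intro n
      have h1 : f ⁻¹' (D.G n (c n)) ∈ 𝓝 a₀ := by
        apply ((D.isOpen n (c n)).preimage hf).mem_nhds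
        change f a₀ ∈ D.G n (c n)
        rw [hf0]
        exact D.mem _ _ _ (hc n)
      obtain ⟨r, hr, hball⟩ := Metric.mem_nhds_iff.1 h1
      exact ⟨r, hr, fun a ha => hball ha⟩
    choose r hr hball using hr
    have hc' : ∀ n, D.Good n (f a₀) (c n) := by
      rw [hf0]
      exact hc
    refine ⟨fun a => mk (f a) _ (adj_adm hr hl hc' hball a), ?_, ?_, fun a => rfl⟩
    · apply continuous_of
      intro a n ε hε
      exact adj_cont hlc a n ε hε
    · apply M.ext'
      exact adj_base (hl a₀)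
  · intro f g hf hg hf0 hg0 hfg
    have hadm : ∀ (a : A) (s : unitInterval), Adm D (f a).x
        (fun n p => (1 - (s : ℝ)) * (f a).l n p + (s : ℝ) * (g a).l n p) := by
      intro a s
      refine adm_conv (f a).adm ?_ s.2.1 s.2.2
      have h1 : (f a).x = (g a).x := hfg a
      rw [h1]
      exact (g a).adm
    refine ⟨fun q => mk _ _ (hadm q.1 q.2), ?_, ?_, ?_, ?_, fun a s s' => rfl⟩
    · apply continuous_of
      rintro ⟨a, s⟩ n ε hε
      have e1 := (eventually_of hf a (show 0 < ε / 3 by positivity))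
      have e2 := (eventually_of hg a (show 0 < ε / 3 by positivity))
      have e3 : ∀ᶠ s' : unitInterval in 𝓝 s, |(s' : ℝ) - (s : ℝ)| < ε / 3 := by
        have := Metric.tendsto_nhds.1 (continuous_subtype_val.tendsto s) (ε / 3) (by positivity)
        simpa only [Real.dist_eq] using this
      rw [nhds_prod_eq]
      filter_upwards [(e1.and e2).prod_mk e3] with q hq
      obtain ⟨a', s'⟩ := q
      obtain ⟨⟨h1, h2⟩, h3⟩ := hq
      intro p
      change |((1 - (s' : ℝ)) * (f a').l n p + (s' : ℝ) * (g a').l n p) -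
        ((1 - (s : ℝ)) * (f a).l n p + (s : ℝ) * (g a).l n p)| ≤ ε
      have h1' := h1 n p
      have h2' := h2 n p
      have b1 := (f a).adm.nn n p
      have b2 := (f a).adm.le n p
      have b3 := (g a).adm.nn n p
      have b4 := (g a).adm.le n p
      have b5 : ((1 : ℝ) / 2) ^ n ≤ 1 := pow_le_one₀ (by norm_num) (by norm_num)
      have s0 := s'.2.1
      have s1 := s'.2.2
      have h4 : |(g a).l n p - (f a).l n p| ≤ 1 := by
        rw [abs_le]
        constructor <;> linarith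
      have heq : ((1 - (s' : ℝ)) * (f a').l n p + (s' : ℝ) * (g a').l n p) -
          ((1 - (s : ℝ)) * (f a).l n p + (s : ℝ) * (g a).l n p) =
          (1 - (s' : ℝ)) * ((f a').l n p - (f a).l n p) + (s' : ℝ) * ((g a').l n p - (g a).l n p) +
          ((s' : ℝ) - s) * ((g a).l n p - (f a).l n p) := by ring
      rw [heq]
      have t1 : |(1 - (s' : ℝ)) * ((f a').l n p - (f a).l n p)| ≤ ε / 3 := by
        rw [abs_mul, abs_of_nonneg (by linarith : (0 : ℝ) ≤ 1 - s')]
        calc (1 - (s' : ℝ)) * |(f a').l n p - (f a).l n p|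
            ≤ 1 * |(f a').l n p - (f a).l n p| :=
              mul_le_mul_of_nonneg_right (by linarith) (abs_nonneg _)
          _ ≤ ε / 3 := by rw [one_mul]; exact h1'
      have t2 : |(s' : ℝ) * ((g a').l n p - (g a).l n p)| ≤ ε / 3 := by
        rw [abs_mul, abs_of_nonneg s0]
        calc (s' : ℝ) * |(g a').l n p - (g a).l n p|
            ≤ 1 * |(g a').l n p - (g a).l n p| :=
              mul_le_mul_of_nonneg_right s1 (abs_nonneg _)
          _ ≤ ε / 3 := by rw [one_mul]; exact h2'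
      have t3 : |((s' : ℝ) - s) * ((g a).l n p - (f a).l n p)| ≤ ε / 3 := by
        rw [abs_mul]
        calc |(s' : ℝ) - s| * |(g a).l n p - (f a).l n p|
            ≤ |(s' : ℝ) - s| * 1 := mul_le_mul_of_nonneg_left h4 (abs_nonneg _)
          _ ≤ ε / 3 := by rw [mul_one]; exact h3.le
      calc _ ≤ |(1 - (s' : ℝ)) * ((f a').l n p - (f a).l n p) +
            (s' : ℝ) * ((g a').l n p - (g a).l n p)| +
            |((s' : ℝ) - s) * ((g a).l n p - (f a).l n p)| := abs_add_le _ _
        _ ≤ |(1 - (s' : ℝ)) * ((f a').l n p - (f a).l n p)| +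
            |(s' : ℝ) * ((g a').l n p - (g a).l n p)| +
            |((s' : ℝ) - s) * ((g a).l n p - (f a).l n p)| := by
              gcongr
              exact abs_add_le _ _
        _ ≤ ε := by linarith
    · intro a
      apply M.ext'
      funext n p
      simp [mk_l]
    · intro a
      apply M.ext'
      funext n p
      simp [mk_l]
    · intro s
      apply M.ext'
      funext n p
      simp only [mk_l, hf0, hg0]
      ring

/-- if all members of the covers are good then lifts come from paracompactness -/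
theorem lift_dev (D : Data X P) (hG : ∀ n x p, x ∈ D.G n p → D.Good n x p) : Lift.{u, v} D := by
  intro A _ f hf
  have h1 : ∀ n, ∃ φ : BumpCovering P A univ, φ.IsSubordinate fun p => f ⁻¹' (D.G n p) := by
    intro n
    apply BumpCovering.exists_isSubordinate isClosed_univ
    · intro p
      exact (D.isOpen n p).preimage hf
    · intro a _
      obtain ⟨p, hp⟩ := D.ex n (f a)
      exact mem_iUnion.2 ⟨p, D.mem _ _ _ hp⟩
  choose φ hφ using h1
  have hmem : ∀ n p a, φ n p a ≠ 0 → f a ∈ D.G n p := fun n p a h =>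
    hφ n p (subset_tsupport _ h)
  refine ⟨fun a n p => (1 / 2) ^ n * φ n p a, fun a => ⟨?_, ?_, ?_, ?_⟩, ?_⟩
  · intro n p
    exact mul_nonneg (pow_pos' n).le ((φ n).nonneg p a)
  · intro n p
    have := mul_le_mul_of_nonneg_left ((φ n).le_one p a) (pow_pos' n).le
    rwa [mul_one] at this
  · intro n ε hε
    have hfin : {p | φ n p a ≠ 0}.Finite := (φ n).locallyFinite.point_finite a
    refine ⟨⋂ p ∈ {p | φ n p a ≠ 0}, D.G n p, hfin.isOpen_biInter fun p _ => D.isOpen n p,
      mem_iInter₂.2 fun p hp => hmem n p a hp, fun p hp => ?_⟩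
    apply biInter_subset_of_mem
    intro h0
    have hp' : ε ≤ (1 / 2) ^ n * φ n p a := hp
    rw [h0, mul_zero] at hp'
    linarith
  · intro n
    obtain ⟨p, hp⟩ := (φ n).eventuallyEq_one' a (mem_univ a)
    have h1 : φ n p a = 1 := hp.eq_of_nhds
    refine ⟨p, hG _ _ _ (hmem n p a (by rw [h1]; norm_num)), ?_⟩
    change 0 < (1 / 2) ^ n * φ n p a
    rw [h1, mul_one]
    exact pow_pos' n
  · intro a n ε hε
    obtain ⟨U, hU, hfin⟩ := (φ n).locallyFinite a
    have h2 : ∀ᶠ a' in 𝓝 a, ∀ p ∈ {p | (Function.support (φ n p) ∩ U).Nonempty},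
        |φ n p a' - φ n p a| < ε := by
      rw [Set.Finite.eventually_all hfin]
      intro p _
      have := Metric.tendsto_nhds.1 ((φ n p).continuous.tendsto a) ε hε
      simpa only [Real.dist_eq] using this
    filter_upwards [h2, hU] with a' h2 h3
    intro p
    have h4 : |φ n p a' - φ n p a| ≤ ε := by
      by_cases hp : (Function.support (φ n p) ∩ U).Nonempty
      · exact (h2 p hp).le
      · have z1 : φ n p a' = 0 := by
          by_contra hne
          exact hp ⟨a', hne, h3⟩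
        have z2 : φ n p a = 0 := by
          by_contra hne
          exact hp ⟨a, hne, mem_of_mem_nhds hU⟩
        rw [z1, z2]
        simp [hε.le]
    rw [← mul_sub, abs_mul, abs_of_pos (pow_pos' n)]
    have h5 : ((1 : ℝ) / 2) ^ n ≤ 1 := pow_le_one₀ (by norm_num) (by norm_num)
    calc ((1 : ℝ) / 2) ^ n * |φ n p a' - φ n p a| ≤ 1 * |φ n p a' - φ n p a| :=
          mul_le_mul_of_nonneg_right h5 (abs_nonneg _)
      _ ≤ ε := by rw [one_mul]; exact h4

end General

/-! ### Quasimetrizable spaces -/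

section Quasi

variable {X : Type u} [TopologicalSpace X]

theorem ball_nhds {d : X → X → ℝ}
    (ht : ∀ x y z, d x z ≤ d x y + d y z)
    (hb : TopologicalSpace.IsTopologicalBasis
      {B : Set X | ∃ x r, 0 < r ∧ B = {y | d x y < r}}) {x : X} {O : Set X} (hO : IsOpen O)
    (hx : x ∈ O) : ∃ r, 0 < r ∧ {y | d x y < r} ⊆ O := by
  obtain ⟨_, ⟨y, r, hr, rfl⟩, hxy, hsub⟩ := hb.exists_subset_of_mem_open hx hO
  have hxy' : d y x < r := hxy
  refine ⟨r - d y x, by linarith, fun z hz => hsub ?_⟩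
  have hz' : d x z < r - d y x := hz
  have := ht y x z
  change d y z < r
  linarith

theorem isOpen_qball {d : X → X → ℝ}
    (hb : TopologicalSpace.IsTopologicalBasis
      {B : Set X | ∃ x r, 0 < r ∧ B = {y | d x y < r}}) {r : ℝ} (hr : 0 < r) (x : X) :
    IsOpen {y | d x y < r} := hb.isOpen ⟨x, r, hr, rfl⟩

theorem quasi [T0Space X] (hX : Quasimetrizable X) (x₀ : X) : HasMetricAnalog.{u, v} X x₀ := by
  obtain ⟨d, h0, hs, ht, hb⟩ := hX
  let D : Data X X :=
    { G := fun n p => {y | d p y < (1 / 2) ^ n}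
      Good := fun _ x p => p = x
      isOpen := fun n p => isOpen_qball hb (pow_pos' n) p
      mem := by
        rintro n x p rfl
        change d p p < _
        rw [hs]
        exact pow_pos' n
      ex := fun _ x => ⟨x, rfl⟩
      base := by
        intro x O hO hx
        obtain ⟨r, hr, hsub⟩ := ball_nhds ht hb hO hx
        obtain ⟨n, hn⟩ := exists_pow_lt_of_lt_one hr (by norm_num : (1 / 2 : ℝ) < 1)
        refine ⟨n, ?_⟩
        rintro p rfl y hy
        exact hsub (lt_trans hy hn) }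
  refine hasMetricAnalog D ?_ x₀
  intro A _ f hf
  have hbdd : ∀ a n p, BddBelow (range fun b : A => max ((1 / 2) ^ n - d p (f b)) 0 + dist a b) := by
    intro a n p
    refine ⟨0, ?_⟩
    rintro _ ⟨b, rfl⟩
    exact add_nonneg (le_max_right _ _) dist_nonneg
  have hle : ∀ (a : A) n p, (⨅ b : A, (max (((1 : ℝ) / 2) ^ n - d p (f b)) 0 + dist a b)) ≤
      max ((1 / 2) ^ n - d p (f a)) 0 := by
    intro a n p
    refine (ciInf_le (hbdd a n p) a).trans ?_
    rw [dist_self, add_zero]
  refine ⟨fun a n p => ⨅ b : A, (max ((1 / 2) ^ n - d p (f b)) 0 + dist a b),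
    fun a => ⟨?_, ?_, ?_, ?_⟩, ?_⟩
  · intro n p
    exact Real.iInf_nonneg fun b => add_nonneg (le_max_right _ _) dist_nonneg
  · intro n p
    refine (hle a n p).trans (max_le ?_ (pow_pos' n).le)
    have := h0 p (f a)
    linarith
  · intro n ε hε
    refine ⟨{y | d (f a) y < ε}, isOpen_qball hb hε _, by
      change d (f a) (f a) < ε
      rw [hs]
      exact hε, fun p hp y hy => ?_⟩
    have h1 := hp.trans (hle a n p)
    have h2 : ε ≤ (1 / 2) ^ n - d p (f a) := by
      rcases le_max_iff.1 h1 with h | h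
      · exact h
      · linarith
    have h3 := ht p (f a) y
    have h4 : d (f a) y < ε := hy
    change d p y < (1 / 2) ^ n
    linarith
  · intro n
    refine ⟨f a, rfl, ?_⟩
    have h1 : f ⁻¹' {y | d (f a) y < (1 / 2) ^ (n + 1)} ∈ 𝓝 a := by
      apply ((isOpen_qball hb (pow_pos' (n + 1)) (f a)).preimage hf).mem_nhds
      change d (f a) (f a) < _
      rw [hs]
      exact pow_pos' _
    obtain ⟨δ, hδ, hball⟩ := Metric.mem_nhds_iff.1 h1
    have : Nonempty A := ⟨a⟩
    refine lt_of_lt_of_le (lt_min (pow_pos' (n + 1)) hδ) (le_ciInf fun b => ?_)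
    by_cases hb' : dist b a < δ
    · have h2 : d (f a) (f b) < (1 / 2) ^ (n + 1) := hball hb'
      have h3 : ((1 : ℝ) / 2) ^ n = 2 * (1 / 2) ^ (n + 1) := by
        rw [pow_succ]
        ring
      have h4 : (0 : ℝ) ≤ dist a b := dist_nonneg
      have h5 := le_max_left (((1 : ℝ) / 2) ^ n - d (f a) (f b)) 0
      refine (min_le_left _ _).trans ?_
      linarith
    · have h4 : δ ≤ dist a b := by
        rw [dist_comm]
        exact not_lt.1 hb'
      have h5 := le_max_right (((1 : ℝ) / 2) ^ n - d (f a) (f b)) 0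
      refine (min_le_right _ _).trans ?_
      linarith
  · intro a n ε hε
    have key : ∀ a a' : A, ∀ p, (⨅ b : A, (max (((1 : ℝ) / 2) ^ n - d p (f b)) 0 + dist a' b)) ≤
        (⨅ b : A, (max (((1 : ℝ) / 2) ^ n - d p (f b)) 0 + dist a b)) + dist a' a := by
      intro a a' p
      have : Nonempty A := ⟨a⟩
      rw [← sub_le_iff_le_add]
      apply le_ciInf
      intro b
      have h1 := ciInf_le (hbdd a' n p) b
      have h2 := dist_triangle a' a b
      linarith
    filter_upwards [Metric.ball_mem_nhds a hε] with a' ha'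
    intro p
    have h1 := key a a' p
    have h2 := key a' a p
    have h3 : dist a' a < ε := ha'
    rw [dist_comm a a'] at h2
    rw [abs_le]
    constructor <;> linarith

end Quasi

/-! ### A developable space which is not quasimetrizable -/

inductive Pt : Type
  | t (x : ℝ) : Pt
  | s (y : ℝ) (i : ℕ) : Pt
  | p (y : ℝ) (i j : ℕ) : Pt

namespace Pt

/-- the basic neighbourhoods -/
def G (n : ℕ) : Pt → Set Pt
  | t x => {w | w = t x ∨ (∃ y i, w = s y i ∧ n ≤ i ∧ 0 < |y - x| ∧ |y - x| < 1 / (i + 1)) ∨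
      ∃ y i j, w = p y i j ∧ n ≤ i ∧ 0 < |y - x| ∧ |y - x| < 1 / (i + 1) ∧
        (1 : ℝ) ≤ j * |y - x|}
  | s y i => {w | w = s y i ∨ ∃ j, w = p y i j ∧ n ≤ j}
  | p y i j => {p y i j}

theorem mem_G (n : ℕ) (x : Pt) : x ∈ G n x := by
  cases x with
  | t x => exact Or.inl rfl
  | s y i => exact Or.inl rfl
  | p y i j => exact rfl

theorem G_anti {m n : ℕ} (h : m ≤ n) (x : Pt) : G n x ⊆ G m x := by
  cases x with
  | t x =>
    rintro w (rfl | ⟨y, i, rfl, h1, h2⟩ | ⟨y, i, j, rfl, h1, h2⟩)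
    · exact Or.inl rfl
    · exact Or.inr (Or.inl ⟨y, i, rfl, h.trans h1, h2⟩)
    · exact Or.inr (Or.inr ⟨y, i, j, rfl, h.trans h1, h2⟩)
  | s y i =>
    rintro w (rfl | ⟨j, rfl, h1⟩)
    · exact Or.inl rfl
    · exact Or.inr ⟨j, rfl, h.trans h1⟩
  | p y i j => exact subset_rfl

instance : TopologicalSpace Pt where
  IsOpen O := ∀ x ∈ O, ∃ n, G n x ⊆ O
  isOpen_univ := fun _ _ => ⟨0, subset_univ _⟩
  isOpen_inter := by
    intro U V hU hV x hx
    obtain ⟨m, hm⟩ := hU x hx.1
    obtain ⟨n, hn⟩ := hV x hx.2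
    exact ⟨max m n, subset_inter ((G_anti (le_max_left _ _) x).trans hm)
      ((G_anti (le_max_right _ _) x).trans hn)⟩
  isOpen_sUnion := by
    rintro S hS x ⟨U, hU, hx⟩
    obtain ⟨m, hm⟩ := hS U hU x hx
    exact ⟨m, hm.trans (subset_sUnion_of_mem hU)⟩

theorem isOpen_iff' {O : Set Pt} : IsOpen O ↔ ∀ x ∈ O, ∃ n, G n x ⊆ O := Iff.rfl

theorem G_p (n : ℕ) (y : ℝ) (i j : ℕ) : G n (p y i j) = {p y i j} := rfl

theorem isOpen_G (n : ℕ) (x : Pt) : IsOpen (G n x) := by
  rw [isOpen_iff']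
  intro w hw
  cases x with
  | t x =>
    rcases hw with (rfl | ⟨y, i, rfl, h1, h2, h3⟩ | ⟨y, i, j, rfl, h1, h2, h3, h4⟩)
    · exact ⟨n, subset_rfl⟩
    · obtain ⟨k, hk⟩ := exists_nat_gt (1 / |y - x|)
      refine ⟨k, ?_⟩
      rintro w (rfl | ⟨j, rfl, hj⟩)
      · exact Or.inr (Or.inl ⟨y, i, rfl, h1, h2, h3⟩)
      · refine Or.inr (Or.inr ⟨y, i, j, rfl, h1, h2, h3, ?_⟩)
        have h5 : (k : ℝ) ≤ j := by exact_mod_cast hj
        rw [div_lt_iff₀ h2] at hk
        have h6 := mul_le_mul_of_nonneg_right h5 h2.le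
        linarith
    · refine ⟨0, ?_⟩
      rintro w rfl
      exact Or.inr (Or.inr ⟨y, i, j, rfl, h1, h2, h3, h4⟩)
  | s y i =>
    rcases hw with (rfl | ⟨j, rfl, h1⟩)
    · exact ⟨n, subset_rfl⟩
    · refine ⟨0, ?_⟩
      rintro w rfl
      exact Or.inr ⟨j, rfl, h1⟩
  | p y i j =>
    have : w = p y i j := hw
    subst this
    exact ⟨0, subset_rfl⟩

/-- the development -/
theorem dev (x : Pt) (O : Set Pt) (hO : IsOpen O) (hx : x ∈ O) :
    ∃ n, ∀ w, x ∈ G n w → G n w ⊆ O := by
  obtain ⟨n, hn⟩ := isOpen_iff'.1 hO x hx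
  cases x with
  | t x =>
    refine ⟨n, fun w hw => ?_⟩
    cases w with
    | t x' =>
      rcases hw with (h | ⟨y, i, h, -⟩ | ⟨y, i, j, h, -⟩)
      · rw [← h]
        exact hn
      · cases h
      · cases h
    | s y i =>
      rcases hw with (h | ⟨j, h, -⟩)
      · cases h
      · cases h
    | p y i j => cases hw
  | s y i =>
    refine ⟨max n (i + 1), fun w hw => ?_⟩
    cases w with
    | t x' =>
      rcases hw with (h | ⟨y', i', h, h1, -⟩ | ⟨y', i', j, h, -⟩)
      · cases h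
      · cases h
        have := (le_max_right n (i + 1)).trans h1
        omega
      · cases h
    | s y' i' =>
      rcases hw with (h | ⟨j, h, -⟩)
      · rw [← h]
        exact (G_anti (le_max_left _ _) _).trans hn
      · cases h
    | p y' i' j => cases hw
  | p y i j =>
    refine ⟨max (i + 1) (j + 1), fun w hw => ?_⟩
    cases w with
    | t x' =>
      rcases hw with (h | ⟨y', i', h, -⟩ | ⟨y', i', j', h, h1, -⟩)
      · cases h
      · cases h
      · cases h
        have := (le_max_left (i + 1) (j + 1)).trans h1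
        omega
    | s y' i' =>
      rcases hw with (h | ⟨j', h, h1⟩)
      · cases h
      · cases h
        have := (le_max_right (i + 1) (j + 1)).trans h1
        omega
    | p y' i' j' =>
      have h : p y i j = p y' i' j' := hw
      rw [← h]
      rintro z rfl
      exact hx

instance : T0Space Pt := by
  constructor
  intro a b hab
  by_contra hne
  have key : ∀ O : Set Pt, IsOpen O → (a ∈ O ↔ b ∈ O) := fun O hO =>
    (inseparable_iff_forall_isOpen.1 hab) O hO
  have h1 : ∀ n, b ∈ G n a := fun n => (key _ (isOpen_G n a)).1 (mem_G n a)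
  have h2 : ∀ n, a ∈ G n b := fun n => (key _ (isOpen_G n b)).2 (mem_G n b)
  cases a with
  | t x =>
    cases b with
    | t x' =>
      rcases h1 0 with (h | ⟨y, i, h, -⟩ | ⟨y, i, j, h, -⟩)
      · exact hne h.symm
      · cases h
      · cases h
    | s y i =>
      rcases h2 0 with (h | ⟨j, h, -⟩)
      · cases h
      · cases h
    | p y i j => cases h2 0
  | s y i =>
    cases b with
    | t x' =>
      rcases h1 0 with (h | ⟨j, h, -⟩)
      · cases h
      · cases h
    | s y' i' =>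
      rcases h1 0 with (h | ⟨j, h, -⟩)
      · exact hne h.symm
      · cases h
    | p y' i' j => cases h2 0
  | p y i j =>
    have h3 : b = p y i j := h1 0
    exact hne h3.symm

noncomputable def data : Data Pt Pt where
  G := G
  Good n x q := x ∈ G n q
  isOpen := isOpen_G
  mem _ _ _ h := h
  ex n x := ⟨x, mem_G n x⟩
  base x O hO hx := dev x O hO hx

theorem hasMetricAnalog_Pt (x₀ : Pt) : HasMetricAnalog.{0, v} Pt x₀ :=
  hasMetricAnalog data (lift_dev data fun _ _ _ h => h) x₀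

theorem not_quasi : ¬ Quasimetrizable Pt := by
  rintro ⟨d, h0, hs, ht, hb⟩
  -- the radii
  have h1 : ∀ x : ℝ, ∃ k : ℕ, {y | d (t x) y < 2 * (1 / 2) ^ k} ⊆ G 0 (t x) := by
    intro x
    obtain ⟨r, hr, hsub⟩ := ball_nhds ht hb (isOpen_G 0 (t x)) (mem_G 0 (t x))
    obtain ⟨k, hk⟩ := exists_pow_lt_of_lt_one (half_pos hr) (by norm_num : (1 / 2 : ℝ) < 1)
    refine ⟨k, fun y hy => hsub ?_⟩
    have hy' : d (t x) y < 2 * (1 / 2) ^ k := hy
    change d (t x) y < r
    linarith
  choose k hk using h1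
  have h2 : ∀ x : ℝ, ∃ m : ℕ, G m (t x) ⊆ {y | d (t x) y < (1 / 2) ^ k x} := by
    intro x
    refine isOpen_iff'.1 (isOpen_qball hb (pow_pos' (k x)) (t x)) (t x) ?_
    change d (t x) (t x) < _
    rw [hs]
    exact pow_pos' _
  choose m hm using h2
  -- Baire
  have hcov : (⋃ q : ℕ × ℕ, closure {x : ℝ | k x = q.1 ∧ m x = q.2}) = univ := by
    apply eq_univ_of_forall
    intro x
    exact mem_iUnion.2 ⟨(k x, m x), subset_closure ⟨rfl, rfl⟩⟩
  obtain ⟨⟨K, N⟩, y, hy⟩ := nonempty_interior_of_iUnion_of_closed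
    (fun q : ℕ × ℕ => isClosed_closure (s := {x : ℝ | k x = q.1 ∧ m x = q.2})) hcov
  simp only at hy
  -- the radius at `s y N`
  obtain ⟨J, hJ⟩ := isOpen_iff'.1 (isOpen_qball hb (pow_pos' K) (s y N)) (s y N) (by
    change d (s y N) (s y N) < _
    rw [hs]
    exact pow_pos' _)
  -- choose `x`
  obtain ⟨ρ, hρ, hball⟩ := Metric.isOpen_iff.1 isOpen_interior y hy
  have hNpos : (0 : ℝ) < 1 / ((N : ℝ) + 1) := by positivity
  have hJpos : (0 : ℝ) < 1 / ((J : ℝ) + 1) := by positivity
  set ε : ℝ := min ρ (min (1 / ((N : ℝ) + 1)) (1 / ((J : ℝ) + 1))) with hε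
  have hεpos : 0 < ε := lt_min hρ (lt_min hNpos hJpos)
  have hε1 : ε ≤ ρ := min_le_left _ _
  have hε2 : ε ≤ 1 / ((N : ℝ) + 1) := (min_le_right _ _).trans (min_le_left _ _)
  have hε3 : ε ≤ 1 / ((J : ℝ) + 1) := (min_le_right _ _).trans (min_le_right _ _)
  have hz : y + ε / 2 ∈ closure {x : ℝ | k x = K ∧ m x = N} := by
    apply interior_subset (hball _)
    rw [Metric.mem_ball, Real.dist_eq]
    rw [show y + ε / 2 - y = ε / 2 by ring, abs_of_pos (half_pos hεpos)]
    linarith
  obtain ⟨x, ⟨hxK, hxN⟩, hxz⟩ := Metric.mem_closure_iff.1 hz (ε / 2) (half_pos hεpos)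
  rw [Real.dist_eq, abs_lt] at hxz
  have hyx : 0 < x - y := by linarith [hxz.2]
  have hyx2 : x - y < ε := by linarith [hxz.1]
  have habs : |y - x| = x - y := by
    rw [abs_sub_comm, abs_of_pos hyx]
  have e1 : s y N ∈ G (m x) (t x) := by
    refine Or.inr (Or.inl ⟨y, N, rfl, hxN.le, ?_, ?_⟩)
    · rw [habs]
      exact hyx
    · rw [habs]
      linarith
  have e2 : d (t x) (s y N) < (1 / 2) ^ K := by
    have := hm x e1
    rw [hxK] at this
    exact this
  have e3 : d (s y N) (p y N J) < (1 / 2) ^ K := hJ (Or.inr ⟨J, rfl, le_rfl⟩)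
  have e4 : p y N J ∈ G 0 (t x) := by
    apply hk x
    rw [hxK]
    have := ht (t x) (s y N) (p y N J)
    change d (t x) (p y N J) < _
    linarith
  rcases e4 with (h | ⟨y', i', h, -⟩ | ⟨y', i', j', h, -, -, -, h5⟩)
  · cases h
  · cases h
  · cases h
    rw [habs] at h5
    have h6 : (x - y) * ((J : ℝ) + 1) < 1 := by
      have h7 : x - y < 1 / ((J : ℝ) + 1) := by linarith
      rwa [lt_div_iff₀ (by positivity)] at h7
    nlinarith

end Pt

end Pool.Agent.R812.MetAnalog
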