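import Mathlib

/-!
# The `ℝ`-tree with three directions at every point
-/

set_option autoImplicit false

open Set Topology

namespace Pool.Agent.R812.RTree

/-- points: well ordered subsets of `(-∞, ρ)` -/
@[ext]
structure T where
  S : Set ℝ
  ρ : ℝ
  lt : ∀ x ∈ S, x < ρ
  wf : S.IsWF

/-- levels of agreement -/
def Ag (x y : T) : Set ℝ := {s | s ≤ x.ρ ∧ s ≤ y.ρ ∧ ∀ t < s, (t ∈ x.S ↔ t ∈ y.S)}

noncomputable def h (x y : T) : ℝ := sSup (Ag x y)

theorem lower (x : T) : ∃ m, ∀ t ∈ x.S, m ≤ t := by
  by_cases hne : x.S.Nonempty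
  · exact ⟨x.wf.min hne, fun t ht => x.wf.min_le hne ht⟩
  · rw [not_nonempty_iff_eq_empty] at hne
    exact ⟨0, fun t ht => by rw [hne] at ht; exact ht.elim⟩

theorem Ag_nonempty (x y : T) : (Ag x y).Nonempty := by
  obtain ⟨m, hm⟩ := lower x
  obtain ⟨n, hn⟩ := lower y
  refine ⟨min (min m n) (min x.ρ y.ρ), ?_, ?_, ?_⟩
  · exact (min_le_right _ _).trans (min_le_left _ _)
  · exact (min_le_right _ _).trans (min_le_right _ _)
  · intro t ht
    have h1 : t < m := ht.trans_le ((min_le_left _ _).trans (min_le_left _ _))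
    have h2 : t < n := ht.trans_le ((min_le_left _ _).trans (min_le_right _ _))
    exact ⟨fun h => absurd (hm t h) (not_le.2 h1), fun h => absurd (hn t h) (not_le.2 h2)⟩

theorem Ag_bdd (x y : T) : BddAbove (Ag x y) := ⟨x.ρ, fun _ hs => hs.1⟩

theorem le_h {x y : T} {s : ℝ} :
    s ≤ h x y ↔ s ≤ x.ρ ∧ s ≤ y.ρ ∧ ∀ t < s, (t ∈ x.S ↔ t ∈ y.S) := by
  constructor
  · intro hs
    refine ⟨hs.trans (csSup_le (Ag_nonempty x y) fun _ h => h.1),
      hs.trans (csSup_le (Ag_nonempty x y) fun _ h => h.2.1), fun t ht => ?_⟩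
    obtain ⟨s', hs', hlt⟩ := exists_lt_of_lt_csSup (Ag_nonempty x y) (ht.trans_le hs)
    exact hs'.2.2 t hlt
  · intro hs
    exact le_csSup (Ag_bdd x y) hs

theorem h_le_left (x y : T) : h x y ≤ x.ρ := (le_h.1 le_rfl).1

theorem h_le_right (x y : T) : h x y ≤ y.ρ := (le_h.1 le_rfl).2.1

theorem h_agree {x y : T} {t : ℝ} (ht : t < h x y) : t ∈ x.S ↔ t ∈ y.S := (le_h.1 le_rfl).2.2 t ht

theorem h_comm (x y : T) : h x y = h y x := by
  apply le_antisymm <;> rw [le_h]
  · exact ⟨h_le_right _ _, h_le_left _ _, fun t ht => (h_agree ht).symm⟩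
  · exact ⟨h_le_right _ _, h_le_left _ _, fun t ht => (h_agree ht).symm⟩

theorem h_self (x : T) : h x x = x.ρ :=
  le_antisymm (h_le_left _ _) (le_h.2 ⟨le_rfl, le_rfl, fun _ _ => Iff.rfl⟩)

theorem h_ultra (x y z : T) : min (h x y) (h y z) ≤ h x z := by
  rw [le_h]
  refine ⟨(min_le_left _ _).trans (h_le_left _ _), (min_le_right _ _).trans (h_le_right _ _),
    fun t ht => ?_⟩
  exact (h_agree (ht.trans_le (min_le_left _ _))).trans
    (h_agree (ht.trans_le (min_le_right _ _)))

theorem eq_of_h {x y : T} (h1 : x.ρ ≤ h x y) (h2 : y.ρ ≤ h x y) : x = y := by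
  have hρ : x.ρ = y.ρ :=
    le_antisymm (h1.trans (h_le_right _ _)) (h2.trans (h_le_left _ _))
  apply T.ext _ hρ
  ext t
  constructor
  · intro ht
    exact (h_agree ((x.lt t ht).trans_le h1)).1 ht
  · intro ht
    exact (h_agree ((y.lt t ht).trans_le h2)).2 ht

/-- the key lemma on branching -/
theorem h_lt {x y : T} {r : ℝ} (hx : r < x.ρ) (hy : r < y.ρ) (hr : r ≤ h x y)
    (hm : r ∈ x.S ↔ r ∈ y.S) : r < h x y := by
  have key : ∀ z : T, r < z.ρ → ∃ s, r < s ∧ s ≤ z.ρ ∧ ∀ t ∈ z.S, r < t → s ≤ t := by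
    intro z hz
    by_cases hne : (z.S ∩ Ioi r).Nonempty
    · have hwf : (z.S ∩ Ioi r).IsWF := z.wf.mono inter_subset_left
      have hmem := hwf.min_mem hne
      exact ⟨hwf.min hne, hmem.2, (z.lt _ hmem.1).le, fun t ht hrt => hwf.min_le hne ⟨ht, hrt⟩⟩
    · rw [not_nonempty_iff_eq_empty] at hne
      refine ⟨z.ρ, hz, le_rfl, fun t ht hrt => ?_⟩
      have : t ∈ z.S ∩ Ioi r := ⟨ht, hrt⟩
      rw [hne] at this
      exact this.elim
  obtain ⟨s, hs, hs1, hs2⟩ := key x hx
  obtain ⟨s', hs', hs1', hs2'⟩ := key y hy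
  refine lt_of_lt_of_le (lt_min hs hs') (le_h.2 ⟨(min_le_left _ _).trans hs1,
    (min_le_right _ _).trans hs1', fun t ht => ?_⟩)
  rcases lt_trichotomy t r with h1 | h1 | h1
  · exact h_agree (h1.trans_le hr)
  · rw [h1]
    exact hm
  · exact ⟨fun h => absurd (hs2 t h h1) (not_le.2 (ht.trans_le (min_le_left _ _))),
      fun h => absurd (hs2' t h h1) (not_le.2 (ht.trans_le (min_le_right _ _)))⟩

noncomputable instance : MetricSpace T where
  dist x y := x.ρ + y.ρ - 2 * h x y
  dist_self x := by
    rw [h_self]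
    ring
  dist_comm x y := by
    rw [h_comm]
    ring
  dist_triangle x y z := by
    have h1 := h_ultra x y z
    have h2 := h_le_right x y
    have h3 := h_le_left y z
    rcases le_total (h x y) (h y z) with h4 | h4
    · rw [min_eq_left h4] at h1
      linarith
    · rw [min_eq_right h4] at h1
      linarith
  eq_of_dist_eq_zero := by
    intro x y hxy
    change x.ρ + y.ρ - 2 * h x y = 0 at hxy
    have h2 := h_le_right x y
    have h3 := h_le_left x y
    apply eq_of_h <;> linarith

theorem dist_def (x y : T) : dist x y = x.ρ + y.ρ - 2 * h x y := rfl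

/-- the four point condition -/
theorem four (x y z w : T) :
    dist x z + dist y w ≤ max (dist x y + dist z w) (dist x w + dist y z) := by
  have h1 := h_ultra x y z
  have h2 := h_ultra x w z
  have h3 := h_ultra y x w
  have h4 := h_ultra y z w
  rw [h_comm w z] at h2
  rw [h_comm y x] at h3
  simp only [dist_def]
  rw [le_max_iff]
  rcases le_total (h x y) (h y z) with a | a <;> rcases le_total (h x w) (h z w) with b | b <;>
    rcases le_total (h x y) (h x w) with c | c <;> rcases le_total (h y z) (h z w) with e | e <;>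
    simp only [min_eq_left a, min_eq_right a, min_eq_left b, min_eq_right b, min_eq_left c,
      min_eq_right c, min_eq_left e, min_eq_right e] at h1 h2 h3 h4 <;>
    first
    | (left; linarith)
    | (right; linarith)

/-- truncation -/
def tr (x : T) (t : ℝ) (ht : t ≤ x.ρ) : T where
  S := {s ∈ x.S | s < t}
  ρ := t
  lt _ hs := hs.2
  wf := x.wf.mono fun _ hs => hs.1

theorem h_tr (x y : T) (t : ℝ) (ht : t ≤ x.ρ) : h (tr x t ht) y = min t (h x y) := by
  apply le_antisymm
  · apply le_min (h_le_left (tr x t ht) y)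
    rw [le_h]
    have h1 := h_le_left (tr x t ht) y
    refine ⟨h1.trans ht, h_le_right _ _, fun s hs => ?_⟩
    rw [← h_agree hs]
    constructor
    · intro h2
      exact ⟨h2, hs.trans_le h1⟩
    · intro h2
      exact h2.1
  · rw [le_h]
    refine ⟨min_le_left _ _, (min_le_right _ _).trans (h_le_right _ _), fun s hs => ?_⟩
    rw [← h_agree (hs.trans_le (min_le_right _ _))]
    constructor
    · intro h2
      exact h2.1
    · intro h2
      exact ⟨h2, hs.trans_le (min_le_left _ _)⟩

theorem dist_tr (x y : T) (t : ℝ) (ht : t ≤ x.ρ) :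
    dist (tr x t ht) y = t + y.ρ - 2 * min t (h x y) := by
  have h1 := dist_def (tr x t ht) y
  rw [h_tr] at h1
  exact h1

/-- points on the segment between `x` and `y` -/
theorem exists_between (x y : T) (t : ℝ) (h0 : 0 ≤ t) (h1 : t ≤ dist x y) :
    ∃ z, dist x z = t ∧ dist z y = dist x y - t := by
  have hxy := dist_def x y
  have e1 := h_le_left x y
  have e2 := h_le_right x y
  by_cases hc : t ≤ x.ρ - h x y
  · refine ⟨tr x (x.ρ - t) (by linarith), ?_, ?_⟩
    · rw [dist_comm, dist_tr, h_self, min_eq_left (by linarith)]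
      ring
    · rw [dist_tr, min_eq_right (by linarith), hxy]
      ring
  · push Not at hc
    refine ⟨tr y (y.ρ - (dist x y - t)) (by linarith), ?_, ?_⟩
    · rw [dist_comm, dist_tr, h_comm y x, min_eq_right (by linarith)]
      linarith
    · rw [dist_tr, h_self, min_eq_left (by linarith)]
      ring

theorem between_dist {x y z : T} {t : ℝ} (h1 : dist x z = t) (h2 : dist z y = dist x y - t)
    (w : T) : dist z w = max (dist w x - t) (dist w y - (dist x y - t)) := by
  apply le_antisymm
  · have h3 := four z x w y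
    rw [dist_comm z x, h1, h2] at h3
    rcases le_max_iff.1 h3 with h4 | h4
    · rw [le_max_iff]
      right
      linarith
    · rw [le_max_iff]
      left
      rw [dist_comm x w] at h4
      linarith
  · apply max_le
    · have := dist_triangle w z x
      rw [dist_comm w z, dist_comm z x, h1] at this
      linarith
    · have := dist_triangle w z y
      rw [dist_comm w z, h2] at this
      linarith

/-! ### Directions -/

open Classical in
/-- the direction of `x` at `q` -/
noncomputable def dir (q x : T) : Fin 3 := if h x q < q.ρ then 0 else if q.ρ ∈ x.S then 1 else 2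

theorem diff_iff (q x y : T) :
    dist x y = dist x q + dist q y ↔ h x y = h x q + h q y - q.ρ := by
  simp only [dist_def]
  constructor <;> intro h1 <;> linarith

theorem h_of_down {q x y : T} (hx : h x q < q.ρ) (hy : ¬ h y q < q.ρ) : h x y = h x q := by
  have h1 : h y q = q.ρ := le_antisymm (h_le_right _ _) (not_lt.1 hy)
  have h2 := h_ultra x q y
  have h3 := h_ultra x y q
  rw [h_comm q y, h1, min_eq_left hx.le] at h2
  rw [h1] at h3
  apply le_antisymm _ h2
  by_contra hcon
  push Not at hcon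
  exact absurd h3 (not_le.2 (lt_min hcon hx))

theorem diff_of_ne {q x y : T} (hd : dir q x ≠ dir q y) : dist x y = dist x q + dist q y := by
  rw [diff_iff]
  unfold dir at hd
  by_cases hx : h x q < q.ρ
  · by_cases hy : h y q < q.ρ
    · rw [if_pos hx, if_pos hy] at hd
      exact absurd rfl hd
    · rw [h_of_down hx hy, h_comm q y, le_antisymm (h_le_right y q) (not_lt.1 hy)]
      ring
  · by_cases hy : h y q < q.ρ
    · rw [h_comm x y, h_of_down hy hx, h_comm q y, le_antisymm (h_le_right x q) (not_lt.1 hx)]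
      ring
    · rw [if_neg hx, if_neg hy] at hd
      have h1 : h x q = q.ρ := le_antisymm (h_le_right x q) (not_lt.1 hx)
      have h2 : h q y = q.ρ := by
        rw [h_comm]
        exact le_antisymm (h_le_right y q) (not_lt.1 hy)
      have h3 : h x y = q.ρ := by
        apply le_antisymm
        · by_contra hcon
          push Not at hcon
          apply hd
          have := h_agree hcon
          by_cases hm : q.ρ ∈ x.S
          · rw [if_pos hm, if_pos (this.1 hm)]
          · rw [if_neg hm, if_neg fun h' => hm (this.2 h')]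
        · have := h_ultra x q y
          rwa [h1, h2, min_self] at this
      rw [h1, h2, h3]
      ring

theorem not_diff_of_eq {q x y : T} (hx : x ≠ q) (hy : y ≠ q) (hd : dir q x = dir q y) :
    dist x y ≠ dist x q + dist q y := by
  rw [Ne, diff_iff]
  unfold dir at hd
  intro he
  rw [h_comm q y] at he
  by_cases hx' : h x q < q.ρ
  · by_cases hy' : h y q < q.ρ
    · have h1 := h_ultra x q y
      rw [h_comm q y] at h1
      rcases le_total (h x q) (h y q) with h2 | h2
      · rw [min_eq_left h2] at h1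
        linarith
      · rw [min_eq_right h2] at h1
        linarith
    · rw [if_pos hx', if_neg hy'] at hd
      split_ifs at hd
      · exact absurd hd (by decide)
      · exact absurd hd (by decide)
  · by_cases hy' : h y q < q.ρ
    · rw [if_neg hx', if_pos hy'] at hd
      split_ifs at hd
      · exact absurd hd (by decide)
      · exact absurd hd (by decide)
    · rw [if_neg hx', if_neg hy'] at hd
      have key : ∀ z : T, z ≠ q → ¬ h z q < q.ρ → h z q = q.ρ ∧ q.ρ < z.ρ := by
        intro z hz hz'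
        have h1 : h z q = q.ρ := le_antisymm (h_le_right z q) (not_lt.1 hz')
        refine ⟨h1, ?_⟩
        have h2 := h_le_left z q
        rw [h1] at h2
        rcases h2.lt_or_eq with h3 | h3
        · exact h3
        · exact absurd (eq_of_h (by rw [h1, h3]) (by rw [h1])) hz
      obtain ⟨hx1, hx2⟩ := key x hx hx'
      obtain ⟨hy1, hy2⟩ := key y hy hy'
      have h1 : q.ρ ≤ h x y := by
        have := h_ultra x q y
        rw [h_comm q y, hx1, hy1, min_self] at this
        exact this
      have h2 : q.ρ ∈ x.S ↔ q.ρ ∈ y.S := by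
        by_cases hm : q.ρ ∈ x.S <;> by_cases hm' : q.ρ ∈ y.S
        · exact ⟨fun _ => hm', fun _ => hm⟩
        · rw [if_pos hm, if_neg hm'] at hd
          exact absurd hd (by decide)
        · rw [if_neg hm, if_pos hm'] at hd
          exact absurd hd (by decide)
        · exact ⟨fun h' => absurd h' hm, fun h' => absurd h' hm'⟩
      have h3 := h_lt hx2 hy2 h1 h2
      rw [he, hx1, hy1] at h3
      linarith

theorem exists_dir (q : T) (j : Fin 3) (r : ℝ) (hr : 0 < r) : ∃ y, dist y q = r ∧ dir q y = j := by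
  have hq : q.ρ ∉ q.S := fun h' => lt_irrefl _ (q.lt _ h')
  have h0 : ∃ y, dist y q = r ∧ dir q y = 0 := by
    refine ⟨tr q (q.ρ - r) (by linarith), ?_, ?_⟩
    · rw [dist_tr, h_self, min_eq_left (by linarith)]
      ring
    · unfold dir
      rw [h_tr, h_self, min_eq_left (by linarith), if_pos (by linarith)]
  have h1 : ∃ y, dist y q = r ∧ dir q y = 1 := by
    let y : T := ⟨insert q.ρ q.S, q.ρ + r, by
      rintro x (rfl | hx)
      · linarith
      · exact (q.lt x hx).trans (by linarith), q.wf.insert _⟩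
    have hy : h y q = q.ρ := by
      apply le_antisymm (h_le_right _ _)
      rw [le_h]
      refine ⟨by change q.ρ ≤ q.ρ + r; linarith, le_rfl, fun t ht => ?_⟩
      constructor
      · rintro (h' | h')
        · exact absurd h' ht.ne
        · exact h'
      · exact fun h' => Or.inr h'
    refine ⟨y, ?_, ?_⟩
    · rw [dist_def, hy]
      change q.ρ + r + q.ρ - 2 * q.ρ = r
      ring
    · unfold dir
      rw [hy, if_neg (lt_irrefl _), if_pos (show q.ρ ∈ y.S from Or.inl rfl)]
  have h2 : ∃ y, dist y q = r ∧ dir q y = 2 := by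
    let y : T := ⟨q.S, q.ρ + r, fun x hx => (q.lt x hx).trans (by linarith), q.wf⟩
    have hy : h y q = q.ρ := by
      apply le_antisymm (h_le_right _ _)
      rw [le_h]
      exact ⟨by change q.ρ ≤ q.ρ + r; linarith, le_rfl, fun t ht => Iff.rfl⟩
    refine ⟨y, ?_, ?_⟩
    · rw [dist_def, hy]
      change q.ρ + r + q.ρ - 2 * q.ρ = r
      ring
    · unfold dir
      rw [hy, if_neg (lt_irrefl _), if_neg hq]
  fin_cases j
  · exact h0
  · exact h1
  · exact h2

/-- either a new direction is available, or three directions are used -/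
theorem free_dir (q : T) (r : ℝ) (hr : 0 < r) (B : Set T) :
    (∃ y, ∀ b ∈ B, dist y b = r + dist q b) ∨
    ∃ b : Fin 3 → T, (∀ j, b j ∈ B ∧ b j ≠ q) ∧
      ∀ i j, i ≠ j → dist (b i) (b j) = dist (b i) q + dist q (b j) := by
  by_cases H : ∀ j : Fin 3, ∃ b ∈ B, b ≠ q ∧ dir q b = j
  · right
    choose b hb hbq hbj using H
    refine ⟨b, fun j => ⟨hb j, hbq j⟩, fun i j hij => diff_of_ne ?_⟩
    rw [hbj, hbj]
    exact hij
  · left
    push Not at H
    obtain ⟨j, hj⟩ := H
    obtain ⟨y, hy, hyj⟩ := exists_dir q j r hr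
    refine ⟨y, fun b hb => ?_⟩
    by_cases hbq : b = q
    · rw [hbq, hy, dist_self, add_zero]
    · rw [← hy]
      apply diff_of_ne
      rw [hyj]
      exact (hj b hb hbq).symm

theorem valence (p : T) (x : Fin 4 → T) (hx : ∀ i, x i ≠ p)
    (hd : ∀ i j, i ≠ j → dist (x i) (x j) = dist (x i) p + dist p (x j)) : False := by
  obtain ⟨i, j, hij, he⟩ := Fintype.exists_ne_map_eq_of_card_lt (fun i : Fin 4 => dir p (x i))
    (by simp)
  exact not_diff_of_eq (hx i) (hx j) he (hd i j hij)

/-! ### Completeness -/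

theorem abs_rho (x y : T) : |x.ρ - y.ρ| ≤ dist x y := by
  rw [dist_def, abs_le]
  have h1 := h_le_left x y
  have h2 := h_le_right x y
  constructor <;> linarith

instance : CompleteSpace T := by
  apply Metric.complete_of_cauchySeq_tendsto
  intro u hu
  have hρ : CauchySeq fun n => (u n).ρ := by
    rw [Metric.cauchySeq_iff] at hu ⊢
    intro ε hε
    obtain ⟨N, hN⟩ := hu ε hε
    refine ⟨N, fun m hm n hn => ?_⟩
    rw [Real.dist_eq]
    exact (abs_rho _ _).trans_lt (hN m hm n hn)
  obtain ⟨ρ, hρl⟩ := cauchySeq_tendsto_of_complete hρ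
  -- agreement
  have hag : ∀ t < ρ, ∃ N, ∀ m ≥ N, ∀ n ≥ N, t < h (u m) (u n) := by
    intro t ht
    have hε : 0 < (ρ - t) / 2 := by linarith
    obtain ⟨N, hN⟩ := Metric.cauchySeq_iff.1 hu ((ρ - t) / 2) hε
    obtain ⟨N', hN'⟩ := Metric.tendsto_atTop.1 hρl ((ρ - t) / 2) hε
    refine ⟨max N N', fun m hm n hn => ?_⟩
    have h1 := hN m ((le_max_left _ _).trans hm) n ((le_max_left _ _).trans hn)
    have h2 := hN' m ((le_max_right _ _).trans hm)
    have h3 := hN' n ((le_max_right _ _).trans hn)
    rw [Real.dist_eq, abs_lt] at h2 h3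
    rw [dist_def] at h1
    linarith [h2.1, h3.1]
  let S : Set ℝ := {t | t < ρ ∧ ∃ N, ∀ n ≥ N, t ∈ (u n).S}
  have hS : ∀ t < ρ, ∀ N, (∀ m ≥ N, ∀ n ≥ N, t < h (u m) (u n)) → ∀ s ≤ t, ∀ n ≥ N,
      (s ∈ S ↔ s ∈ (u n).S) := by
    intro t ht N hN s hs n hn
    constructor
    · rintro ⟨-, M, hM⟩
      have h1 := hM (max M N) (le_max_left _ _)
      exact (h_agree (hs.trans_lt (hN (max M N) (le_max_right _ _) n hn))).1 h1
    · intro h1
      refine ⟨hs.trans_lt ht, N, fun m hm => ?_⟩
      exact (h_agree (hs.trans_lt (hN n hn m hm))).1 h1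
  have hwf : S.IsWF := by
    rw [isWF_iff_no_descending_seq]
    intro f hf hfS
    have h0 : f 0 < ρ := (hfS 0).1
    obtain ⟨N, hN⟩ := hag (f 0) h0
    have h1 : ∀ k, f k ∈ (u N).S := by
      intro k
      exact (hS (f 0) h0 N hN (f k) (hf.antitone (Nat.zero_le k)) N le_rfl).1 (hfS k)
    exact isWF_iff_no_descending_seq.1 (u N).wf f hf h1
  let x : T := ⟨S, ρ, fun t ht => ht.1, hwf⟩
  refine ⟨x, ?_⟩
  rw [Metric.tendsto_atTop]
  intro ε hε
  have ht : ρ - ε / 4 < ρ := by linarith
  obtain ⟨N, hN⟩ := hag (ρ - ε / 4) ht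
  obtain ⟨N', hN'⟩ := Metric.tendsto_atTop.1 hρl (ε / 4) (by linarith)
  refine ⟨max N N', fun n hn => ?_⟩
  have h1 : ρ - ε / 4 ≤ h (u n) x := by
    rw [le_h]
    have h2 := hN n ((le_max_left _ _).trans hn) n ((le_max_left _ _).trans hn)
    rw [h_self] at h2
    refine ⟨h2.le, ht.le, fun t ht' => ?_⟩
    exact (hS (ρ - ε / 4) ht N hN t ht'.le n ((le_max_left _ _).trans hn)).symm
  have h2 := hN' n ((le_max_right _ _).trans hn)
  rw [Real.dist_eq, abs_lt] at h2
  rw [dist_def]
  change (u n).ρ + ρ - 2 * h (u n) x < ε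
  linarith [h2.2]

/-! ### The one-point extension property -/

/-- a partial isometry, as a set of pairs -/
def PIso (G : Set (T × T)) : Prop := ∀ u ∈ G, ∀ v ∈ G, dist u.1 v.1 = dist u.2 v.2

/-- the Gromov product at `x` -/
noncomputable def gp (x a b : T) : ℝ := (dist x a + dist x b - dist a b) / 2

theorem gp_nonneg (x a b : T) : 0 ≤ gp x a b := by
  unfold gp
  have := dist_triangle a x b
  rw [dist_comm a x] at this
  linarith

theorem gp_four (x a b w : T) : min (gp x w a) (gp x w b) ≤ gp x a b := by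
  have h1 := four a x b w
  unfold gp
  rw [min_le_iff]
  rw [dist_comm a x] at h1
  rw [dist_comm w a, dist_comm w b]
  rcases le_max_iff.1 h1 with h2 | h2
  · right
    linarith
  · left
    linarith

theorem ext_one {G : Set (T × T)} (hG : PIso G) (hne : G.Nonempty) (x : T) :
    ∃ y, ∀ u ∈ G, dist x u.1 = dist y u.2 := by
  let R : Set ℝ := {r | ∃ u ∈ G, ∃ v ∈ G, r = gp x u.1 v.1}
  have hRne : R.Nonempty := by
    obtain ⟨u, hu⟩ := hne
    exact ⟨_, u, hu, u, hu, rfl⟩
  have hRb : BddBelow R := ⟨0, by rintro _ ⟨u, -, v, -, rfl⟩; exact gp_nonneg _ _ _⟩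
  set r := sInf R with hrdef
  have hr0 : 0 ≤ r := le_csInf hRne (by rintro _ ⟨u, -, v, -, rfl⟩; exact gp_nonneg _ _ _)
  have hrle : ∀ u ∈ G, ∀ v ∈ G, r ≤ gp x u.1 v.1 := fun u hu v hv => csInf_le hRb ⟨u, hu, v, hv, rfl⟩
  have hseq : ∀ n : ℕ, ∃ u ∈ G, ∃ v ∈ G, gp x u.1 v.1 < r + 1 / ((n : ℝ) + 1) := by
    intro n
    have hpos : (0 : ℝ) < 1 / ((n : ℝ) + 1) := by positivity
    obtain ⟨_, ⟨u, hu, v, hv, rfl⟩, hlt⟩ := exists_lt_of_csInf_lt hRne
      (show sInf R < r + 1 / ((n : ℝ) + 1) by linarith)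
    exact ⟨u, hu, v, hv, hlt⟩
  choose u hu v hv hlt using hseq
  have hq : ∀ n, ∃ z, dist (u n).2 z = dist x (u n).1 - gp x (u n).1 (v n).1 ∧
      dist z (v n).2 = dist (u n).2 (v n).2 - (dist x (u n).1 - gp x (u n).1 (v n).1) := by
    intro n
    apply exists_between
    · unfold gp
      have := dist_triangle x (u n).1 (v n).1
      linarith
    · rw [← hG _ (hu n) _ (hv n)]
      unfold gp
      have := dist_triangle x (v n).1 (u n).1
      rw [dist_comm (v n).1 (u n).1] at this
      linarith
  choose q hq1 hq2 using hq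
  have hqw : ∀ n, ∀ w ∈ G, |dist (q n) w.2 - (dist x w.1 - r)| ≤ 1 / ((n : ℝ) + 1) := by
    intro n w hw
    have h1 := between_dist (hq1 n) (hq2 n) w.2
    rw [← hG w hw _ (hu n), ← hG w hw _ (hv n), ← hG _ (hu n) _ (hv n)] at h1
    have h2 := gp_four x (u n).1 (v n).1 w.1
    have h3 := hrle w hw _ (hu n)
    have h4 := hrle w hw _ (hv n)
    have h5 := hlt n
    have h6 : dist (q n) w.2 = dist x w.1 + gp x (u n).1 (v n).1 -
        2 * min (gp x w.1 (u n).1) (gp x w.1 (v n).1) := by
      rw [h1]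
      have e1 : dist w.1 (u n).1 = dist x w.1 + dist x (u n).1 - 2 * gp x w.1 (u n).1 := by
        unfold gp; ring
      have e2 : dist w.1 (v n).1 = dist x w.1 + dist x (v n).1 - 2 * gp x w.1 (v n).1 := by
        unfold gp; ring
      have e3 : dist (u n).1 (v n).1 =
          dist x (u n).1 + dist x (v n).1 - 2 * gp x (u n).1 (v n).1 := by
        unfold gp; ring
      rw [e1, e2, e3]
      rcases le_total (gp x w.1 (u n).1) (gp x w.1 (v n).1) with h7 | h7
      · rw [min_eq_left h7, max_eq_left (by linarith)]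
        ring
      · rw [min_eq_right h7, max_eq_right (by linarith)]
        ring
    rw [h6, abs_le]
    have h8 : r ≤ min (gp x w.1 (u n).1) (gp x w.1 (v n).1) := le_min h3 h4
    constructor <;> linarith
  have hcau : ∀ n m, dist (q m) (q n) ≤ 1 / ((n : ℝ) + 1) + 1 / ((m : ℝ) + 1) := by
    intro n m
    have h1 := between_dist (hq1 m) (hq2 m) (q n)
    have h2 := (abs_le.1 (hqw n _ (hu m))).2
    have h3 := (abs_le.1 (hqw n _ (hv m))).2
    have h5 := hlt m
    rw [← hG _ (hu m) _ (hv m)] at h1
    have e3 : dist (u m).1 (v m).1 =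
        dist x (u m).1 + dist x (v m).1 - 2 * gp x (u m).1 (v m).1 := by
      unfold gp; ring
    rw [h1, e3]
    apply max_le <;> linarith
  have hC : CauchySeq q := by
    rw [Metric.cauchySeq_iff]
    intro ε hε
    obtain ⟨N, hN⟩ := exists_nat_one_div_lt (half_pos hε)
    refine ⟨N, fun m hm n hn => (hcau n m).trans_lt ?_⟩
    have h1 : 1 / ((n : ℝ) + 1) ≤ 1 / ((N : ℝ) + 1) := by
      apply one_div_le_one_div_of_le (by positivity)
      have : (N : ℝ) ≤ n := by exact_mod_cast hn
      linarith
    have h2 : 1 / ((m : ℝ) + 1) ≤ 1 / ((N : ℝ) + 1) := by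
      apply one_div_le_one_div_of_le (by positivity)
      have : (N : ℝ) ≤ m := by exact_mod_cast hm
      linarith
    linarith
  obtain ⟨c, hc⟩ := cauchySeq_tendsto_of_complete hC
  have hcw : ∀ w ∈ G, dist c w.2 = dist x w.1 - r := by
    intro w hw
    have h1 : Filter.Tendsto (fun n => dist (q n) w.2) Filter.atTop (𝓝 (dist c w.2)) :=
      hc.dist tendsto_const_nhds
    have h2 : Filter.Tendsto (fun n => dist (q n) w.2) Filter.atTop (𝓝 (dist x w.1 - r)) := by
      rw [tendsto_iff_dist_tendsto_zero]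
      apply squeeze_zero (fun _ => dist_nonneg) (fun n => ?_)
        (tendsto_one_div_add_atTop_nhds_zero_nat (𝕜 := ℝ))
      rw [Real.dist_eq]
      exact hqw n w hw
    exact tendsto_nhds_unique h1 h2
  rcases hr0.lt_or_eq with hr | hr
  · rcases free_dir c r hr (Prod.snd '' G) with ⟨y, hy⟩ | ⟨b, hb, hbd⟩
    · refine ⟨y, fun w hw => ?_⟩
      rw [hy _ ⟨w, hw, rfl⟩, hcw w hw]
      ring
    · exfalso
      have hw : ∀ j, ∃ w ∈ G, w.2 = b j := fun j => (hb j).1
      choose w hw hwb using hw
      have hcb : ∀ j, dist c (b j) = dist x (w j).1 - r := by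
        intro j
        rw [← hwb j]
        exact hcw _ (hw j)
      have hpos : ∀ j, 0 < dist x (w j).1 - r := by
        intro j
        rw [← hcb j]
        exact dist_pos.2 (hb j).2.symm
      obtain ⟨p, hp1, hp2⟩ := exists_between x (w 0).1 r hr0 (by linarith [hpos 0])
      have haa : ∀ i j, i ≠ j → dist (w i).1 (w j).1 =
          dist x (w i).1 + dist x (w j).1 - 2 * r := by
        intro i j hij
        have h1 := hbd i j hij
        rw [dist_comm (b i) c, hcb, hcb, ← hwb i, ← hwb j, ← hG _ (hw i) _ (hw j)] at h1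
        rw [h1]
        ring
      have hpj : ∀ j, dist p (w j).1 = dist x (w j).1 - r := by
        intro j
        by_cases hj : j = 0
        · rw [hj]
          exact hp2
        · rw [between_dist hp1 hp2, haa j 0 hj, dist_comm (w j).1 x]
          rw [max_eq_left (by linarith)]
      refine valence p (Fin.cons x fun j => (w j).1) ?_ ?_
      · intro i
        refine Fin.cases ?_ (fun j => ?_) i
        · simp only [Fin.cons_zero]
          intro h'
          rw [h', dist_self] at hp1
          linarith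
        · simp only [Fin.cons_succ]
          intro h'
          have := hpj j
          have h2 := hpos j
          rw [h', dist_self] at this
          rw [h'] at h2
          linarith
      · intro i j
        refine Fin.cases ?_ (fun i => ?_) i
        · refine Fin.cases ?_ (fun j => ?_) j
          · intro h'
            exact absurd rfl h'
          · intro _
            simp only [Fin.cons_zero, Fin.cons_succ]
            rw [hp1, hpj]
            ring
        · refine Fin.cases ?_ (fun j => ?_) j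
          · intro _
            simp only [Fin.cons_zero, Fin.cons_succ]
            rw [dist_comm (w i).1 x, dist_comm (w i).1 p, dist_comm p x, hp1, hpj]
            ring
          · intro h'
            simp only [Fin.cons_succ]
            rw [haa i j (fun h'' => h' (by rw [h''])), dist_comm (w i).1 p, hpj, hpj]
            ring
  · refine ⟨c, fun w hw => ?_⟩
    rw [hcw w hw, ← hr]
    ring

theorem PIso.swap {G : Set (T × T)} (hG : PIso G) : PIso (Prod.swap '' G) := by
  rintro _ ⟨u, hu, rfl⟩ _ ⟨v, hv, rfl⟩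
  exact (hG u hu v hv).symm

theorem PIso.insert {G : Set (T × T)} (hG : PIso G) {x y : T}
    (hxy : ∀ u ∈ G, dist x u.1 = dist y u.2) : PIso (insert (x, y) G) := by
  rintro u (rfl | hu) v (rfl | hv)
  · simp
  · exact hxy v hv
  · rw [dist_comm u.1, dist_comm u.2]
    exact hxy u hu
  · exact hG u hu v hv

theorem exists_ext {G : Set (T × T)} (hG : PIso G) : ∃ g : T ≃ᵢ T, ∀ u ∈ G, g u.1 = u.2 := by
  obtain ⟨M, hGM, hM⟩ := zorn_subset_nonempty {M : Set (T × T) | PIso M} (by
    intro c hc hch _
    refine ⟨⋃₀ c, ?_, fun s hs => subset_sUnion_of_mem hs⟩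
    rintro u ⟨s, hs, hus⟩ v ⟨t, ht, hvt⟩
    rcases hch.total hs ht with h' | h'
    · exact hc ht u (h' hus) v hvt
    · exact hc hs u hus v (h' hvt)) G hG
  have hMP : PIso M := hM.prop
  have hmax : ∀ x y, (∀ u ∈ M, dist x u.1 = dist y u.2) → (x, y) ∈ M := by
    intro x y hxy
    exact hM.le_of_ge (hMP.insert hxy) (subset_insert _ _) (mem_insert _ _)
  have hne : M.Nonempty := by
    by_contra h'
    rw [not_nonempty_iff_eq_empty] at h'
    let x : T := ⟨∅, 0, fun _ h => h.elim, isWF_empty⟩
    have : (x, x) ∈ M := hmax x x (fun u hu => by rw [h'] at hu; exact hu.elim)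
    rw [h'] at this
    exact this.elim
  have hdom : ∀ x, ∃ y, (x, y) ∈ M := by
    intro x
    obtain ⟨y, hy⟩ := ext_one hMP hne x
    exact ⟨y, hmax x y hy⟩
  have hran : ∀ y, ∃ x, (x, y) ∈ M := by
    intro y
    obtain ⟨x, hx⟩ := ext_one hMP.swap (hne.image _) y
    refine ⟨x, hmax x y fun u hu => ?_⟩
    exact (hx u.swap ⟨u, hu, rfl⟩).symm
  choose g hg using hdom
  choose k hk using hran
  have huniq : ∀ x y y', (x, y) ∈ M → (x, y') ∈ M → y = y' := by
    intro x y y' h1 h2
    have := hMP _ h1 _ h2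
    simp only [dist_self] at this
    exact dist_eq_zero.1 this.symm
  have hgk : ∀ y, g (k y) = y := fun y => huniq _ _ _ (hg (k y)) (hk y)
  have hiso : Isometry g := Isometry.of_dist_eq fun x y => (hMP _ (hg x) _ (hg y)).symm
  refine ⟨IsometryEquiv.mk' g k hgk hiso, fun u hu => ?_⟩
  exact huniq _ _ _ (hg u.1) (hGM hu)

/-! ### Topological properties -/

/-- the descending ray -/
def ray (x : T) (t : ℝ) : T := tr x (min t x.ρ) (min_le_right _ _)

theorem dist_ray (x : T) (s t : ℝ) : dist (ray x s) (ray x t) ≤ dist s t := by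
  have h1 : dist (ray x s) (ray x t) = |min s x.ρ - min t x.ρ| := by
    unfold ray
    rw [dist_tr, h_comm, h_tr, h_self]
    change min s x.ρ + min t x.ρ - 2 * min (min s x.ρ) (min (min t x.ρ) x.ρ) = _
    rw [min_eq_left (min_le_right t x.ρ)]
    rcases le_total (min s x.ρ) (min t x.ρ) with h2 | h2
    · rw [min_eq_left h2, abs_of_nonpos (by linarith)]
      ring
    · rw [min_eq_right h2, abs_of_nonneg (by linarith)]
      ring
  rw [h1, Real.dist_eq]
  have := abs_min_sub_min_le_max s x.ρ t x.ρ
  rw [sub_self, abs_zero] at this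
  refine this.trans (max_le le_rfl (abs_nonneg _))

theorem continuous_ray (x : T) : Continuous (ray x) :=
  (LipschitzWith.of_dist_le_mul (K := 1) fun s t => by
    rw [NNReal.coe_one, one_mul]
    exact dist_ray x s t).continuous

theorem ray_self (x : T) : ray x x.ρ = x := by
  have h1 : dist (ray x x.ρ) x = 0 := by
    unfold ray
    rw [dist_tr, h_self, min_self, min_self]
    ring
  exact dist_eq_zero.1 h1

theorem ray_meet (x y : T) : ray x (h x y) = ray y (h x y) := by
  have h1 : dist (ray x (h x y)) (ray y (h x y)) = 0 := by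
    unfold ray
    rw [dist_tr, h_comm x (tr _ _ _), h_tr]
    change min (h x y) x.ρ + min (h x y) y.ρ - 2 * min (min (h x y) x.ρ)
      (min (min (h x y) y.ρ) (h y x)) = 0
    rw [h_comm y x, min_eq_left (h_le_left x y), min_eq_left (h_le_right x y), min_self, min_self]
    ring
  exact dist_eq_zero.1 h1

theorem isPreconnected_ball (c : T) (r : ℝ) : IsPreconnected (Metric.ball c r) := by
  apply isPreconnected_of_forall c
  intro y hy
  have hd : dist y c < r := hy
  rw [dist_def] at hd
  have h1 := h_le_left y c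
  have h2 := h_le_right y c
  have hcont : ∀ z : T, IsPreconnected (ray z '' Icc (h y c) z.ρ) := fun z =>
    isPreconnected_Icc.image _ (continuous_ray z).continuousOn
  refine ⟨ray c '' Icc (h y c) c.ρ ∪ ray y '' Icc (h y c) y.ρ, ?_, ?_, ?_, ?_⟩
  · rintro _ (⟨t, ht, rfl⟩ | ⟨t, ht, rfl⟩)
    · rw [Metric.mem_ball]
      unfold ray
      rw [dist_tr, h_self, min_eq_left ht.2, min_eq_left ht.2]
      linarith [ht.1]
    · rw [Metric.mem_ball]
      unfold ray
      rw [dist_tr, min_eq_left ht.2, min_eq_right ht.1]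
      linarith [ht.2]
  · exact Or.inl ⟨c.ρ, ⟨h2, le_rfl⟩, ray_self c⟩
  · exact Or.inr ⟨y.ρ, ⟨h1, le_rfl⟩, ray_self y⟩
  · refine IsPreconnected.union (ray c (h y c)) ?_ ?_ (hcont c) (hcont y)
    · exact ⟨h y c, ⟨le_rfl, h2⟩, rfl⟩
    · exact ⟨h y c, ⟨le_rfl, h1⟩, ray_meet y c⟩

def base : T := ⟨∅, 0, fun _ h => h.elim, isWF_empty⟩

instance : ConnectedSpace T := by
  have h1 : IsPreconnected (univ : Set T) := by
    apply isPreconnected_of_forall base
    intro y _
    refine ⟨Metric.ball base (dist y base + 1), subset_univ _, ?_, ?_, isPreconnected_ball _ _⟩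
    · exact Metric.mem_ball_self (by positivity)
    · rw [Metric.mem_ball]
      linarith
  exact { isPreconnected_univ := h1, toNonempty := ⟨base⟩ }

instance : LocallyConnectedSpace T := by
  refine locallyConnectedSpace_of_connected_bases (fun x (r : ℝ) => Metric.ball x r)
    (fun _ r => 0 < r) (fun x => Metric.nhds_basis_ball) fun x r _ => isPreconnected_ball x r

/-- points branching off above `q` at height `t` -/
noncomputable def br (q : T) (ε t : ℝ) (hε : t < ε) (h0 : 0 ≤ t) : T where
  S := insert (q.ρ + t) q.S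
  ρ := q.ρ + ε
  lt := by
    rintro x (rfl | hx)
    · linarith
    · have := q.lt x hx
      linarith
  wf := q.wf.insert _

theorem not_compact (q : T) (K : Set T) (hK : K ∈ 𝓝 q) : ¬ IsCompact K := by
  intro hc
  obtain ⟨ε, hε, hball⟩ := Metric.nhds_basis_closedBall.mem_iff.1 hK
  let t : ℕ → ℝ := fun n => (ε / 2) * (1 / ((n : ℝ) + 1))
  have ht0 : ∀ n, 0 < t n := fun n => by
    change 0 < (ε / 2) * (1 / ((n : ℝ) + 1))
    positivity
  have ht1 : ∀ n, t n ≤ ε / 2 := by
    intro n
    have h1 : 1 / ((n : ℝ) + 1) ≤ 1 := by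
      rw [div_le_one (by positivity)]
      have : (0 : ℝ) ≤ n := Nat.cast_nonneg n
      linarith
    have := mul_le_mul_of_nonneg_left h1 (half_pos hε).le
    rw [mul_one] at this
    exact this
  have hts : ∀ m n, m < n → t n < t m := by
    intro m n hmn
    change (ε / 2) * (1 / ((n : ℝ) + 1)) < (ε / 2) * (1 / ((m : ℝ) + 1))
    apply mul_lt_mul_of_pos_left _ (half_pos hε)
    apply one_div_lt_one_div_of_lt (by positivity)
    have : (m : ℝ) < n := by exact_mod_cast hmn
    linarith
  let y : ℕ → T := fun n => br q ε (t n) (by linarith [ht1 n]) (ht0 n).le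
  have hyK : ∀ n, y n ∈ K := by
    intro n
    apply hball
    rw [Metric.mem_closedBall]
    have h1 : q.ρ ≤ h (y n) q := by
      rw [le_h]
      refine ⟨by change q.ρ ≤ q.ρ + ε; linarith, le_rfl, fun s hs => ?_⟩
      constructor
      · rintro (h' | h')
        · have := ht0 n
          linarith
        · exact h'
      · exact fun h' => Or.inr h'
    rw [dist_def]
    change q.ρ + ε + q.ρ - 2 * h (y n) q ≤ ε
    linarith
  have hyd : ∀ m n, m < n → ε ≤ dist (y m) (y n) := by
    intro m n hmn
    have h1 : h (y m) (y n) ≤ q.ρ + t n := by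
      by_contra hcon
      push Not at hcon
      have h2 := (h_agree hcon).2 (Or.inl rfl)
      rcases h2 with h3 | h3
      · have := hts m n hmn
        linarith
      · have := q.lt _ h3
        linarith [ht0 n]
    rw [dist_def]
    change ε ≤ q.ρ + ε + (q.ρ + ε) - 2 * h (y m) (y n)
    have := ht1 n
    linarith
  obtain ⟨a, -, φ, hφ, hlim⟩ := hc.tendsto_subseq hyK
  have hcau := hlim.cauchySeq
  obtain ⟨N, hN⟩ := Metric.cauchySeq_iff.1 hcau ε hε
  have h1 := hN N le_rfl (N + 1) (Nat.le_succ N)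
  have h2 := hyd (φ N) (φ (N + 1)) (hφ (Nat.lt_succ_self N))
  exact absurd h1 (not_lt.2 h2)

/-! ### Absolute homogeneity -/

/-- every isometry between subspaces extends to an isometry of the whole space -/
def AbsHomogeneous (X : Type) [MetricSpace X] : Prop :=
  ∀ (A B : Set X) (f : A ≃ᵢ B), ∃ g : X ≃ᵢ X, ∀ a : A, g a = f a

theorem absHomogeneous : AbsHomogeneous T := by
  intro A B f
  obtain ⟨g, hg⟩ := exists_ext (G := {u : T × T | ∃ a : A, u = ((a : T), (f a : T))}) (by
    rintro _ ⟨a, rfl⟩ _ ⟨b, rfl⟩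
    have := f.isometry.dist_eq a b
    rw [Subtype.dist_eq, Subtype.dist_eq] at this
    exact this.symm)
  exact ⟨g, fun a => hg _ ⟨a, rfl⟩⟩

end Pool.Agent.R812.RTree
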