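import Mathlib

/-!
# Scott completions are D-completions
-/

set_option autoImplicit false

open Set Topology

namespace Pool.Agent.R812.ScottComp

universe u

/-- the specialization order: `x ⊑ y` iff `x` lies in the closure of `{y}` -/
def Sp {X : Type u} [TopologicalSpace X] (x y : X) : Prop := x ∈ closure {y}

/-- a (nonempty) directed set for the relation `r` -/
def Dir {X : Type u} (r : X → X → Prop) (D : Set X) : Prop :=
  D.Nonempty ∧ ∀ x ∈ D, ∀ y ∈ D, ∃ z ∈ D, r x z ∧ r y z

/-- `s` is a supremum of `D` for the relation `r` -/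
def IsSupr {X : Type u} (r : X → X → Prop) (D : Set X) (s : X) : Prop :=
  (∀ d ∈ D, r d s) ∧ ∀ b, (∀ d ∈ D, r d b) → r s b

/-- every directed set has a supremum -/
def IsDcpo (X : Type u) (r : X → X → Prop) : Prop := ∀ D : Set X, Dir r D → ∃ s, IsSupr r D s

/-- Scott open sets of `(X, r)` -/
def ScottOpen {X : Type u} (r : X → X → Prop) (U : Set X) : Prop :=
  (∀ x ∈ U, ∀ y, r x y → y ∈ U) ∧ ∀ D s, Dir r D → IsSupr r D s → s ∈ U → ∃ d ∈ D, d ∈ U

/-- Scott spaces -/
def ScottSpace (X : Type u) [TopologicalSpace X] : Prop :=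
  T0Space X ∧ IsDcpo X Sp ∧ ∀ U : Set X, IsOpen U ↔ ScottOpen Sp U

/-- monotone convergence spaces -/
def MonConv (X : Type u) [TopologicalSpace X] : Prop :=
  T0Space X ∧ IsDcpo X Sp ∧ ∀ U : Set X, IsOpen U → ScottOpen Sp U

/-- d-closed sets -/
def DClosed {X : Type u} [TopologicalSpace X] (A : Set X) : Prop :=
  ∀ D ⊆ A, Dir Sp D → ∀ s, IsSupr Sp D s → s ∈ A

/-- d-dense sets: the only d-closed superset is the whole space -/
def DDense {X : Type u} [TopologicalSpace X] (A : Set X) : Prop :=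
  ∀ B : Set X, A ⊆ B → DClosed B → B = univ

/-- D-completions -/
def DCompletion {X X' : Type u} [TopologicalSpace X] [TopologicalSpace X'] (j : X → X') : Prop :=
  MonConv X' ∧ IsEmbedding j ∧ DDense (range j)

/-- Scott completions -/
def ScottCompletion {X X' : Type u} [TopologicalSpace X] [TopologicalSpace X'] (i : X → X') :
    Prop :=
  ScottSpace X' ∧ Continuous i ∧ ∀ (Z : Type u) [TopologicalSpace Z], ScottSpace Z →
    ∀ g : X → Z, Continuous g → ∃! g' : X' → Z, Continuous g' ∧ g' ∘ i = g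

theorem sp_iff {X : Type u} [TopologicalSpace X] {x y : X} : Sp x y ↔ y ⤳ x :=
  specializes_iff_mem_closure.symm

theorem sp_trans {X : Type u} [TopologicalSpace X] {x y z : X} (h : Sp x y) (h' : Sp y z) :
    Sp x z := by
  rw [sp_iff] at *
  exact h'.trans h

theorem sp_refl {X : Type u} [TopologicalSpace X] (x : X) : Sp x x := subset_closure rfl

theorem sp_antisymm {X : Type u} [TopologicalSpace X] [T0Space X] {x y : X} (h : Sp x y)
    (h' : Sp y x) : x = y := by
  rw [sp_iff] at *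
  exact (Specializes.antisymm h h').eq.symm

theorem sp_map {X Y : Type u} [TopologicalSpace X] [TopologicalSpace Y] {f : X → Y}
    (hf : Continuous f) {x y : X} (h : Sp x y) : Sp (f x) (f y) := by
  rw [sp_iff] at *
  exact h.map hf

theorem sp_open {X : Type u} [TopologicalSpace X] {x y : X} (h : Sp x y) {U : Set X}
    (hU : IsOpen U) (hx : x ∈ U) : y ∈ U := by
  rw [sp_iff] at h
  exact h.mem_open hU hx

/-! ### Scott topologies -/

/-- the Scott topology of a relation -/
@[instance_reducible]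
def scottTop (X : Type u) (r : X → X → Prop) : TopologicalSpace X where
  IsOpen U := ScottOpen r U
  isOpen_univ := ⟨fun _ _ _ _ => mem_univ _, fun D s hD _ _ => by
    obtain ⟨d, hd⟩ := hD.1
    exact ⟨d, hd, mem_univ _⟩⟩
  isOpen_inter := by
    rintro U V ⟨hU1, hU2⟩ ⟨hV1, hV2⟩
    refine ⟨fun x hx y hxy => ⟨hU1 x hx.1 y hxy, hV1 x hx.2 y hxy⟩, fun D s hD hs hsUV => ?_⟩
    obtain ⟨d, hd, hdU⟩ := hU2 D s hD hs hsUV.1
    obtain ⟨d', hd', hdV⟩ := hV2 D s hD hs hsUV.2
    obtain ⟨z, hz, h1, h2⟩ := hD.2 d hd d' hd'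
    exact ⟨z, hz, hU1 d hdU z h1, hV1 d' hdV z h2⟩
  isOpen_sUnion := by
    intro S hS
    refine ⟨fun x ⟨U, hU, hx⟩ y hxy => ⟨U, hU, (hS U hU).1 x hx y hxy⟩, ?_⟩
    rintro D s hD hs ⟨U, hU, hsU⟩
    obtain ⟨d, hd, hdU⟩ := (hS U hU).2 D s hD hs hsU
    exact ⟨d, hd, U, hU, hdU⟩

theorem isOpen_scott {X : Type u} {r : X → X → Prop} {U : Set X} :
    @IsOpen X (scottTop X r) U ↔ ScottOpen r U := Iff.rfl

/-- the specialization order of the Scott topology of a partial order is the order -/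
theorem sp_scott {X : Type u} {r : X → X → Prop} (hr : ∀ x, r x x)
    (ht : ∀ x y z, r x y → r y z → r x z) {x y : X} :
    @Sp X (scottTop X r) x y ↔ r x y := by
  let _ := scottTop X r
  constructor
  · intro h
    have hcl : IsOpen {w : X | ¬ r w y} := by
      rw [isOpen_scott]
      refine ⟨fun w hw w' hww' hw' => hw (ht _ _ _ hww' hw'), fun D s hD hs hsU => ?_⟩
      by_contra hcon
      push Not at hcon
      apply hsU
      apply hs.2
      intro d hd
      by_contra hdy
      exact hcon d hd hdy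
    by_contra hxy
    exact (sp_open h hcl hxy) (hr y)
  · intro h
    rw [sp_iff, specializes_iff_forall_open]
    intro U hU hx
    exact (isOpen_scott.1 hU).1 x hx y h

theorem scottSpace_scott {X : Type u} {r : X → X → Prop} (hr : ∀ x, r x x)
    (ht : ∀ x y z, r x y → r y z → r x z) (ha : ∀ x y, r x y → r y x → x = y)
    (hd : IsDcpo X r) : @ScottSpace X (scottTop X r) := by
  let _ := scottTop X r
  have hSp : (Sp : X → X → Prop) = r := by
    funext x y
    exact propext (sp_scott hr ht)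
  refine ⟨⟨fun x y h => ?_⟩, ?_, ?_⟩
  · apply ha
    · exact (sp_scott hr ht).1 (sp_iff.2 h.specializes')
    · exact (sp_scott hr ht).1 (sp_iff.2 h.specializes)
  · rw [hSp]
    exact hd
  · intro U
    rw [hSp]
    exact isOpen_scott

/-! ### Every monotone convergence space is an upper subspace of a Scott space -/

section Construction

variable {Y : Type u} [TopologicalSpace Y]

/-- open neighbourhoods -/
def N (x : Y) : Set (Set Y) := {U | IsOpen U ∧ x ∈ U}

theorem N_sub {x y : Y} : N x ⊆ N y ↔ Sp x y := by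
  rw [sp_iff, specializes_iff_forall_open]
  exact ⟨fun h U hU hx => (h ⟨hU, hx⟩).2, fun h U hU => ⟨hU.1, h U hU.1 hU.2⟩⟩

variable (Y) in
/-- pairs `(F, x)` with `F` a family of open neighbourhoods of `x` -/
structure Z where
  F : Set (Set Y)
  x : Y
  h : F ⊆ N x

def le (a b : Z Y) : Prop := a.F ⊆ b.F ∧ (a.x = b.x ∨ b.F = N b.x)

theorem le_refl' (a : Z Y) : le a a := ⟨subset_rfl, Or.inl rfl⟩

theorem le_trans' (a b c : Z Y) (h1 : le a b) (h2 : le b c) : le a c := by
  refine ⟨h1.1.trans h2.1, ?_⟩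
  rcases h2.2 with h | h
  · rcases h1.2 with h' | h'
    · exact Or.inl (h'.trans h)
    · right
      apply subset_antisymm c.h
      rw [← h, ← h']
      exact h2.1
  · exact Or.inr h

theorem le_antisymm' [T0Space Y] (a b : Z Y) (h1 : le a b) (h2 : le b a) : a = b := by
  have hF : a.F = b.F := subset_antisymm h1.1 h2.1
  have hx : a.x = b.x := by
    rcases h1.2 with h | h
    · exact h
    · rcases h2.2 with h' | h'
      · exact h'.symm
      · have h3 : N a.x = N b.x := by rw [← h, ← h', hF]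
        exact sp_antisymm (N_sub.1 h3.subset) (N_sub.1 h3.symm.subset)
  cases a
  cases b
  simp_all

def e (y : Y) : Z Y := ⟨N y, y, subset_rfl⟩

theorem le_e {x y : Y} : le (e x) (e y) ↔ Sp x y :=
  ⟨fun h => N_sub.1 h.1, fun h => ⟨N_sub.2 h, Or.inr rfl⟩⟩

theorem eq_e {a : Z Y} (h : a.F = N a.x) : a = e a.x := by
  cases a
  simp only [e, Z.mk.injEq, and_true]
  exact h

/-- the image of `e` is an upper set -/
theorem e_upper {y : Y} {b : Z Y} (h : le (e y) b) : b.F = N b.x := by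
  rcases h.2 with h' | h'
  · apply subset_antisymm b.h
    rw [← h']
    exact h.1
  · exact h'

theorem sup_cases (hY : MonConv Y) {D : Set (Z Y)} (hD : Dir le D) :
    ∃ s, IsSupr le D s ∧ ∀ O ∈ s.F, ∃ d ∈ D, O ∈ d.F := by
  by_cases h : ∃ a ∈ D, ∃ b ∈ D, a.x ≠ b.x
  · obtain ⟨a, ha, b, hb, hab⟩ := h
    have hcof : ∀ d ∈ D, ∃ w, e w ∈ D ∧ le d (e w) := by
      intro d hd
      obtain ⟨c1, hc1, hac1, hbc1⟩ := hD.2 a ha b hb
      obtain ⟨c2, hc2, hc12, hdc2⟩ := hD.2 c1 hc1 d hd
      have h1 := le_trans' _ _ _ hac1 hc12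
      have h2 := le_trans' _ _ _ hbc1 hc12
      have h3 : c2.F = N c2.x := by
        rcases h1.2 with h | h
        · rcases h2.2 with h' | h'
          · exact absurd (h.trans h'.symm) hab
          · exact h'
        · exact h
      refine ⟨c2.x, ?_, ?_⟩
      · rw [← eq_e h3]
        exact hc2
      · rw [← eq_e h3]
        exact hdc2
    have hT : Dir Sp {w : Y | e w ∈ D} := by
      constructor
      · obtain ⟨w, hw, -⟩ := hcof a ha
        exact ⟨w, hw⟩
      · intro w hw w' hw'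
        obtain ⟨z, hz, h1, h2⟩ := hD.2 _ hw _ hw'
        obtain ⟨v, hv, hzv⟩ := hcof z hz
        exact ⟨v, hv, le_e.1 (le_trans' _ _ _ h1 hzv), le_e.1 (le_trans' _ _ _ h2 hzv)⟩
    obtain ⟨s, hs⟩ := hY.2.1 _ hT
    refine ⟨e s, ⟨?_, ?_⟩, ?_⟩
    · intro d hd
      obtain ⟨w, hw, hdw⟩ := hcof d hd
      exact le_trans' _ _ _ hdw (le_e.2 (hs.1 w hw))
    · intro c hc
      obtain ⟨w, hw, -⟩ := hcof a ha
      have h1 : c.F = N c.x := e_upper (hc _ hw)
      rw [eq_e h1, le_e]
      apply hs.2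
      intro v hv
      rw [← le_e, ← eq_e h1]
      exact hc _ hv
    · rintro O ⟨hO, hsO⟩
      obtain ⟨w, hw, hwO⟩ := (hY.2.2 O hO).2 _ _ hT hs hsO
      exact ⟨e w, hw, hO, hwO⟩
  · push Not at h
    obtain ⟨a, ha⟩ := hD.1
    refine ⟨⟨⋃ d ∈ D, d.F, a.x, ?_⟩, ⟨?_, ?_⟩, ?_⟩
    · intro O hO
      simp only [mem_iUnion] at hO
      obtain ⟨d, hd, hO⟩ := hO
      rw [h a ha d hd]
      exact d.h hO
    · intro d hd
      refine ⟨?_, Or.inl (h d hd a ha)⟩
      intro O hO
      simp only [mem_iUnion]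
      exact ⟨d, hd, hO⟩
    · intro b hb
      refine ⟨?_, (hb a ha).2⟩
      intro O hO
      simp only [mem_iUnion] at hO
      obtain ⟨d, hd, hO⟩ := hO
      exact (hb d hd).1 hO
    · intro O hO
      simp only [mem_iUnion] at hO
      obtain ⟨d, hd, hO⟩ := hO
      exact ⟨d, hd, hO⟩

instance : TopologicalSpace (Z Y) := scottTop (Z Y) le

theorem scottSpace_Z (hY : MonConv Y) : ScottSpace (Z Y) := by
  have := hY.1
  refine scottSpace_scott le_refl' le_trans' le_antisymm' ?_
  intro D hD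
  obtain ⟨s, hs, -⟩ := sup_cases hY hD
  exact ⟨s, hs⟩

theorem sp_Z {a b : Z Y} : Sp a b ↔ le a b := sp_scott le_refl' le_trans'

theorem scottOpen_V (hY : MonConv Y) (O : Set Y) : IsOpen {a : Z Y | O ∈ a.F} := by
  refine ⟨fun a ha b hab => hab.1 ha, fun D s hD hs hsO => ?_⟩
  obtain ⟨s', hs', hO⟩ := sup_cases hY hD
  exact hO O ((hs.2 s' hs'.1).1 hsO)

theorem continuous_e : Continuous (e : Y → Z Y) := by
  refine ⟨fun V hV => ?_⟩
  rw [isOpen_iff_forall_mem_open]
  intro x hx
  obtain ⟨hV1, hV2⟩ := hV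
  have hDir : Dir le {a : Z Y | a.x = x ∧ a.F.Finite} := by
    constructor
    · exact ⟨⟨∅, x, empty_subset _⟩, rfl, finite_empty⟩
    · rintro a ⟨ha, haf⟩ b ⟨hb, hbf⟩
      refine ⟨⟨a.F ∪ b.F, x, union_subset ?_ ?_⟩, ⟨rfl, haf.union hbf⟩,
        ⟨subset_union_left, Or.inl ha⟩, ⟨subset_union_right, Or.inl hb⟩⟩
      · rw [← ha]
        exact a.h
      · rw [← hb]
        exact b.h
  have hsup : IsSupr le {a : Z Y | a.x = x ∧ a.F.Finite} (e x) := by
    constructor
    · rintro a ⟨ha, -⟩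
      refine ⟨?_, Or.inr rfl⟩
      change a.F ⊆ N x
      rw [← ha]
      exact a.h
    · intro b hb
      refine ⟨?_, (hb ⟨∅, x, empty_subset _⟩ ⟨rfl, finite_empty⟩).2⟩
      intro U hU
      have h1 := (hb ⟨{U}, x, singleton_subset_iff.2 hU⟩ ⟨rfl, finite_singleton U⟩).1
      exact h1 (mem_singleton U)
  obtain ⟨a, ⟨hax, haf⟩, haV⟩ := hV2 _ _ hDir hsup hx
  refine ⟨⋂₀ a.F, ?_, ?_, ?_⟩
  · intro y hy
    refine hV1 a haV (e y) ⟨?_, Or.inr rfl⟩
    intro U hU
    exact ⟨(a.h hU).1, hy U hU⟩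
  · exact haf.isOpen_sInter fun U hU => (a.h hU).1
  · intro U hU
    rw [← hax]
    exact (a.h hU).2

theorem isEmbedding_e (hY : MonConv Y) : IsEmbedding (e : Y → Z Y) := by
  have := hY.1
  constructor
  · constructor
    apply le_antisymm
    · exact continuous_e.le_induced
    · intro O hO
      refine ⟨{a : Z Y | O ∈ a.F}, scottOpen_V hY O, ?_⟩
      ext y
      exact ⟨fun h => h.2, fun h => ⟨hO, h⟩⟩
  · intro x y h
    exact congrArg Z.x h

end Construction

/-! ### The Sierpinski space -/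

/-- the two-point chain -/
structure Sier : Type u where
  val : Prop

def sle (a b : Sier.{u}) : Prop := a.val → b.val

instance : TopologicalSpace Sier.{u} := scottTop Sier.{u} sle

theorem sier_sup {D : Set Sier.{u}} (hD : Dir sle D) : ∃ s ∈ D, IsSupr sle D s := by
  by_cases h : ∃ d ∈ D, d.val
  · obtain ⟨d, hd, hv⟩ := h
    exact ⟨d, hd, fun _ _ _ => hv, fun b hb => hb d hd⟩
  · push Not at h
    obtain ⟨d, hd⟩ := hD.1
    exact ⟨d, hd, fun a ha hv => absurd hv (h a ha), fun b hb => hb d hd⟩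

theorem scottSpace_sier : ScottSpace Sier.{u} := by
  refine scottSpace_scott (fun _ h => h) (fun _ _ _ h h' x => h' (h x)) ?_ ?_
  · rintro ⟨a⟩ ⟨b⟩ h h'
    have : a = b := propext ⟨h, h'⟩
    rw [this]
  · intro D hD
    obtain ⟨s, -, hs⟩ := sier_sup hD
    exact ⟨s, hs⟩

theorem isOpen_sier : IsOpen {a : Sier.{u} | a.val} := by
  refine ⟨fun a ha b hab => hab ha, fun D s hD hs hsO => ?_⟩
  obtain ⟨s', hs', hsup⟩ := sier_sup hD
  exact ⟨s', hs', hs.2 s' hsup.1 hsO⟩

/-- the characteristic map of an open set -/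
theorem continuous_chi {X : Type u} [TopologicalSpace X] {O : Set X} (hO : IsOpen O) :
    Continuous (fun x => (⟨x ∈ O⟩ : Sier.{u})) := by
  refine ⟨fun V hV => ?_⟩
  obtain ⟨hV1, -⟩ := hV
  by_cases h0 : (⟨False⟩ : Sier.{u}) ∈ V
  · have : (fun x => (⟨x ∈ O⟩ : Sier.{u})) ⁻¹' V = univ := by
      apply eq_univ_of_forall
      intro x
      exact hV1 _ h0 _ (fun h => h.elim)
    rw [this]
    exact isOpen_univ
  · by_cases h1 : (⟨True⟩ : Sier.{u}) ∈ V
    · have : (fun x => (⟨x ∈ O⟩ : Sier.{u})) ⁻¹' V = O := by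
        ext x
        simp only [mem_preimage]
        by_cases hx : x ∈ O
        · simp only [hx, iff_true]
          exact h1
        · simp only [hx, iff_false]
          exact h0
      rw [this]
      exact hO
    · have : (fun x => (⟨x ∈ O⟩ : Sier.{u})) ⁻¹' V = ∅ := by
        ext x
        simp only [mem_preimage, mem_empty_iff_false, iff_false]
        by_cases hx : x ∈ O
        · simp only [hx]
          exact h1
        · simp only [hx]
          exact h0
      rw [this]
      exact isOpen_empty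

/-! ### The main theorem -/

variable {X X' : Type u} [TopologicalSpace X] [TopologicalSpace X']

/-- the smallest d-closed set containing `A` -/
def dcl (A : Set X') : Set X' := {x | ∀ B : Set X', A ⊆ B → DClosed B → x ∈ B}

theorem subset_dcl (A : Set X') : A ⊆ dcl A := fun _ hx _ hB _ => hB hx

theorem dclosed_dcl (A : Set X') : DClosed (dcl A) := by
  intro D hD hdir s hs B hAB hB
  exact hB D (fun d hd => hD hd B hAB hB) hdir s hs

theorem sp_coe {C : Set X'} {a b : C} : Sp a b ↔ Sp (a : X') (b : X') := by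
  have h1 : Sp a b ↔ b ⤳ a := sp_iff
  have h2 : Sp (a : X') (b : X') ↔ (b : X') ⤳ (a : X') := sp_iff
  rw [h1, h2]
  exact subtype_specializes_iff b a

/-- a d-closed subspace of a monotone convergence space is one -/
theorem monConv_sub (h : MonConv X') {C : Set X'} (hC : DClosed C) : MonConv C := by
  have hT0 := h.1
  have key : ∀ D : Set C, Dir Sp D → ∃ s : C, IsSupr Sp D s ∧
      IsSupr Sp (Subtype.val '' D : Set X') (s : X') ∧
      Dir Sp (Subtype.val '' D : Set X') := by
    intro D hD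
    have hD' : Dir Sp (Subtype.val '' D : Set X') := by
      constructor
      · exact hD.1.image _
      · rintro _ ⟨a, ha, rfl⟩ _ ⟨b, hb, rfl⟩
        obtain ⟨z, hz, h1, h2⟩ := hD.2 a ha b hb
        exact ⟨z, ⟨z, hz, rfl⟩, sp_coe.1 h1, sp_coe.1 h2⟩
    obtain ⟨s, hs⟩ := h.2.1 _ hD'
    have hsC : s ∈ C := hC _ (by rintro _ ⟨a, -, rfl⟩; exact a.2) hD' s hs
    refine ⟨⟨s, hsC⟩, ⟨fun d hd => sp_coe.2 (hs.1 _ ⟨d, hd, rfl⟩), fun b hb => ?_⟩, hs, hD'⟩
    rw [sp_coe]
    apply hs.2
    rintro _ ⟨d, hd, rfl⟩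
    exact sp_coe.1 (hb d hd)
  refine ⟨inferInstance, fun D hD => ?_, fun U hU => ?_⟩
  · obtain ⟨s, hs, -⟩ := key D hD
    exact ⟨s, hs⟩
  · obtain ⟨V, hV, rfl⟩ := isOpen_induced_iff.1 hU
    refine ⟨fun x hx y hxy => sp_open (sp_coe.1 hxy) hV hx, fun D s hD hs hsU => ?_⟩
    obtain ⟨s', hs', hs2, hD'⟩ := key D hD
    have h1 : s = s' := sp_antisymm (hs.2 _ hs'.1) (hs'.2 _ hs.1)
    subst h1
    obtain ⟨_, ⟨d, hd, rfl⟩, hdV⟩ := (h.2.2 V hV).2 _ _ hD' hs2 hsU
    exact ⟨d, hd, hdV⟩

theorem main [T0Space X] (i : X → X') (hi : ScottCompletion i) : DCompletion i := by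
  obtain ⟨hS, hic, huniv⟩ := hi
  have hT0 := hS.1
  have hM : MonConv X' := ⟨hS.1, hS.2.1, fun U hU => (hS.2.2 U).1 hU⟩
  -- `i` is inducing
  have hind : ∀ O : Set X, IsOpen O → ∃ V : Set X', IsOpen V ∧ i ⁻¹' V = O := by
    intro O hO
    obtain ⟨g, ⟨hg, hgi⟩, -⟩ := huniv _ scottSpace_sier _ (continuous_chi hO)
    refine ⟨g ⁻¹' {a | a.val}, isOpen_sier.preimage hg, ?_⟩
    rw [← preimage_comp, hgi]
    rfl
  have hinj : ∀ V V' : Set X', IsOpen V → IsOpen V' → i ⁻¹' V = i ⁻¹' V' → V = V' := by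
    intro V V' hV hV' h
    obtain ⟨g, -, hun⟩ := huniv _ scottSpace_sier _ (continuous_chi (hV.preimage hic))
    have h1 := hun _ ⟨continuous_chi hV, rfl⟩
    have h2 := hun (fun x => (⟨x ∈ V'⟩ : Sier.{u})) ⟨continuous_chi hV', by
      funext x
      have : (x ∈ i ⁻¹' V') = (x ∈ i ⁻¹' V) := by rw [h]
      exact congrArg Sier.mk this⟩
    ext x
    have h3 : (⟨x ∈ V⟩ : Sier.{u}) = ⟨x ∈ V'⟩ := congrFun (h1.trans h2.symm) x
    have h4 : (x ∈ V) = (x ∈ V') := congrArg Sier.val h3
    rw [h4]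
  have hemb : IsEmbedding i := by
    have h1 : IsInducing i := by
      constructor
      apply le_antisymm
      · exact hic.le_induced
      · intro O hO
        exact hind O hO
    exact ⟨h1, h1.injective⟩
  refine ⟨hM, hemb, ?_⟩
  -- the d-closure
  set C : Set X' := dcl (range i) with hCdef
  have hCcl : DClosed C := dclosed_dcl _
  have hiC : ∀ x, i x ∈ C := fun x => subset_dcl _ (mem_range_self x)
  have hMC : MonConv C := monConv_sub hM hCcl
  let i' : X → C := fun x => ⟨i x, hiC x⟩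
  have hi' : Continuous i' := hic.subtype_mk _
  obtain ⟨g, ⟨hg, hgi⟩, -⟩ := huniv _ (scottSpace_Z hMC) (e ∘ i') (continuous_e.comp hi')
  have hgi' : ∀ x, g (i x) = e (i' x) := fun x => congrFun hgi x
  have hrange : ∀ p : X', ∃ c : C, g p = e c := by
    intro p
    have hne : ∃ x, i x ∈ closure {p} := by
      by_contra hcon
      push Not at hcon
      have h1 : (closure ({p} : Set X'))ᶜ = univ := by
        apply hinj _ _ isClosed_closure.isOpen_compl isOpen_univ
        ext x
        simp only [mem_preimage, mem_compl_iff, mem_univ, iff_true]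
        exact hcon x
      have h2 : p ∈ (closure ({p} : Set X'))ᶜ := by
        rw [h1]
        exact mem_univ _
      exact h2 (subset_closure rfl)
    obtain ⟨x, hx⟩ := hne
    have h1 : Sp (g (i x)) (g p) := sp_map hg hx
    rw [hgi', sp_Z] at h1
    exact ⟨_, eq_e (e_upper h1)⟩
  choose r' hr' using hrange
  have hr'c : Continuous r' := by
    rw [(isEmbedding_e hMC).continuous_iff]
    have : (e ∘ r') = g := by
      funext p
      exact (hr' p).symm
    rw [this]
    exact hg
  have hr'i : ∀ x, r' (i x) = i' x := by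
    intro x
    apply (isEmbedding_e hMC).injective
    rw [← hr', hgi']
  obtain ⟨f, -, hun⟩ := huniv X' hS i hic
  have h1 : (fun p => (r' p : X')) = f := by
    apply hun
    refine ⟨continuous_subtype_val.comp hr'c, ?_⟩
    funext x
    change (r' (i x) : X') = i x
    rw [hr'i]
  have h2 : (fun p => p) = f := hun _ ⟨continuous_id, rfl⟩
  intro B hB hBcl
  apply eq_univ_of_forall
  intro p
  have h3 : (r' p : X') = p := congrFun (h1.trans h2.symm) p
  have h4 : p ∈ C := by
    rw [← h3]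
    exact (r' p).2
  exact h4 B hB hBcl

end Pool.Agent.R812.ScottComp
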