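import Mathlib

/-!
# Completeness of topological semilattices

`Leq x y` is the natural order `x * y = x`.
-/

set_option autoImplicit false

open Set Topology

namespace Pool.Agent.R812.SemiDefs

/-- the natural partial order of a semilattice -/
def Leq {S : Type} [Mul S] (x y : S) : Prop := x * y = x

/-- a chain: pairwise comparable elements -/
def IsChn {S : Type} [Mul S] (C : Set S) : Prop := ∀ x ∈ C, ∀ y ∈ C, Leq x y ∨ Leq y x

/-- a maximal chain: a chain not properly contained in another chain -/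
def IsMaxChn {S : Type} [Mul S] (C : Set S) : Prop :=
  IsChn C ∧ ∀ D : Set S, IsChn D → C ⊆ D → D ⊆ C

/-- the upper set generated by `A` -/
def Upper {S : Type} [Mul S] (A : Set S) : Set S := {x | ∃ a ∈ A, Leq a x}

/-- the lower set generated by `A` -/
def Lower {S : Type} [Mul S] (A : Set S) : Set S := {x | ∃ a ∈ A, Leq x a}

/-- `m` is the infimum of `A` -/
def IsInf {S : Type} [Mul S] (A : Set S) (m : S) : Prop :=
  (∀ a ∈ A, Leq m a) ∧ ∀ b, (∀ a ∈ A, Leq b a) → Leq b m

/-- `m` is the supremum of `A` -/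
def IsSup {S : Type} [Mul S] (A : Set S) (m : S) : Prop :=
  (∀ a ∈ A, Leq a m) ∧ ∀ b, (∀ a ∈ A, Leq a b) → Leq m b

/-- closed under the operation -/
def IsSub {S : Type} [Mul S] (A : Set S) : Prop := ∀ x ∈ A, ∀ y ∈ A, x * y ∈ A

/-- `s`-completeness -/
def SComplete (S : Type) [TopologicalSpace S] [Mul S] : Prop :=
  (∀ A : Set S, A.Nonempty → IsSub A → ∃ m, IsInf A m ∧ m ∈ closure (Upper A)) ∧
  (∀ C : Set S, C.Nonempty → IsChn C → ∃ m, IsSup C m ∧ m ∈ closure (Lower C))

/-- `c`-completeness -/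
def CComplete (S : Type) [TopologicalSpace S] [Mul S] : Prop :=
  ∀ F : Set S, IsClosed F → F = Upper F → ∀ C : Set S, C ⊆ F → C.Nonempty → IsChn C →
    (∃ m, IsInf C m ∧ m ∈ F) ∧ ∃ m, IsSup C m ∧ m ∈ closure (Lower C)

end Pool.Agent.R812.SemiDefs
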