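import Pool.Agent.R812.Luzin
import Pool.Agent.R812.SemiDefs

/-!
# A chain-complete semilattice of finite subsets of `ω₁`
-/

set_option autoImplicit false
set_option linter.unusedSimpArgs false

open Set Topology

namespace Pool.Agent.R812.SemiLat

open Pool.Agent.R812.Luzin (W countable_Iio uncountable_W)
open Pool.Agent.R812.SemiDefs

open Classical in
inductive X : Type
  | fin (F : Finset W) (h : F.Nonempty) : X
  | e (α : W) : X
  | z (α : W) : X
  | zero : X

open X

open Classical in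
noncomputable def mul : X → X → X
  | fin F h, fin G _ => fin (F ∪ G) h.inl
  | fin F h, e α => e (max α (F.max' h))
  | e α, fin F h => e (max α (F.max' h))
  | fin F h, z α => if F.max' h ≤ α then z α else e (F.max' h)
  | z α, fin F h => if F.max' h ≤ α then z α else e (F.max' h)
  | e α, e β => e (max α β)
  | e α, z β => if α ≤ β then z β else e α
  | z β, e α => if α ≤ β then z β else e α
  | z α, z β => z (max α β)
  | zero, _ => zero
  | _, zero => zero

open Classical in
noncomputable def fn : X → WithTop (Finset W)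
  | fin F _ => (F : WithTop (Finset W))
  | _ => ⊤

noncomputable def lvl : X → WithTop (W ×ₗ Bool)
  | fin F h => ((toLex (F.max' h, false) : W ×ₗ Bool) : WithTop (W ×ₗ Bool))
  | e α => ((toLex (α, false) : W ×ₗ Bool) : WithTop (W ×ₗ Bool))
  | z α => ((toLex (α, true) : W ×ₗ Bool) : WithTop (W ×ₗ Bool))
  | zero => ⊤

theorem inj {x y : X} (h1 : fn x = fn y) (h2 : lvl x = lvl y) : x = y := by
  cases x <;> cases y <;> simp_all [fn, lvl]

open Classical in
theorem fn_mul (x y : X) : fn (mul x y) = fn x ⊔ fn y := by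
  cases x <;> cases y <;> simp only [fn, mul] <;> (try split_ifs) <;>
    simp [fn, ← WithTop.coe_sup]

theorem lex_le (a b : W) (c d : Bool) :
    (toLex (a, c) : W ×ₗ Bool) ≤ toLex (b, d) ↔ a < b ∨ a = b ∧ c ≤ d := by
  rw [Prod.Lex.toLex_le_toLex]

theorem sup_ff (a b : W) : (toLex (a, false) : W ×ₗ Bool) ⊔ toLex (b, false) =
    toLex (max a b, false) := by
  rcases le_total a b with h | h
  · rw [sup_eq_right.2, max_eq_right h]
    rw [lex_le]
    rcases h.lt_or_eq with h | h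
    · exact Or.inl h
    · exact Or.inr ⟨h, le_refl _⟩
  · rw [sup_eq_left.2, max_eq_left h]
    rw [lex_le]
    rcases h.lt_or_eq with h | h
    · exact Or.inl h
    · exact Or.inr ⟨h, le_refl _⟩

theorem sup_tt (a b : W) : (toLex (a, true) : W ×ₗ Bool) ⊔ toLex (b, true) =
    toLex (max a b, true) := by
  rcases le_total a b with h | h
  · rw [sup_eq_right.2, max_eq_right h]
    rw [lex_le]
    rcases h.lt_or_eq with h | h
    · exact Or.inl h
    · exact Or.inr ⟨h, le_refl _⟩
  · rw [sup_eq_left.2, max_eq_left h]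
    rw [lex_le]
    rcases h.lt_or_eq with h | h
    · exact Or.inl h
    · exact Or.inr ⟨h, le_refl _⟩

theorem sup_ft_le {a b : W} (h : a ≤ b) : (toLex (a, false) : W ×ₗ Bool) ⊔ toLex (b, true) =
    toLex (b, true) := by
  rw [sup_eq_right, lex_le]
  rcases h.lt_or_eq with h | h
  · exact Or.inl h
  · exact Or.inr ⟨h, Bool.false_le _⟩

theorem sup_ft_gt {a b : W} (h : ¬ a ≤ b) : (toLex (a, false) : W ×ₗ Bool) ⊔ toLex (b, true) =
    toLex (a, false) := by
  rw [sup_eq_left, lex_le]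
  exact Or.inl (not_le.1 h)

theorem sup_tf_le {a b : W} (h : a ≤ b) : (toLex (b, true) : W ×ₗ Bool) ⊔ toLex (a, false) =
    toLex (b, true) := by
  rw [sup_comm, sup_ft_le h]

theorem sup_tf_gt {a b : W} (h : ¬ a ≤ b) : (toLex (b, true) : W ×ₗ Bool) ⊔ toLex (a, false) =
    toLex (a, false) := by
  rw [sup_comm, sup_ft_gt h]

open Classical in
theorem max_union (F G : Finset W) (hF : F.Nonempty) (hG : G.Nonempty) (h : (F ∪ G).Nonempty) :
    (F ∪ G).max' h = max (F.max' hF) (G.max' hG) := by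
  apply le_antisymm
  · apply Finset.max'_le
    intro y hy
    rcases Finset.mem_union.1 hy with hy | hy
    · exact le_trans (Finset.le_max' _ _ hy) (le_max_left _ _)
    · exact le_trans (Finset.le_max' _ _ hy) (le_max_right _ _)
  · apply max_le
    · exact Finset.le_max' _ _ (Finset.mem_union_left _ (Finset.max'_mem _ _))
    · exact Finset.le_max' _ _ (Finset.mem_union_right _ (Finset.max'_mem _ _))

theorem lvl_mul (x y : X) : lvl (mul x y) = lvl x ⊔ lvl y := by
  cases x with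
  | fin F hF =>
    cases y with
    | fin G hG =>
      simp only [lvl, mul, ← WithTop.coe_sup, sup_ff, max_union F G hF hG]
    | e α =>
      simp only [lvl, mul, ← WithTop.coe_sup, sup_ff, max_comm]
    | z α =>
      simp only [lvl, mul]
      split_ifs with h
      · simp only [lvl, ← WithTop.coe_sup, sup_ft_le h]
      · simp only [lvl, ← WithTop.coe_sup, sup_ft_gt h]
    | zero => simp [lvl, mul]
  | e β =>
    cases y with
    | fin G hG =>
      simp only [lvl, mul, ← WithTop.coe_sup, sup_ff]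
    | e α =>
      simp only [lvl, mul, ← WithTop.coe_sup, sup_ff]
    | z α =>
      simp only [lvl, mul]
      split_ifs with h
      · simp only [lvl, ← WithTop.coe_sup, sup_ft_le h]
      · simp only [lvl, ← WithTop.coe_sup, sup_ft_gt h]
    | zero => simp [lvl, mul]
  | z β =>
    cases y with
    | fin G hG =>
      simp only [lvl, mul]
      split_ifs with h
      · simp only [lvl, ← WithTop.coe_sup, sup_tf_le h]
      · simp only [lvl, ← WithTop.coe_sup, sup_tf_gt h]
    | e α =>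
      simp only [lvl, mul]
      split_ifs with h
      · simp only [lvl, ← WithTop.coe_sup, sup_tf_le h]
      · simp only [lvl, ← WithTop.coe_sup, sup_tf_gt h]
    | z α =>
      simp only [lvl, mul, ← WithTop.coe_sup, sup_tt]
    | zero => simp [lvl, mul]
  | zero => cases y <;> simp [lvl, mul]

noncomputable instance : CommSemigroup X where
  mul := mul
  mul_assoc x y w := by
    change mul (mul x y) w = mul x (mul y w)
    apply inj
    · simp only [fn_mul, sup_assoc]
    · simp only [lvl_mul, sup_assoc]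
  mul_comm x y := by
    change mul x y = mul y x
    apply inj
    · simp only [fn_mul, sup_comm]
    · simp only [lvl_mul, sup_comm]

theorem mul_def (x y : X) : x * y = mul x y := rfl

theorem idem (x : X) : x * x = x := by
  rw [mul_def]
  apply inj
  · simp only [fn_mul, sup_idem]
  · simp only [lvl_mul, sup_idem]

theorem leq_iff (x y : X) : x * y = x ↔ fn y ≤ fn x ∧ lvl y ≤ lvl x := by
  rw [mul_def]
  constructor
  · intro h
    constructor
    · have := fn_mul x y
      rw [h] at this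
      exact sup_eq_left.1 this.symm
    · have := lvl_mul x y
      rw [h] at this
      exact sup_eq_left.1 this.symm
  · rintro ⟨h1, h2⟩
    apply inj
    · rw [fn_mul, sup_eq_left.2 h1]
    · rw [lvl_mul, sup_eq_left.2 h2]

theorem leq_fin_fin {F G : Finset W} {hF : F.Nonempty} {hG : G.Nonempty} :
    fin F hF * fin G hG = fin F hF ↔ G ⊆ F := by
  classical
  rw [mul_def]
  simp only [mul, fin.injEq]
  exact Finset.union_eq_left

theorem leq_e_fin {F : Finset W} {hF : F.Nonempty} {α : W} :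
    e α * fin F hF = e α ↔ F.max' hF ≤ α := by
  rw [mul_def]
  simp only [mul, e.injEq, max_eq_left_iff]

theorem leq_fin_e {F : Finset W} {hF : F.Nonempty} {α : W} :
    ¬ (fin F hF * e α = fin F hF) := by
  rw [mul_def]
  simp only [mul, reduceCtorEq, not_false_eq_true]

theorem leq_z_fin {F : Finset W} {hF : F.Nonempty} {α : W} :
    z α * fin F hF = z α ↔ F.max' hF ≤ α := by
  rw [mul_def]
  simp only [mul]
  split_ifs with h
  · simp [h]
  · simp [h]

theorem leq_fin_z {F : Finset W} {hF : F.Nonempty} {α : W} :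
    ¬ (fin F hF * z α = fin F hF) := by
  rw [mul_def]
  simp only [mul]
  split_ifs with h <;> simp

theorem leq_e_e {α β : W} : e α * e β = e α ↔ β ≤ α := by
  rw [mul_def]
  simp only [mul, e.injEq, max_eq_left_iff]

theorem leq_z_z {α β : W} : z α * z β = z α ↔ β ≤ α := by
  rw [mul_def]
  simp only [mul, z.injEq, max_eq_left_iff]

theorem leq_z_e {α β : W} : z α * e β = z α ↔ β ≤ α := by
  rw [mul_def]
  simp only [mul]
  split_ifs with h <;> simp [h]

theorem leq_e_z {α β : W} : e α * z β = e α ↔ β < α := by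
  rw [mul_def]
  simp only [mul]
  split_ifs with h
  · simp [h]
  · simp [not_le.1 h]

theorem leq_zero {x : X} : zero * x = zero := by
  rw [mul_def]
  cases x <;> simp [mul]

theorem zero_leq {x : X} : x * zero = x ↔ x = zero := by
  rw [mul_def]
  cases x <;> simp [mul]

/-! ### The topology -/

def A (H : Finset W) (α ξ : W) : Prop := ξ ≤ α ∧ ∀ h ∈ H, h < α → h < ξ

theorem A_self (H : Finset W) (α : W) : A H α α := ⟨le_refl _, fun _ _ h => h⟩

theorem A_mono {H K : Finset W} (h : H ⊆ K) {α ξ : W} (hA : A K α ξ) : A H α ξ :=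
  ⟨hA.1, fun x hx hxα => hA.2 x (h hx) hxα⟩

theorem A_trans {H : Finset W} {α ξ η : W} (h : A H α ξ) (h' : A H ξ η) : A H α η :=
  ⟨h'.1.trans h.1, fun x hx hxα => h'.2 x hx (h.2 x hx hxα)⟩

def Nb (H : Finset W) : X → Set X
  | fin F h => {fin F h}
  | z α => {z α}
  | zero => {x | x = zero ∨ ∃ α, x = z α ∧ ∀ h ∈ H, h ≤ α}
  | e α => {x | (∃ ξ, x = e ξ ∧ A H α ξ) ∨ ∃ F h, x = fin F h ∧ A H α (F.max' h) ∧ ¬ F ⊆ H}

theorem self_Nb (H : Finset W) (x : X) : x ∈ Nb H x := by
  cases x with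
  | fin F h => exact rfl
  | z α => exact rfl
  | zero => exact Or.inl rfl
  | e α => exact Or.inl ⟨α, rfl, A_self H α⟩

theorem Nb_mono {H K : Finset W} (h : H ⊆ K) (x : X) : Nb K x ⊆ Nb H x := by
  cases x with
  | fin F h => exact subset_rfl
  | z α => exact subset_rfl
  | zero =>
    rintro x (rfl | ⟨α, rfl, hα⟩)
    · exact Or.inl rfl
    · exact Or.inr ⟨α, rfl, fun y hy => hα y (h hy)⟩
  | e α =>
    rintro x (⟨ξ, rfl, hα⟩ | ⟨F, hF, rfl, hA, hFH⟩)
    · exact Or.inl ⟨ξ, rfl, A_mono h hα⟩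
    · exact Or.inr ⟨F, hF, rfl, A_mono h hA, fun h' => hFH (h'.trans h)⟩

theorem Nb_sub {H : Finset W} {x y : X} (h : y ∈ Nb H x) : Nb H y ⊆ Nb H x := by
  cases x with
  | fin F h' =>
    have : y = fin F h' := h
    subst this
    exact subset_rfl
  | z α =>
    have : y = z α := h
    subst this
    exact subset_rfl
  | zero =>
    rcases h with (rfl | ⟨α, rfl, hα⟩)
    · exact subset_rfl
    · rintro w rfl
      exact Or.inr ⟨α, rfl, hα⟩
  | e α =>
    rcases h with (⟨ξ, rfl, hα⟩ | ⟨F, hF, rfl, hA, hFH⟩)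
    · rintro w (⟨η, rfl, hη⟩ | ⟨F, hF, rfl, hA, hFH⟩)
      · exact Or.inl ⟨η, rfl, A_trans hα hη⟩
      · exact Or.inr ⟨F, hF, rfl, A_trans hα hA, hFH⟩
    · rintro w rfl
      exact Or.inr ⟨F, hF, rfl, hA, hFH⟩

instance : TopologicalSpace X where
  IsOpen O := ∀ x ∈ O, ∃ H : Finset W, Nb H x ⊆ O
  isOpen_univ := fun _ _ => ⟨∅, subset_univ _⟩
  isOpen_inter := by
    classical
    intro s t hs ht x hx
    obtain ⟨H, hH⟩ := hs x hx.1
    obtain ⟨K, hK⟩ := ht x hx.2
    exact ⟨H ∪ K, subset_inter ((Nb_mono Finset.subset_union_left x).trans hH)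
      ((Nb_mono Finset.subset_union_right x).trans hK)⟩
  isOpen_sUnion := by
    intro s hs x hx
    obtain ⟨t, ht, hxt⟩ := hx
    obtain ⟨H, hH⟩ := hs t ht x hxt
    exact ⟨H, hH.trans (subset_sUnion_of_mem ht)⟩

theorem isOpen_iff' {O : Set X} : IsOpen O ↔ ∀ x ∈ O, ∃ H : Finset W, Nb H x ⊆ O := Iff.rfl

theorem isOpen_Nb (H : Finset W) (x : X) : IsOpen (Nb H x) :=
  isOpen_iff'.2 fun _ hy => ⟨H, Nb_sub hy⟩

theorem Nb_mem (H : Finset W) (x : X) : Nb H x ∈ 𝓝 x :=
  (isOpen_Nb H x).mem_nhds (self_Nb H x)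

theorem mem_nhds_iff' {x : X} {s : Set X} : s ∈ 𝓝 x ↔ ∃ H : Finset W, Nb H x ⊆ s := by
  constructor
  · intro h
    obtain ⟨O, hO, hOo, hx⟩ := mem_nhds_iff.1 h
    obtain ⟨H, hH⟩ := isOpen_iff'.1 hOo x hx
    exact ⟨H, hH.trans hO⟩
  · rintro ⟨H, hH⟩
    exact Filter.mem_of_superset (Nb_mem H x) hH

theorem mem_closure_iff'' {x : X} {s : Set X} :
    x ∈ closure s ↔ ∀ H : Finset W, ∃ y ∈ s, y ∈ Nb H x := by
  rw [mem_closure_iff_nhds]
  constructor
  · intro h H
    obtain ⟨y, hy, hys⟩ := h _ (Nb_mem H x)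
    exact ⟨y, hys, hy⟩
  · intro h t ht
    obtain ⟨H, hH⟩ := mem_nhds_iff'.1 ht
    obtain ⟨y, hys, hy⟩ := h H
    exact ⟨y, hH hy, hys⟩

/-- separation, up to symmetry -/
theorem exists_gt_W (α : W) : ∃ β : W, α < β := by
  by_contra h
  push Not at h
  apply uncountable_W
  have : (univ : Set W) ⊆ insert α (Iio α) := by
    intro x _
    rcases (h x).lt_or_eq with h | h
    · exact Or.inr h
    · exact Or.inl h
  exact ((countable_Iio α).insert α).mono this

def Sep (x y : X) : Prop := ∃ H : Finset W, ∀ a, a ∈ Nb H x → a ∈ Nb H y → False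

theorem Sep.symm {x y : X} (h : Sep x y) : Sep y x := by
  obtain ⟨H, hH⟩ := h
  exact ⟨H, fun a h1 h2 => hH a h2 h1⟩

theorem sep_fin (F : Finset W) (hF : F.Nonempty) (y : X) (h : fin F hF ≠ y) : Sep (fin F hF) y := by
  refine ⟨F, ?_⟩
  rintro a (rfl : a = fin F hF) h2
  cases y with
  | fin G hG => exact h h2
  | e α =>
    rcases h2 with ⟨ξ, h3, -⟩ | ⟨G, hG, h3, -, h4⟩
    · cases h3
    · cases h3
      exact h4 subset_rfl
  | z α => cases h2
  | zero =>
    rcases h2 with h3 | ⟨ξ, h3, -⟩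
    · cases h3
    · cases h3

theorem sep_z_e (α β : W) : Sep (z α) (e β) := by
  refine ⟨∅, ?_⟩
  rintro a (rfl : a = z α) h2
  rcases h2 with ⟨ξ, h3, -⟩ | ⟨G, hG, h3, -, h4⟩
  · cases h3
  · cases h3

theorem sep_z_z (α β : W) (h : z α ≠ z β) : Sep (z α) (z β) := by
  refine ⟨∅, ?_⟩
  rintro a (rfl : a = z α) h2
  exact h h2

theorem sep_z_zero (α : W) : Sep (z α) zero := by
  obtain ⟨β, hβ⟩ := exists_gt_W α
  refine ⟨{β}, ?_⟩
  rintro a (rfl : a = z α) h2
  rcases h2 with h3 | ⟨ξ, h3, h4⟩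
  · cases h3
  · cases h3
    exact absurd (h4 β (by simp)) (not_le.2 hβ)

theorem sep_e_zero (α : W) : Sep (e α) zero := by
  refine ⟨∅, ?_⟩
  rintro a (⟨ξ, rfl, -⟩ | ⟨G, hG, rfl, -, h4⟩) h2
  · rcases h2 with h3 | ⟨ξ, h3, h4⟩
    · cases h3
    · cases h3
  · rcases h2 with h3 | ⟨ξ, h3, h4⟩
    · cases h3
    · cases h3

theorem sep_e_e_lt (α β : W) (h : α < β) : Sep (e α) (e β) := by
  refine ⟨{α}, ?_⟩
  rintro a (⟨ξ, rfl, h1⟩ | ⟨G, hG, rfl, h1, -⟩) h2
  · rcases h2 with ⟨ξ', h3, h4⟩ | ⟨G, hG, h3, h4, -⟩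
    · cases h3
      exact absurd (h4.2 α (by simp) h) (not_lt.2 h1.1)
    · cases h3
  · rcases h2 with ⟨ξ', h3, h4⟩ | ⟨G, hG, h3, h4, -⟩
    · cases h3
    · cases h3
      exact absurd (h4.2 α (by simp) h) (not_lt.2 h1.1)

theorem sep_e_e (α β : W) (h : e α ≠ e β) : Sep (e α) (e β) := by
  rcases lt_trichotomy α β with h' | h' | h'
  · exact sep_e_e_lt _ _ h'
  · exact absurd (congrArg e h') h
  · exact (sep_e_e_lt _ _ h').symm

theorem sep {x y : X} (h : x ≠ y) : Sep x y := by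
  cases x with
  | fin F hF => exact sep_fin F hF y h
  | e α =>
    cases y with
    | fin G hG => exact (sep_fin G hG _ h.symm).symm
    | e β => exact sep_e_e α β h
    | z β => exact (sep_z_e β α).symm
    | zero => exact sep_e_zero α
  | z α =>
    cases y with
    | fin G hG => exact (sep_fin G hG _ h.symm).symm
    | e β => exact sep_z_e α β
    | z β => exact sep_z_z α β h
    | zero => exact sep_z_zero α
  | zero =>
    cases y with
    | fin G hG => exact (sep_fin G hG _ h.symm).symm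
    | e β => exact (sep_e_zero β).symm
    | z β => exact (sep_z_zero β).symm
    | zero => exact absurd rfl h

instance : T2Space X := by
  constructor
  intro x y h
  obtain ⟨H, hH⟩ := sep h
  exact ⟨Nb H x, Nb H y, isOpen_Nb H x, isOpen_Nb H y, self_Nb H x, self_Nb H y,
    Set.disjoint_left.2 fun a h1 h2 => hH a h1 h2⟩

/-! ### Continuity -/

def supp : X → Finset W
  | fin F _ => F
  | e α => {α}
  | z α => {α}
  | zero => ∅

def Cnt (x y : X) : Prop := ∀ H : Finset W, ∃ K : Finset W, ∀ a ∈ Nb K x, ∀ b ∈ Nb K y,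
  a * b ∈ Nb H (x * y)

theorem Cnt.symm {x y : X} (h : Cnt x y) : Cnt y x := by
  intro H
  obtain ⟨K, hK⟩ := h H
  refine ⟨K, fun a ha b hb => ?_⟩
  rw [mul_comm a b, mul_comm y x]
  exact hK b hb a ha

open Classical in
theorem mff {F G : Finset W} {hF : F.Nonempty} {hG : G.Nonempty} :
    fin F hF * fin G hG = fin (F ∪ G) hF.inl := rfl

theorem mfe {F : Finset W} {hF : F.Nonempty} {α : W} :
    fin F hF * e α = e (max α (F.max' hF)) := rfl

theorem mef {F : Finset W} {hF : F.Nonempty} {α : W} :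
    e α * fin F hF = e (max α (F.max' hF)) := rfl

theorem mfz_le {F : Finset W} {hF : F.Nonempty} {α : W} (h : F.max' hF ≤ α) :
    fin F hF * z α = z α := by
  rw [mul_def]
  simp only [mul, if_pos h]

theorem mfz_gt {F : Finset W} {hF : F.Nonempty} {α : W} (h : α < F.max' hF) :
    fin F hF * z α = e (F.max' hF) := by
  rw [mul_def]
  simp only [mul, if_neg (not_le.2 h)]

theorem mee {α β : W} : e α * e β = e (max α β) := rfl

theorem mez_le {α β : W} (h : α ≤ β) : e α * z β = z β := by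
  rw [mul_def]
  simp only [mul, if_pos h]

theorem mez_gt {α β : W} (h : β < α) : e α * z β = e α := by
  rw [mul_def]
  simp only [mul, if_neg (not_le.2 h)]

theorem mzz {α β : W} : z α * z β = z (max α β) := rfl

theorem zero_mul' (x : X) : zero * x = zero := leq_zero

theorem mul_zero' (x : X) : x * zero = zero := by rw [mul_comm, leq_zero]

theorem A_max {H : Finset W} {α β ξ η : W} (h1 : A H α ξ) (h2 : A H β η) :
    A H (max α β) (max ξ η) := by
  refine ⟨max_le_max h1.1 h2.1, fun h hh hlt => ?_⟩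
  rcases lt_max_iff.1 hlt with h' | h'
  · exact lt_max_iff.2 (Or.inl (h1.2 h hh h'))
  · exact lt_max_iff.2 (Or.inr (h2.2 h hh h'))

theorem cnt_fin (F : Finset W) (hF : F.Nonempty) (y : X) : Cnt (fin F hF) y := by
  classical
  intro H
  cases y with
  | fin G hG =>
    refine ⟨∅, ?_⟩
    rintro a (rfl : a = _) b (rfl : b = _)
    exact self_Nb H _
  | e α =>
    refine ⟨H, ?_⟩
    rintro a (rfl : a = _) b (⟨ξ, rfl, h1⟩ | ⟨G, hG, rfl, h1, h2⟩)
    · rw [mfe, mfe]
      exact Or.inl ⟨_, rfl, A_max h1 (A_self _ _)⟩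
    · rw [mfe, mff]
      refine Or.inr ⟨_, _, rfl, ?_, ?_⟩
      · rw [max_union F G hF hG, max_comm (F.max' hF) (G.max' hG)]
        exact A_max h1 (A_self _ _)
      · intro h
        exact h2 (Finset.subset_union_right.trans h)
  | z α =>
    refine ⟨∅, ?_⟩
    rintro a (rfl : a = _) b (rfl : b = _)
    exact self_Nb H _
  | zero =>
    refine ⟨H ∪ F, ?_⟩
    rintro a (rfl : a = _) b (rfl | ⟨ξ, rfl, h1⟩)
    · exact self_Nb H _
    · rw [mul_zero', mfz_le (h1 _ (Finset.mem_union_right _ (Finset.max'_mem _ _)))]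
      exact Or.inr ⟨ξ, rfl, fun h hh => h1 h (Finset.mem_union_left _ hh)⟩

theorem cnt_ee (α β : W) : Cnt (e α) (e β) := by
  classical
  intro H
  refine ⟨H, ?_⟩
  rintro a (⟨ξ, rfl, h1⟩ | ⟨F, hF, rfl, h1, h2⟩) b (⟨η, rfl, h3⟩ | ⟨G, hG, rfl, h3, h4⟩)
  · rw [mee, mee]
    exact Or.inl ⟨_, rfl, A_max h1 h3⟩
  · rw [mef, mee]
    exact Or.inl ⟨_, rfl, A_max h1 h3⟩
  · rw [mfe, mee]
    refine Or.inl ⟨_, rfl, ?_⟩
    rw [max_comm η]
    exact A_max h1 h3
  · rw [mff, mee]
    refine Or.inr ⟨_, _, rfl, ?_, ?_⟩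
    · rw [max_union F G hF hG]
      exact A_max h1 h3
    · intro h
      exact h2 (Finset.subset_union_left.trans h)

theorem cnt_ez (α β : W) : Cnt (e α) (z β) := by
  classical
  intro H
  rcases le_or_gt α β with hαβ | hαβ
  · refine ⟨H, ?_⟩
    rintro a (⟨ξ, rfl, h1⟩ | ⟨F, hF, rfl, h1, h2⟩) b (rfl : b = _)
    · rw [mez_le hαβ, mez_le (h1.1.trans hαβ)]
      exact self_Nb H _
    · rw [mez_le hαβ, mfz_le (h1.1.trans hαβ)]
      exact self_Nb H _
  · refine ⟨insert β H, ?_⟩
    rintro a (⟨ξ, rfl, h1⟩ | ⟨F, hF, rfl, h1, h2⟩) b (rfl : b = _)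
    · rw [mez_gt hαβ, mez_gt (h1.2 β (Finset.mem_insert_self _ _) hαβ)]
      exact Or.inl ⟨_, rfl, A_mono (Finset.subset_insert _ _) h1⟩
    · rw [mez_gt hαβ, mfz_gt (h1.2 β (Finset.mem_insert_self _ _) hαβ)]
      exact Or.inl ⟨_, rfl, A_mono (Finset.subset_insert _ _) h1⟩

theorem cnt_e0 (α : W) : Cnt (e α) zero := by
  classical
  intro H
  refine ⟨insert α H, ?_⟩
  rintro a (⟨ξ, rfl, h1⟩ | ⟨F, hF, rfl, h1, h2⟩) b (rfl | ⟨η, rfl, h3⟩)
  · rw [mul_zero', mul_zero']
    exact self_Nb H _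
  · rw [mul_zero', mez_le (h1.1.trans (h3 α (Finset.mem_insert_self _ _)))]
    exact Or.inr ⟨_, rfl, fun h hh => h3 h (Finset.mem_insert_of_mem hh)⟩
  · rw [mul_zero', mul_zero']
    exact self_Nb H _
  · rw [mul_zero', mfz_le (h1.1.trans (h3 α (Finset.mem_insert_self _ _)))]
    exact Or.inr ⟨_, rfl, fun h hh => h3 h (Finset.mem_insert_of_mem hh)⟩

theorem cnt_z0 (α : W) : Cnt (z α) zero := by
  classical
  intro H
  refine ⟨insert α H, ?_⟩
  rintro a (rfl : a = _) b (rfl | ⟨η, rfl, h3⟩)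
  · exact self_Nb H _
  · rw [mul_zero', mzz, max_eq_right (h3 α (Finset.mem_insert_self _ _))]
    exact Or.inr ⟨_, rfl, fun h hh => h3 h (Finset.mem_insert_of_mem hh)⟩

theorem cnt_00 : Cnt zero zero := by
  intro H
  refine ⟨H, ?_⟩
  rintro a (rfl | ⟨ξ, rfl, h1⟩) b (rfl | ⟨η, rfl, h3⟩)
  · exact self_Nb H _
  · rw [mul_zero', zero_mul']
    exact self_Nb H _
  · rw [mul_zero', mul_zero']
    exact self_Nb H _
  · rw [mul_zero', mzz]
    exact Or.inr ⟨_, rfl, fun h hh => (h1 h hh).trans (le_max_left _ _)⟩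

theorem cnt_zz (α β : W) : Cnt (z α) (z β) := by
  intro H
  refine ⟨∅, ?_⟩
  rintro a (rfl : a = _) b (rfl : b = _)
  exact self_Nb H _

theorem cnt (x y : X) : Cnt x y := by
  cases x with
  | fin F hF => exact cnt_fin F hF y
  | e α =>
    cases y with
    | fin G hG => exact (cnt_fin G hG _).symm
    | e β => exact cnt_ee α β
    | z β => exact cnt_ez α β
    | zero => exact cnt_e0 α
  | z α =>
    cases y with
    | fin G hG => exact (cnt_fin G hG _).symm
    | e β => exact (cnt_ez β α).symm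
    | z β => exact cnt_zz α β
    | zero => exact cnt_z0 α
  | zero =>
    cases y with
    | fin G hG => exact (cnt_fin G hG _).symm
    | e β => exact (cnt_e0 β).symm
    | z β => exact (cnt_z0 β).symm
    | zero => exact cnt_00

instance : ContinuousMul X := by
  constructor
  rw [continuous_iff_continuousAt]
  rintro ⟨x, y⟩
  intro s hs
  obtain ⟨H, hH⟩ := mem_nhds_iff'.1 hs
  obtain ⟨K, hK⟩ := cnt x y H
  refine Filter.mem_map.2 (Filter.mem_of_superset (prod_mem_nhds (Nb_mem K x) (Nb_mem K y)) ?_)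
  rintro ⟨a, b⟩ ⟨ha, hb⟩
  exact hH (hK a ha b hb)

/-! ### The order -/

theorem leq_trans {x y w : X} (h1 : Leq x y) (h2 : Leq y w) : Leq x w := by
  unfold Leq at *
  rw [leq_iff] at *
  exact ⟨h2.1.trans h1.1, h2.2.trans h1.2⟩

theorem leq_refl (x : X) : Leq x x := idem x

theorem leq_antisymm {x y : X} (h1 : Leq x y) (h2 : Leq y x) : x = y := by
  unfold Leq at *
  rw [leq_iff] at *
  exact inj (le_antisymm h2.1 h1.1) (le_antisymm h2.2 h1.2)

/-- every nonempty chain has a greatest element -/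
theorem exists_max {C : Set X} (hC : C.Nonempty) (hch : IsChn C) : ∃ m ∈ C, ∀ c ∈ C, Leq c m := by
  let φ : X → WithTop (Finset W) × WithTop (W ×ₗ Bool) := fun x => (fn x, lvl x)
  have hwf : WellFounded fun x y : X => φ x < φ y := InvImage.wf φ wellFounded_lt
  obtain ⟨m, hm, hmin⟩ := hwf.has_min C hC
  refine ⟨m, hm, fun c hc => ?_⟩
  rcases hch c hc m hm with h | h
  · exact h
  · have h1 : φ c ≤ φ m := by
      unfold Leq at h
      rw [leq_iff] at h
      exact h
    rcases h1.lt_or_eq with h2 | h2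
    · exact absurd h2 (hmin c hc)
    · have : c = m := inj (congrArg Prod.fst h2) (congrArg Prod.snd h2)
      rw [this]
      exact leq_refl m

/-- the level -/
noncomputable def lv : X → Option W
  | fin F h => some (F.max' h)
  | e α => some α
  | z α => some α
  | zero => none

theorem lv_anti {x y : X} (h : Leq x y) (hx : x ≠ zero) :
    ∃ a b, lv x = some a ∧ lv y = some b ∧ b ≤ a := by
  unfold Leq at h
  cases x with
  | fin F hF =>
    cases y with
    | fin G hG =>
      refine ⟨_, _, rfl, rfl, ?_⟩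
      rw [leq_fin_fin] at h
      exact Finset.max'_subset _ h
    | e β => exact absurd h leq_fin_e
    | z β => exact absurd h leq_fin_z
    | zero => exact absurd (zero_leq.1 h) (by simp)
  | e α =>
    cases y with
    | fin G hG => exact ⟨_, _, rfl, rfl, leq_e_fin.1 h⟩
    | e β => exact ⟨_, _, rfl, rfl, leq_e_e.1 h⟩
    | z β => exact ⟨_, _, rfl, rfl, (leq_e_z.1 h).le⟩
    | zero => exact absurd (zero_leq.1 h) (by simp)
  | z α =>
    cases y with
    | fin G hG => exact ⟨_, _, rfl, rfl, leq_z_fin.1 h⟩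
    | e β => exact ⟨_, _, rfl, rfl, leq_z_e.1 h⟩
    | z β => exact ⟨_, _, rfl, rfl, leq_z_z.1 h⟩
    | zero => exact absurd (zero_leq.1 h) (by simp)
  | zero => exact absurd rfl hx

/-- fin-only chains without minimum have large members -/
theorem unb {C : Set X} (hC : C.Nonempty) (hch : IsChn C) (hf : ∀ c ∈ C, ∃ F h, c = fin F h)
    (hmin : ∀ m ∈ C, ∃ c ∈ C, ¬ Leq m c) (n : ℕ) : ∃ F h, fin F h ∈ C ∧ n ≤ F.card := by
  induction n with
  | zero =>
    obtain ⟨c, hc⟩ := hC
    obtain ⟨F, h, rfl⟩ := hf c hc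
    exact ⟨F, h, hc, Nat.zero_le _⟩
  | succ n ih =>
    obtain ⟨F, h, hF, hn⟩ := ih
    obtain ⟨c, hc, hlt⟩ := hmin _ hF
    obtain ⟨G, hG, rfl⟩ := hf c hc
    refine ⟨G, hG, hc, ?_⟩
    have h1 : Leq (fin G hG) (fin F h) := by
      rcases hch _ hF _ hc with h2 | h2
      · exact absurd h2 hlt
      · exact h2
    have h2 : F ⊆ G := leq_fin_fin.1 h1
    have h3 : ¬ G ⊆ F := fun h3 => hlt (leq_fin_fin.2 h3)
    have h4 : F.card < G.card := Finset.card_lt_card ⟨h2, h3⟩
    omega

/-- the levels of a fin-only chain are bounded -/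
theorem bdd {C : Set X} (hch : IsChn C) :
    ∃ β, ∀ F h, fin F h ∈ C → F.max' h ≤ β := by
  by_contra hcon
  push Not at hcon
  have h1 : (univ : Set W) ⊆ ⋃ n : ℕ, {a | ∃ F h, fin F h ∈ C ∧ F.card = n ∧ a < F.max' h} := by
    intro a _
    obtain ⟨F, h, hF, hlt⟩ := hcon a
    exact mem_iUnion.2 ⟨F.card, F, h, hF, rfl, hlt⟩
  refine uncountable_W ((countable_iUnion fun n => ?_).mono h1)
  by_cases hn : ∃ F h, fin F h ∈ C ∧ F.card = n
  · obtain ⟨F, h, hF, hc⟩ := hn
    refine (countable_Iio (F.max' h)).mono ?_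
    rintro a ⟨G, hG, hGC, hGc, hlt⟩
    have : G = F := by
      rcases hch _ hF _ hGC with h2 | h2
      · exact Finset.eq_of_subset_of_card_le (leq_fin_fin.1 h2) (by omega)
      · exact (Finset.eq_of_subset_of_card_le (leq_fin_fin.1 h2) (by omega)).symm
    subst this
    exact hlt
  · have : {a | ∃ F h, fin F h ∈ C ∧ F.card = n ∧ a < F.max' h} = (∅ : Set W) := by
      apply eq_empty_of_forall_notMem
      rintro a ⟨F, h, hF, hc, -⟩
      exact hn ⟨F, h, hF, hc⟩
    rw [this]
    exact countable_empty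

theorem exists_lub {C : Set X} (h : ∃ β, ∀ c ∈ C, ∀ a, lv c = some a → a ≤ β) :
    ∃ l : W, (∀ c ∈ C, ∀ a, lv c = some a → a ≤ l) ∧
      ∀ ν < l, ∃ c ∈ C, ∃ a, lv c = some a ∧ ν < a := by
  have hwf : WellFounded fun x y : W => x < y := wellFounded_lt
  obtain ⟨m, hm, hmin⟩ := hwf.has_min {β | ∀ c ∈ C, ∀ a, lv c = some a → a ≤ β} h
  refine ⟨m, hm, fun ν hν => ?_⟩
  have h1 : ¬ ∀ c ∈ C, ∀ a, lv c = some a → a ≤ ν := fun h2 => hmin ν h2 hν
  push Not at h1
  exact h1

theorem big {C : Set X} (hC : C.Nonempty) (hz : zero ∉ C) {l : W}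
    (hl : ∀ ν < l, ∃ c ∈ C, ∃ a, lv c = some a ∧ ν < a) (H : Finset W) :
    ∃ c ∈ C, ∃ a, lv c = some a ∧ ∀ h ∈ H, h < l → h < a := by
  classical
  induction H using Finset.induction_on with
  | empty =>
    obtain ⟨c, hc⟩ := hC
    cases c with
    | fin F h => exact ⟨_, hc, _, rfl, by simp⟩
    | e α => exact ⟨_, hc, _, rfl, by simp⟩
    | z α => exact ⟨_, hc, _, rfl, by simp⟩
    | zero => exact absurd hc hz
  | insert x H _ ih =>
    obtain ⟨c, hc, a, ha, hH⟩ := ih
    by_cases hx : x < l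
    · obtain ⟨d, hd, b, hb, hxb⟩ := hl x hx
      rcases le_total a b with hab | hab
      · refine ⟨d, hd, b, hb, fun h hh hhl => ?_⟩
        rcases Finset.mem_insert.1 hh with rfl | hh
        · exact hxb
        · exact (hH h hh hhl).trans_le hab
      · refine ⟨c, hc, a, ha, fun h hh hhl => ?_⟩
        rcases Finset.mem_insert.1 hh with rfl | hh
        · exact hxb.trans_le hab
        · exact hH h hh hhl
    · refine ⟨c, hc, a, ha, fun h hh hhl => ?_⟩
      rcases Finset.mem_insert.1 hh with rfl | hh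
      · exact absurd hhl hx
      · exact hH h hh hhl

/-- elements `e σ`, `z σ` -/
def Low (x : X) (σ : W) : Prop := x = e σ ∨ x = z σ

theorem low_lv {x : X} {σ : W} (h : Low x σ) : lv x = some σ := by
  rcases h with rfl | rfl <;> rfl

theorem not_fin_leq_low {x : X} {σ : W} (h : Low x σ) {F : Finset W} {hF : F.Nonempty} :
    ¬ Leq (fin F hF) x := by
  rcases h with rfl | rfl
  · exact leq_fin_e
  · exact leq_fin_z

theorem low_leq_fin {x : X} {σ : W} (h : Low x σ) {F : Finset W} {hF : F.Nonempty} :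
    Leq x (fin F hF) ↔ F.max' hF ≤ σ := by
  rcases h with rfl | rfl
  · exact leq_e_fin
  · exact leq_z_fin

theorem low_comp {x y : X} {σ τ : W} (h : Low x σ) (h' : Low y τ) : Leq x y ∨ Leq y x := by
  rcases h with rfl | rfl <;> rcases h' with rfl | rfl
  · rcases le_total σ τ with h | h
    · exact Or.inr (leq_e_e.2 h)
    · exact Or.inl (leq_e_e.2 h)
  · rcases le_or_gt σ τ with h | h
    · exact Or.inr (leq_z_e.2 h)
    · exact Or.inl (leq_e_z.2 h)
  · rcases le_or_gt τ σ with h | h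
    · exact Or.inl (leq_z_e.2 h)
    · exact Or.inr (leq_e_z.2 h)
  · rcases le_total σ τ with h | h
    · exact Or.inr (leq_z_z.2 h)
    · exact Or.inl (leq_z_z.2 h)

/-- low elements below a low element of a maximal chain belong to the chain -/
theorem low_mem {L : Set X} (hL : IsChn L)
    (hmax : ∀ x, (∀ y ∈ L, Leq x y ∨ Leq y x) → x ∈ L) {s x : X} {σ τ : W} (hs : Low s σ)
    (hsL : s ∈ L) (hx : Low x τ) (hστ : σ ≤ τ) : x ∈ L := by
  apply hmax
  intro y hy
  cases y with
  | fin F hF =>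
    left
    rw [low_leq_fin hx]
    rcases hL _ hsL _ hy with h | h
    · exact ((low_leq_fin hs).1 h).trans hστ
    · exact absurd h (not_fin_leq_low hs)
  | e α => exact low_comp hx (Or.inl rfl)
  | z α => exact low_comp hx (Or.inr rfl)
  | zero => exact Or.inr leq_zero

/-- every member of level above a low element is low -/
theorem low_of_lv {L : Set X} (hL : IsChn L) {s c : X} {σ τ : W} (hs : Low s σ) (hsL : s ∈ L)
    (hc : c ∈ L) (hcτ : lv c = some τ) (hστ : σ < τ) : Low c τ := by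
  cases c with
  | fin F hF =>
    exfalso
    have h1 : F.max' hF = τ := by simpa [lv] using hcτ
    rcases hL _ hsL _ hc with h | h
    · have := (low_leq_fin hs).1 h
      rw [h1] at this
      exact absurd hστ (not_lt.2 this)
    · exact absurd h (not_fin_leq_low hs)
  | e α =>
    have h1 : α = τ := by simpa [lv] using hcτ
    rw [h1]
    exact Or.inl rfl
  | z α =>
    have h1 : α = τ := by simpa [lv] using hcτ
    rw [h1]
    exact Or.inr rfl
  | zero => simp [lv] at hcτ

theorem lub_le {C : Set X} {l : W} (hl : ∀ ν < l, ∃ c ∈ C, ∃ a, lv c = some a ∧ ν < a) {b : X}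
    (hb : ∀ c ∈ C, Leq b c) {ν : W} (hν : lv b = some ν) : l ≤ ν := by
  by_contra hcon
  obtain ⟨c, hc, a, ha, hlt⟩ := hl ν (not_le.1 hcon)
  have hb0 : b ≠ zero := by
    rintro rfl
    simp [lv] at hν
  obtain ⟨a', b', h1, h2, h3⟩ := lv_anti (hb c hc) hb0
  rw [hν] at h1
  rw [ha] at h2
  simp only [Option.some.injEq] at h1 h2
  subst h1 h2
  exact absurd hlt (not_lt.2 h3)

theorem leq_e_lub {C : Set X} {l : W} (hl : ∀ ν < l, ∃ c ∈ C, ∃ a, lv c = some a ∧ ν < a) {b : X}
    (hb : ∀ c ∈ C, Leq b c) (hf : ∀ F h, b ≠ fin F h) : Leq b (e l) := by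
  cases b with
  | fin F h => exact absurd rfl (hf F h)
  | e ν => exact leq_e_e.2 (lub_le hl hb rfl)
  | z ν => exact leq_z_e.2 (lub_le hl hb rfl)
  | zero => exact leq_zero

theorem key {L C : Set X} (hL : IsChn L) (hmax : ∀ x, (∀ y ∈ L, Leq x y ∨ Leq y x) → x ∈ L)
    (hCL : C ⊆ L) (hC : C.Nonempty) :
    ∃ m, (∀ c ∈ C, Leq m c) ∧ (∀ b, (∀ c ∈ C, Leq b c) → Leq b m) ∧
      ∀ H : Finset W, ∃ x ∈ L, x ∈ Nb H m ∧ ∃ c ∈ C, Leq c x := by
  classical
  by_cases hmin : ∃ m ∈ C, ∀ c ∈ C, Leq m c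
  · obtain ⟨m, hm, h⟩ := hmin
    exact ⟨m, h, fun b hb => hb m hm, fun H => ⟨m, hCL hm, self_Nb H m, m, hm, leq_refl m⟩⟩
  push Not at hmin
  have hch : IsChn C := fun x hx y hy => hL x (hCL hx) y (hCL hy)
  have hz : zero ∉ C := by
    intro h
    obtain ⟨c, hc, hn⟩ := hmin zero h
    exact hn leq_zero
  by_cases hlow : ∃ s ∈ C, ∃ σ, Low s σ
  · obtain ⟨s, hs, σ, hsσ⟩ := hlow
    by_cases hbd : ∃ β, ∀ c ∈ C, ∀ a, lv c = some a → a ≤ β
    · obtain ⟨l, hl1, hl2⟩ := exists_lub hbd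
      have hσl : σ ≤ l := hl1 s hs σ (low_lv hsσ)
      refine ⟨e l, ?_, ?_, ?_⟩
      · intro c hc
        cases c with
        | fin F h => exact leq_e_fin.2 (hl1 _ hc _ rfl)
        | e α => exact leq_e_e.2 (hl1 _ hc _ rfl)
        | z α =>
          apply leq_e_z.2
          rcases (hl1 _ hc α rfl).lt_or_eq with h | h
          · exact h
          · exfalso
            obtain ⟨d, hd, hnd⟩ := hmin _ hc
            apply hnd
            subst h
            cases d with
            | fin F h => exact leq_z_fin.2 (hl1 _ hd _ rfl)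
            | e β => exact leq_z_e.2 (hl1 _ hd _ rfl)
            | z β => exact leq_z_z.2 (hl1 _ hd _ rfl)
            | zero => exact absurd hd hz
        | zero => exact absurd hc hz
      · intro b hb
        refine leq_e_lub hl2 hb fun F h => ?_
        rintro rfl
        exact not_fin_leq_low hsσ (hb s hs)
      · intro H
        obtain ⟨c, hc, a, ha, hH⟩ := big hC hz hl2 H
        rcases lt_or_ge σ a with h | h
        · have hcl := low_of_lv hL hsσ (hCL hs) (hCL hc) ha h
          refine ⟨e a, low_mem hL hmax hsσ (hCL hs) (Or.inl rfl) h.le,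
            Or.inl ⟨a, rfl, hl1 c hc a ha, hH⟩, c, hc, ?_⟩
          rcases hcl with rfl | rfl
          · exact leq_refl _
          · exact leq_z_e.2 le_rfl
        · refine ⟨e σ, low_mem hL hmax hsσ (hCL hs) (Or.inl rfl) le_rfl,
            Or.inl ⟨σ, rfl, hσl, fun x hx hxl => (hH x hx hxl).trans_le h⟩, s, hs, ?_⟩
          rcases hsσ with rfl | rfl
          · exact leq_refl _
          · exact leq_z_e.2 le_rfl
    · push Not at hbd
      refine ⟨zero, fun c _ => leq_zero, ?_, ?_⟩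
      · intro b hb
        by_cases hb0 : b = zero
        · rw [hb0]
          exact leq_refl _
        · exfalso
          obtain ⟨p, q, hp, hq, -⟩ := lv_anti (hb s hs) hb0
          obtain ⟨c, hc, a, ha, hlt⟩ := hbd p
          obtain ⟨a', b', h1, h2, h3⟩ := lv_anti (hb c hc) hb0
          rw [hp] at h1
          rw [ha] at h2
          simp only [Option.some.injEq] at h1 h2
          subst h1 h2
          exact absurd hlt (not_lt.2 h3)
      · intro H
        have hne : (insert σ H).Nonempty := Finset.insert_nonempty _ _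
        have hmx : ∀ x ∈ insert σ H, x ≤ (insert σ H).max' hne := fun x hx => Finset.le_max' _ _ hx
        generalize (insert σ H).max' hne = α at hmx
        have hσα : σ ≤ α := hmx _ (Finset.mem_insert_self _ _)
        refine ⟨z α, low_mem hL hmax hsσ (hCL hs) (Or.inr rfl) hσα,
          Or.inr ⟨α, rfl, fun h hh => hmx h (Finset.mem_insert_of_mem hh)⟩, ?_⟩
        obtain ⟨c, hc, a, ha, hlt⟩ := hbd α
        refine ⟨c, hc, ?_⟩
        rcases low_of_lv hL hsσ (hCL hs) (hCL hc) ha (hσα.trans_lt hlt) with rfl | rfl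
        · exact leq_e_z.2 hlt
        · exact leq_z_z.2 hlt.le
  · have hf : ∀ c ∈ C, ∃ F h, c = fin F h := by
      intro c hc
      cases c with
      | fin F h => exact ⟨F, h, rfl⟩
      | e α => exact absurd ⟨_, hc, α, Or.inl rfl⟩ hlow
      | z α => exact absurd ⟨_, hc, α, Or.inr rfl⟩ hlow
      | zero => exact absurd hc hz
    obtain ⟨β, hβ⟩ := bdd hch
    have hbd : ∃ β, ∀ c ∈ C, ∀ a, lv c = some a → a ≤ β := by
      refine ⟨β, fun c hc a ha => ?_⟩
      obtain ⟨F, h, rfl⟩ := hf c hc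
      have h1 : F.max' h = a := by simpa [lv] using ha
      rw [← h1]
      exact hβ F h hc
    obtain ⟨l, hl1, hl2⟩ := exists_lub hbd
    refine ⟨e l, ?_, ?_, ?_⟩
    · intro c hc
      obtain ⟨F, h, rfl⟩ := hf c hc
      exact leq_e_fin.2 (hl1 _ hc _ rfl)
    · intro b hb
      refine leq_e_lub hl2 hb fun G hG => ?_
      rintro rfl
      obtain ⟨F, h, hF, hcard⟩ := unb hC hch hf hmin (G.card + 1)
      have h1 : F ⊆ G := leq_fin_fin.1 (hb _ hF)
      have := Finset.card_le_card h1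
      omega
    · intro H
      obtain ⟨c, hc, a, ha, hH⟩ := big hC hz hl2 H
      obtain ⟨F, h, rfl⟩ := hf c hc
      have h1 : F.max' h = a := by simpa [lv] using ha
      subst h1
      obtain ⟨G, hG, hGC, hcard⟩ := unb hC hch hf hmin (H.card + 1)
      rcases hch _ hc _ hGC with h2 | h2
      · have h3 : G ⊆ F := leq_fin_fin.1 h2
        refine ⟨fin F h, hCL hc, Or.inr ⟨F, h, rfl, ⟨hl1 _ hc _ rfl, hH⟩, ?_⟩, _, hc, leq_refl _⟩
        intro h4
        have := Finset.card_le_card (h3.trans h4)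
        omega
      · have h3 : F ⊆ G := leq_fin_fin.1 h2
        refine ⟨fin G hG, hCL hGC, Or.inr ⟨G, hG, rfl, ⟨hl1 _ hGC _ rfl, ?_⟩, ?_⟩, _, hGC,
          leq_refl _⟩
        · intro x hx hxl
          exact (hH x hx hxl).trans_le (Finset.max'_subset _ h3)
        · intro h4
          have := Finset.card_le_card h4
          omega

theorem mem_of_comp {L : Set X} (hL : IsMaxChn L) (x : X) (h : ∀ y ∈ L, Leq x y ∨ Leq y x) :
    x ∈ L := by
  refine hL.2 (insert x L) ?_ (subset_insert _ _) (mem_insert _ _)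
  rintro a (rfl | ha) b (rfl | hb)
  · exact Or.inl (leq_refl _)
  · exact h b hb
  · exact (h a ha).symm
  · exact hL.1 a ha b hb

theorem exists_maxChn {C : Set X} (hC : IsChn C) : ∃ L, IsMaxChn L ∧ C ⊆ L := by
  obtain ⟨M, hCM, hM⟩ := zorn_subset_nonempty {L : Set X | IsChn L} (by
    intro c hc hch _
    refine ⟨⋃₀ c, ?_, fun s hs => subset_sUnion_of_mem hs⟩
    rintro x ⟨s, hs, hxs⟩ y ⟨t, ht, hyt⟩
    rcases hch.total hs ht with h | h
    · exact hc ht x (h hxs) y hyt
    · exact hc hs x hxs y (h hyt)) C hC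
  exact ⟨M, ⟨hM.prop, fun D hD hMD => hM.le_of_ge hD hMD⟩, hCM⟩

theorem ccomplete : CComplete X := by
  intro F hF hup C hCF hC hch
  constructor
  · obtain ⟨L, hL, hCL⟩ := exists_maxChn hch
    obtain ⟨m, hm1, hm2, hm3⟩ := key hL.1 (mem_of_comp hL) hCL hC
    refine ⟨m, ⟨hm1, hm2⟩, ?_⟩
    have h1 : m ∈ closure F := by
      rw [mem_closure_iff'']
      intro H
      obtain ⟨x, -, hx, c, hc, hcx⟩ := hm3 H
      refine ⟨x, ?_, hx⟩
      rw [hup]
      exact ⟨c, hCF hc, hcx⟩
    rwa [hF.closure_eq] at h1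
  · obtain ⟨m, hm, hmax⟩ := exists_max hC hch
    exact ⟨m, ⟨hmax, fun b hb => hb m hm⟩, subset_closure ⟨m, hm, leq_refl m⟩⟩

theorem not_scomplete : ¬ SComplete X := by
  classical
  rintro ⟨h, -⟩
  obtain ⟨β⟩ : Nonempty W := by
    by_contra hne
    apply uncountable_W
    rw [not_nonempty_iff] at hne
    rw [univ_eq_empty_iff.2 hne]
    exact countable_empty
  obtain ⟨m, ⟨hm1, -⟩, hm3⟩ := h {x | ∃ F h, x = fin F h}
    ⟨_, {β}, Finset.singleton_nonempty β, rfl⟩ (by
      rintro _ ⟨F, hF, rfl⟩ _ ⟨G, hG, rfl⟩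
      exact ⟨_, _, mff⟩)
  have h0 : m = zero := by
    by_contra hne
    obtain ⟨a, b, ha, -, -⟩ := lv_anti (hm1 _ ⟨{β}, Finset.singleton_nonempty β, rfl⟩) hne
    obtain ⟨γ, hγ⟩ := exists_gt_W a
    obtain ⟨a', b', ha', hb', hle⟩ :=
      lv_anti (hm1 _ ⟨{γ}, Finset.singleton_nonempty γ, rfl⟩) hne
    rw [ha] at ha'
    simp only [lv, Finset.max'_singleton, Option.some.injEq] at hb' ha'
    subst ha' hb'
    exact absurd hγ (not_lt.2 hle)
  subst h0
  rw [mem_closure_iff''] at hm3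
  obtain ⟨y, ⟨a, ⟨F, hF, rfl⟩, hle⟩, hy⟩ := hm3 ∅
  rcases hy with rfl | ⟨α, rfl, -⟩
  · exact absurd (zero_leq.1 hle) (by simp)
  · exact leq_fin_z hle

theorem maxchain_scomplete (L : Subsemigroup X) (hL : IsMaxChn (L : Set X)) : SComplete L := by
  have hcoe : ∀ a b : L, Leq a b ↔ Leq (a : X) (b : X) := by
    intro a b
    exact Subtype.ext_iff
  constructor
  · intro S hS _
    have hCL : (Subtype.val '' S : Set X) ⊆ L := by
      rintro _ ⟨x, -, rfl⟩
      exact x.2
    obtain ⟨m, hm1, hm2, hm3⟩ := key hL.1 (mem_of_comp hL) hCL (hS.image _)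
    have hmL : m ∈ L := by
      refine mem_of_comp hL m fun y hy => ?_
      by_cases h : ∀ c ∈ (Subtype.val '' S : Set X), Leq y c
      · exact Or.inr (hm2 y h)
      · push Not at h
        obtain ⟨c, hc, hn⟩ := h
        rcases hL.1 y hy c (hCL hc) with h' | h'
        · exact absurd h' hn
        · exact Or.inl (leq_trans (hm1 c hc) h')
    refine ⟨⟨m, hmL⟩, ⟨?_, ?_⟩, ?_⟩
    · intro a ha
      rw [hcoe]
      exact hm1 _ ⟨a, ha, rfl⟩
    · intro b hb
      rw [hcoe]
      apply hm2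
      rintro _ ⟨a, ha, rfl⟩
      exact (hcoe _ _).1 (hb a ha)
    · rw [closure_subtype, mem_closure_iff'']
      intro H
      obtain ⟨x, hxL, hx, c, ⟨c', hc', rfl⟩, hcx⟩ := hm3 H
      exact ⟨x, ⟨⟨x, hxL⟩, ⟨c', hc', (hcoe _ _).2 hcx⟩, rfl⟩, hx⟩
  · intro C hC hch
    have hch' : IsChn (Subtype.val '' C : Set X) := by
      rintro _ ⟨x, hx, rfl⟩ _ ⟨y, hy, rfl⟩
      rw [← hcoe, ← hcoe]
      exact hch x hx y hy
    obtain ⟨_, ⟨m, hm, rfl⟩, hmax⟩ := exists_max (hC.image _) hch'
    refine ⟨m, ⟨fun a ha => (hcoe _ _).2 (hmax _ ⟨a, ha, rfl⟩), fun b hb => hb m hm⟩,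
      subset_closure ⟨m, hm, (hcoe _ _).2 (leq_refl _)⟩⟩

end Pool.Agent.R812.SemiLat
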