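import Mathlib

/-!
# A strong d-space no power of which is a strong d-space
-/

set_option autoImplicit false

open Set

namespace Pool.Agent.R812.StrongD

universe u v

section Defs

variable {X : Type u} [TopologicalSpace X]

/-- the specialization order: `x ≤ y` if and only if `x` is in the closure of `{y}` -/
def Le (x y : X) : Prop := x ∈ closure {y}

/-- the upper set `↑ x` for the specialization order -/
def up (x : X) : Set X := {y | Le x y}

/-- directed sets for the specialization order: nonempty, and any two elements have an upper bound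
in the set -/
def IsDirected (D : Set X) : Prop :=
  D.Nonempty ∧ ∀ a ∈ D, ∀ b ∈ D, ∃ c ∈ D, Le a c ∧ Le b c

end Defs

/-- strong d-spaces -/
def StrongDSpace (X : Type u) [TopologicalSpace X] : Prop :=
  T0Space X ∧ ∀ D : Set X, IsDirected D → ∀ (x : X) (U : Set X), IsOpen U →
    (⋂ d ∈ D, up d) ∩ up x ⊆ U → ∃ d ∈ D, up d ∩ up x ⊆ U

theorem le_iff_specializes {X : Type u} [TopologicalSpace X] {x y : X} : Le x y ↔ y ⤳ x :=
  specializes_iff_mem_closure.symm

theorem le_iff_open {X : Type u} [TopologicalSpace X] {x y : X} :
    Le x y ↔ ∀ O : Set X, IsOpen O → x ∈ O → y ∈ O := by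
  rw [le_iff_specializes, specializes_iff_forall_open]

theorem le_map {X : Type u} {Y : Type v} [TopologicalSpace X] [TopologicalSpace Y] {f : X → Y}
    (hf : Continuous f) {x y : X} (h : Le x y) : Le (f x) (f y) := by
  rw [le_iff_specializes] at h ⊢
  exact h.map hf

/-- being a strong d-space is a topological property -/
theorem StrongDSpace.of_homeomorph {X : Type u} {Y : Type v} [TopologicalSpace X]
    [TopologicalSpace Y] (e : X ≃ₜ Y) (h : StrongDSpace X) : StrongDSpace Y := by
  obtain ⟨h0, h⟩ := h
  refine ⟨e.symm.isEmbedding.t0Space, ?_⟩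
  intro D hD x U hU hDU
  have hle : ∀ a b : Y, Le (e.symm a) (e.symm b) ↔ Le a b := by
    intro a b
    constructor
    · intro h1
      have := le_map e.continuous h1
      rwa [e.apply_symm_apply, e.apply_symm_apply] at this
    · intro h1
      exact le_map e.symm.continuous h1
  have hle' : ∀ a b : X, Le (e a) (e b) ↔ Le a b := by
    intro a b
    rw [← hle, e.symm_apply_apply, e.symm_apply_apply]
  obtain ⟨d, hd, hdU⟩ := h (e ⁻¹' D) (by
    refine ⟨?_, ?_⟩
    · obtain ⟨d, hd⟩ := hD.1
      exact ⟨e.symm d, by rw [mem_preimage, e.apply_symm_apply]; exact hd⟩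
    · intro a ha b hb
      obtain ⟨c, hc, h1, h2⟩ := hD.2 (e a) ha (e b) hb
      refine ⟨e.symm c, by rw [mem_preimage, e.apply_symm_apply]; exact hc, ?_, ?_⟩
      · rw [← hle', e.apply_symm_apply]
        exact h1
      · rw [← hle', e.apply_symm_apply]
        exact h2) (e.symm x) (e ⁻¹' U) (hU.preimage e.continuous) (by
    rintro y ⟨hy1, hy2⟩
    apply hDU
    refine ⟨?_, ?_⟩
    · apply mem_iInter₂.2
      intro d hd
      have := mem_iInter₂.1 hy1 (e.symm d) (by rw [mem_preimage, e.apply_symm_apply]; exact hd)
      have h3 : Le (e.symm d) y := this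
      rw [← hle', e.apply_symm_apply] at h3
      exact h3
    · have h3 : Le (e.symm x) y := hy2
      rw [← hle', e.apply_symm_apply] at h3
      exact h3)
  refine ⟨e d, hd, ?_⟩
  rintro y ⟨hy1, hy2⟩
  have h3 : Le (e d) y := hy1
  have h4 : Le x y := hy2
  rw [← hle, e.symm_apply_apply] at h3
  rw [← hle] at h4
  have := hdU ⟨h3, h4⟩
  rwa [mem_preimage, e.apply_symm_apply] at this

/-- the points of the space: a sequence `fin 0 < fin 1 < …` with supremum `top`, and two points
`bot b` below the points `mid q` -/
inductive S : Type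
  | fin (n : ℕ)
  | top
  | bot (b : Bool)
  | mid (q : ℕ)

open S

/-- the Scott topology of the poset `S` -/
instance : TopologicalSpace S where
  IsOpen O := (∀ n m, n ≤ m → fin n ∈ O → fin m ∈ O) ∧ (∀ n, fin n ∈ O → top ∈ O) ∧
    (top ∈ O → ∃ n, fin n ∈ O) ∧ ∀ b q, bot b ∈ O → mid q ∈ O
  isOpen_univ := ⟨fun _ _ _ _ => trivial, fun _ _ => trivial, fun _ => ⟨0, trivial⟩,
    fun _ _ _ => trivial⟩
  isOpen_inter := by
    rintro O O' ⟨h1, h2, h3, h4⟩ ⟨h1', h2', h3', h4'⟩
    refine ⟨fun n m hnm h => ⟨h1 n m hnm h.1, h1' n m hnm h.2⟩, fun n h => ⟨h2 n h.1, h2' n h.2⟩,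
      ?_, fun b q h => ⟨h4 b q h.1, h4' b q h.2⟩⟩
    intro h
    obtain ⟨n, hn⟩ := h3 h.1
    obtain ⟨m, hm⟩ := h3' h.2
    exact ⟨max n m, h1 n _ (le_max_left _ _) hn, h1' m _ (le_max_right _ _) hm⟩
  isOpen_sUnion := by
    intro T hT
    refine ⟨?_, ?_, ?_, ?_⟩
    · rintro n m hnm ⟨O, hO, h⟩
      exact ⟨O, hO, (hT O hO).1 n m hnm h⟩
    · rintro n ⟨O, hO, h⟩
      exact ⟨O, hO, (hT O hO).2.1 n h⟩
    · rintro ⟨O, hO, h⟩
      obtain ⟨n, hn⟩ := (hT O hO).2.2.1 h
      exact ⟨n, O, hO, hn⟩
    · rintro b q ⟨O, hO, h⟩
      exact ⟨O, hO, (hT O hO).2.2.2 b q h⟩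

theorem isOpen_iff {O : Set S} : IsOpen O ↔ (∀ n m, n ≤ m → fin n ∈ O → fin m ∈ O) ∧
    (∀ n, fin n ∈ O → top ∈ O) ∧ (top ∈ O → ∃ n, fin n ∈ O) ∧ ∀ b q, bot b ∈ O → mid q ∈ O :=
  Iff.rfl

/-- the order of `S` -/
def ord : S → S → Prop
  | fin n, fin m => n ≤ m
  | fin _, top => True
  | top, top => True
  | bot b, bot c => b = c
  | bot _, mid _ => True
  | mid p, mid q => p = q
  | _, _ => False

theorem isOpen_fin (n : ℕ) : IsOpen {x : S | ord (fin n) x} := by
  refine ⟨fun m k hmk h => le_trans h hmk, fun _ _ => trivial, fun _ => ⟨n, le_refl n⟩, ?_⟩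
  intro b q h
  exact h

theorem isOpen_mid (q : ℕ) : IsOpen ({mid q} : Set S) := by
  refine ⟨?_, ?_, ?_, ?_⟩
  · intro n m _ h
    cases h
  · intro n h
    cases h
  · intro h
    cases h
  · intro b q h
    cases h

theorem isOpen_bot (b : Bool) : IsOpen {x : S | ord (bot b) x} := by
  refine ⟨?_, ?_, ?_, ?_⟩
  · intro n m _ h
    exact h
  · intro n h
    exact h
  · intro h
    exact absurd h id
  · intro c q _
    trivial

theorem le_iff_ord (x y : S) : Le x y ↔ ord x y := by
  rw [le_iff_open]
  constructor
  · intro h
    match x, y with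
    | fin n, y => exact h _ (isOpen_fin n) (le_refl n)
    | bot b, y => exact h _ (isOpen_bot b) rfl
    | mid q, y =>
      have h1 := h _ (isOpen_mid q) rfl
      rw [mem_singleton_iff] at h1
      subst h1
      rfl
    | top, fin m =>
      have h1 := h _ (isOpen_fin (m + 1)) trivial
      exact absurd h1 (Nat.not_succ_le_self m)
    | top, top => trivial
    | top, bot b => exact h _ (isOpen_fin 0) trivial
    | top, mid q => exact h _ (isOpen_fin 0) trivial
  · intro h O hO hx
    obtain ⟨h1, h2, h3, h4⟩ := isOpen_iff.1 hO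
    match x, y with
    | fin n, fin m => exact h1 n m h hx
    | fin n, top => exact h2 n hx
    | top, top => exact hx
    | bot b, bot c =>
      have : b = c := h
      exact this ▸ hx
    | bot b, mid q => exact h4 b q hx
    | mid p, mid q =>
      have : p = q := h
      exact this ▸ hx

theorem strongDSpace_S : StrongDSpace S := by
  refine ⟨?_, ?_⟩
  · refine ⟨?_⟩
    intro x y hxy
    have h1 : ord x y := (le_iff_ord x y).1 (inseparable_iff_mem_closure.1 hxy).1
    have h2 : ord y x := (le_iff_ord y x).1 (inseparable_iff_mem_closure.1 hxy).2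
    match x, y with
    | fin n, fin m => rw [le_antisymm h1 h2]
    | top, top => rfl
    | bot b, bot c =>
      have : b = c := h1
      rw [this]
    | mid p, mid q =>
      have : p = q := h1
      rw [this]
  · intro D hD x U hU hDU
    by_cases hmax : ∃ m ∈ D, ∀ d ∈ D, Le d m
    · obtain ⟨m, hm, hmD⟩ := hmax
      refine ⟨m, hm, ?_⟩
      rintro y ⟨hy1, hy2⟩
      apply hDU
      refine ⟨mem_iInter₂.2 fun d hd => ?_, hy2⟩
      have h1 := hmD d hd
      have h2 : Le m y := hy1
      rw [le_iff_specializes] at h1 h2
      have h3 : Le d y := le_iff_specializes.2 (h2.trans h1)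
      exact h3
    · push Not at hmax
      have hfin : ∀ d ∈ D, ∃ n, d = fin n := by
        intro d hd
        obtain ⟨a, ha, had⟩ := hmax d hd
        obtain ⟨c, hc, hac, hdc⟩ := hD.2 a ha d hd
        rw [le_iff_ord] at hac hdc had
        match d, c with
        | fin n, _ => exact ⟨n, rfl⟩
        | top, top => exact absurd hac had
        | bot b, bot c =>
          have : b = c := hdc
          exact absurd (this ▸ hac) had
        | mid p, mid q =>
          have : p = q := hdc
          exact absurd (this ▸ hac) had
        | bot b, mid q =>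
          obtain ⟨a', ha', had'⟩ := hmax (mid q) hc
          obtain ⟨c', hc', hac', hdc'⟩ := hD.2 a' ha' (mid q) hc
          rw [le_iff_ord] at hac' hdc' had'
          match c' with
          | mid p =>
            have : q = p := hdc'
            exact absurd (this ▸ hac') had'
      have hunb : ∀ n, ∃ m, n ≤ m ∧ fin m ∈ D := by
        intro n
        induction n with
        | zero =>
          obtain ⟨d, hd⟩ := hD.1
          obtain ⟨m, rfl⟩ := hfin d hd
          exact ⟨m, Nat.zero_le m, hd⟩
        | succ n ih =>
          obtain ⟨m, hnm, hm⟩ := ih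
          obtain ⟨a, ha, ham⟩ := hmax (fin m) hm
          obtain ⟨k, rfl⟩ := hfin a ha
          rw [le_iff_ord] at ham
          have : ¬ k ≤ m := ham
          exact ⟨k, by omega, ha⟩
      obtain ⟨d₀, hd₀⟩ := hD.1
      by_cases hx : Le x top
      · have htop : top ∈ U := by
          apply hDU
          refine ⟨mem_iInter₂.2 fun d hd => ?_, hx⟩
          obtain ⟨n, rfl⟩ := hfin d hd
          have : Le (fin n) top := (le_iff_ord _ _).2 trivial
          exact this
        obtain ⟨h1, h2, h3, -⟩ := isOpen_iff.1 hU
        obtain ⟨n, hn⟩ := h3 htop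
        obtain ⟨m, hnm, hm⟩ := hunb n
        refine ⟨fin m, hm, ?_⟩
        rintro y ⟨hy, -⟩
        have hy' : Le (fin m) y := hy
        exact le_iff_open.1 hy' U hU (h1 n m hnm hn)
      · refine ⟨d₀, hd₀, ?_⟩
        obtain ⟨n, rfl⟩ := hfin d₀ hd₀
        rintro y ⟨hy1, hy2⟩
        exfalso
        apply hx
        have h1 : ord (fin n) y := (le_iff_ord _ _).1 hy1
        have h2 : Le x y := hy2
        match y with
        | top => exact h2
        | fin k =>
          have h3 : Le (fin k) top := (le_iff_ord _ _).2 trivial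
          rw [le_iff_specializes] at h2 h3 ⊢
          exact h3.trans h2

section Power

variable {I : Type v}

open Classical in
/-- a function with two values -/
noncomputable def two (V : Set I) (a b : S) : I → S := fun k => if k ∈ V then a else b

theorem two_of_mem {V : Set I} {a b : S} {k : I} (h : k ∈ V) : two V a b k = a := if_pos h

theorem two_of_notMem {V : Set I} {a b : S} {k : I} (h : k ∉ V) : two V a b k = b := if_neg h

theorem continuous_two [TopologicalSpace I] {V : Set I} (hV : IsClopen V) (a b : S) :
    Continuous (two V a b) := by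
  classical
  have : two V a b = V.piecewise (fun _ => a) (fun _ => b) := by
    funext k
    by_cases hk : k ∈ V
    · rw [two_of_mem hk, piecewise_eq_of_mem _ _ _ hk]
    · rw [two_of_notMem hk, piecewise_eq_of_notMem _ _ _ hk]
  rw [this]
  refine continuous_const.piecewise ?_ continuous_const
  intro x hx
  rw [hV.frontier_eq] at hx
  exact absurd hx (notMem_empty x)

/-- the open set in the power -/
def fU (i j : I) : Set (I → S) := {g | ∃ q : ℕ, ord (fin q) (g i) ∧ g j = mid q}

theorem isOpen_fU (i j : I) : IsOpen (fU i j) := by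
  have : fU i j = ⋃ q : ℕ, ((fun g : I → S => g i) ⁻¹' {x | ord (fin q) x}) ∩
      ((fun g : I → S => g j) ⁻¹' {mid q}) := by
    ext g
    simp [fU]
  rw [this]
  refine isOpen_iUnion fun q => IsOpen.inter ?_ ?_
  · exact (isOpen_fin q).preimage (continuous_apply i)
  · exact (isOpen_mid q).preimage (continuous_apply j)

theorem le_pi {F : Set (I → S)} {f g : F} : Le f g ↔ ∀ k, ord (f.1 k) (g.1 k) := by
  rw [le_iff_specializes, subtype_specializes_iff, specializes_pi]
  refine forall_congr' fun k => ?_
  rw [← le_iff_ord, le_iff_specializes]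

/-- a space of functions into `S` which contains enough functions with two values is not a strong
d-space -/
theorem not_strongDSpace_sub (F : Set (I → S)) {V : Set I} {i j : I} (hi : i ∈ V) (hj : j ∉ V)
    (hF : ∀ a b : S, two V a b ∈ F) : ¬ StrongDSpace F := by
  rintro ⟨-, h⟩
  let fD : ℕ → F := fun n => ⟨two V (fin n) (bot true), hF _ _⟩
  let fx : F := ⟨two V (fin 0) (bot false), hF _ _⟩
  have hmono : ∀ n m, n ≤ m → Le (fD n) (fD m) := by
    intro n m hnm
    rw [le_pi]
    intro k
    by_cases hk : k ∈ V
    · rw [show (fD n).1 k = fin n from two_of_mem hk, show (fD m).1 k = fin m from two_of_mem hk]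
      exact hnm
    · rw [show (fD n).1 k = bot true from two_of_notMem hk,
        show (fD m).1 k = bot true from two_of_notMem hk]
      rfl
  obtain ⟨d, ⟨n, rfl⟩, hd⟩ := h (range fD) (by
    refine ⟨⟨_, mem_range_self 0⟩, ?_⟩
    rintro _ ⟨n, rfl⟩ _ ⟨m, rfl⟩
    exact ⟨_, mem_range_self (max n m), hmono n _ (le_max_left _ _), hmono m _ (le_max_right _ _)⟩)
    fx (Subtype.val ⁻¹' fU i j) ((isOpen_fU i j).preimage continuous_subtype_val) (by
    rintro g ⟨hg1, hg2⟩
    have hg1' : ∀ n, Le (fD n) g := fun n => mem_iInter₂.1 hg1 _ (mem_range_self n)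
    have h1 : g.1 i = top := by
      have h2 : ∀ n, ord (fin n) (g.1 i) := by
        intro n
        have := le_pi.1 (hg1' n) i
        rwa [show (fD n).1 i = fin n from two_of_mem hi] at this
      match hgi : g.1 i with
      | top => rfl
      | fin m =>
        have h3 := h2 (m + 1)
        rw [hgi] at h3
        exact absurd h3 (Nat.not_succ_le_self m)
      | bot b =>
        have h3 := h2 0
        rw [hgi] at h3
        exact absurd h3 id
      | mid q =>
        have h3 := h2 0
        rw [hgi] at h3
        exact absurd h3 id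
    have h2 : ∃ q, g.1 j = mid q := by
      have h3 : ord (bot true) (g.1 j) := by
        have := le_pi.1 (hg1' 0) j
        rwa [show (fD 0).1 j = bot true from two_of_notMem hj] at this
      have h4 : ord (bot false) (g.1 j) := by
        have : ord (fx.1 j) (g.1 j) := le_pi.1 hg2 j
        rwa [show fx.1 j = bot false from two_of_notMem hj] at this
      match hgj : g.1 j with
      | mid q => exact ⟨q, rfl⟩
      | bot b =>
        rw [hgj] at h3 h4
        have h5 : true = b := h3
        have h6 : false = b := h4
        rw [← h6] at h5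
        cases h5
      | fin n =>
        rw [hgj] at h3
        exact absurd h3 id
      | top =>
        rw [hgj] at h3
        exact absurd h3 id
    obtain ⟨q, hq⟩ := h2
    exact ⟨q, by rw [h1]; trivial, hq⟩)
  have hg : (⟨two V (fin n) (mid (n + 1)), hF _ _⟩ : F) ∈ up (fD n) ∩ up fx := by
    constructor
    · have : Le (fD n) (⟨two V (fin n) (mid (n + 1)), hF _ _⟩ : F) := by
        rw [le_pi]
        intro k
        by_cases hk : k ∈ V
        · rw [show (fD n).1 k = fin n from two_of_mem hk]
          change ord (fin n) (two V (fin n) (mid (n + 1)) k)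
          rw [two_of_mem hk]
          exact le_refl n
        · rw [show (fD n).1 k = bot true from two_of_notMem hk]
          change ord (bot true) (two V (fin n) (mid (n + 1)) k)
          rw [two_of_notMem hk]
          trivial
      exact this
    · have : Le fx (⟨two V (fin n) (mid (n + 1)), hF _ _⟩ : F) := by
        rw [le_pi]
        intro k
        by_cases hk : k ∈ V
        · rw [show fx.1 k = fin 0 from two_of_mem hk]
          change ord (fin 0) (two V (fin n) (mid (n + 1)) k)
          rw [two_of_mem hk]
          exact Nat.zero_le n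
        · rw [show fx.1 k = bot false from two_of_notMem hk]
          change ord (bot false) (two V (fin n) (mid (n + 1)) k)
          rw [two_of_notMem hk]
          trivial
      exact this
  obtain ⟨q, hq1, hq2⟩ := hd hg
  change ord (fin q) (two V (fin n) (mid (n + 1)) i) at hq1
  change two V (fin n) (mid (n + 1)) j = mid q at hq2
  rw [two_of_mem hi] at hq1
  rw [two_of_notMem hj] at hq2
  have hq3 : n + 1 = q := by
    injection hq2
  have hq4 : q ≤ n := hq1
  omega

/-- no power of `S` with at least two factors is a strong d-space -/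
theorem not_strongDSpace_pi (I : Type v) [Nontrivial I] : ¬ StrongDSpace (I → S) := by
  obtain ⟨i, j, hij⟩ := exists_pair_ne I
  intro h
  exact not_strongDSpace_sub (I := I) univ (V := {i}) (i := i) (j := j) rfl hij.symm
    (fun _ _ => mem_univ _) (h.of_homeomorph (Homeomorph.Set.univ _).symm)

end Power

/-- the square of `S` is not a strong d-space -/
theorem not_strongDSpace_prod : ¬ StrongDSpace (S × S) := by
  intro h
  exact not_strongDSpace_pi (Fin 2) (h.of_homeomorph Homeomorph.finTwoArrow.symm)

/-- the set of all continuous maps `X → Y` with the topology of pointwise convergence, i.e. the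
subspace topology inherited from the product space `Y ^ X` -/
abbrev PointwiseMaps (X : Type u) (Y : Type v) [TopologicalSpace X] [TopologicalSpace Y] :
    Type (max u v) := {f : X → Y // Continuous f}

/-- if `X` has a nonempty proper clopen subset then the space of continuous maps from `X` to `S`
with the topology of pointwise convergence is not a strong d-space -/
theorem not_strongDSpace_maps (X : Type v) [TopologicalSpace X] {V : Set X} (hV : IsClopen V)
    (hne : V.Nonempty) (hne' : V ≠ univ) : ¬ StrongDSpace (PointwiseMaps X S) := by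
  obtain ⟨i, hi⟩ := hne
  obtain ⟨j, hj⟩ := (ne_univ_iff_exists_notMem _).1 hne'
  exact not_strongDSpace_sub {f : X → S | Continuous f} hi hj fun a b => continuous_two hV a b

end Pool.Agent.R812.StrongD
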